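import Pool.Agent.Lib.MP_629a14_nt.Lf.PairS
import Pool.Agent.Lib.MP_629a14_nt.Th.Point

/-! Pointwise evaluation of the major arcs. -/

set_option autoImplicit false

namespace Pool.Agent.Lib.MP_629a14_nt.Lf

open Finset Pool.Agent.Lib.MP_629a14_nt Pool.Agent.Lib.MP_629a14_nt.Th

private theorem Point_ev (ε' : ℝ) : ∃ N₀ : ℕ, ∀ N : ℕ, N₀ ≤ N →
    (ε' ^ 2)⁻¹ ≤ Real.exp ((Real.log N) ^ (3 / 4 : ℝ)) := by
  have hL : Filter.Tendsto (fun N : ℕ => Real.log (N : ℝ)) Filter.atTop Filter.atTop :=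
    Real.tendsto_log_atTop.comp tendsto_natCast_atTop_atTop
  have h4 : ∀ᶠ N : ℕ in Filter.atTop, (ε' ^ 2)⁻¹ ≤ Real.exp ((Real.log (N : ℝ)) ^ (3 / 4 : ℝ)) :=
    (Real.tendsto_exp_atTop.comp ((tendsto_rpow_atTop (by norm_num : (0 : ℝ) < 3 / 4)).comp hL)).eventually_ge_atTop _
  obtain ⟨N₀, h⟩ := Filter.eventually_atTop.1 h4
  exact ⟨N₀, fun N hN => h N hN⟩

open Classical in
/-- As `Th.point` (copy its proof): `pair_sum` with `E = η` (the error is `≤ C N (n/φ(n)) η + N/√P ≤ (ε/4) sing n · n` by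
`sing_low`, `n ≥ δN`, if `η` is small), then `MT_ch1` or `MT_exc` (with the hypothesis, `KK_le` and `sing_low` the difference
is at most `3 I0 τ C sing n`), `SG_tail`, `I0_asym` (with its `η`), `sing n ≥ 2 tw > 0` (`En.sing_ge`). -/
theorem point (ε δ : ℝ) (hε : 0 < ε) (hδ : 0 < δ) : ∃ τ η : ℝ, 0 < τ ∧ 0 < η ∧ ∃ N₀ : ℕ, ∀ N P : ℕ, N₀ ≤ N →
    Real.exp ((Real.log N) ^ (3 / 4 : ℝ)) ≤ P → P ^ 100 ≤ N →
    ∀ (e : CH) (D : CH → ℝ), e.2 ^ 2 = 1 → (e = ch1 ∨ (e ∈ prims P ∧ e ≠ ch1)) → (∀ x, 0 ≤ D x) →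
      (∀ x ∈ prims P, x ≠ ch1 → ∀ v : ℕ, N ≤ v * P ^ 5 → v ≤ N →
        ‖wnd (fun m => (aP P m : ℂ) * x.2 (m : ZMod x.1)) (N / P ^ 20) v‖ ≤ D x) →
      (∀ v : ℕ, N ≤ v * P ^ 5 → v ≤ N →
        ‖wnd (fun m => (aP P m : ℂ) - 1) (N / P ^ 20) v‖ ≤ D ch1) →
      Real.sqrt (D ch1) ≤ η →
      ∑ x ∈ (prims P).filter (fun x => x ≠ e ∧ x ≠ ch1), Real.sqrt (D x) ≤ η →
      ∀ n : ℕ, Even n → δ * N ≤ n → n ≤ N →
        (e = ch1 ∨ (e.1 : ℝ) * sgm (Nat.gcd e.1 n) / (e.1.totient : ℝ) ^ 2 ≤ τ) →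
        ‖RM P N (N / P ^ 20) n - ((En.sing n * n : ℝ) : ℂ)‖ ≤ ε * (En.sing n * n) := by
  obtain ⟨C₁, hC₁, N₁, hpair⟩ := Lf.pair_sum
  obtain ⟨C₂, hC₂, hKK⟩ := KK_le
  obtain ⟨c₃, hc₃, hlow⟩ := sing_low
  have htw := En.tw_pos
  obtain ⟨η₀, hη₀, N₂, hI0⟩ := I0_asym (min (ε / 4) 1) δ (lt_min (by positivity) one_pos) hδ
  obtain ⟨N₃, hSG⟩ := SG_tail (ε * En.tw / 4) (by positivity)
  obtain ⟨N₄, hev⟩ := Point_ev (ε * En.tw * δ / 4)
  -- the choice of `η`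
  obtain ⟨η, hη, hηη, hη1, hηC⟩ : ∃ η : ℝ, 0 < η ∧ η ^ 2 ≤ η₀ ∧ η ≤ 1 ∧ C₁ * η ≤ ε * δ * c₃ / 8 := by
    refine ⟨min (min η₀ 1) (ε * δ * c₃ / (8 * C₁)), by positivity, ?_, ?_, ?_⟩
    · have h1 : min (min η₀ 1) (ε * δ * c₃ / (8 * C₁)) ≤ η₀ := (min_le_left _ _).trans (min_le_left _ _)
      have h2 : min (min η₀ 1) (ε * δ * c₃ / (8 * C₁)) ≤ 1 := (min_le_left _ _).trans (min_le_right _ _)
      have h3 : 0 < min (min η₀ 1) (ε * δ * c₃ / (8 * C₁)) := by positivity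
      nlinarith
    · exact (min_le_left _ _).trans (min_le_right _ _)
    · have h1 : min (min η₀ 1) (ε * δ * c₃ / (8 * C₁)) ≤ ε * δ * c₃ / (8 * C₁) := min_le_right _ _
      have h2 := mul_le_mul_of_nonneg_left h1 (by linarith : 0 ≤ C₁)
      refine h2.trans (le_of_eq ?_)
      field_simp
  refine ⟨ε * c₃ / (24 * C₂), η, by positivity, hη, max (max N₁ N₂) (max (max N₃ N₄) 1), ?_⟩
  intro N P hN hP hP100 e D he2 hecase hD hw hw1 hDch hsum n heven hδn hnN hexc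
  have hN1 : N₁ ≤ N := (le_max_left _ _).trans ((le_max_left _ _).trans hN)
  have hN2 : N₂ ≤ N := (le_max_right _ _).trans ((le_max_left _ _).trans hN)
  have hN3 : N₃ ≤ N := (le_max_left _ _).trans ((le_max_left _ _).trans ((le_max_right _ _).trans hN))
  have hN4 : N₄ ≤ N := (le_max_right _ _).trans ((le_max_left _ _).trans ((le_max_right _ _).trans hN))
  have hNpos : 1 ≤ N := (le_max_right _ _).trans ((le_max_right _ _).trans hN)
  have hNr : (1 : ℝ) ≤ N := by exact_mod_cast hNpos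
  have hexp := hev N hN4
  have hn0 : (0 : ℝ) < n := lt_of_lt_of_le (by positivity) hδn
  have hn1 : 1 ≤ n := by exact_mod_cast (Nat.cast_pos.1 hn0)
  -- the first main term
  have hpr := hpair N P hN1 hP hP100 e D _ hD (fun x hx hx1 _ => hw x hx hx1) hsum hη1 n hn1 hnN
  have hPr : (0 : ℝ) < P := lt_of_lt_of_le (Real.exp_pos _) hP
  have hsq : (Real.sqrt P)⁻¹ ≤ ε * En.tw * δ / 4 := by
    have h0 : 0 < ε * En.tw * δ / 4 := by positivity
    rw [inv_le_comm₀ (Real.sqrt_pos.2 hPr) h0]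
    refine Real.le_sqrt_of_sq_le ?_
    rw [inv_pow]
    exact hexp.trans hP
  have hsing2 := En.sing_ge n
  have hsing0 : 0 < En.sing n := by linarith
  have hA : ‖RM P N (N / P ^ 20) n - MT P N (N / P ^ 20) e n‖ ≤ ε / 4 * (En.sing n * n) := by
    refine hpr.trans ?_
    have hl := hlow n hn1 heven
    rw [div_eq_mul_inv (N : ℝ)]
    have hq0 : 0 ≤ (n : ℝ) / n.totient := by positivity
    have h1 : C₁ * N * ((n : ℝ) / n.totient) * η ≤ ε / 8 * (En.sing n * n) := by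
      calc C₁ * N * ((n : ℝ) / n.totient) * η = (C₁ * η) * N * ((n : ℝ) / n.totient) := by ring
        _ ≤ (ε * δ * c₃ / 8) * N * ((n : ℝ) / n.totient) := by gcongr
        _ = ε / 8 * ((c₃ * ((n : ℝ) / n.totient)) * (δ * N)) := by ring
        _ ≤ ε / 8 * (En.sing n * n) := by gcongr
    have h2 : (N : ℝ) * (Real.sqrt P)⁻¹ ≤ N * (ε * En.tw * δ / 4) := by gcongr
    have h3 : ε / 8 * (2 * En.tw * (δ * N)) ≤ ε / 8 * (En.sing n * n) := by gcongr
    have h4 : (N : ℝ) * (ε * En.tw * δ / 4) = ε / 8 * (2 * En.tw * (δ * N)) := by ring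
    linarith
  -- the double sum
  have hDη : D ch1 ≤ η₀ := by
    have h1 : D ch1 = (Real.sqrt (D ch1)) ^ 2 := (Real.sq_sqrt (hD ch1)).symm
    rw [h1]
    exact (pow_le_pow_left₀ (Real.sqrt_nonneg _) hDch 2).trans hηη
  have hI := hI0 N P hN2 hP hP100 (fun v hv hvN => (hw1 v hv hvN).trans hDη) n hδn hnN
  have hI' := abs_le.1 hI
  have hmin1 : min (ε / 4) 1 ≤ ε / 4 := min_le_left _ _
  have hmin2 : min (ε / 4) (1 : ℝ) ≤ 1 := min_le_right _ _
  have hI2 : I0 P N (N / P ^ 20) n ≤ 2 * n := by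
    have : min (ε / 4) 1 * (n : ℝ) ≤ 1 * n := by gcongr
    linarith [hI'.2]
  have hInn : 0 ≤ I0 P N (N / P ^ 20) n := I0_nonneg P N _ n
  -- the exceptional term
  have hB : ‖MT P N (N / P ^ 20) e n - SG P n * I0 P N (N / P ^ 20) n‖ ≤ ε / 4 * (En.sing n * n) := by
    by_cases hch : e = ch1
    · subst hch
      rw [MT_ch1, sub_self, norm_zero]
      positivity
    · have heP : e ∈ prims P := (hecase.resolve_left hch).1
      have hτ := hexc.resolve_left hch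
      refine (MT_exc P N (N / P ^ 20) n e heP hch he2).trans ?_
      have hKn := hKK P n hn1
      have hK0 : 0 ≤ KK P n := sum_nonneg fun m _ =>
        div_nonneg (sum_nonneg fun _ _ => Nat.cast_nonneg _) (sq_nonneg _)
      have hl := hlow n hn1 heven
      have hτ0 : 0 ≤ (e.1 : ℝ) * sgm (Nat.gcd e.1 n) / (e.1.totient : ℝ) ^ 2 :=
        div_nonneg (mul_nonneg (Nat.cast_nonneg _) (sum_nonneg fun _ _ => Nat.cast_nonneg _)) (sq_nonneg _)
      have hK2 : KK P n ≤ C₂ * (En.sing n / c₃) := by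
        refine hKn.trans (mul_le_mul_of_nonneg_left ?_ (by linarith))
        rw [le_div_iff₀ hc₃, mul_comm]
        exact hl
      have hC₂0 : 0 < C₂ := by linarith
      calc 3 * I0 P N (N / P ^ 20) n * ((e.1 : ℝ) * sgm (Nat.gcd e.1 n) / (e.1.totient : ℝ) ^ 2) * KK P n
          ≤ 3 * (2 * n) * (ε * c₃ / (24 * C₂)) * (C₂ * (En.sing n / c₃)) := by gcongr
        _ = ε / 4 * (En.sing n * n) := by
            field_simp
            ring
  -- the singular series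
  have hCc : ‖(SG P n - (En.sing n : ℂ)) * (I0 P N (N / P ^ 20) n : ℂ)‖ ≤ ε / 4 * (En.sing n * n) := by
    rw [norm_mul, Complex.norm_real, Real.norm_of_nonneg hInn]
    have h1 := hSG N P n hN3 hP hn1 hnN heven
    have h2 : ‖SG P n - (En.sing n : ℂ)‖ * I0 P N (N / P ^ 20) n ≤ ε * En.tw / 4 * (2 * n) := by gcongr
    refine h2.trans ?_
    have h3 : ε / 4 * (2 * En.tw * n) ≤ ε / 4 * (En.sing n * n) := by gcongr
    refine le_trans (le_of_eq ?_) h3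
    ring
  have hDd : ‖(En.sing n : ℂ) * ((I0 P N (N / P ^ 20) n : ℂ) - n)‖ ≤ ε / 4 * (En.sing n * n) := by
    have h1 : ((I0 P N (N / P ^ 20) n : ℂ) - n) = ((I0 P N (N / P ^ 20) n - n : ℝ) : ℂ) := by push_cast; rfl
    rw [norm_mul, h1, Complex.norm_real, Complex.norm_real, Real.norm_of_nonneg hsing0.le, Real.norm_eq_abs]
    have h2 : En.sing n * |I0 P N (N / P ^ 20) n - n| ≤ En.sing n * (ε / 4 * n) := by
      refine mul_le_mul_of_nonneg_left (hI.trans ?_) hsing0.le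
      gcongr
    linarith
  have hfin : RM P N (N / P ^ 20) n - ((En.sing n * n : ℝ) : ℂ) =
      (RM P N (N / P ^ 20) n - MT P N (N / P ^ 20) e n) +
      (MT P N (N / P ^ 20) e n - SG P n * I0 P N (N / P ^ 20) n) +
      ((SG P n - (En.sing n : ℂ)) * (I0 P N (N / P ^ 20) n : ℂ)) +
      ((En.sing n : ℂ) * ((I0 P N (N / P ^ 20) n : ℂ) - n)) := by
    push_cast; ring
  rw [hfin]
  refine (norm_add_le _ _).trans ?_
  refine (add_le_add_left ((norm_add_le _ _).trans (add_le_add_left (norm_add_le _ _) _)) _).trans ?_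
  linarith

end Pool.Agent.Lib.MP_629a14_nt.Lf
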