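import Pool.Agent.Lib.MP_629a14_nt.Lf.EF
import Pool.Agent.Lib.MP_629a14_nt.Th.AAbd
import Pool.Agent.Lib.MP_629a14_nt.Th.Fin

/-! The Gaussian integral of the Taylor coefficients in terms of zeros. -/

set_option autoImplicit false

namespace Pool.Agent.Lib.MP_629a14_nt.Lf

open Finset MeasureTheory Pool.Agent.Lib.MP_629a14_nt.Th

private lemma GaussInt_gauss_int {b : ℝ} (hb : 0 < b) : Integrable (fun t : ℝ => Real.exp (-(b * t ^ 2))) := by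
  have := integrable_exp_neg_mul_sq hb
  simpa using this

private lemma GaussInt_gauss_aux (f : ℂ → ℂ) (a : ℕ → ℂ) (P k : ℕ) (C1 C2 C3 : ℝ) (hP : 2 ≤ P)
    (hC1 : 0 ≤ C1) (hC2 : 0 ≤ C2)
    (hEF : ∀ t : ℝ, ‖AA a k t‖ ≤
      (∑ ρ ∈ (ZF f (15 / 16) (|t| + 1)).filter (fun ρ => |ρ.im - t| ≤ 1 / 4),
        mul f ρ * ((1 / 16) / ‖ctr t - ρ‖) ^ (k + 1)) + C1 * (|t| + 3) * (1 / 2) ^ k)
    (hI0 : ∀ (ρ : ℂ), 15 / 16 ≤ ρ.re → ρ.re ≤ 1 →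
      ∫ t in (ρ.im - 1 / 4)..(ρ.im + 1 / 4), ((1 / 16) / ‖ctr t - ρ‖) ^ (k + 1) ≤
      C3 / Real.sqrt (k + 1) * ((1 / 16) / (17 / 16 - ρ.re)) ^ (k + 1))
    (hAA : ∀ t : ℝ, ‖AA a k t‖ ≤ C2 * (k + 1))
    (hmono : ∀ T T' : ℝ, T ≤ T' → ZF f (15 / 16) T ⊆ ZF f (15 / 16) T')
    (hre : ∀ (T : ℝ), ∀ ρ ∈ ZF f (15 / 16) T, 15 / 16 ≤ ρ.re ∧ ρ.re < 1) :
    ∫ t : ℝ, Real.exp (-(((P : ℝ) ^ 60)⁻¹ ^ 2 * t ^ 2 / 2)) * ‖AA a k t‖ ≤
      C3 / Real.sqrt (k + 1) *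
        (∑ ρ ∈ ZF f (15 / 16) ((P : ℝ) ^ 62), mul f ρ * ((1 / 16) / (17 / 16 - ρ.re)) ^ (k + 1)) +
      C1 * (P : ℝ) ^ 129 * (1 / 2) ^ k + 4 * C2 * (k + 1) * (P : ℝ) ^ 60 * Real.exp (-((P : ℝ) ^ 2 / 4)) := by
  have hP2 : (2 : ℝ) ≤ P := by exact_mod_cast hP
  have hP0 : (0 : ℝ) < P := by linarith
  set b : ℝ := ((P : ℝ) ^ 60)⁻¹ ^ 2 / 4 with hb
  have hb0 : 0 < b := by positivity
  have hF0 : ∀ (ρ : ℂ) (t : ℝ), 0 ≤ mul f ρ * ((1 / 16) / ‖ctr t - ρ‖) ^ (k + 1) := by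
    intro ρ t
    have h3 : 0 ≤ mul f ρ := by unfold mul; positivity
    positivity
  set S := ZF f (15 / 16) ((P : ℝ) ^ 62) with hS
  have hFc : ∀ ρ ∈ S, Continuous (fun t : ℝ => ((1 / 16) / ‖ctr t - ρ‖) ^ (k + 1)) := by
    intro ρ hρ
    have h1 := hre _ ρ hρ
    refine Continuous.pow (Continuous.div continuous_const ?_ ?_) _
    · refine Continuous.norm (Continuous.sub ?_ continuous_const)
      unfold ctr
      fun_prop
    · intro t h0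
      rw [norm_eq_zero] at h0
      have h2 := congrArg Complex.re h0
      unfold ctr at h2
      simp at h2
      norm_num at h2
      linarith
  set F : ℂ → ℝ → ℝ := fun ρ t => mul f ρ * ((1 / 16) / ‖ctr t - ρ‖) ^ (k + 1) with hF
  let g : ℝ → ℝ := fun t => (∑ ρ ∈ S, (Set.Icc (ρ.im - 1 / 4) (ρ.im + 1 / 4)).indicator (F ρ) t) +
    (Set.Icc (-((P : ℝ) ^ 61)) ((P : ℝ) ^ 61)).indicator (fun _ => C1 * ((P : ℝ) ^ 61 + 3) * (1 / 2) ^ k) t +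
    C2 * (k + 1) * Real.exp (-((P : ℝ) ^ 2 / 4)) * Real.exp (-(b * t ^ 2))
  have hi1 : ∀ ρ ∈ S, Integrable (fun t => (Set.Icc (ρ.im - 1 / 4) (ρ.im + 1 / 4)).indicator (F ρ) t) := by
    intro ρ hρ
    exact (integrable_indicator_iff measurableSet_Icc).2 ((hFc ρ hρ).const_mul _).integrableOn_Icc
  have hi2 : Integrable (fun t => (Set.Icc (-((P : ℝ) ^ 61)) ((P : ℝ) ^ 61)).indicator (fun _ => C1 * ((P : ℝ) ^ 61 + 3) * (1 / 2) ^ k) t) := by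
    exact (integrable_indicator_iff measurableSet_Icc).2 continuous_const.integrableOn_Icc
  have hi3 : Integrable (fun t : ℝ => C2 * (k + 1) * Real.exp (-((P : ℝ) ^ 2 / 4)) * Real.exp (-(b * t ^ 2))) :=
    (GaussInt_gauss_int hb0).const_mul _
  have hi12 : Integrable (fun t => (∑ ρ ∈ S, (Set.Icc (ρ.im - 1 / 4) (ρ.im + 1 / 4)).indicator (F ρ) t)) :=
    integrable_finsetSum _ hi1
  have hg : Integrable g := (hi12.add hi2).add hi3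
  have hle : ∀ t : ℝ, Real.exp (-(((P : ℝ) ^ 60)⁻¹ ^ 2 * t ^ 2 / 2)) * ‖AA a k t‖ ≤ g t := by
    intro t
    have e1 : 0 ≤ ∑ ρ ∈ S, (Set.Icc (ρ.im - 1 / 4) (ρ.im + 1 / 4)).indicator (F ρ) t :=
      Finset.sum_nonneg fun ρ hρ => Set.indicator_nonneg (fun _ _ => hF0 ρ _) _
    have e2 : 0 ≤ (Set.Icc (-((P : ℝ) ^ 61)) ((P : ℝ) ^ 61)).indicator
        (fun _ => C1 * ((P : ℝ) ^ 61 + 3) * (1 / 2) ^ k) t :=
      Set.indicator_nonneg (fun _ _ => by positivity) _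
    have e3 : 0 ≤ C2 * (k + 1) * Real.exp (-((P : ℝ) ^ 2 / 4)) * Real.exp (-(b * t ^ 2)) := by positivity
    by_cases ht : |t| ≤ (P : ℝ) ^ 61
    · have hexp : Real.exp (-(((P : ℝ) ^ 60)⁻¹ ^ 2 * t ^ 2 / 2)) ≤ 1 :=
        Real.exp_le_one_iff.2 (neg_nonpos.2 (by positivity))
      have h1 : Real.exp (-(((P : ℝ) ^ 60)⁻¹ ^ 2 * t ^ 2 / 2)) * ‖AA a k t‖ ≤ ‖AA a k t‖ :=
        mul_le_of_le_one_left (norm_nonneg _) hexp
      have h2 := hEF t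
      have h3 : (∑ ρ ∈ (ZF f (15 / 16) (|t| + 1)).filter (fun ρ => |ρ.im - t| ≤ 1 / 4),
          mul f ρ * ((1 / 16) / ‖ctr t - ρ‖) ^ (k + 1)) ≤
          ∑ ρ ∈ S, (Set.Icc (ρ.im - 1 / 4) (ρ.im + 1 / 4)).indicator (F ρ) t := by
        have hsub : (ZF f (15 / 16) (|t| + 1)).filter (fun ρ => |ρ.im - t| ≤ 1 / 4) ⊆ S := by
          intro ρ hρ
          rw [Finset.mem_filter] at hρ
          refine hmono _ _ ?_ hρ.1
          have : (P : ℝ) ^ 62 = P * (P : ℝ) ^ 61 := by ring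
          rw [this]
          have h61 : (1 : ℝ) ≤ (P : ℝ) ^ 61 := one_le_pow₀ (by linarith)
          nlinarith
        refine le_trans (le_of_eq ?_) (Finset.sum_le_sum_of_subset_of_nonneg hsub
          (fun ρ hρ _ => Set.indicator_nonneg (fun _ _ => hF0 ρ _) _))
        refine Finset.sum_congr rfl fun ρ hρ => ?_
        rw [Finset.mem_filter] at hρ
        rw [Set.indicator_of_mem]
        rw [Set.mem_Icc]
        have := abs_le.1 hρ.2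
        constructor <;> linarith [this.1, this.2]
      have h4 : C1 * (|t| + 3) * (1 / 2) ^ k ≤ (Set.Icc (-((P : ℝ) ^ 61)) ((P : ℝ) ^ 61)).indicator
          (fun _ => C1 * ((P : ℝ) ^ 61 + 3) * (1 / 2) ^ k) t := by
        rw [Set.indicator_of_mem (Set.mem_Icc.2 (abs_le.1 ht))]
        gcongr
      simp only [g]
      linarith
    · have h1 := hAA t
      have ht' : (P : ℝ) ^ 61 ≤ |t| := le_of_lt (not_le.1 ht)
      have h2 : Real.exp (-(((P : ℝ) ^ 60)⁻¹ ^ 2 * t ^ 2 / 2)) ≤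
          Real.exp (-((P : ℝ) ^ 2 / 4)) * Real.exp (-(b * t ^ 2)) := by
        rw [← Real.exp_add]
        apply Real.exp_le_exp.2
        have h3 : ((P : ℝ) ^ 61) ^ 2 ≤ t ^ 2 := by
          rw [← sq_abs t]
          exact pow_le_pow_left₀ (by positivity) ht' 2
        have h4 : (P : ℝ) ^ 2 / 4 ≤ b * t ^ 2 := by
          rw [hb]
          have h5 : (P : ℝ) ^ 2 = ((P : ℝ) ^ 60)⁻¹ ^ 2 * ((P : ℝ) ^ 61) ^ 2 := by
            field_simp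
          rw [h5]
          have h6 : 0 ≤ ((P : ℝ) ^ 60)⁻¹ ^ 2 := by positivity
          nlinarith [mul_le_mul_of_nonneg_left h3 h6]
        have h7 : ((P : ℝ) ^ 60)⁻¹ ^ 2 * t ^ 2 / 2 = 2 * (b * t ^ 2) := by rw [hb]; ring
        rw [h7]
        linarith
      have h8 : Real.exp (-(((P : ℝ) ^ 60)⁻¹ ^ 2 * t ^ 2 / 2)) * ‖AA a k t‖ ≤
          (Real.exp (-((P : ℝ) ^ 2 / 4)) * Real.exp (-(b * t ^ 2))) * (C2 * (k + 1)) := by
        gcongr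
      have h9 : (Real.exp (-((P : ℝ) ^ 2 / 4)) * Real.exp (-(b * t ^ 2))) * (C2 * (k + 1)) =
          C2 * (k + 1) * Real.exp (-((P : ℝ) ^ 2 / 4)) * Real.exp (-(b * t ^ 2)) := by ring
      simp only [g]
      linarith
  have hint : ∫ t : ℝ, Real.exp (-(((P : ℝ) ^ 60)⁻¹ ^ 2 * t ^ 2 / 2)) * ‖AA a k t‖ ≤ ∫ t, g t :=
    integral_mono_of_nonneg (Filter.Eventually.of_forall fun t => by positivity) hg
      (Filter.Eventually.of_forall hle)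
  refine hint.trans ?_
  have hI : ∫ t, g t = (∑ ρ ∈ S, mul f ρ *
        ∫ t in (ρ.im - 1 / 4)..(ρ.im + 1 / 4), ((1 / 16) / ‖ctr t - ρ‖) ^ (k + 1)) +
      2 * (P : ℝ) ^ 61 * (C1 * ((P : ℝ) ^ 61 + 3) * (1 / 2) ^ k) +
      C2 * (k + 1) * Real.exp (-((P : ℝ) ^ 2 / 4)) * Real.sqrt (Real.pi / b) := by
    have q1 : ∫ t, g t = (∫ t, ((∑ ρ ∈ S, (Set.Icc (ρ.im - 1 / 4) (ρ.im + 1 / 4)).indicator (F ρ) t) +
      (Set.Icc (-((P : ℝ) ^ 61)) ((P : ℝ) ^ 61)).indicator (fun _ => C1 * ((P : ℝ) ^ 61 + 3) * (1 / 2) ^ k) t)) +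
      ∫ t, C2 * (k + 1) * Real.exp (-((P : ℝ) ^ 2 / 4)) * Real.exp (-(b * t ^ 2)) :=
      integral_add (hi12.add hi2) hi3
    rw [q1, integral_add hi12 hi2, integral_finsetSum _ hi1, integral_const_mul]
    congr 1
    · congr 1
      · refine Finset.sum_congr rfl fun ρ _ => ?_
        rw [integral_indicator measurableSet_Icc, integral_Icc_eq_integral_Ioc,
          intervalIntegral.integral_of_le (by linarith), ← integral_const_mul]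
      · rw [integral_indicator measurableSet_Icc, setIntegral_const, smul_eq_mul, Measure.real,
          Real.volume_Icc]
        rw [ENNReal.toReal_ofReal (by nlinarith [pow_pos hP0 61])]
        ring
    · have : ∫ t : ℝ, Real.exp (-(b * t ^ 2)) = Real.sqrt (Real.pi / b) := by
        have := integral_gaussian b
        simpa using this
      rw [this]
  rw [hI]
  have hs1 : (∑ ρ ∈ S, mul f ρ *
        ∫ t in (ρ.im - 1 / 4)..(ρ.im + 1 / 4), ((1 / 16) / ‖ctr t - ρ‖) ^ (k + 1)) ≤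
      C3 / Real.sqrt (k + 1) * (∑ ρ ∈ S, mul f ρ * ((1 / 16) / (17 / 16 - ρ.re)) ^ (k + 1)) := by
    rw [Finset.mul_sum]
    refine Finset.sum_le_sum fun ρ hρ => ?_
    have h1 := hre _ ρ hρ
    have h2 := hI0 ρ h1.1 h1.2.le
    have h3 : 0 ≤ mul f ρ := by unfold mul; positivity
    calc mul f ρ * ∫ t in (ρ.im - 1 / 4)..(ρ.im + 1 / 4), ((1 / 16) / ‖ctr t - ρ‖) ^ (k + 1)
        ≤ mul f ρ * (C3 / Real.sqrt (k + 1) * ((1 / 16) / (17 / 16 - ρ.re)) ^ (k + 1)) :=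
          mul_le_mul_of_nonneg_left h2 h3
      _ = _ := by ring
  have hs2 : 2 * (P : ℝ) ^ 61 * (C1 * ((P : ℝ) ^ 61 + 3) * (1 / 2) ^ k) ≤
      C1 * (P : ℝ) ^ 129 * (1 / 2) ^ k := by
    have h3 : (P : ℝ) ^ 61 + 3 ≤ (P : ℝ) ^ 63 := by
      have h61 : (1 : ℝ) ≤ (P : ℝ) ^ 61 := one_le_pow₀ (by linarith)
      have : (P : ℝ) ^ 63 = P ^ 2 * (P : ℝ) ^ 61 := by ring
      rw [this]
      have h4 : (4 : ℝ) ≤ (P : ℝ) ^ 2 := by nlinarith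
      nlinarith
    have h4 : 2 * (P : ℝ) ^ 61 * ((P : ℝ) ^ 61 + 3) ≤ (P : ℝ) ^ 129 := by
      calc 2 * (P : ℝ) ^ 61 * ((P : ℝ) ^ 61 + 3) ≤ P * (P : ℝ) ^ 61 * (P : ℝ) ^ 63 := by gcongr
        _ = (P : ℝ) ^ 125 := by ring
        _ ≤ (P : ℝ) ^ 129 := pow_le_pow_right₀ (by linarith) (by norm_num)
    calc 2 * (P : ℝ) ^ 61 * (C1 * ((P : ℝ) ^ 61 + 3) * (1 / 2) ^ k)
        = C1 * (2 * (P : ℝ) ^ 61 * ((P : ℝ) ^ 61 + 3)) * (1 / 2) ^ k := by ring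
      _ ≤ C1 * (P : ℝ) ^ 129 * (1 / 2) ^ k := by gcongr
  have hs3 : Real.sqrt (Real.pi / b) ≤ 4 * (P : ℝ) ^ 60 := by
    rw [Real.sqrt_le_left (by positivity), hb]
    have h1 := Real.pi_lt_four
    have h2 : Real.pi / (((P : ℝ) ^ 60)⁻¹ ^ 2 / 4) = 4 * Real.pi * ((P : ℝ) ^ 60) ^ 2 := by
      field_simp
    rw [h2, mul_pow]
    have : 0 < ((P : ℝ) ^ 60) ^ 2 := by positivity
    nlinarith
  have hs4 : C2 * (k + 1) * Real.exp (-((P : ℝ) ^ 2 / 4)) * Real.sqrt (Real.pi / b) ≤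
      4 * C2 * (k + 1) * (P : ℝ) ^ 60 * Real.exp (-((P : ℝ) ^ 2 / 4)) := by
    calc C2 * (k + 1) * Real.exp (-((P : ℝ) ^ 2 / 4)) * Real.sqrt (Real.pi / b)
        ≤ C2 * (k + 1) * Real.exp (-((P : ℝ) ^ 2 / 4)) * (4 * (P : ℝ) ^ 60) := by gcongr
      _ = _ := by ring
  linarith

/-- As `Th.gauss_int_chi`, with `Lf.EF_chi` and `int_zero`. Split at `|t| ≤ T₀ = P^61`. For `|t| > T₀` use `AA_le` and
`∫_{|t|>T₀} exp(-θ²t²/2) dt ≤ 4 P^60 exp(-P²/4)` (`θ = P^{-60}`). For `|t| ≤ T₀` use `EF_chi` (the zeros there have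
`|Im ρ| ≤ P^61 + 2 ≤ P^62`) and integrate each zero over `|t - Im ρ| ≤ 1/4`. -/
theorem gauss_int_chi : ∃ C : ℝ, 1 ≤ C ∧ ∀ (P q k : ℕ) [NeZero q] (χ : DirichletCharacter ℂ q), χ ≠ 1 → 2 ≤ P →
    q ≤ P →
    ∫ t : ℝ, Real.exp (-(((P : ℝ) ^ 60)⁻¹ ^ 2 * t ^ 2 / 2)) *
      ‖AA (fun n => (ArithmeticFunction.vonMangoldt n : ℂ) * χ (n : ZMod q)) k t‖ ≤
      C / Real.sqrt (k + 1) *
        (∑ ρ ∈ ZF χ.LFunction (15 / 16) ((P : ℝ) ^ 62), mul χ.LFunction ρ * ((1 / 16) / (17 / 16 - ρ.re)) ^ (k + 1)) +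
      C * (P : ℝ) ^ 130 * (1 / 2) ^ k + C * (k + 1) * (P : ℝ) ^ 60 * Real.exp (-((P : ℝ) ^ 2 / 4)) := by
  obtain ⟨C1, hC1, h1⟩ := EF_chi
  obtain ⟨C2, hC2, h2⟩ := AA_le
  obtain ⟨C3, hC3, h3⟩ := int_zero
  refine ⟨C1 + 4 * C2 + C3, by linarith, fun P q k _ χ hχ hP hq => ?_⟩
  have hP2 : (2 : ℝ) ≤ P := by exact_mod_cast hP
  have hqP : (q : ℝ) ≤ P := by exact_mod_cast hq
  have hq0 : (0 : ℝ) ≤ q := by positivity
  have h3 := GaussInt_gauss_aux χ.LFunction (fun n => (ArithmeticFunction.vonMangoldt n : ℂ) * χ (n : ZMod q))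
    P k (C1 * q) C2 C3 hP (by positivity) (by linarith) (h1 q χ hχ · k) (h3 · k) (fun t => ?_) ?_ ?_
  · refine h3.trans ?_
    have h4 : C1 * q * (P : ℝ) ^ 129 * (1 / 2) ^ k ≤ (C1 + 4 * C2 + C3) * (P : ℝ) ^ 130 * (1 / 2) ^ k := by
      calc C1 * q * (P : ℝ) ^ 129 * (1 / 2) ^ k ≤ (C1 + 4 * C2 + C3) * P * (P : ℝ) ^ 129 * (1 / 2) ^ k := by
            gcongr
            linarith
        _ = _ := by ring
    have h5 : 4 * C2 * (k + 1) * (P : ℝ) ^ 60 * Real.exp (-((P : ℝ) ^ 2 / 4)) ≤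
        (C1 + 4 * C2 + C3) * (k + 1) * (P : ℝ) ^ 60 * Real.exp (-((P : ℝ) ^ 2 / 4)) := by
      gcongr
      linarith
    have h6 : C3 / Real.sqrt (k + 1) *
        (∑ ρ ∈ ZF χ.LFunction (15 / 16) ((P : ℝ) ^ 62), mul χ.LFunction ρ * ((1 / 16) / (17 / 16 - ρ.re)) ^ (k + 1)) ≤
        (C1 + 4 * C2 + C3) / Real.sqrt (k + 1) *
        (∑ ρ ∈ ZF χ.LFunction (15 / 16) ((P : ℝ) ^ 62), mul χ.LFunction ρ * ((1 / 16) / (17 / 16 - ρ.re)) ^ (k + 1)) := by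
      have h7 : 0 ≤ (∑ ρ ∈ ZF χ.LFunction (15 / 16) ((P : ℝ) ^ 62),
          mul χ.LFunction ρ * ((1 / 16) / (17 / 16 - ρ.re)) ^ (k + 1)) := by
        refine Finset.sum_nonneg fun ρ hρ => ?_
        rw [mem_ZF_chi q χ hχ] at hρ
        have h8 := re_lt_one_chi q χ hχ ρ hρ.1
        have h9 : 0 < 17 / 16 - ρ.re := by linarith
        have h10 : 0 ≤ mul χ.LFunction ρ := by unfold mul; positivity
        positivity
      gcongr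
      linarith
    linarith
  · refine h2 _ (fun n hn => ?_) k t
    have h6 : ‖χ (n : ZMod q)‖ ≤ 1 := DirichletCharacter.norm_le_one χ _
    have h7 : ArithmeticFunction.vonMangoldt n ≤ Real.log n := ArithmeticFunction.vonMangoldt_le_log
    have h8 : 0 ≤ ArithmeticFunction.vonMangoldt n := ArithmeticFunction.vonMangoldt_nonneg
    rw [norm_mul, Complex.norm_real, Real.norm_of_nonneg h8]
    nlinarith
  · intro T T' hT ρ hρ
    rw [mem_ZF_chi q χ hχ] at hρ ⊢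
    exact ⟨hρ.1, hρ.2.1, hρ.2.2.trans hT⟩
  · intro T ρ hρ
    rw [mem_ZF_chi q χ hχ] at hρ
    exact ⟨hρ.2.1, re_lt_one_chi q χ hχ ρ hρ.1⟩

theorem gauss_int_zt : ∃ C : ℝ, 1 ≤ C ∧ ∀ (P k : ℕ), 2 ≤ P →
    ∫ t : ℝ, Real.exp (-(((P : ℝ) ^ 60)⁻¹ ^ 2 * t ^ 2 / 2)) *
      ‖AA (fun n => (ArithmeticFunction.vonMangoldt n : ℂ) - 1) k t‖ ≤
      C / Real.sqrt (k + 1) *
        (∑ ρ ∈ ZF zt (15 / 16) ((P : ℝ) ^ 62), mul zt ρ * ((1 / 16) / (17 / 16 - ρ.re)) ^ (k + 1)) +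
      C * (P : ℝ) ^ 130 * (1 / 2) ^ k + C * (k + 1) * (P : ℝ) ^ 60 * Real.exp (-((P : ℝ) ^ 2 / 4)) := by
  obtain ⟨C1, hC1, h1⟩ := EF_zt
  obtain ⟨C2, hC2, h2⟩ := AA_le
  obtain ⟨C3, hC3, h3⟩ := int_zero
  refine ⟨C1 + 4 * C2 + C3, by linarith, fun P k hP => ?_⟩
  have hP2 : (2 : ℝ) ≤ P := by exact_mod_cast hP
  have h3 := GaussInt_gauss_aux zt (fun n => (ArithmeticFunction.vonMangoldt n : ℂ) - 1)
    P k C1 C2 C3 hP (by linarith) (by linarith) (h1 · k) (h3 · k) (fun t => ?_) ?_ ?_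
  · refine h3.trans ?_
    have h4 : C1 * (P : ℝ) ^ 129 * (1 / 2) ^ k ≤ (C1 + 4 * C2 + C3) * (P : ℝ) ^ 130 * (1 / 2) ^ k := by
      have : (P : ℝ) ^ 129 ≤ (P : ℝ) ^ 130 := pow_le_pow_right₀ (by linarith) (by norm_num)
      gcongr
      linarith
    have h5 : 4 * C2 * (k + 1) * (P : ℝ) ^ 60 * Real.exp (-((P : ℝ) ^ 2 / 4)) ≤
        (C1 + 4 * C2 + C3) * (k + 1) * (P : ℝ) ^ 60 * Real.exp (-((P : ℝ) ^ 2 / 4)) := by
      gcongr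
      linarith
    have h6 : C3 / Real.sqrt (k + 1) *
        (∑ ρ ∈ ZF zt (15 / 16) ((P : ℝ) ^ 62), mul zt ρ * ((1 / 16) / (17 / 16 - ρ.re)) ^ (k + 1)) ≤
        (C1 + 4 * C2 + C3) / Real.sqrt (k + 1) *
        (∑ ρ ∈ ZF zt (15 / 16) ((P : ℝ) ^ 62), mul zt ρ * ((1 / 16) / (17 / 16 - ρ.re)) ^ (k + 1)) := by
      have h7 : 0 ≤ (∑ ρ ∈ ZF zt (15 / 16) ((P : ℝ) ^ 62),
          mul zt ρ * ((1 / 16) / (17 / 16 - ρ.re)) ^ (k + 1)) := by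
        refine Finset.sum_nonneg fun ρ hρ => ?_
        rw [mem_ZF_zt] at hρ
        have h8 := re_lt_one_zt ρ hρ.1
        have h9 : 0 < 17 / 16 - ρ.re := by linarith
        have h10 : 0 ≤ mul zt ρ := by unfold mul; positivity
        positivity
      gcongr
      linarith
    linarith
  · refine h2 _ (fun n hn => ?_) k t
    have h7 : ArithmeticFunction.vonMangoldt n ≤ Real.log n := ArithmeticFunction.vonMangoldt_le_log
    have h8 : 0 ≤ ArithmeticFunction.vonMangoldt n := ArithmeticFunction.vonMangoldt_nonneg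
    refine (norm_sub_le _ _).trans ?_
    rw [Complex.norm_real, Real.norm_of_nonneg h8, norm_one]
    linarith
  · intro T T' hT ρ hρ
    rw [mem_ZF_zt] at hρ ⊢
    exact ⟨hρ.1, hρ.2.1, hρ.2.2.trans hT⟩
  · intro T ρ hρ
    rw [mem_ZF_zt] at hρ
    exact ⟨hρ.2.1, re_lt_one_zt ρ hρ.1⟩

end Pool.Agent.Lib.MP_629a14_nt.Lf
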