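import Pool.Agent.Lib.MP_629a14_nt.Lf.PkB
import Pool.Agent.Lib.MP_629a14_nt.Th.Window

/-! The window lemma without loss. -/

set_option autoImplicit false

namespace Pool.Agent.Lib.MP_629a14_nt.Lf

open Finset MeasureTheory Pool.Agent.Lib.MP_629a14_nt.Th


/-- the Gaussian density -/
private noncomputable def Window_g (θ z : ℝ) : ℝ :=
  Real.exp (-(z ^ 2 / (2 * θ ^ 2))) / (θ * Real.sqrt (2 * Real.pi))

private theorem Window_sqrt_pos : 0 < Real.sqrt (2 * Real.pi) :=
  Real.sqrt_pos.2 (by positivity)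

private theorem Window_g_nonneg {θ : ℝ} (hθ : 0 < θ) (z : ℝ) : 0 ≤ Window_g θ z := by
  unfold Window_g; positivity

private theorem Window_g_le {θ : ℝ} (hθ : 0 < θ) (z : ℝ) : Window_g θ z ≤ 1 / θ := by
  unfold Window_g
  have h1 : 1 ≤ Real.sqrt (2 * Real.pi) := by
    rw [Real.one_le_sqrt]
    have := Real.pi_gt_three
    linarith
  have h2 : Real.exp (-(z ^ 2 / (2 * θ ^ 2))) ≤ 1 := by
    rw [Real.exp_le_one_iff]
    have : 0 ≤ z ^ 2 / (2 * θ ^ 2) := by positivity
    linarith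
  rw [div_le_div_iff₀ (by positivity) hθ]
  nlinarith [mul_le_mul h2 h1 (by norm_num) (by norm_num)]

private theorem Window_g_eq (θ z : ℝ) :
    Window_g θ z = (θ * Real.sqrt (2 * Real.pi))⁻¹ * Real.exp (-(1 / (2 * θ ^ 2)) * z ^ 2) := by
  unfold Window_g
  rw [div_eq_inv_mul]
  congr 2
  ring

private theorem Window_g_integrable {θ : ℝ} (hθ : 0 < θ) : Integrable (Window_g θ) := by
  have h : Integrable (fun z : ℝ => (θ * Real.sqrt (2 * Real.pi))⁻¹ *
      Real.exp (-(1 / (2 * θ ^ 2)) * z ^ 2)) :=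
    (integrable_exp_neg_mul_sq (by positivity)).const_mul _
  exact h.congr (Filter.Eventually.of_forall fun z => (Window_g_eq θ z).symm)

private theorem Window_g_cont (θ : ℝ) : Continuous (Window_g θ) := by
  unfold Window_g
  fun_prop

private theorem Window_g_integral {θ : ℝ} (hθ : 0 < θ) : ∫ z : ℝ, Window_g θ z = 1 := by
  have h := integral_gaussian (1 / (2 * θ ^ 2))
  have h2 : ∫ z : ℝ, Window_g θ z =
      (θ * Real.sqrt (2 * Real.pi))⁻¹ * ∫ z : ℝ, Real.exp (-(1 / (2 * θ ^ 2)) * z ^ 2) := by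
    rw [← integral_const_mul]
    exact integral_congr_ae (Filter.Eventually.of_forall fun z => Window_g_eq θ z)
  rw [h2, h]
  have h3 : Real.pi / (1 / (2 * θ ^ 2)) = (2 * Real.pi) * θ ^ 2 := by field_simp
  rw [h3, Real.sqrt_mul (x := 2 * Real.pi) (by positivity) (θ ^ 2), Real.sqrt_sq hθ.le]
  have := Window_sqrt_pos
  field_simp

private theorem Window_g_abs {θ : ℝ} (hθ : 0 < θ) :
    Integrable (fun z : ℝ => |z| * Window_g θ z) ∧ ∫ z : ℝ, |z| * Window_g θ z ≤ θ := by
  have hb : (0 : ℝ) < 1 / (2 * θ ^ 2) := by positivity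
  have hi : Integrable (fun z : ℝ => z * Real.exp (-(1 / (2 * θ ^ 2)) * z ^ 2)) :=
    integrable_mul_exp_neg_mul_sq hb
  have hi2 : Integrable (fun z : ℝ => |z| * Window_g θ z) := by
    have h1 := (hi.norm.const_mul (θ * Real.sqrt (2 * Real.pi))⁻¹)
    refine h1.congr (Filter.Eventually.of_forall fun z => ?_)
    simp only
    rw [Window_g_eq, norm_mul, Real.norm_eq_abs, Real.norm_of_nonneg (Real.exp_pos _).le]
    ring
  refine ⟨hi2, ?_⟩
  have h2 : ∫ z : ℝ, |z| * Window_g θ z =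
      ∫ z : ℝ, (fun y : ℝ => y * Window_g θ y) |z| := by
    refine integral_congr_ae (Filter.Eventually.of_forall fun z => ?_)
    simp only
    unfold Window_g
    rw [sq_abs]
  have h2' : ∫ z : ℝ, (fun y : ℝ => y * Window_g θ y) |z| =
      2 * ∫ z in Set.Ioi (0 : ℝ), z * Window_g θ z :=
    integral_comp_abs (f := fun y : ℝ => y * Window_g θ y)
  rw [h2, h2']
  have h3 : ∫ z in Set.Ioi (0 : ℝ), z * Window_g θ z =
      (θ * Real.sqrt (2 * Real.pi))⁻¹ *
        ∫ z in Set.Ioi (0 : ℝ), z * Real.exp (-(1 / (2 * θ ^ 2)) * z ^ 2) := by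
    rw [← integral_const_mul]
    refine integral_congr_ae (Filter.Eventually.of_forall fun z => ?_)
    simp only
    rw [Window_g_eq]
    ring
  have h4 : ∫ z in Set.Ioi (0 : ℝ), z * Real.exp (-(1 / (2 * θ ^ 2)) * z ^ 2) = θ ^ 2 := by
    have h5 := integral_mul_cexp_neg_mul_sq (b := ((1 / (2 * θ ^ 2) : ℝ) : ℂ)) (by
      rw [Complex.ofReal_re]; exact hb)
    have h6 : ((∫ z in Set.Ioi (0 : ℝ), z * Real.exp (-(1 / (2 * θ ^ 2)) * z ^ 2) : ℝ) : ℂ) =
        ((θ ^ 2 : ℝ) : ℂ) := by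
      rw [← integral_complex_ofReal]
      rw [← h5.trans (?_ : _ = ((θ ^ 2 : ℝ) : ℂ))]
      · refine integral_congr_ae (Filter.Eventually.of_forall fun z => ?_)
        simp
      · have : (θ : ℂ) ≠ 0 := by exact_mod_cast hθ.ne'
        push_cast
        field_simp
    exact_mod_cast h6
  rw [h3, h4]
  have h7 : 2 ≤ Real.sqrt (2 * Real.pi) := by
    rw [Real.le_sqrt' (by norm_num)]
    have := Real.pi_gt_three
    linarith
  have h8 := Window_sqrt_pos
  have h9 : 2 * ((θ * Real.sqrt (2 * Real.pi))⁻¹ * θ ^ 2) = 2 * θ / Real.sqrt (2 * Real.pi) := by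
    field_simp
  rw [h9, div_le_iff₀ h8]
  nlinarith

private theorem Window_fourier {θ : ℝ} (hθ : 0 < θ) (z : ℝ) :
    ∫ t : ℝ, ((Real.exp (-(θ ^ 2 * t ^ 2 / 2)) : ℝ) : ℂ) * Complex.exp (t * z * Complex.I) =
      ((2 * Real.pi * Window_g θ z : ℝ) : ℂ) := by
  have hb : (0 : ℝ) < ((θ ^ 2 / 2 : ℝ) : ℂ).re := by
    rw [Complex.ofReal_re]; positivity
  have h := fourierIntegral_gaussian hb (z : ℂ)
  have e1 : ∀ t : ℝ, Complex.exp (Complex.I * z * t) *
      Complex.exp (-((θ ^ 2 / 2 : ℝ) : ℂ) * t ^ 2) =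
      ((Real.exp (-(θ ^ 2 * t ^ 2 / 2)) : ℝ) : ℂ) * Complex.exp (t * z * Complex.I) := by
    intro t
    rw [mul_comm, Complex.ofReal_exp]
    congr 2
    · push_cast
      ring
    · ring
  simp only [e1] at h
  rw [h]
  have e2 : ((Real.pi : ℂ) / ((θ ^ 2 / 2 : ℝ) : ℂ)) ^ (1 / 2 : ℂ) =
      ((Real.sqrt (2 * Real.pi) / θ : ℝ) : ℂ) := by
    have hθ0 : (θ : ℂ) ≠ 0 := by exact_mod_cast hθ.ne'
    have h3 : ((Real.pi : ℂ) / ((θ ^ 2 / 2 : ℝ) : ℂ)) = ((2 * Real.pi / θ ^ 2 : ℝ) : ℂ) := by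
      push_cast
      field_simp
    have h4 : Real.sqrt (2 * Real.pi) / θ = (2 * Real.pi / θ ^ 2) ^ (1 / 2 : ℝ) := by
      rw [← Real.sqrt_eq_rpow, Real.sqrt_div (by positivity), Real.sqrt_sq hθ.le]
    rw [h3, h4, Complex.ofReal_cpow (by positivity)]
    push_cast
    rfl
  have e3 : Complex.exp (-(z : ℂ) ^ 2 / (4 * ((θ ^ 2 / 2 : ℝ) : ℂ))) =
      ((Real.exp (-(z ^ 2 / (2 * θ ^ 2))) : ℝ) : ℂ) := by
    rw [Complex.ofReal_exp]
    congr 1
    have hθ0 : (θ : ℂ) ≠ 0 := by exact_mod_cast hθ.ne'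
    push_cast
    field_simp
    ring
  rw [e2, e3, ← Complex.ofReal_mul]
  congr 1
  unfold Window_g
  have h8 := Window_sqrt_pos
  have h9 : Real.sqrt (2 * Real.pi) * Real.sqrt (2 * Real.pi) = 2 * Real.pi :=
    Real.mul_self_sqrt (by positivity)
  field_simp
  rw [sq, h9]


/-- convolution of a Lipschitz function with the Gaussian -/
private theorem Window_conv {θ : ℝ} (hθ : 0 < θ) (ψ : ℝ → ℝ) (hc : Continuous ψ) (L : ℝ)
    (hL : ∀ x y : ℝ, |ψ x - ψ y| ≤ L * |x - y|) (M : ℝ) (hM : ∀ x, |ψ x| ≤ M) (x : ℝ) :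
    |ψ x - ∫ y : ℝ, ψ y * Window_g θ (y - x)| ≤ L * θ := by
  have hg : Integrable (fun y : ℝ => Window_g θ (y - x)) := (Window_g_integrable hθ).comp_sub_right x
  have hg1 : ∫ y : ℝ, Window_g θ (y - x) = 1 := by
    rw [integral_sub_right_eq_self (Window_g θ) x]
    exact Window_g_integral hθ
  obtain ⟨ha, ha2⟩ := Window_g_abs hθ
  have hga : Integrable (fun y : ℝ => |y - x| * Window_g θ (y - x)) := ha.comp_sub_right x
  have hga1 : ∫ y : ℝ, |y - x| * Window_g θ (y - x) ≤ θ := by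
    rw [integral_sub_right_eq_self (fun z => |z| * Window_g θ z) x]
    exact ha2
  have hψg : Integrable (fun y : ℝ => ψ y * Window_g θ (y - x)) := by
    refine (hg.const_mul M).mono' ?_ ?_
    · exact (hc.mul ((Window_g_cont θ).comp (continuous_id.sub continuous_const))).aestronglyMeasurable
    · refine Filter.Eventually.of_forall fun y => ?_
      rw [norm_mul, Real.norm_eq_abs, Real.norm_of_nonneg (Window_g_nonneg hθ _)]
      exact mul_le_mul_of_nonneg_right (hM y) (Window_g_nonneg hθ _)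
  have hL0 : 0 ≤ L := by
    have := (abs_nonneg _).trans (hL 1 0)
    simpa using this
  have h1 : ψ x - ∫ y : ℝ, ψ y * Window_g θ (y - x) =
      ∫ y : ℝ, (ψ x - ψ y) * Window_g θ (y - x) := by
    have h2 : ∫ y : ℝ, (ψ x - ψ y) * Window_g θ (y - x) =
        ∫ y : ℝ, (ψ x * Window_g θ (y - x) - ψ y * Window_g θ (y - x)) := by
      refine integral_congr_ae (Filter.Eventually.of_forall fun y => ?_)
      simp only
      ring
    rw [h2, integral_sub (hg.const_mul _) hψg, integral_const_mul, hg1, mul_one]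
  rw [h1, ← Real.norm_eq_abs]
  refine (norm_integral_le_integral_norm _).trans ?_
  have h3 : ∫ y : ℝ, ‖(ψ x - ψ y) * Window_g θ (y - x)‖ ≤
      ∫ y : ℝ, L * (|y - x| * Window_g θ (y - x)) := by
    refine integral_mono_of_nonneg (Filter.Eventually.of_forall fun y => norm_nonneg _)
      (hga.const_mul L) (Filter.Eventually.of_forall fun y => ?_)
    simp only
    rw [norm_mul, Real.norm_eq_abs, Real.norm_of_nonneg (Window_g_nonneg hθ _), ← mul_assoc]
    refine mul_le_mul_of_nonneg_right ?_ (Window_g_nonneg hθ _)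
    rw [abs_sub_comm y x]
    exact hL x y
  refine h3.trans ?_
  rw [integral_const_mul]
  exact mul_le_mul_of_nonneg_left hga1 hL0

/-- the smoothed series -/
private theorem Window_B {θ : ℝ} (hθ : 0 < θ) (a : ℕ → ℂ)
    (ha : ∀ n : ℕ, 1 ≤ n → ‖a n‖ ≤ Real.log n + 1) (k : ℕ) (y : ℝ) :
    ‖∑' m : ℕ, (a m * ((Pk k (Real.log m) / m : ℝ) : ℂ)) * ((Window_g θ (y - Real.log m) : ℝ) : ℂ)‖ ≤
      ∫ t : ℝ, Real.exp (-(θ ^ 2 * t ^ 2 / 2)) * ‖AA a k t‖ := by
  obtain ⟨c, hcdef⟩ : ∃ c : ℕ → ℂ, c = fun m => a m * ((Pk k (Real.log m) / m : ℝ) : ℂ) := ⟨_, rfl⟩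
  suffices hmain : ‖∑' m : ℕ, c m * ((Window_g θ (y - Real.log m) : ℝ) : ℂ)‖ ≤
      ∫ t : ℝ, Real.exp (-(θ ^ 2 * t ^ 2 / 2)) * ‖AA a k t‖ by
    rw [hcdef] at hmain
    exact hmain
  have hcn : ∀ m : ℕ, ‖c m‖ = ‖a m‖ * (Pk k (Real.log m) / m) := by
    intro m
    rw [hcdef]
    simp only
    rw [norm_mul, Complex.norm_real, Real.norm_eq_abs]
    rcases Nat.eq_zero_or_pos m with h | h
    · subst h; simp
    · rcases Nat.lt_or_ge 1 m with h1 | h1
      · have hlog : 0 < Real.log m := Real.log_pos (by exact_mod_cast h1)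
        rw [abs_of_nonneg]
        exact div_nonneg (Pk_pos k _ hlog).le (Nat.cast_nonneg m)
      · have : m = 1 := by omega
        subst this
        rw [abs_of_nonneg]
        simp only [Nat.cast_one, Real.log_one, div_one]
        unfold Pk
        positivity
  have hcs : Summable (fun m => ‖c m‖) := by
    simp_rw [hcn]
    exact AA_summable a ha k
  have hE : Integrable (fun t : ℝ => Real.exp (-(θ ^ 2 * t ^ 2 / 2))) := by
    have h := integrable_exp_neg_mul_sq (b := θ ^ 2 / 2) (by positivity)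
    refine h.congr (Filter.Eventually.of_forall fun t => ?_)
    simp only
    congr 1
    ring
  set F : ℕ → ℝ → ℂ := fun m t => c m * (((Real.exp (-(θ ^ 2 * t ^ 2 / 2)) : ℝ) : ℂ) *
    Complex.exp (t * ((y - Real.log m : ℝ) : ℂ) * Complex.I)) with hF
  have hexp1 : ∀ (t x : ℝ), ‖Complex.exp (t * (x : ℂ) * Complex.I)‖ = 1 := by
    intro t x
    rw [← Complex.ofReal_mul, Complex.norm_exp_ofReal_mul_I]
  have hFn : ∀ m t, ‖F m t‖ = ‖c m‖ * Real.exp (-(θ ^ 2 * t ^ 2 / 2)) := by
    intro m t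
    rw [show F m t = c m * (((Real.exp (-(θ ^ 2 * t ^ 2 / 2)) : ℝ) : ℂ) *
      Complex.exp (t * ((y - Real.log m : ℝ) : ℂ) * Complex.I)) from rfl]
    rw [norm_mul, norm_mul, hexp1, mul_one, Complex.norm_real, Real.norm_of_nonneg (Real.exp_pos _).le]
  have hFi : ∀ m, Integrable (F m) := by
    intro m
    refine (hE.const_mul ‖c m‖).mono' ?_ (Filter.Eventually.of_forall fun t => (hFn m t).le)
    exact Continuous.aestronglyMeasurable (by rw [hF]; fun_prop)
  have hFs : Summable fun m => ∫ t : ℝ, ‖F m t‖ := by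
    simp_rw [hFn, integral_const_mul]
    exact hcs.mul_right _
  have h1 := hasSum_integral_of_summable_integral_norm hFi hFs
  have h2 : ∀ m, ∫ t : ℝ, F m t = c m * ((2 * Real.pi * Window_g θ (y - Real.log m) : ℝ) : ℂ) := by
    intro m
    rw [show F m = fun t => c m * (((Real.exp (-(θ ^ 2 * t ^ 2 / 2)) : ℝ) : ℂ) *
      Complex.exp (t * ((y - Real.log m : ℝ) : ℂ) * Complex.I)) from rfl]
    rw [integral_const_mul, Window_fourier hθ]
  have h3 : ∀ t : ℝ, ∑' m, F m t = ((Real.exp (-(θ ^ 2 * t ^ 2 / 2)) : ℝ) : ℂ) *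
      Complex.exp (t * (y : ℂ) * Complex.I) * AA a k t := by
    intro t
    rw [AA_eq, ← tsum_mul_left]
    refine tsum_congr fun m => ?_
    rw [hF, hcdef]
    simp only
    have : Complex.exp (t * ((y - Real.log m : ℝ) : ℂ) * Complex.I) =
        Complex.exp (t * (y : ℂ) * Complex.I) * Complex.exp (-(t * Real.log m * Complex.I)) := by
      rw [← Complex.exp_add]
      congr 1
      push_cast
      ring
    rw [this]
    ring
  have h4 : (2 * Real.pi : ℂ) * ∑' m, c m * ((Window_g θ (y - Real.log m) : ℝ) : ℂ) =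
      ∫ t : ℝ, ((Real.exp (-(θ ^ 2 * t ^ 2 / 2)) : ℝ) : ℂ) *
      Complex.exp (t * (y : ℂ) * Complex.I) * AA a k t := by
    rw [← tsum_mul_left]
    have h5 := h1.tsum_eq
    simp_rw [h3] at h5
    rw [← h5]
    refine tsum_congr fun m => ?_
    rw [h2]
    push_cast
    ring
  have h5 : ‖∫ t : ℝ, ((Real.exp (-(θ ^ 2 * t ^ 2 / 2)) : ℝ) : ℂ) *
      Complex.exp (t * (y : ℂ) * Complex.I) * AA a k t‖ ≤
      ∫ t : ℝ, Real.exp (-(θ ^ 2 * t ^ 2 / 2)) * ‖AA a k t‖ := by
    refine (norm_integral_le_integral_norm _).trans (le_of_eq ?_)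
    refine integral_congr_ae (Filter.Eventually.of_forall fun t => ?_)
    simp only
    rw [norm_mul, norm_mul, hexp1, mul_one, Complex.norm_real, Real.norm_of_nonneg (Real.exp_pos _).le]
  rw [← h4, norm_mul] at h5
  have h6 : 1 ≤ ‖(2 * Real.pi : ℂ)‖ := by
    rw [norm_mul, Complex.norm_real, Real.norm_of_nonneg Real.pi_pos.le]
    have := Real.pi_gt_three
    simp
    linarith
  calc ‖∑' m, c m * ((Window_g θ (y - Real.log m) : ℝ) : ℂ)‖
      ≤ ‖(2 * Real.pi : ℂ)‖ * ‖∑' m, c m * ((Window_g θ (y - Real.log m) : ℝ) : ℂ)‖ :=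
        le_mul_of_one_le_left (norm_nonneg _) h6
    _ ≤ _ := h5

private theorem Window_fej_nonneg (H : ℕ) (x : ℝ) : 0 ≤ fej H x := by
  unfold fej
  positivity

private theorem Window_fej_le {H : ℕ} (hH : 1 ≤ H) (x : ℝ) : fej H x ≤ 1 / H := by
  have hH0 : (0 : ℝ) < H := by exact_mod_cast hH
  unfold fej
  rw [div_le_div_iff₀ (by positivity) hH0]
  have h1 : max 0 ((H : ℝ) - |x|) ≤ H := max_le hH0.le (by linarith [abs_nonneg x])
  nlinarith

private theorem Window_fej_lip {H : ℕ} (hH : 1 ≤ H) (x y : ℝ) :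
    |fej H x - fej H y| ≤ |x - y| / (H : ℝ) ^ 2 := by
  have hH0 : (0 : ℝ) < H := by exact_mod_cast hH
  unfold fej
  rw [← sub_div, abs_div, abs_of_pos (by positivity : (0 : ℝ) < (H : ℝ) ^ 2)]
  refine div_le_div_of_nonneg_right ?_ (by positivity)
  have h1 := abs_max_sub_max_le_max 0 ((H : ℝ) - |x|) 0 ((H : ℝ) - |y|)
  refine h1.trans (max_le (by simp) ?_)
  have h2 : (H : ℝ) - |x| - (H - |y|) = |y| - |x| := by ring
  rw [h2, abs_sub_comm x y]
  exact abs_abs_sub_abs_le_abs_sub y x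

private theorem Window_fej_supp {H : ℕ} {x : ℝ} (h : fej H x ≠ 0) : |x| < H := by
  by_contra hc
  push Not at hc
  apply h
  unfold fej
  rw [max_eq_left (by linarith)]
  simp

/-- a function which is Lipschitz on an interval and vanishes outside its interior is Lipschitz -/
private theorem Window_extend (f : ℝ → ℝ) (p q L : ℝ) (hpq : p ≤ q) (hL : 0 ≤ L)
    (h1 : ∀ x y, p ≤ x → x ≤ q → p ≤ y → y ≤ q → |f x - f y| ≤ L * |x - y|)
    (h2 : ∀ x, x ≤ p → f x = 0) (h3 : ∀ x, q ≤ x → f x = 0) (x y : ℝ) :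
    |f x - f y| ≤ L * |x - y| := by
  have key : ∀ x, f x = f (max p (min x q)) := by
    intro x
    rcases le_total x p with h | h
    · rw [min_eq_left (h.trans hpq), max_eq_left h, h2 x h, h2 p le_rfl]
    · rcases le_total x q with h' | h'
      · rw [min_eq_left h', max_eq_right h]
      · rw [min_eq_right h', max_eq_right hpq, h3 x h', h3 q le_rfl]
  rw [key x, key y]
  refine (h1 _ _ (le_max_left _ _) (max_le hpq (min_le_right _ _)) (le_max_left _ _)
    (max_le hpq (min_le_right _ _))).trans ?_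
  refine mul_le_mul_of_nonneg_left ?_ hL
  refine (abs_max_sub_max_le_max _ _ _ _).trans (max_le (by simp) ?_)
  exact (abs_min_sub_min_le_max _ _ _ _).trans (max_le le_rfl (by simp))

/-- the test function -/
private noncomputable def Window_psi (k H v : ℕ) (y : ℝ) : ℝ :=
  fej H (Real.exp y - v) * (Real.exp y / Pk k y)

/-- properties of the test function -/
private theorem Window_psi_prop : ∃ C : ℝ, 1 ≤ C ∧ ∀ (v H k : ℕ), 1 ≤ H → 4 * H ≤ v →
    32 ≤ Real.log v → (k : ℝ) ≤ Real.log v / 16 → Real.log v / 16 < k + 1 →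
    (∀ x y : ℝ, |Window_psi k H v x - Window_psi k H v y| ≤
      (C * ((v : ℝ) / H) ^ 2 * Real.sqrt (k + 1)) * |x - y|) ∧
    (∀ x : ℝ, |Window_psi k H v x| ≤ C * ((v : ℝ) / H) * Real.sqrt (k + 1)) ∧
    ∃ α β : ℝ, α ≤ β ∧ β - α ≤ 3 * ((H : ℝ) / v) ∧
      ∀ x : ℝ, x ∉ Set.Icc α β → Window_psi k H v x = 0 := by
  obtain ⟨C₀, hC₀, hP⟩ := Lf.Pk_lower
  refine ⟨15 * C₀, by linarith, ?_⟩
  intro v H k hH hv hlog hk hk1
  have hH0 : (1 : ℝ) ≤ H := by exact_mod_cast hH
  have hHp : (0 : ℝ) < H := by linarith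
  have hv0 : 4 * (H : ℝ) ≤ v := by exact_mod_cast hv
  have hvp : (0 : ℝ) < v := by linarith
  have hk0 : (0 : ℝ) ≤ k := Nat.cast_nonneg k
  -- bounds on the interval
  have hPk : ∀ y, |y - Real.log v| ≤ 1 → 0 < Pk k y ∧ 1 / Pk k y ≤ C₀ * Real.sqrt (k + 1) := by
    intro y hy
    have h1 := hP k (Real.log v) y hlog hk hk1 hy
    have h2 : 0 < Pk k y := by
      rw [abs_le] at hy
      exact Pk_pos k y (by linarith [hy.1])
    refine ⟨h2, ?_⟩
    rw [div_le_iff₀ h2]
    exact h1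
  have hexp : ∀ y, |y - Real.log v| ≤ 1 → Real.exp y ≤ 3 * v := by
    intro y hy
    rw [abs_le] at hy
    have h1 : Real.exp y = Real.exp (y - Real.log v) * v := by
      rw [Real.exp_sub, Real.exp_log hvp]
      field_simp
    rw [h1]
    have h2 : Real.exp (y - Real.log v) ≤ 3 := by
      have h3 : Real.exp (y - Real.log v) ≤ Real.exp 1 := Real.exp_le_exp.2 hy.2
      have h4 := Real.exp_one_lt_d9
      linarith
    nlinarith
  -- the support
  have hsupp : ∀ y, fej H (Real.exp y - v) ≠ 0 → v - H < Real.exp y ∧ Real.exp y < v + H := by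
    intro y hy
    have h1 := Window_fej_supp hy
    rw [abs_lt] at h1
    constructor <;> linarith [h1.1, h1.2]
  have hlow : ∀ y, y ≤ Real.log v - 1 → fej H (Real.exp y - v) = 0 := by
    intro y hy
    by_contra hc
    have h1 := (hsupp y hc).1
    have h2 : Real.exp y ≤ Real.exp (-1) * v := by
      have h3 : Real.exp y ≤ Real.exp (Real.log v - 1) := Real.exp_le_exp.2 hy
      have h4 : Real.exp (Real.log v - 1) = Real.exp (-1) * v := by
        rw [sub_eq_add_neg, Real.exp_add, Real.exp_log hvp]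
        ring
      rw [h4] at h3
      exact h3
    have h5 : Real.exp (-1) ≤ 1 / 2 := by
      rw [Real.exp_neg, ← one_div]
      apply one_div_le_one_div_of_le (by norm_num)
      have := Real.exp_one_gt_d9
      linarith
    nlinarith
  have hhigh : ∀ y, Real.log v + 1 ≤ y → fej H (Real.exp y - v) = 0 := by
    intro y hy
    by_contra hc
    have h1 := (hsupp y hc).2
    have h2 : 2 * v ≤ Real.exp y := by
      have h3 : Real.exp (Real.log v + 1) ≤ Real.exp y := Real.exp_le_exp.2 hy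
      rw [Real.exp_add, Real.exp_log hvp] at h3
      have := Real.exp_one_gt_d9
      nlinarith
    linarith
  -- the second factor
  set D : ℝ := 3 * v * (C₀ * Real.sqrt (k + 1)) with hD
  have hD0 : 0 ≤ D := by positivity
  have hh : ∀ y, |y - Real.log v| ≤ 1 → |Real.exp y / Pk k y| ≤ D := by
    intro y hy
    obtain ⟨h1, h2⟩ := hPk y hy
    rw [abs_of_nonneg (by positivity)]
    have h3 : Real.exp y / Pk k y = Real.exp y * (1 / Pk k y) := by ring
    rw [h3]
    exact mul_le_mul (hexp y hy) h2 (by positivity) (by positivity)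
  have hhd : ∀ y, |y - Real.log v| ≤ 1 → HasDerivAt (fun y => Real.exp y / Pk k y)
      ((17 / 16 - k / y) * (Real.exp y / Pk k y)) y := by
    intro y hy
    obtain ⟨h1, h2⟩ := hPk y hy
    have hy0 : 0 < y := by
      rw [abs_le] at hy
      linarith [hy.1]
    refine ((Real.hasDerivAt_exp y).div (Pk_hasDeriv k y hy0) h1.ne').congr_deriv ?_
    field_simp
    ring
  set J : Set ℝ := Set.Icc (Real.log v - 1) (Real.log v + 1) with hJ
  have hJm : ∀ y, y ∈ J → |y - Real.log v| ≤ 1 := by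
    intro y hy
    rw [abs_le]
    constructor <;> linarith [hy.1, hy.2]
  have hhl : ∀ x y, x ∈ J → y ∈ J → |Real.exp x / Pk k x - Real.exp y / Pk k y| ≤
      (2 * D) * |x - y| := by
    intro x y hx hy
    have h := Convex.norm_image_sub_le_of_norm_hasDerivWithin_le
      (f := fun y => Real.exp y / Pk k y) (f' := fun y => (17 / 16 - k / y) * (Real.exp y / Pk k y))
      (s := J) (C := 2 * D) (fun z hz => (hhd z (hJm z hz)).hasDerivWithinAt) (by
        intro z hz
        rw [norm_mul, Real.norm_eq_abs, Real.norm_eq_abs]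
        refine mul_le_mul ?_ (hh z (hJm z hz)) (abs_nonneg _) (by norm_num)
        have hz0 : 31 ≤ z := by linarith [hz.1]
        have h1 : 0 ≤ (k : ℝ) / z := by positivity
        have h2 : (k : ℝ) / z ≤ 1 := by
          rw [div_le_one (by linarith)]
          linarith [hz.1]
        rw [abs_le]
        constructor <;> linarith) (convex_Icc _ _) hy hx
    simpa [Real.norm_eq_abs] using h
  have hel : ∀ x y, x ∈ J → y ∈ J → |Real.exp x - Real.exp y| ≤ (3 * v) * |x - y| := by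
    intro x y hx hy
    have h := Convex.norm_image_sub_le_of_norm_hasDerivWithin_le
      (f := Real.exp) (f' := Real.exp)
      (s := J) (C := 3 * v) (fun z hz => (Real.hasDerivAt_exp z).hasDerivWithinAt) (by
        intro z hz
        rw [Real.norm_of_nonneg (Real.exp_pos z).le]
        exact hexp z (hJm z hz)) (convex_Icc _ _) hy hx
    simpa [Real.norm_eq_abs] using h
  have hvH : 1 ≤ (v : ℝ) / H := by
    rw [one_le_div hHp]
    linarith
  refine ⟨?_, ?_, ?_⟩
  · apply Window_extend _ (Real.log v - 1) (Real.log v + 1) _ (by linarith) (by positivity)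
    · intro x y hx1 hx2 hy1 hy2
      have hx : x ∈ J := ⟨hx1, hx2⟩
      have hy : y ∈ J := ⟨hy1, hy2⟩
      unfold Window_psi
      have e : fej H (Real.exp x - v) * (Real.exp x / Pk k x) -
          fej H (Real.exp y - v) * (Real.exp y / Pk k y) =
          (fej H (Real.exp x - v) - fej H (Real.exp y - v)) * (Real.exp x / Pk k x) +
          fej H (Real.exp y - v) * (Real.exp x / Pk k x - Real.exp y / Pk k y) := by ring
      rw [e]
      refine (abs_add_le _ _).trans ?_
      rw [abs_mul, abs_mul]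
      have h1 : |fej H (Real.exp x - v) - fej H (Real.exp y - v)| ≤
          (3 * v) * |x - y| / (H : ℝ) ^ 2 := by
        refine (Window_fej_lip hH _ _).trans ?_
        refine div_le_div_of_nonneg_right ?_ (by positivity)
        have e2 : Real.exp x - v - (Real.exp y - v) = Real.exp x - Real.exp y := by ring
        rw [e2]
        exact hel x y hx hy
      have h2 : |fej H (Real.exp y - v)| ≤ 1 / H := by
        rw [abs_of_nonneg (Window_fej_nonneg _ _)]
        exact Window_fej_le hH _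
      have h3 := mul_le_mul h1 (hh x (hJm x hx)) (abs_nonneg _) (by positivity)
      have h4 := mul_le_mul h2 (hhl x y hx hy) (abs_nonneg _) (by positivity)
      refine (add_le_add h3 h4).trans ?_
      have e3 : 3 * (v : ℝ) * |x - y| / (H : ℝ) ^ 2 * D + 1 / H * (2 * D * |x - y|) =
          (9 * C₀ * ((v : ℝ) / H) ^ 2 * Real.sqrt (k + 1) + 6 * C₀ * ((v : ℝ) / H) * Real.sqrt (k + 1)) * |x - y| := by
        rw [hD]
        field_simp
        ring
      rw [e3]
      refine mul_le_mul_of_nonneg_right ?_ (abs_nonneg _)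
      have h5 : 6 * C₀ * ((v : ℝ) / H) * Real.sqrt (k + 1) ≤ 6 * C₀ * ((v : ℝ) / H) ^ 2 * Real.sqrt (k + 1) := by
        have : (v : ℝ) / H ≤ ((v : ℝ) / H) ^ 2 := by nlinarith
        gcongr
      linarith
    · intro x hx
      unfold Window_psi
      rw [hlow x hx, zero_mul]
    · intro x hx
      unfold Window_psi
      rw [hhigh x hx, zero_mul]
  · intro x
    unfold Window_psi
    by_cases hx : |x - Real.log v| ≤ 1
    · rw [abs_mul, abs_of_nonneg (Window_fej_nonneg _ _)]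
      have h1 := mul_le_mul (Window_fej_le hH (Real.exp x - v)) (hh x hx) (abs_nonneg _)
        (by positivity)
      refine h1.trans ?_
      have e : 1 / (H : ℝ) * D = 3 * C₀ * ((v : ℝ) / H) * Real.sqrt (k + 1) := by
        rw [hD]; field_simp
      rw [e]
      gcongr
      norm_num
    · push Not at hx
      have : fej H (Real.exp x - v) = 0 := by
        rcases lt_abs.1 hx with h | h
        · exact hhigh x (by linarith)
        · exact hlow x (by linarith)
      rw [this, zero_mul, abs_zero]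
      positivity
  · have hvH1 : (0 : ℝ) < v - H := by linarith
    refine ⟨Real.log (v - H), Real.log (v + H), ?_, ?_, ?_⟩
    · exact Real.log_le_log hvH1 (by linarith)
    · rw [← Real.log_div (by positivity) hvH1.ne']
      refine (Real.log_le_sub_one_of_pos (by positivity)).trans ?_
      have e : ((v : ℝ) + H) / (v - H) - 1 = 2 * H / (v - H) := by
        field_simp
        ring
      rw [e]
      have e2 : 3 * ((H : ℝ) / v) = 3 * H / v := by ring
      rw [e2, div_le_div_iff₀ hvH1 hvp]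
      nlinarith
    · intro x hx
      unfold Window_psi
      by_contra hc
      have h1 : fej H (Real.exp x - v) ≠ 0 := by
        intro h
        apply hc
        rw [h, zero_mul]
      obtain ⟨h2, h3⟩ := hsupp x h1
      apply hx
      constructor
      · rw [Real.log_le_iff_le_exp hvH1]
        exact h2.le
      · rw [Real.le_log_iff_exp_le (by positivity)]
        exact h3.le

/-- As `Th.window`, with the sharp lower bound `Lf.Pk_lower` for `P_k`: the factor in front of the integral is the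
upper bound `C √(k+1)` for `1/P_k` on the support of `ψ(y) = fej H (e^y - v) e^y/P_k(y)`. (Copy the proof of
`Th.window`; `1 ≤ √(k+1) ≤ k+1` in the error term.) -/
theorem window : ∃ C : ℝ, 1 ≤ C ∧ ∀ (a : ℕ → ℂ),
    (∀ n : ℕ, 1 ≤ n → ‖a n‖ ≤ Real.log n + 1) →
    ∀ (v H k : ℕ) (θ : ℝ), 1 ≤ H → 4 * H ≤ v → 32 ≤ Real.log v → (k : ℝ) ≤ Real.log v / 16 →
      Real.log v / 16 < k + 1 → 0 < θ → θ ≤ 1 →
      ‖wnd a H v‖ ≤ C * Real.sqrt (k + 1) * (∫ t : ℝ, Real.exp (-(θ ^ 2 * t ^ 2 / 2)) * ‖AA a k t‖) +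
        C * ((v : ℝ) / H) ^ 2 * (k + 1) ^ 3 * θ := by
  obtain ⟨C₁, hC₁, hmass⟩ := AA_mass
  obtain ⟨C₂, hC₂, hψ⟩ := Window_psi_prop
  refine ⟨3 * C₁ * C₂, by nlinarith, ?_⟩
  intro a ha v H k θ hH hv hlog hk hk1 hθ hθ1
  obtain ⟨hL, hM, α, β, hαβ, hlen, hout⟩ := hψ v H k hH hv hlog hk hk1
  have hH0 : (1 : ℝ) ≤ H := by exact_mod_cast hH
  have hHp : (0 : ℝ) < H := by linarith
  have hv0 : 4 * (H : ℝ) ≤ v := by exact_mod_cast hv
  have hvp : (0 : ℝ) < v := by linarith
  have hk0 : (0 : ℝ) ≤ k := Nat.cast_nonneg k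
  obtain ⟨ψ, hψd⟩ : ∃ ψ : ℝ → ℝ, ψ = Window_psi k H v := ⟨_, rfl⟩
  rw [← hψd] at hL hM hout
  obtain ⟨L, hLd⟩ : ∃ L : ℝ, L = C₂ * ((v : ℝ) / H) ^ 2 * Real.sqrt (k + 1) := ⟨_, rfl⟩
  obtain ⟨M, hMd⟩ : ∃ M : ℝ, M = C₂ * ((v : ℝ) / H) * Real.sqrt (k + 1) := ⟨_, rfl⟩
  rw [← hLd] at hL
  rw [← hMd] at hM
  have hL0 : 0 ≤ L := by rw [hLd]; positivity
  have hM0 : 0 ≤ M := by rw [hMd]; positivity
  have hcont : Continuous ψ := by
    have : LipschitzWith ⟨L, hL0⟩ ψ := LipschitzWith.of_dist_le_mul fun x y => by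
      rw [Real.dist_eq, Real.dist_eq]
      exact hL x y
    exact this.continuous
  obtain ⟨J, hJ⟩ : ∃ J : ℝ, J = ∫ t : ℝ, Real.exp (-(θ ^ 2 * t ^ 2 / 2)) * ‖AA a k t‖ := ⟨_, rfl⟩
  rw [← hJ]
  have hJ0 : 0 ≤ J := by
    rw [hJ]
    exact integral_nonneg fun t => by positivity
  -- coefficients
  obtain ⟨c, hcdef⟩ : ∃ c : ℕ → ℂ, c = fun m => a m * ((Pk k (Real.log m) / m : ℝ) : ℂ) := ⟨_, rfl⟩
  have hcn : ∀ m : ℕ, ‖c m‖ = ‖a m‖ * (Pk k (Real.log m) / m) := by
    intro m
    rw [hcdef]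
    simp only
    rw [norm_mul, Complex.norm_real, Real.norm_eq_abs]
    rcases Nat.eq_zero_or_pos m with h | h
    · subst h; simp
    · rcases Nat.lt_or_ge 1 m with h1 | h1
      · have hlog : 0 < Real.log m := Real.log_pos (by exact_mod_cast h1)
        rw [abs_of_nonneg]
        exact div_nonneg (Pk_pos k _ hlog).le (Nat.cast_nonneg m)
      · have : m = 1 := by omega
        subst this
        rw [abs_of_nonneg]
        simp only [Nat.cast_one, Real.log_one, div_one]
        unfold Pk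
        positivity
  have hcs : Summable (fun m => ‖c m‖) := by
    simp_rw [hcn]
    exact AA_summable a ha k
  have hcm : ∑' m, ‖c m‖ ≤ C₁ * (k + 1) := by
    simp_rw [hcn]
    exact hmass a ha k
  have hB : ∀ y : ℝ, ‖∑' m : ℕ, c m * ((Window_g θ (y - Real.log m) : ℝ) : ℂ)‖ ≤ J := by
    intro y
    rw [hcdef, hJ]
    exact Window_B hθ a ha k y
  -- the window as a series
  have hw : wnd a H v = ∑' m : ℕ, c m * ((ψ (Real.log m) : ℝ) : ℂ) := by
    have hterm : ∀ m : ℕ, c m * ((ψ (Real.log m) : ℝ) : ℂ) =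
        if m = 0 then 0 else a m * ((fej H ((m : ℝ) - v) : ℝ) : ℂ) := by
      intro m
      split_ifs with hm
      · rw [hcdef, hm]; simp
      · have hm1 : (0 : ℝ) < m := by
          have : 0 < m := Nat.pos_of_ne_zero hm
          exact_mod_cast this
        rw [hcdef, hψd]
        simp only
        unfold Window_psi
        rw [Real.exp_log hm1, mul_assoc, ← Complex.ofReal_mul]
        congr 2
        by_cases hf : fej H ((m : ℝ) - v) = 0
        · rw [hf]; simp
        · have h1 := Window_fej_supp hf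
          rw [abs_lt] at h1
          have h2 : (1 : ℝ) < m := by linarith [h1.1]
          have h3 := Pk_pos k _ (Real.log_pos h2)
          field_simp
    rw [tsum_congr hterm, tsum_eq_sum (s := Icc 1 (2 * v))]
    · unfold wnd
      refine sum_congr rfl fun m hm => ?_
      rw [mem_Icc] at hm
      rw [if_neg (by omega)]
    · intro m hm
      rw [mem_Icc] at hm
      split_ifs with h0
      · rfl
      · have h1 : 2 * v < m := by omega
        have h2 : 2 * (v : ℝ) < m := by exact_mod_cast h1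
        have h3 : fej H ((m : ℝ) - v) = 0 := by
          by_contra hf
          have h4 := Window_fej_supp hf
          rw [abs_lt] at h4
          linarith [h4.2]
        rw [h3]
        simp
  -- the smoothed version
  obtain ⟨G, hG⟩ : ∃ G : ℝ → ℝ, G = fun x => ∫ y : ℝ, ψ y * Window_g θ (y - x) := ⟨_, rfl⟩
  have hGd : ∀ x, |ψ x - G x| ≤ L * θ := by
    intro x
    rw [hG]
    exact Window_conv hθ ψ hcont L hL M hM x
  have hGb : ∀ x, |G x| ≤ M + L * θ := by
    intro x
    have h1 := hGd x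
    have h2 := hM x
    rw [abs_le] at h1 h2 ⊢
    constructor <;> linarith [h1.1, h1.2, h2.1, h2.2]
  have hs1 : Summable (fun m : ℕ => c m * ((ψ (Real.log m) : ℝ) : ℂ)) := by
    refine Summable.of_norm_bounded (hcs.mul_right M) fun m => ?_
    rw [norm_mul, Complex.norm_real, Real.norm_eq_abs]
    exact mul_le_mul_of_nonneg_left (hM _) (norm_nonneg _)
  have hs2 : Summable (fun m : ℕ => c m * ((G (Real.log m) : ℝ) : ℂ)) := by
    refine Summable.of_norm_bounded (hcs.mul_right (M + L * θ)) fun m => ?_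
    rw [norm_mul, Complex.norm_real, Real.norm_eq_abs]
    exact mul_le_mul_of_nonneg_left (hGb _) (norm_nonneg _)
  have hdiff : ‖wnd a H v - ∑' m : ℕ, c m * ((G (Real.log m) : ℝ) : ℂ)‖ ≤
      C₁ * (k + 1) * (L * θ) := by
    rw [hw, ← hs1.tsum_sub hs2]
    have hb : ∀ m : ℕ, ‖c m * ((ψ (Real.log m) : ℝ) : ℂ) - c m * ((G (Real.log m) : ℝ) : ℂ)‖ ≤
        ‖c m‖ * (L * θ) := by
      intro m
      rw [← mul_sub, norm_mul, ← Complex.ofReal_sub, Complex.norm_real, Real.norm_eq_abs]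
      exact mul_le_mul_of_nonneg_left (hGd _) (norm_nonneg _)
    have hbs : Summable fun m => ‖c m‖ * (L * θ) := hcs.mul_right _
    refine (tsum_of_norm_bounded hbs.hasSum hb).trans ?_
    rw [tsum_mul_right]
    exact mul_le_mul_of_nonneg_right hcm (by positivity)
  -- Fubini
  have hgi : ∀ x : ℝ, Integrable (fun y : ℝ => Window_g θ (y - x)) := fun x =>
    (Window_g_integrable hθ).comp_sub_right x
  have hgi1 : ∀ x : ℝ, ∫ y : ℝ, Window_g θ (y - x) = 1 := by
    intro x
    rw [integral_sub_right_eq_self (Window_g θ) x]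
    exact Window_g_integral hθ
  obtain ⟨F, hF⟩ : ∃ F : ℕ → ℝ → ℂ, F = fun m y =>
    c m * ((ψ y * Window_g θ (y - Real.log m) : ℝ) : ℂ) := ⟨_, rfl⟩
  have hgc := Window_g_cont θ
  have hFn : ∀ m y, ‖F m y‖ ≤ ‖c m‖ * M * Window_g θ (y - Real.log m) := by
    intro m y
    rw [hF]
    simp only
    rw [norm_mul, Complex.norm_real, Real.norm_eq_abs, abs_mul,
      abs_of_nonneg (Window_g_nonneg hθ _), mul_assoc]
    refine mul_le_mul_of_nonneg_left ?_ (norm_nonneg _)
    exact mul_le_mul_of_nonneg_right (hM y) (Window_g_nonneg hθ _)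
  have hFi : ∀ m, Integrable (F m) := by
    intro m
    refine ((hgi (Real.log m)).const_mul (‖c m‖ * M)).mono' ?_
      (Filter.Eventually.of_forall fun y => hFn m y)
    refine Continuous.aestronglyMeasurable ?_
    rw [hF]
    refine continuous_const.mul (Complex.continuous_ofReal.comp ?_)
    exact hcont.mul (hgc.comp (continuous_id.sub continuous_const))
  have hFs : Summable fun m => ∫ y : ℝ, ‖F m y‖ := by
    refine Summable.of_nonneg_of_le (fun m => integral_nonneg fun y => norm_nonneg _) (fun m => ?_)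
      (hcs.mul_right M)
    refine (integral_mono (hFi m).norm ((hgi (Real.log m)).const_mul (‖c m‖ * M))
      (fun y => hFn m y)).trans ?_
    rw [integral_const_mul, hgi1, mul_one]
  have h1 := integral_tsum_of_summable_integral_norm hFi hFs
  have h2 : ∀ m, ∫ y : ℝ, F m y = c m * ((G (Real.log m) : ℝ) : ℂ) := by
    intro m
    rw [hF, hG]
    simp only
    rw [integral_const_mul, integral_complex_ofReal]
  have h3 : ∀ y : ℝ, ∑' m, F m y =
      ((ψ y : ℝ) : ℂ) * ∑' m : ℕ, c m * ((Window_g θ (y - Real.log m) : ℝ) : ℂ) := by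
    intro y
    rw [hF, ← tsum_mul_left]
    refine tsum_congr fun m => ?_
    simp only
    push_cast
    ring
  have h4 : ‖∑' m : ℕ, c m * ((G (Real.log m) : ℝ) : ℂ)‖ ≤ M * J * (β - α) := by
    rw [← tsum_congr h2, h1]
    have h5 : ∫ y : ℝ, (∑' m, F m y) = ∫ y in Set.Icc α β, (∑' m, F m y) := by
      symm
      apply setIntegral_eq_integral_of_forall_compl_eq_zero
      intro y hy
      rw [h3, hout y hy]
      simp
    rw [h5]
    refine (norm_setIntegral_le_of_norm_le_const (C := M * J) (by simp) ?_).trans (le_of_eq ?_)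
    · intro y hy
      rw [h3, norm_mul, Complex.norm_real, Real.norm_eq_abs]
      exact mul_le_mul (hM y) (hB y) (norm_nonneg _) hM0
    · rw [Real.volume_real_Icc_of_le hαβ]
  have h6 : M * J * (β - α) ≤ 3 * C₂ * Real.sqrt (k + 1) * J := by
    refine (mul_le_mul_of_nonneg_left hlen (by positivity)).trans (le_of_eq ?_)
    rw [hMd]
    field_simp
  have h7 : ‖wnd a H v‖ ≤ C₁ * (k + 1) * (L * θ) + 3 * C₂ * Real.sqrt (k + 1) * J := by
    calc ‖wnd a H v‖ = ‖(wnd a H v - ∑' m : ℕ, c m * ((G (Real.log m) : ℝ) : ℂ)) +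
          ∑' m : ℕ, c m * ((G (Real.log m) : ℝ) : ℂ)‖ := by rw [sub_add_cancel]
      _ ≤ _ := norm_add_le _ _
      _ ≤ _ := add_le_add hdiff (h4.trans h6)
  refine h7.trans ?_
  have h8 : 3 * C₂ * Real.sqrt (k + 1) * J ≤ 3 * C₁ * C₂ * Real.sqrt (k + 1) * J := by
    have : 3 * C₂ ≤ 3 * C₁ * C₂ := by nlinarith
    gcongr
  have h9 : C₁ * (k + 1) * (L * θ) ≤ 3 * C₁ * C₂ * ((v : ℝ) / H) ^ 2 * (k + 1) ^ 3 * θ := by
    rw [hLd]
    have e : C₁ * ((k : ℝ) + 1) * (C₂ * ((v : ℝ) / H) ^ 2 * Real.sqrt (k + 1) * θ) =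
        C₁ * C₂ * ((v : ℝ) / H) ^ 2 * ((k + 1) * Real.sqrt (k + 1)) * θ := by ring
    rw [e]
    have h91 : C₁ * C₂ ≤ 3 * C₁ * C₂ := by nlinarith [mul_pos (by linarith : 0 < C₁) (by linarith : 0 < C₂)]
    have h92 : ((k : ℝ) + 1) * Real.sqrt (k + 1) ≤ ((k : ℝ) + 1) ^ 3 := by
      have h93 : Real.sqrt ((k : ℝ) + 1) ≤ (k : ℝ) + 1 := by
        rw [Real.sqrt_le_left (by linarith)]
        nlinarith
      have h94 : ((k : ℝ) + 1) * Real.sqrt (k + 1) ≤ ((k : ℝ) + 1) * (k + 1) :=
        mul_le_mul_of_nonneg_left h93 (by linarith)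
      have h95 : ((k : ℝ) + 1) * (k + 1) ≤ ((k : ℝ) + 1) ^ 3 := by
        have : 0 ≤ ((k : ℝ) + 1) * (k + 1) * k := by positivity
        nlinarith
      linarith
    gcongr
  linarith

end Pool.Agent.Lib.MP_629a14_nt.Lf
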