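import Pool.Agent.Lib.MP_629a14_nt.Lf.SumZ
import Pool.Agent.Lib.MP_629a14_nt.Lf.GaussInt
import Pool.Agent.Lib.MP_629a14_nt.Lf.Window
import Pool.Agent.Lib.MP_629a14_nt.Th.WLam

/-! Primes in short windows with characters of conductor up to a small power of `N`. -/

set_option autoImplicit false

namespace Pool.Agent.Lib.MP_629a14_nt.Lf

open Finset MeasureTheory Pool.Agent.Lib.MP_629a14_nt.Th

private lemma PropZ_x (β L : ℝ) (k : ℕ) (hβ1 : 15 / 16 ≤ β) (hβ2 : β < 1) (hk : L / 17 ≤ k + 1) :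
    ((1 / 16) / (17 / 16 - β)) ^ (k + 1) ≤ Real.exp (L * (-((1 - β) / 4))) := by
  have h1 : 0 < 17 / 16 - β := by linarith
  have h2 : (1 / 16) / (17 / 16 - β) ≤ Real.exp (-(8 * (1 - β))) := by
    have h3 := Real.add_one_le_exp (-(8 * (1 - β)))
    refine le_trans ?_ h3
    rw [div_le_iff₀ h1]
    nlinarith
  calc ((1 / 16) / (17 / 16 - β)) ^ (k + 1) ≤ Real.exp (-(8 * (1 - β))) ^ (k + 1) :=
        pow_le_pow_left₀ (by positivity) h2 _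
    _ = Real.exp (((k + 1 : ℕ) : ℝ) * (-(8 * (1 - β)))) := (Real.exp_nat_mul _ _).symm
    _ ≤ Real.exp (L * (-((1 - β) / 4))) := by
        apply Real.exp_le_exp.2
        push_cast
        nlinarith [mul_le_mul_of_nonneg_right hk (by linarith : (0 : ℝ) ≤ 1 - β)]

private lemma PropZ_E1 (P H v y : ℝ) (Cw : ℝ) (hP : 1 ≤ P) (hH : 0 < H) (hv : 0 < v) (hCw : 0 < Cw)
    (hK1 : 4 * Cw ≤ P) (hv2 : v ≤ 2 * P ^ 20 * H) (hy0 : 0 ≤ y) (hy : y ^ 3 ≤ P) :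
    Cw * (v / H) ^ 2 * y ^ 3 * (P ^ 60)⁻¹ ≤ (P ^ 18)⁻¹ := by
  have hP0 : 0 < P := by linarith
  have h1 : v / H ≤ 2 * P ^ 20 := by
    rw [div_le_iff₀ hH]; linarith
  have h2 : (v / H) ^ 2 ≤ (2 * P ^ 20) ^ 2 := pow_le_pow_left₀ (by positivity) h1 2
  have h3 : 0 < (P ^ 60)⁻¹ := by positivity
  calc Cw * (v / H) ^ 2 * y ^ 3 * (P ^ 60)⁻¹
      ≤ Cw * (2 * P ^ 20) ^ 2 * P * (P ^ 60)⁻¹ := by gcongr
    _ = (4 * Cw) * (P ^ 41 * (P ^ 60)⁻¹) := by ring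
    _ ≤ P * (P ^ 41 * (P ^ 60)⁻¹) := by gcongr
    _ = (P ^ 18)⁻¹ := by field_simp

private lemma PropZ_E2 (P y h : ℝ) (Cw Cg : ℝ) (hP : 1 ≤ P) (hCw : 0 < Cw) (hCg : 0 < Cg)
    (hK2 : 4 * (Cw * Cg) ≤ P) (hy0 : 0 ≤ y) (hy : y ≤ P) (hh : h ≤ 2 * (P ^ 160)⁻¹) :
    Cw * y * (Cg * P ^ 130 * h) ≤ (P ^ 18)⁻¹ := by
  have hP0 : 0 < P := by linarith
  have h0 : 0 < Cw * Cg := by positivity
  calc Cw * y * (Cg * P ^ 130 * h)
      ≤ Cw * y * (Cg * P ^ 130 * (2 * (P ^ 160)⁻¹)) := by gcongr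
    _ ≤ Cw * P * (Cg * P ^ 130 * (2 * (P ^ 160)⁻¹)) := by gcongr
    _ = (2 * (Cw * Cg)) * (P ^ 131 * (P ^ 160)⁻¹) := by ring
    _ ≤ P * (P ^ 131 * (P ^ 160)⁻¹) := by
        gcongr
        linarith
    _ = (P ^ 28)⁻¹ := by field_simp
    _ ≤ (P ^ 18)⁻¹ := by
        apply inv_anti₀ (by positivity)
        exact pow_le_pow_right₀ hP (by norm_num)

private lemma PropZ_E3 (P y h : ℝ) (Cw Cg : ℝ) (hP : 1 ≤ P) (hCw : 0 < Cw) (hCg : 0 < Cg)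
    (hK2 : 4 * (Cw * Cg) ≤ P) (hy : y ^ 2 ≤ P) (hh0 : 0 < h) (hh : h ≤ (P ^ 80)⁻¹) :
    Cw * y * (Cg * y * P ^ 60 * h) ≤ (P ^ 18)⁻¹ := by
  have hP0 : 0 < P := by linarith
  have h0 : 0 < Cw * Cg := by positivity
  calc Cw * y * (Cg * y * P ^ 60 * h) = (Cw * Cg) * (y ^ 2) * P ^ 60 * h := by ring
    _ ≤ P * P * P ^ 60 * (P ^ 80)⁻¹ := by
        gcongr
        linarith
    _ = (P ^ 18)⁻¹ := by field_simp

private lemma PropZ_E4 (P N H v w : ℝ) (Cp : ℝ) (hP : 1 ≤ P) (hCp : 0 < Cp) (hN : 0 < N) (hH : 0 < H)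
    (hK3 : 4 * Cp ≤ P) (hv : v ≤ N) (hw : w ^ 2 ≤ P) (hPN : P ^ 80 ≤ N)
    (hN2 : N ≤ 2 * P ^ 20 * H) :
    Cp * Real.sqrt v * w ^ 2 / H ≤ (P ^ 18)⁻¹ := by
  have hP0 : 0 < P := by linarith
  have h1 : Real.sqrt v ≤ Real.sqrt N := Real.sqrt_le_sqrt hv
  have h3 : P ^ 40 ≤ Real.sqrt N := by
    apply Real.le_sqrt_of_sq_le
    rw [← pow_mul]
    exact hPN
  have h4 : Real.sqrt N * Real.sqrt N = N := Real.mul_self_sqrt hN.le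
  have h5 : 0 < Real.sqrt N := Real.sqrt_pos.2 hN
  rw [div_le_iff₀ hH]
  have h6 : Cp * Real.sqrt v * w ^ 2 ≤ Cp * Real.sqrt N * P := by gcongr
  refine h6.trans ?_
  have h7 : Real.sqrt N * Real.sqrt N ≤ 2 * P ^ 20 * H := by rw [h4]; exact hN2
  have h8 : Cp * P * P ^ 18 * (2 * P ^ 20) ≤ Real.sqrt N := by
    refine le_trans ?_ h3
    calc Cp * P * P ^ 18 * (2 * P ^ 20) = (2 * Cp) * P ^ 39 := by ring
      _ ≤ P * P ^ 39 := by gcongr; linarith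
      _ = P ^ 40 := by ring
  have h9 : Cp * Real.sqrt N * P * P ^ 18 ≤ H := by
    have h10 : (Cp * P * P ^ 18 * (2 * P ^ 20)) * Real.sqrt N ≤ 2 * P ^ 20 * H :=
      (mul_le_mul_of_nonneg_right h8 h5.le).trans h7
    have h11 : 0 < 2 * P ^ 20 := by positivity
    have h12 : (2 * P ^ 20) * (Cp * Real.sqrt N * P * P ^ 18) ≤ 2 * P ^ 20 * H := by
      calc (2 * P ^ 20) * (Cp * Real.sqrt N * P * P ^ 18)
          = (Cp * P * P ^ 18 * (2 * P ^ 20)) * Real.sqrt N := by ring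
        _ ≤ _ := h10
    exact le_of_mul_le_mul_left h12 h11
  rw [inv_mul_eq_div, le_div_iff₀ (by positivity)]
  exact h9

private lemma PropZ_core (f : ℂ → ℂ) (a b : ℕ → ℂ) (N P v k : ℕ) (Cw Cg Cp I : ℝ)
    (hCw : 1 ≤ Cw) (hCg : 1 ≤ Cg) (hCp : 1 ≤ Cp) (hP : 2 ≤ P)
    (hK : 100 * (Cw * Cg * Cp) ≤ P) (hL : 40 ≤ Real.log N) (hL3 : (Real.log N) ^ 3 ≤ P)
    (hPN : (P : ℝ) ^ 4000 ≤ N) (hexp : (P : ℝ) ^ 80 ≤ Real.exp ((P : ℝ) ^ 2 / 4))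
    (hv1 : N ≤ v * P ^ 5) (hv2 : v ≤ N) (hk1 : (k : ℝ) ≤ Real.log v / 16) (hk2 : Real.log v / 16 < k + 1)
    (hwin : ‖wnd a (N / P ^ 20) v‖ ≤ Cw * Real.sqrt (k + 1) * I +
        Cw * ((v : ℝ) / ((N / P ^ 20 : ℕ) : ℝ)) ^ 2 * (k + 1) ^ 3 * ((P : ℝ) ^ 60)⁻¹)
    (hI : I ≤ Cg / Real.sqrt (k + 1) *
      (∑ ρ ∈ ZF f (15 / 16) ((P : ℝ) ^ 62), mul f ρ * ((1 / 16) / (17 / 16 - ρ.re)) ^ (k + 1)) +
      Cg * (P : ℝ) ^ 130 * (1 / 2) ^ k + Cg * (k + 1) * (P : ℝ) ^ 60 * Real.exp (-((P : ℝ) ^ 2 / 4)))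
    (hpr : ‖wnd a (N / P ^ 20) v - wnd b (N / P ^ 20) v‖ ≤
      Cp * Real.sqrt v * (Real.log v) ^ 2 / ((N / P ^ 20 : ℕ) : ℝ))
    (hre : ∀ ρ ∈ ZF f (15 / 16) ((P : ℝ) ^ 62), 15 / 16 ≤ ρ.re ∧ ρ.re < 1) :
    ‖wnd b (N / P ^ 20) v‖ ≤
      Cw * Cg * (∑ ρ ∈ ZF f (15 / 16) ((P : ℝ) ^ 62), mul f ρ * (N : ℝ) ^ (-((1 - ρ.re) / 4))) +
        ((P : ℝ) ^ 10)⁻¹ := by
  have hL2 : (Real.log N) ^ 2 ≤ P := by
    refine le_trans ?_ hL3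
    exact pow_le_pow_right₀ (by linarith) (by norm_num)
  have hP2 : (2 : ℝ) ≤ P := by exact_mod_cast hP
  have hP0 : (0 : ℝ) < P := by linarith
  have hP1 : (1 : ℝ) ≤ P := by linarith
  have hN0 : (0 : ℝ) < N := lt_of_lt_of_le (by positivity) hPN
  have hNn : 0 < N := by exact_mod_cast hN0
  set L := Real.log N with hLdef
  set lp := Real.log P with hlp
  have hlp0 : 0 ≤ lp := Real.log_nonneg hP1
  have hLP : 4000 * lp ≤ L := by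
    have := Real.log_le_log (by positivity) hPN
    rw [Real.log_pow] at this
    exact_mod_cast this
  set H : ℕ := N / P ^ 20 with hH
  have hPn20 : 0 < P ^ 20 := by positivity
  have hHN : P ^ 20 * H ≤ N := Nat.mul_div_le N (P ^ 20)
  have hNH : N < P ^ 20 * (H + 1) := Nat.lt_mul_div_succ N hPn20
  have hH1 : 1 ≤ H := by
    rw [hH, Nat.one_le_div_iff hPn20]
    have : ((P ^ 20 : ℕ) : ℝ) ≤ N := by
      push_cast
      exact (pow_le_pow_right₀ hP1 (by norm_num)).trans hPN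
    exact_mod_cast this
  have hH1r : (1 : ℝ) ≤ H := by exact_mod_cast hH1
  have hH0 : (0 : ℝ) < H := by linarith
  have hN2 : (N : ℝ) ≤ 2 * (P : ℝ) ^ 20 * H := by
    have h1 : (N : ℝ) < (P : ℝ) ^ 20 * (H + 1) := by exact_mod_cast hNH
    have h2 : (P : ℝ) ^ 20 * (H + 1) ≤ (P : ℝ) ^ 20 * (2 * H) := by gcongr; linarith
    linarith
  have hv1r : (N : ℝ) ≤ v * (P : ℝ) ^ 5 := by exact_mod_cast hv1
  have hv2r : (v : ℝ) ≤ N := by exact_mod_cast hv2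
  have hv0 : (0 : ℝ) < v := by
    by_contra h
    have h1 : (v : ℝ) ≤ 0 := not_lt.1 h
    have : (v : ℝ) * (P : ℝ) ^ 5 ≤ 0 := mul_nonpos_of_nonpos_of_nonneg h1 (by positivity)
    linarith
  have hlv1 : L - 5 * lp ≤ Real.log v := by
    have := Real.log_le_log hN0 hv1r
    rw [Real.log_mul hv0.ne' (by positivity), Real.log_pow] at this
    push_cast at this
    linarith
  have hlv2 : Real.log v ≤ L := Real.log_le_log hv0 hv2r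
  have hlv0 : 0 ≤ Real.log v := by linarith
  have hk3 : L / 17 ≤ k + 1 := by linarith
  have hk4 : (k : ℝ) + 1 ≤ L := by linarith
  have hk0 : (0 : ℝ) ≤ k := by positivity
  have hL1 : 1 ≤ L := by linarith
  have hLleP : L ≤ P := by
    have h1 : L * 1 ≤ L * L := mul_le_mul_of_nonneg_left hL1 (by linarith)
    have h2 : L * L = L ^ 2 := by ring
    linarith
  have hk5 : ((k : ℝ) + 1) ^ 2 ≤ P := by
    refine le_trans ?_ hL2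
    exact pow_le_pow_left₀ (by linarith) hk4 2
  -- powers of one half
  have hhalf : (1 / 2 : ℝ) ^ k ≤ 2 * ((P : ℝ) ^ 160)⁻¹ := by
    have h1 : (1 / 2 : ℝ) ^ (k + 1) ≤ ((P : ℝ) ^ 160)⁻¹ := by
      have e1 : (1 / 2 : ℝ) ^ (k + 1) = Real.exp (-(((k + 1 : ℕ) : ℝ) * Real.log 2)) := by
        rw [Real.exp_neg, Real.exp_nat_mul, Real.exp_log (by norm_num)]
        rw [one_div, inv_pow]
      have e2 : ((P : ℝ) ^ 160)⁻¹ = Real.exp (-(((160 : ℕ) : ℝ) * lp)) := by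
        rw [Real.exp_neg, Real.exp_nat_mul, Real.exp_log hP0]
      rw [e1, e2]
      apply Real.exp_le_exp.2
      apply neg_le_neg
      push_cast
      have h2 : (0.69 : ℝ) ≤ Real.log 2 := by linarith [Real.log_two_gt_d9]
      have h3 : ((k : ℝ) + 1) * 0.69 ≤ (k + 1) * Real.log 2 :=
        mul_le_mul_of_nonneg_left h2 (by linarith)
      linarith
    rw [pow_succ] at h1
    linarith
  -- constants
  have hCw0 : 0 < Cw := by linarith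
  have hCg0 : 0 < Cg := by linarith
  have hCp0 : 0 < Cp := by linarith
  have hK1 : 4 * Cw ≤ P := by
    have : Cw ≤ Cw * Cg * Cp := by
      calc Cw = Cw * 1 * 1 := by ring
        _ ≤ Cw * Cg * Cp := by gcongr
    linarith
  have hK2 : 4 * (Cw * Cg) ≤ P := by
    have : Cw * Cg ≤ Cw * Cg * Cp := by
      calc Cw * Cg = Cw * Cg * 1 := by ring
        _ ≤ Cw * Cg * Cp := by gcongr
    have h0 : 0 < Cw * Cg := by positivity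
    linarith
  have hK3 : 4 * Cp ≤ P := by
    have : Cp ≤ Cw * Cg * Cp := by
      calc Cp = 1 * 1 * Cp := by ring
        _ ≤ Cw * Cg * Cp := by gcongr
    linarith
  have hv3 : (v : ℝ) ≤ 2 * (P : ℝ) ^ 20 * H := hv2r.trans hN2
  have hk6 : ((k : ℝ) + 1) ^ 3 ≤ P := by
    refine le_trans ?_ hL3
    exact pow_le_pow_left₀ (by linarith) hk4 3
  obtain ⟨s, hs⟩ : ∃ s : ℝ, s = Real.sqrt ((k : ℝ) + 1) := ⟨_, rfl⟩
  rw [← hs] at hwin hI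
  have hs1 : 1 ≤ s := by
    rw [hs]
    apply Real.le_sqrt_of_sq_le
    linarith
  have hs0 : 0 < s := by linarith
  have hss : s * s = k + 1 := by rw [hs]; exact Real.mul_self_sqrt (by linarith)
  have hsk : s ≤ k + 1 := by nlinarith
  have hE1 : Cw * ((v : ℝ) / (H : ℝ)) ^ 2 * (k + 1) ^ 3 * ((P : ℝ) ^ 60)⁻¹ ≤ ((P : ℝ) ^ 18)⁻¹ :=
    PropZ_E1 P H v (k + 1) Cw hP1 hH0 hv0 hCw0 hK1 hv3 (by linarith) hk6
  have hE2 : Cw * s * (Cg * (P : ℝ) ^ 130 * (1 / 2) ^ k) ≤ ((P : ℝ) ^ 18)⁻¹ :=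
    PropZ_E2 P s _ Cw Cg hP1 hCw0 hCg0 hK2 hs0.le ((hsk.trans hk4).trans hLleP) hhalf
  have hE3 : Cw * s * (Cg * (k + 1) * (P : ℝ) ^ 60 * Real.exp (-((P : ℝ) ^ 2 / 4))) ≤
      ((P : ℝ) ^ 18)⁻¹ := by
    refine le_trans (b := Cw * (k + 1) * (Cg * (k + 1) * (P : ℝ) ^ 60 * Real.exp (-((P : ℝ) ^ 2 / 4)))) ?_ ?_
    · have : 0 ≤ Cg * (k + 1) * (P : ℝ) ^ 60 * Real.exp (-((P : ℝ) ^ 2 / 4)) := by positivity
      gcongr
    have h1 : Real.exp (-((P : ℝ) ^ 2 / 4)) ≤ ((P : ℝ) ^ 80)⁻¹ := by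
      rw [Real.exp_neg]
      exact inv_anti₀ (pow_pos hP0 _) hexp
    exact PropZ_E3 P (k + 1) _ Cw Cg hP1 hCw0 hCg0 hK2 hk5 (Real.exp_pos _) h1
  have hE4 : Cp * Real.sqrt v * (Real.log v) ^ 2 / (H : ℝ) ≤ ((P : ℝ) ^ 18)⁻¹ :=
    PropZ_E4 P N H v _ Cp hP1 hCp0 hN0 hH0 hK3 hv2r ((pow_le_pow_left₀ hlv0 hlv2 2).trans hL2)
      ((pow_le_pow_right₀ hP1 (by norm_num)).trans hPN) hN2
  -- main term
  have hM : (∑ ρ ∈ ZF f (15 / 16) ((P : ℝ) ^ 62), mul f ρ * ((1 / 16) / (17 / 16 - ρ.re)) ^ (k + 1)) ≤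
      (∑ ρ ∈ ZF f (15 / 16) ((P : ℝ) ^ 62), mul f ρ * (N : ℝ) ^ (-((1 - ρ.re) / 4))) := by
    refine Finset.sum_le_sum fun ρ hρ => ?_
    obtain ⟨h2, h3⟩ := hre ρ hρ
    have h4 := PropZ_x ρ.re L k h2 h3 hk3
    rw [Real.rpow_def_of_pos hN0]
    have h5 : 0 ≤ mul f ρ := by unfold mul; positivity
    exact mul_le_mul_of_nonneg_left h4 h5
  have hM' := mul_le_mul_of_nonneg_left hM (mul_pos hCw0 hCg0).le
  have hIle : Cw * s * I ≤ Cw * s * (Cg / s *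
      (∑ ρ ∈ ZF f (15 / 16) ((P : ℝ) ^ 62), mul f ρ * ((1 / 16) / (17 / 16 - ρ.re)) ^ (k + 1)) +
      Cg * (P : ℝ) ^ 130 * (1 / 2) ^ k + Cg * (k + 1) * (P : ℝ) ^ 60 * Real.exp (-((P : ℝ) ^ 2 / 4))) :=
    mul_le_mul_of_nonneg_left hI (mul_pos hCw0 hs0).le
  have h4 : 4 * ((P : ℝ) ^ 18)⁻¹ ≤ ((P : ℝ) ^ 10)⁻¹ := by
    have : ((P : ℝ) ^ 10)⁻¹ = (P : ℝ) ^ 8 * ((P : ℝ) ^ 18)⁻¹ := by field_simp
    rw [this]
    have h5 : (4 : ℝ) ≤ (P : ℝ) ^ 8 := by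
      have : (2 : ℝ) ^ 8 ≤ (P : ℝ) ^ 8 := pow_le_pow_left₀ (by norm_num) hP2 8
      linarith [show (2 : ℝ) ^ 8 = 256 by norm_num]
    gcongr
  have htri : ‖wnd b H v‖ ≤ ‖wnd a H v‖ + ‖wnd a H v - wnd b H v‖ := by
    have : wnd b H v = wnd a H v - (wnd a H v - wnd b H v) := by ring
    calc ‖wnd b H v‖ = ‖wnd a H v - (wnd a H v - wnd b H v)‖ := by rw [← this]
      _ ≤ _ := norm_sub_le _ _
  have hdist : Cw * s * (Cg / s *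
      (∑ ρ ∈ ZF f (15 / 16) ((P : ℝ) ^ 62), mul f ρ * ((1 / 16) / (17 / 16 - ρ.re)) ^ (k + 1)) +
      Cg * (P : ℝ) ^ 130 * (1 / 2) ^ k + Cg * (k + 1) * (P : ℝ) ^ 60 * Real.exp (-((P : ℝ) ^ 2 / 4))) =
      Cw * Cg * (∑ ρ ∈ ZF f (15 / 16) ((P : ℝ) ^ 62), mul f ρ * ((1 / 16) / (17 / 16 - ρ.re)) ^ (k + 1)) +
      Cw * s * (Cg * (P : ℝ) ^ 130 * (1 / 2) ^ k) +
      Cw * s * (Cg * (k + 1) * (P : ℝ) ^ 60 * Real.exp (-((P : ℝ) ^ 2 / 4))) := by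
    have : Cw * s * (Cg / s *
      (∑ ρ ∈ ZF f (15 / 16) ((P : ℝ) ^ 62), mul f ρ * ((1 / 16) / (17 / 16 - ρ.re)) ^ (k + 1))) =
      Cw * Cg * (∑ ρ ∈ ZF f (15 / 16) ((P : ℝ) ^ 62), mul f ρ * ((1 / 16) / (17 / 16 - ρ.re)) ^ (k + 1)) := by
      field_simp
    rw [← this]
    ring
  linarith


private lemma PropZ_params (c K M : ℝ) (hc : c ≤ 1 / 4000) : ∃ N₀ : ℕ, ∀ N P : ℕ, N₀ ≤ N →
    Real.exp ((Real.log N) ^ (3 / 4 : ℝ)) ≤ P →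
    (P : ℝ) ≤ (N : ℝ) ^ c →
    K ≤ P ∧ K ≤ Real.log N ∧ (Real.log N) ^ M ≤ P ∧ (P : ℝ) ^ 4000 ≤ N ∧
      (P : ℝ) ^ 80 ≤ Real.exp ((P : ℝ) ^ 2 / 4) := by
  have t1 : Filter.Tendsto (fun N : ℕ => Real.log (N : ℝ)) Filter.atTop Filter.atTop :=
    Real.tendsto_log_atTop.comp tendsto_natCast_atTop_atTop
  have t2 : Filter.Tendsto (fun N : ℕ => (Real.log (N : ℝ)) ^ (3 / 4 : ℝ)) Filter.atTop Filter.atTop :=
    (tendsto_rpow_atTop (by norm_num)).comp t1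
  -- exp (P^2/4) ≥ P^80 for large P
  have e0 : ∀ᶠ p : ℝ in Filter.atTop, p ^ 80 ≤ Real.exp (p ^ 2 / 4) := by
    have h1 := (Real.tendsto_exp_div_pow_atTop 80)
    have h2 := h1.eventually_ge_atTop 1
    filter_upwards [h2, Filter.eventually_ge_atTop (4 : ℝ)] with p hp hp4
    rw [le_div_iff₀ (by positivity), one_mul] at hp
    refine hp.trans (Real.exp_le_exp.2 ?_)
    nlinarith
  obtain ⟨p₀, hp₀⟩ := Filter.eventually_atTop.1 e0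
  -- powers
  have e1 : ∀ᶠ y : ℝ in Filter.atTop, y ^ (4 / 3 * M : ℝ) ≤ Real.exp y := by
    have h1 := tendsto_exp_div_rpow_atTop (4 / 3 * M)
    filter_upwards [h1.eventually_ge_atTop 1, Filter.eventually_gt_atTop (0 : ℝ)] with y hy hy0
    rwa [le_div_iff₀ (by positivity), one_mul] at hy
  have e2 : ∀ᶠ y : ℝ in Filter.atTop, max K p₀ ≤ Real.exp y :=
    Real.tendsto_exp_atTop.eventually_ge_atTop _
  have hev : ∀ᶠ N : ℕ in Filter.atTop, (K ≤ Real.log N ∧ 1 ≤ Real.log N) ∧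
      ((Real.log (N : ℝ)) ^ (3 / 4 : ℝ)) ^ (4 / 3 * M : ℝ) ≤ Real.exp ((Real.log (N : ℝ)) ^ (3 / 4 : ℝ)) ∧
      max K p₀ ≤ Real.exp ((Real.log (N : ℝ)) ^ (3 / 4 : ℝ)) ∧ 1 ≤ N := by
    filter_upwards [t1.eventually_ge_atTop K, t1.eventually_ge_atTop 1, t2.eventually e1, t2.eventually e2,
      Filter.eventually_ge_atTop 1] with N h1 h2 h5 h6 h7
    exact ⟨⟨h1, h2⟩, h5, h6, h7⟩
  obtain ⟨N₀, hN₀⟩ := Filter.eventually_atTop.1 hev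
  refine ⟨N₀, fun N P hN hP1 hP2 => ?_⟩
  obtain ⟨⟨h1, h2⟩, h5, h6, h7⟩ := hN₀ N hN
  have hN0 : (0 : ℝ) < N := by exact_mod_cast h7
  refine ⟨(le_max_left _ _).trans (h6.trans hP1), h1, ?_, ?_, ?_⟩
  · rw [← Real.rpow_mul (by linarith)] at h5
    have : (3 / 4 : ℝ) * (4 / 3 * M) = M := by ring
    rw [this] at h5
    exact h5.trans hP1
  · have hN1 : (1 : ℝ) ≤ N := by exact_mod_cast h7
    calc (P : ℝ) ^ 4000 ≤ ((N : ℝ) ^ c) ^ 4000 := pow_le_pow_left₀ (by positivity) hP2 _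
      _ = (N : ℝ) ^ (c * 4000) := by
          rw [← Real.rpow_natCast, ← Real.rpow_mul hN0.le]
          norm_num
      _ ≤ (N : ℝ) ^ (1 : ℝ) := Real.rpow_le_rpow_of_exponent_le hN1 (by linarith)
      _ = N := Real.rpow_one _
  · exact hp₀ _ ((le_max_right _ _).trans (h6.trans hP1))

private lemma PropZ_sqrt (S : Finset ℂ) (m y z : ℂ → ℝ) (a b : ℝ) (ha : 0 ≤ a) (hb : 0 ≤ b)
    (hm : ∀ i ∈ S, 1 ≤ m i) (hz : ∀ i ∈ S, 0 ≤ z i) (hy : ∀ i ∈ S, y i = z i ^ 2) :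
    Real.sqrt (a * (∑ i ∈ S, m i * y i) + b ^ 2) ≤ Real.sqrt a * (∑ i ∈ S, m i * z i) + b := by
  have h0 : 0 ≤ ∑ i ∈ S, m i * z i :=
    Finset.sum_nonneg fun i hi => mul_nonneg (by linarith [hm i hi]) (hz i hi)
  have h1 : ∑ i ∈ S, m i * y i ≤ (∑ i ∈ S, m i * z i) ^ 2 := by
    refine le_trans ?_ (Finset.sum_sq_le_sq_sum_of_nonneg (s := S) (f := fun i => m i * z i)
      (fun i hi => mul_nonneg (by linarith [hm i hi]) (hz i hi)))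
    refine Finset.sum_le_sum fun i hi => ?_
    rw [hy i hi, mul_pow]
    have h3 := hm i hi
    have h4 : m i ≤ m i ^ 2 := by nlinarith
    exact mul_le_mul_of_nonneg_right h4 (sq_nonneg (z i))
  rw [Real.sqrt_le_left (by positivity)]
  have h2 : Real.sqrt a ^ 2 = a := Real.sq_sqrt ha
  have h3 : 0 ≤ Real.sqrt a := Real.sqrt_nonneg a
  calc a * (∑ i ∈ S, m i * y i) + b ^ 2 ≤ a * (∑ i ∈ S, m i * z i) ^ 2 + b ^ 2 := by gcongr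
    _ = (Real.sqrt a * (∑ i ∈ S, m i * z i)) ^ 2 + b ^ 2 := by rw [mul_pow, h2]
    _ ≤ (Real.sqrt a * (∑ i ∈ S, m i * z i) + b) ^ 2 := by
      nlinarith [mul_nonneg (mul_nonneg h3 h0) hb]

private lemma PropZ_rpow (N β : ℝ) (hN : 0 < N) : N ^ (-((1 - β) / 4)) = (N ^ (-((1 - β) / 8))) ^ 2 := by
  rw [← Real.rpow_natCast, ← Real.rpow_mul hN.le]
  congr 1
  push_cast
  ring

open Classical in
/-- Proof (compare `Th/PropZ.lean: propZ`). Put `H = N / P^20`, `θ = P^{-60}`, `T = P^62` in `sumZ` (with a small `ε'` in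
place of `ε`), and `D x = C ∑_{ρ ∈ ZF (LL x) (15/16) T} m_ρ N^{-(1-Re ρ)/4} + P^{-10}` for `x ≠ ch1`, the same with `zt`
for `ch1`. For `N ≤ v P^5`, `v ≤ N` take `k = ⌊log v / 16⌋`: `k + 1 ≥ log N / 17` (as `P^5 ≤ N^{5c}`), so
`((1/16)/(17/16-β))^{k+1} = (1+16(1-β))^{-(k+1)} ≤ exp(-8(1-β)(k+1)) ≤ N^{-(1-β)/4}`
(`1+y ≥ e^{y/2}` on `[0,1]`). By `wnd_prime`, `window`, `gauss_int_chi` (the factors `√(k+1)` and `1/√(k+1)` cancel):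
`‖wnd (aP χ) H v‖ ≤ D x` (the error terms: `√(k+1) P^130 2^{-k} ≤ P^130 N^{-1/30}` with `P^130 ≤ N^{130c}`,
`(v/H)² (k+1)³ θ ≤ 4 P^40 (log N)³ P^{-60}`, `√v log² v / H ≤ P^21 N^{-1/2} ..`, all `≤ P^{-11}`, as
`P ≥ exp((log N)^{3/4})`). Finally `√(a+b) ≤ √a + √b`, `√(∑ m_ρ y_ρ) ≤ ∑ m_ρ √y_ρ` (`m_ρ ≥ 1`), `card_prims_le`. -/
theorem propZ (ε : ℝ) (hε : 0 < ε) : ∃ c : ℝ, 0 < c ∧ c ≤ 1 / 200 ∧ ∀ R : ℕ, ∃ N₀ : ℕ, ∀ N P : ℕ, N₀ ≤ N →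
    Real.exp ((Real.log N) ^ (3 / 4 : ℝ)) ≤ P → (P : ℝ) ≤ (N : ℝ) ^ c →
    ∃ (e : CH) (D : CH → ℝ), e.1 ≠ 0 ∧ e.2 ^ 2 = 1 ∧ e.2.IsPrimitive ∧ (e = ch1 ∨ (e ∈ prims P ∧ R ≤ e.1)) ∧
      (∀ x, 0 ≤ D x) ∧
      (∀ x ∈ prims P, x ≠ ch1 → ∀ v : ℕ, N ≤ v * P ^ 5 → v ≤ N →
        ‖wnd (fun m => (aP P m : ℂ) * x.2 (m : ZMod x.1)) (N / P ^ 20) v‖ ≤ D x) ∧
      (∀ v : ℕ, N ≤ v * P ^ 5 → v ≤ N →
        ‖wnd (fun m => (aP P m : ℂ) - 1) (N / P ^ 20) v‖ ≤ D ch1) ∧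
      Real.sqrt (D ch1) ≤ ε ∧
      ∑ x ∈ (prims P).filter (fun x => x ≠ e ∧ x ≠ ch1), Real.sqrt (D x) ≤ ε := by
  obtain ⟨Cw, hCw, hwin⟩ := window
  obtain ⟨Cp, hCp, hpr⟩ := wnd_prime
  obtain ⟨C1, hC1, hg1⟩ := gauss_int_chi
  obtain ⟨C2, hC2, hg2⟩ := gauss_int_zt
  obtain ⟨Cg, hCg⟩ : ∃ Cg : ℝ, Cg = C1 + C2 := ⟨_, rfl⟩
  have hCg1 : 1 ≤ Cg := by linarith
  have hWG1 : 1 ≤ Cw * Cg := by nlinarith
  have hWG0 : 0 < Cw * Cg := by linarith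
  obtain ⟨c₁, hc₁, hsum⟩ := sumZ (ε / (2 * (Cw * Cg))) (by positivity)
  refine ⟨min c₁ (1 / 4000), lt_min hc₁ (by norm_num), (min_le_right _ _).trans (by norm_num), fun R => ?_⟩
  obtain ⟨N₁, hN₁⟩ := hsum R
  obtain ⟨N₂, hN₂⟩ := PropZ_params (min c₁ (1 / 4000)) (100 * (Cw * Cg * Cp) + 100 + 2 / ε) 3 (min_le_right _ _)
  refine ⟨max N₁ N₂, fun N P hN hP1 hP2 => ?_⟩
  obtain ⟨p1, p2, p3, p4, p5⟩ := hN₂ N P ((le_max_right _ _).trans hN) hP1 hP2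
  have hεi : 0 < 2 / ε := by positivity
  have hCCC : 1 ≤ Cw * Cg * Cp := by
    calc (1 : ℝ) = 1 * 1 * 1 := by norm_num
      _ ≤ Cw * Cg * Cp := by gcongr
  have hPr : (200 : ℝ) ≤ P := by linarith
  have hP0 : (0 : ℝ) < P := by linarith
  have hPone : (1 : ℝ) ≤ P := by linarith
  have hPn : 2 ≤ P := by
    have : (2 : ℝ) ≤ P := by linarith
    exact_mod_cast this
  have hL : 200 ≤ Real.log N := by linarith
  have hL0 : 0 < Real.log N := by linarith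
  have hN0 : (0 : ℝ) < N := lt_of_lt_of_le (pow_pos hP0 _) p4
  have hT2 : (2 : ℝ) ≤ (P : ℝ) ^ 62 := by
    have : (P : ℝ) ^ 1 ≤ (P : ℝ) ^ 62 := pow_le_pow_right₀ hPone (by norm_num)
    linarith
  have hN1 : (1 : ℝ) ≤ N := le_trans (one_le_pow₀ hPone) p4
  have hP2' : (P : ℝ) ≤ (N : ℝ) ^ c₁ :=
    hP2.trans (Real.rpow_le_rpow_of_exponent_le hN1 (min_le_left _ _))
  obtain ⟨hz1, e, he0, he1, he2, he3, hz2⟩ := hN₁ N P ((P : ℝ) ^ 62) ((le_max_left _ _).trans hN) hP1 hP2' hT2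
    (pow_le_pow_right₀ hPone (by norm_num))
  have hL2 : (Real.log N) ^ 3 ≤ P := by
    refine le_trans ?_ p3
    rw [← Real.rpow_natCast]
    norm_num
  -- window facts for all v
  have hwf : ∀ v : ℕ, N ≤ v * P ^ 5 → v ≤ N → 1 ≤ N / P ^ 20 ∧ 4 * (N / P ^ 20) ≤ v ∧ P + N / P ^ 20 ≤ v ∧
      32 ≤ Real.log v ∧ 2 ≤ v := by
    intro v hv1 hv2
    have hPn20 : 0 < P ^ 20 := by positivity
    have hHN : P ^ 20 * (N / P ^ 20) ≤ N := Nat.mul_div_le N (P ^ 20)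
    have a1 : 1 ≤ N / P ^ 20 := by
      rw [Nat.one_le_div_iff hPn20]
      have : ((P ^ 20 : ℕ) : ℝ) ≤ N := by
        push_cast
        exact (pow_le_pow_right₀ hPone (by norm_num)).trans p4
      exact_mod_cast this
    have a2 : P ^ 15 * (N / P ^ 20) ≤ v := by
      have h1 : P ^ 5 * (P ^ 15 * (N / P ^ 20)) ≤ P ^ 5 * v := by
        calc P ^ 5 * (P ^ 15 * (N / P ^ 20)) = P ^ 20 * (N / P ^ 20) := by ring
          _ ≤ N := hHN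
          _ ≤ v * P ^ 5 := hv1
          _ = P ^ 5 * v := by ring
      exact Nat.le_of_mul_le_mul_left h1 (by positivity)
    have a3 : 4 * (N / P ^ 20) ≤ P ^ 15 * (N / P ^ 20) := by
      apply Nat.mul_le_mul_right
      calc 4 = 2 ^ 2 := by norm_num
        _ ≤ P ^ 2 := Nat.pow_le_pow_left hPn 2
        _ ≤ P ^ 15 := Nat.pow_le_pow_right (by omega) (by norm_num)
    have a4 : (P : ℝ) ^ 100 ≤ v := by
      have h1 : (N : ℝ) ≤ v * (P : ℝ) ^ 5 := by exact_mod_cast hv1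
      have h2 : (P : ℝ) ^ 100 * (P : ℝ) ^ 5 ≤ v * (P : ℝ) ^ 5 := by
        rw [← pow_add]
        exact ((pow_le_pow_right₀ hPone (by norm_num)).trans p4).trans h1
      exact le_of_mul_le_mul_right h2 (pow_pos hP0 _)
    have a5 : (P : ℝ) ^ 2 ≤ v := (pow_le_pow_right₀ hPone (by norm_num)).trans a4
    have a6 : 2 * P ≤ v := by
      have : 2 * (P : ℝ) ≤ v := by
        have : (P : ℝ) ^ 2 = P * P := by ring
        nlinarith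
      exact_mod_cast this
    refine ⟨a1, a3.trans a2, by omega, ?_, by omega⟩
    have h3 := Real.log_le_log (pow_pos hP0 100) a4
    rw [Real.log_pow] at h3
    have h4 : (1 : ℝ) ≤ Real.log P := by
      rw [Real.le_log_iff_exp_le hP0]
      linarith [Real.exp_one_lt_three]
    push_cast at h3
    linarith
  have hkf : ∀ v : ℕ, N ≤ v * P ^ 5 → v ≤ N →
      ((⌊Real.log v / 16⌋₊ : ℕ) : ℝ) ≤ Real.log v / 16 ∧ Real.log v / 16 < (⌊Real.log v / 16⌋₊ : ℕ) + 1 := by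
    intro v hv1 hv2
    have := (hwf v hv1 hv2).2.2.2.1
    exact ⟨Nat.floor_le (by positivity), Nat.lt_floor_add_one _⟩
  have hθ0 : 0 < ((P : ℝ) ^ 60)⁻¹ := inv_pos.2 (pow_pos hP0 _)
  have hθ1 : ((P : ℝ) ^ 60)⁻¹ ≤ 1 := inv_le_one_of_one_le₀ (one_le_pow₀ hPone)
  let D : CH → ℝ := fun x =>
    if x = ch1 then Cw * Cg *
      (∑ ρ ∈ ZF zt (15 / 16) ((P : ℝ) ^ 62), mul zt ρ * (N : ℝ) ^ (-((1 - ρ.re) / 4))) + ((P : ℝ) ^ 10)⁻¹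
    else Cw * Cg *
      (∑ ρ ∈ ZF (LL x) (15 / 16) ((P : ℝ) ^ 62), mul (LL x) ρ * (N : ℝ) ^ (-((1 - ρ.re) / 4))) +
        ((P : ℝ) ^ 10)⁻¹
  have hS0 : ∀ f : ℂ → ℂ, 0 ≤ Cw * Cg *
      (∑ ρ ∈ ZF f (15 / 16) ((P : ℝ) ^ 62), mul f ρ * (N : ℝ) ^ (-((1 - ρ.re) / 4))) + ((P : ℝ) ^ 10)⁻¹ := by
    intro f
    have h1 : 0 ≤ (∑ ρ ∈ ZF f (15 / 16) ((P : ℝ) ^ 62), mul f ρ * (N : ℝ) ^ (-((1 - ρ.re) / 4))) :=
      Finset.sum_nonneg fun ρ _ => by unfold mul; positivity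
    have h2 : 0 ≤ Cw * Cg := hWG0.le
    have h3 : 0 ≤ ((P : ℝ) ^ 10)⁻¹ := inv_nonneg.2 (pow_nonneg hP0.le _)
    have := mul_nonneg h2 h1
    linarith
  -- square roots
  have hsq : ∀ f : ℂ → ℂ, (∀ ρ ∈ ZF f (15 / 16) ((P : ℝ) ^ 62), 1 ≤ mul f ρ) →
      Real.sqrt (Cw * Cg *
      (∑ ρ ∈ ZF f (15 / 16) ((P : ℝ) ^ 62), mul f ρ * (N : ℝ) ^ (-((1 - ρ.re) / 4))) + ((P : ℝ) ^ 10)⁻¹) ≤
      Cw * Cg * (∑ ρ ∈ ZF f (15 / 16) ((P : ℝ) ^ 62), mul f ρ * (N : ℝ) ^ (-((1 - ρ.re) / 8))) +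
        ((P : ℝ) ^ 5)⁻¹ := by
    intro f hf
    have h1 := PropZ_sqrt (ZF f (15 / 16) ((P : ℝ) ^ 62)) (mul f) (fun ρ => (N : ℝ) ^ (-((1 - ρ.re) / 4)))
      (fun ρ => (N : ℝ) ^ (-((1 - ρ.re) / 8))) (Cw * Cg) (((P : ℝ) ^ 5)⁻¹) (by positivity)
      (inv_nonneg.2 (pow_nonneg hP0.le _)) hf (fun _ _ => Real.rpow_nonneg hN0.le _)
      (fun ρ _ => PropZ_rpow N ρ.re hN0)
    have h2 : (((P : ℝ) ^ 5)⁻¹) ^ 2 = ((P : ℝ) ^ 10)⁻¹ := by rw [inv_pow, ← pow_mul]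
    rw [h2] at h1
    refine h1.trans ?_
    have h4 : Real.sqrt (Cw * Cg) ≤ Cw * Cg := by
      rw [Real.sqrt_le_left (by linarith)]
      nlinarith
    have h5 : 0 ≤ (∑ ρ ∈ ZF f (15 / 16) ((P : ℝ) ^ 62), mul f ρ * (N : ℝ) ^ (-((1 - ρ.re) / 8))) :=
      Finset.sum_nonneg fun ρ _ => by unfold mul; positivity
    have := mul_le_mul_of_nonneg_right h4 h5
    linarith
  have hA1 : Cw * Cg * (ε / (2 * (Cw * Cg))) = ε / 2 := by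
    field_simp
  have hA2 : (P : ℝ)⁻¹ ≤ ε / 2 := by
    have h1 : 2 / ε ≤ P := by
      have : 0 < Cw * Cg * Cp := by linarith
      linarith
    rw [inv_le_comm₀ hP0 (by positivity), inv_div]
    exact h1
  refine ⟨e, D, he0, he1, he2, he3, fun x => ?_, fun x hx hx1 v hv1 hv2 => ?_, fun v hv1 hv2 => ?_, ?_, ?_⟩
  · simp only [D]
    split_ifs
    · exact hS0 _
    · exact hS0 _
  · -- characters
    obtain ⟨q, χ⟩ := x
    have hχ := prims_ne_one P _ hx hx1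
    obtain ⟨hq1, hq2, hq3⟩ := (mem_prims P _).1 hx
    simp only at hχ hq1 hq2 hq3
    have : NeZero q := ⟨by omega⟩
    obtain ⟨w1, w2, w3, w4, w5⟩ := hwf v hv1 hv2
    obtain ⟨k1, k2⟩ := hkf v hv1 hv2
    simp only [D]
    rw [if_neg hx1, LL_mk]
    refine PropZ_core χ.LFunction (fun m => (ArithmeticFunction.vonMangoldt m : ℂ) * χ (m : ZMod q))
      (fun m => (aP P m : ℂ) * χ (m : ZMod q)) N P v ⌊Real.log v / 16⌋₊ Cw Cg Cp _ hCw hCg1 hCp hPn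
      (by linarith) (by linarith) hL2 p4 p5 hv1 hv2 k1 k2
      (hwin _ (fun n hn => ?_) v (N / P ^ 20) ⌊Real.log v / 16⌋₊ ((P : ℝ) ^ 60)⁻¹ w1 w2 w4 k1 k2 hθ0 hθ1)
      ((hg1 P q ⌊Real.log v / 16⌋₊ χ hχ hPn hq2).trans ?_)
      (hpr P (N / P ^ 20) v (fun m => χ (m : ZMod q)) w1 w3 w5 (fun m => DirichletCharacter.norm_le_one χ _))
      (fun ρ hρ => ?_)
    · have h6 : ‖χ (n : ZMod q)‖ ≤ 1 := DirichletCharacter.norm_le_one χ _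
      have h7 : ArithmeticFunction.vonMangoldt n ≤ Real.log n := ArithmeticFunction.vonMangoldt_le_log
      have h8 : 0 ≤ ArithmeticFunction.vonMangoldt n := ArithmeticFunction.vonMangoldt_nonneg
      rw [norm_mul, Complex.norm_real, Real.norm_of_nonneg h8]
      nlinarith
    · have h9 : C1 ≤ Cg := by linarith
      have h10 : 0 ≤ (1 / 2 : ℝ) ^ ⌊Real.log v / 16⌋₊ := by positivity
      have h11 : 0 ≤ (∑ ρ ∈ ZF χ.LFunction (15 / 16) ((P : ℝ) ^ 62),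
          mul χ.LFunction ρ * ((1 / 16) / (17 / 16 - ρ.re)) ^ (⌊Real.log v / 16⌋₊ + 1)) := by
        refine Finset.sum_nonneg fun ρ hρ => ?_
        rw [mem_ZF_chi q χ hχ] at hρ
        have h12 := re_lt_one_chi q χ hχ ρ hρ.1
        have h13 : 0 < 17 / 16 - ρ.re := by linarith
        have h14 : 0 ≤ mul χ.LFunction ρ := by unfold mul; positivity
        positivity
      gcongr
    · rw [mem_ZF_chi q χ hχ] at hρ
      exact ⟨hρ.2.1, re_lt_one_chi q χ hχ ρ hρ.1⟩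
  · obtain ⟨w1, w2, w3, w4, w5⟩ := hwf v hv1 hv2
    obtain ⟨k1, k2⟩ := hkf v hv1 hv2
    simp only [D]
    rw [if_pos trivial]
    have hpr' : ‖wnd (fun m => (ArithmeticFunction.vonMangoldt m : ℂ) - 1) (N / P ^ 20) v -
        wnd (fun m => (aP P m : ℂ) - 1) (N / P ^ 20) v‖ ≤
        Cp * Real.sqrt v * (Real.log v) ^ 2 / ((N / P ^ 20 : ℕ) : ℝ) := by
      have h1 := hpr P (N / P ^ 20) v (fun _ => 1) w1 w3 w5 (fun _ => by simp)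
      have h2 : wnd (fun m => (ArithmeticFunction.vonMangoldt m : ℂ) - 1) (N / P ^ 20) v -
        wnd (fun m => (aP P m : ℂ) - 1) (N / P ^ 20) v =
        wnd (fun m => (ArithmeticFunction.vonMangoldt m : ℂ) * 1) (N / P ^ 20) v -
        wnd (fun m => (aP P m : ℂ) * 1) (N / P ^ 20) v := by
        unfold wnd
        rw [← Finset.sum_sub_distrib, ← Finset.sum_sub_distrib]
        exact Finset.sum_congr rfl fun m _ => by ring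
      rw [h2]
      exact h1
    refine PropZ_core zt (fun m => (ArithmeticFunction.vonMangoldt m : ℂ) - 1)
      (fun m => (aP P m : ℂ) - 1) N P v ⌊Real.log v / 16⌋₊ Cw Cg Cp _ hCw hCg1 hCp hPn
      (by linarith) (by linarith) hL2 p4 p5 hv1 hv2 k1 k2
      (hwin _ (fun n hn => ?_) v (N / P ^ 20) ⌊Real.log v / 16⌋₊ ((P : ℝ) ^ 60)⁻¹ w1 w2 w4 k1 k2 hθ0 hθ1)
      ((hg2 P ⌊Real.log v / 16⌋₊ hPn).trans ?_) hpr' (fun ρ hρ => ?_)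
    · have h7 : ArithmeticFunction.vonMangoldt n ≤ Real.log n := ArithmeticFunction.vonMangoldt_le_log
      have h8 : 0 ≤ ArithmeticFunction.vonMangoldt n := ArithmeticFunction.vonMangoldt_nonneg
      refine (norm_sub_le _ _).trans ?_
      rw [Complex.norm_real, Real.norm_of_nonneg h8, norm_one]
      linarith
    · have h9 : C2 ≤ Cg := by linarith
      have h10 : 0 ≤ (1 / 2 : ℝ) ^ ⌊Real.log v / 16⌋₊ := by positivity
      have h11 : 0 ≤ (∑ ρ ∈ ZF zt (15 / 16) ((P : ℝ) ^ 62),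
          mul zt ρ * ((1 / 16) / (17 / 16 - ρ.re)) ^ (⌊Real.log v / 16⌋₊ + 1)) := by
        refine Finset.sum_nonneg fun ρ hρ => ?_
        rw [mem_ZF_zt] at hρ
        have h12 := re_lt_one_zt ρ hρ.1
        have h13 : 0 < 17 / 16 - ρ.re := by linarith
        have h14 : 0 ≤ mul zt ρ := by unfold mul; positivity
        positivity
      gcongr
    · rw [mem_ZF_zt] at hρ
      exact ⟨hρ.2.1, re_lt_one_zt ρ hρ.1⟩
  · simp only [D]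
    rw [if_pos trivial]
    refine (hsq zt (fun ρ hρ => ?_)).trans ?_
    · rw [mem_ZF_zt] at hρ
      exact one_le_mul_zt ρ hρ.1
    · have h1 : Cw * Cg *
          (∑ ρ ∈ ZF zt (15 / 16) ((P : ℝ) ^ 62), mul zt ρ * (N : ℝ) ^ (-((1 - ρ.re) / 8))) ≤
          Cw * Cg * (ε / (2 * (Cw * Cg))) := by gcongr
      have h2 : ((P : ℝ) ^ 5)⁻¹ ≤ (P : ℝ)⁻¹ := by
        apply inv_anti₀ hP0
        calc (P : ℝ) = (P : ℝ) ^ 1 := (pow_one _).symm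
          _ ≤ (P : ℝ) ^ 5 := pow_le_pow_right₀ hPone (by norm_num)
      linarith
  · have h1 : ∀ x ∈ (prims P).filter (fun x => x ≠ e ∧ x ≠ ch1), Real.sqrt (D x) ≤
        Cw * Cg * (∑ ρ ∈ ZF (LL x) (15 / 16) ((P : ℝ) ^ 62),
          mul (LL x) ρ * (N : ℝ) ^ (-((1 - ρ.re) / 8))) + ((P : ℝ) ^ 5)⁻¹ := by
      intro x hx
      rw [Finset.mem_filter] at hx
      obtain ⟨hx, _, hx1⟩ := hx
      simp only [D]
      rw [if_neg hx1]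
      refine hsq (LL x) (fun ρ hρ => ?_)
      obtain ⟨q, χ⟩ := x
      have hχ := prims_ne_one P _ hx hx1
      obtain ⟨hq1, hq2, hq3⟩ := (mem_prims P _).1 hx
      simp only at hχ hq1 hq2 hq3
      have : NeZero q := ⟨by omega⟩
      rw [LL_mk] at hρ ⊢
      rw [mem_ZF_chi q χ hχ] at hρ
      exact one_le_mul_chi q χ hχ ρ hρ.1
    refine (Finset.sum_le_sum h1).trans ?_
    rw [Finset.sum_add_distrib, ← Finset.mul_sum, Finset.sum_const, nsmul_eq_mul]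
    have hfe : (prims P).filter (fun x => x ≠ e ∧ x ≠ ch1) = (prims P).filter (fun x => x ≠ ch1 ∧ x ≠ e) := by
      ext x
      simp only [Finset.mem_filter]
      tauto
    rw [hfe]
    have h2 : Cw * Cg * (∑ x ∈ (prims P).filter (fun x => x ≠ ch1 ∧ x ≠ e),
        ∑ ρ ∈ ZF (LL x) (15 / 16) ((P : ℝ) ^ 62), mul (LL x) ρ * (N : ℝ) ^ (-((1 - ρ.re) / 8))) ≤
        Cw * Cg * (ε / (2 * (Cw * Cg))) := by gcongr
    have h3 : ((((prims P).filter (fun x => x ≠ ch1 ∧ x ≠ e)).card : ℕ) : ℝ) ≤ (P : ℝ) ^ 2 := by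
      have : ((prims P).filter (fun x => x ≠ ch1 ∧ x ≠ e)).card ≤ P ^ 2 :=
        (Finset.card_filter_le _ _).trans (card_prims_le P)
      exact_mod_cast this
    have h4 : ((((prims P).filter (fun x => x ≠ ch1 ∧ x ≠ e)).card : ℕ) : ℝ) * ((P : ℝ) ^ 5)⁻¹ ≤ (P : ℝ)⁻¹ := by
      calc ((((prims P).filter (fun x => x ≠ ch1 ∧ x ≠ e)).card : ℕ) : ℝ) * ((P : ℝ) ^ 5)⁻¹
          ≤ (P : ℝ) ^ 2 * ((P : ℝ) ^ 5)⁻¹ :=
            mul_le_mul_of_nonneg_right h3 (inv_nonneg.2 (pow_nonneg hP0.le _))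
        _ = ((P : ℝ) ^ 3)⁻¹ := by field_simp
        _ ≤ (P : ℝ)⁻¹ := by
            apply inv_anti₀ hP0
            calc (P : ℝ) = (P : ℝ) ^ 1 := (pow_one _).symm
              _ ≤ (P : ℝ) ^ 3 := pow_le_pow_right₀ hPone (by norm_num)
    linarith

end Pool.Agent.Lib.MP_629a14_nt.Lf
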