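import Pool.Agent.Lib.MP_629a14_nt.Th.Local

/-! Taylor coefficients at `1 + r + it`. -/

set_option autoImplicit false

namespace Pool.Agent.Lib.MP_629a14_nt.Lf

open Finset Pool.Agent.Lib.MP_629a14_nt.Th

/-- The `k`-th Taylor coefficient at `1 + r + it` of the Dirichlet series with coefficients `a`, normalised. -/
noncomputable def BB (a : ℕ → ℂ) (r : ℝ) (k : ℕ) (t : ℝ) : ℂ :=
  ((r ^ (k + 1) / (k.factorial : ℝ) : ℝ) : ℂ) *
    ∑' n : ℕ, a n * (((Real.log n) ^ k : ℝ) : ℂ) * (n : ℂ) ^ (-((1 : ℂ) + r + t * Complex.I))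

private lemma BB_re (r t : ℝ) : ((1 : ℂ) + r + t * Complex.I).re = 1 + r := by
  simp

private lemma BB_im (r t : ℝ) : ((1 : ℂ) + r + t * Complex.I).im = t := by
  simp

private lemma BB_ctr_re (t : ℝ) : (ctr t).re = 17 / 16 := by
  have h : ctr t = ((17 / 16 : ℝ) : ℂ) + (t : ℂ) * Complex.I := by
    unfold ctr; push_cast; ring
  rw [h]; simp

private lemma BB_dist {r : ℝ} (t : ℝ) (hr2 : r ≤ 1 / 16) :
    ‖((1 : ℂ) + r + t * Complex.I) - ctr t‖ ≤ 1 / 16 - r := by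
  have h : ((1 : ℂ) + r + t * Complex.I) - ctr t = ((r - 1 / 16 : ℝ) : ℂ) := by
    unfold ctr; push_cast; ring
  rw [h, Complex.norm_real, Real.norm_eq_abs, abs_sub_comm, abs_of_nonneg (by linarith)]

/-- `BB` in terms of the iterated derivative of the L-series. -/
private lemma BB_eq (a : ℕ → ℂ) (r : ℝ) (hr : 0 < r) (k : ℕ) (t : ℝ)
    (h : LSeries.abscissaOfAbsConv a < (((1 : ℂ) + r + t * Complex.I).re : EReal)) :
    BB a r k t = ((r ^ (k + 1) / (k.factorial : ℝ) : ℝ) : ℂ) *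
      ((-1) ^ k * iteratedDeriv k (LSeries a) ((1 : ℂ) + r + t * Complex.I)) := by
  have h1 : iteratedDeriv k (LSeries a) ((1 : ℂ) + r + t * Complex.I) =
      (-1) ^ k * LSeries (LSeries.logMul^[k] a) ((1 : ℂ) + r + t * Complex.I) :=
    LSeries_iteratedDeriv k h
  have h2 : ∀ (m n : ℕ), n ≠ 0 → (LSeries.logMul^[m] a) n = (Complex.log n) ^ m * a n := by
    intro m n hn
    induction m with
    | zero => simp
    | succ m ih =>
      rw [Function.iterate_succ', Function.comp_apply]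
      simp only [LSeries.logMul]
      rw [ih]; ring
  have h3 : LSeries (LSeries.logMul^[k] a) ((1 : ℂ) + r + t * Complex.I) =
      ∑' n : ℕ, a n * (((Real.log n) ^ k : ℝ) : ℂ) *
        (n : ℂ) ^ (-((1 : ℂ) + r + t * Complex.I)) := by
    unfold LSeries
    apply tsum_congr
    intro n
    by_cases hn : n = 0
    · subst hn
      have hne : (-((1 : ℂ) + r + t * Complex.I)) ≠ 0 := by
        have := BB_re r t
        intro h0
        rw [neg_eq_zero] at h0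
        rw [h0, Complex.zero_re] at this
        linarith
      have hz0 : (((0 : ℕ) : ℂ)) ^ (-((1 : ℂ) + r + t * Complex.I)) = 0 := by
        rw [Nat.cast_zero]; exact Complex.zero_cpow hne
      rw [hz0, mul_zero]
      simp [LSeries.term]
    · rw [LSeries.term_of_ne_zero hn, h2 k n hn]
      have h4 : Complex.log (n : ℂ) = ((Real.log n : ℝ) : ℂ) := by
        rw [Complex.natCast_log]
      rw [h4, Complex.cpow_neg]
      push_cast
      field_simp
  rw [h1, h3]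
  unfold BB
  have h5 : ((-1 : ℂ) ^ k * ((-1) ^ k * ∑' n : ℕ, a n * (((Real.log n) ^ k : ℝ) : ℂ) *
        (n : ℂ) ^ (-((1 : ℂ) + r + t * Complex.I)))) =
      ∑' n : ℕ, a n * (((Real.log n) ^ k : ℝ) : ℂ) *
        (n : ℂ) ^ (-((1 : ℂ) + r + t * Complex.I)) := by
    rw [← mul_assoc, ← mul_pow]; simp
  rw [h5]

private lemma BB_iter (m ρ s : ℂ) (hs : s ≠ ρ) (k : ℕ) :
    iteratedDeriv k (fun z => m / (z - ρ)) s = m * ((-1) ^ k * (k.factorial : ℂ) / (s - ρ) ^ (k + 1)) ∧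
      ContDiffAt ℂ k (fun z => m / (z - ρ)) s := by
  refine ⟨?_, ?_⟩
  · induction k generalizing s with
    | zero => simp; rw [div_eq_mul_inv]
    | succ k ih =>
      rw [iteratedDeriv_succ]
      have hev : iteratedDeriv k (fun z => m / (z - ρ)) =ᶠ[nhds s]
          fun z => m * ((-1) ^ k * (k.factorial : ℂ) / (z - ρ) ^ (k + 1)) := by
        have : {z : ℂ | z ≠ ρ} ∈ nhds s := isOpen_ne.mem_nhds hs
        filter_upwards [this] with z hz
        exact ih z hz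
      rw [hev.deriv_eq]
      have hsr : s - ρ ≠ 0 := sub_ne_zero.mpr hs
      have hd : HasDerivAt (fun z => m * ((-1) ^ k * (k.factorial : ℂ) / (z - ρ) ^ (k + 1)))
          (m * ((0 * (s - ρ) ^ (k + 1) - (-1) ^ k * (k.factorial : ℂ) *
            (((k + 1 : ℕ) : ℂ) * (s - ρ) ^ k * 1)) / ((s - ρ) ^ (k + 1)) ^ 2)) s := by
        apply HasDerivAt.const_mul
        apply HasDerivAt.div
        · exact hasDerivAt_const s _
        · have h7 : HasDerivAt (fun z : ℂ => z - ρ) 1 s := (hasDerivAt_id s).sub_const ρ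
          have h8 := h7.fun_pow (k + 1)
          simpa using h8
        · exact pow_ne_zero _ hsr
      rw [hd.deriv]
      rw [Nat.factorial_succ]
      push_cast
      have h1 : (s - ρ) ^ (k + 1) ≠ 0 := pow_ne_zero _ hsr
      have h2 : (s - ρ) ^ (k + 1 + 1) ≠ 0 := pow_ne_zero _ hsr
      field_simp
      ring
  · apply ContDiffAt.div contDiffAt_const (contDiffAt_id.sub contDiffAt_const)
    exact sub_ne_zero.mpr hs

/-- The Taylor coefficients of a sum of poles and an analytic function. -/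
private lemma BB_core (t r : ℝ) (hr : 0 < r) (hr2 : r ≤ 1 / 16) (k : ℕ) (Z : Finset ℂ) (m : ℂ → ℝ)
    (G : ℂ → ℂ) (M : ℝ) (hne : ∀ ρ ∈ Z, ((1 : ℂ) + r + t * Complex.I) ≠ ρ)
    (hG : AnalyticOnNhd ℂ G (Metric.ball (ctr t) (1 / 4)))
    (hG2 : ∀ z ∈ Metric.closedBall (ctr t) (1 / 8), ‖G z‖ ≤ M) :
    ‖((r ^ (k + 1) / (k.factorial : ℝ) : ℝ) : ℂ) * ((-1) ^ k *
        (-iteratedDeriv k (fun z => ∑ ρ ∈ Z, (m ρ : ℂ) / (z - ρ) + G z)
          ((1 : ℂ) + r + t * Complex.I))) +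
      (r : ℂ) ^ (k + 1) * ∑ ρ ∈ Z, (m ρ : ℂ) / ((1 : ℂ) + r + t * Complex.I - ρ) ^ (k + 1)‖ ≤
      M * (16 * r) ^ (k + 1) := by
  set s : ℂ := (1 : ℂ) + r + t * Complex.I with hs
  have hd : ‖s - ctr t‖ ≤ 1 / 16 - r := BB_dist t hr2
  have hin : s ∈ Metric.ball (ctr t) (1 / 4) := by
    rw [Metric.mem_ball, dist_eq_norm]; linarith
  have hM0 : 0 ≤ M := (norm_nonneg _).trans (hG2 (ctr t) (Metric.mem_closedBall_self (by norm_num)))
  have hGan : AnalyticAt ℂ G s := hG s hin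
  have hGc : ContDiffAt ℂ k G s := hGan.contDiffAt
  have hsumc : ContDiffAt ℂ k (fun z => ∑ ρ ∈ Z, (m ρ : ℂ) / (z - ρ)) s := by
    apply ContDiffAt.sum
    intro ρ hρ
    exact (BB_iter (m ρ) ρ s (hne ρ hρ) k).2
  have e1 : iteratedDeriv k (fun z => ∑ ρ ∈ Z, (m ρ : ℂ) / (z - ρ) + G z) s =
      ∑ ρ ∈ Z, (m ρ : ℂ) * ((-1) ^ k * (k.factorial : ℂ) /
      (s - ρ) ^ (k + 1)) + iteratedDeriv k G s := by
    have e2 : (fun z => ∑ ρ ∈ Z, (m ρ : ℂ) / (z - ρ) + G z) =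
        (fun z => ∑ ρ ∈ Z, (m ρ : ℂ) / (z - ρ)) + G := rfl
    rw [e2, iteratedDeriv_add hsumc hGc]
    congr 1
    have e3 : iteratedDeriv k (fun z => ∑ ρ ∈ Z, (m ρ : ℂ) / (z - ρ)) s =
        ∑ ρ ∈ Z, iteratedDeriv k (fun z => (m ρ : ℂ) / (z - ρ)) s := by
      have := iteratedDeriv_fun_sum (𝕜 := ℂ) (n := k) (x := s) (I := Z)
        (f := fun ρ z => (m ρ : ℂ) / (z - ρ))
        (fun ρ hρ => (BB_iter (m ρ) ρ s (hne ρ hρ) k).2)
      exact this
    rw [e3]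
    apply Finset.sum_congr rfl
    intro ρ hρ
    exact (BB_iter (m ρ) ρ s (hne ρ hρ) k).1
  have hGb : ‖iteratedDeriv k G s‖ ≤ k.factorial * M / (1 / 16 : ℝ) ^ k := by
    apply Complex.norm_iteratedDeriv_le_of_forall_mem_sphere_norm_le k (by norm_num)
    · apply DifferentiableOn.diffContOnCl
      intro z hz
      have hz' : z ∈ Metric.ball (ctr t) (1 / 4) := by
        have h1 : closure (Metric.ball s (1 / 16)) ⊆ Metric.closedBall s (1 / 16) :=
          Metric.closure_ball_subset_closedBall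
        have h2 := h1 hz
        rw [Metric.mem_closedBall, dist_eq_norm] at h2
        rw [Metric.mem_ball, dist_eq_norm]
        have h3 : ‖z - ctr t‖ ≤ ‖z - s‖ + ‖s - ctr t‖ := norm_sub_le_norm_sub_add_norm_sub _ _ _
        linarith
      exact (hG z hz').differentiableAt.differentiableWithinAt
    · intro z hz
      apply hG2 z
      rw [mem_sphere_iff_norm] at hz
      rw [Metric.mem_closedBall, dist_eq_norm]
      have h3 : ‖z - ctr t‖ ≤ ‖z - s‖ + ‖s - ctr t‖ := norm_sub_le_norm_sub_add_norm_sub _ _ _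
      linarith
  have hfac : (0 : ℝ) < (k.factorial : ℝ) := by exact_mod_cast Nat.factorial_pos k
  have hfacC : (k.factorial : ℂ) ≠ 0 := by exact_mod_cast (Nat.factorial_pos k).ne'
  have key : ((r ^ (k + 1) / (k.factorial : ℝ) : ℝ) : ℂ) * ((-1) ^ k *
        (-iteratedDeriv k (fun z => ∑ ρ ∈ Z, (m ρ : ℂ) / (z - ρ) + G z) s)) +
      (r : ℂ) ^ (k + 1) * ∑ ρ ∈ Z, (m ρ : ℂ) / (s - ρ) ^ (k + 1) =
      ((r ^ (k + 1) / (k.factorial : ℝ) : ℝ) : ℂ) * ((-1) ^ k * (-iteratedDeriv k G s)) := by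
    rw [e1]
    have e4 : ∑ ρ ∈ Z, (m ρ : ℂ) * ((-1) ^ k * (k.factorial : ℂ) / (s - ρ) ^ (k + 1)) =
        (-1) ^ k * (k.factorial : ℂ) * ∑ ρ ∈ Z, (m ρ : ℂ) / (s - ρ) ^ (k + 1) := by
      rw [Finset.mul_sum]
      apply Finset.sum_congr rfl
      intro ρ _
      ring
    rw [e4]
    have e5 : ((-1 : ℂ) ^ k) * (-1) ^ k = 1 := by rw [← mul_pow]; simp
    push_cast
    generalize ∑ ρ ∈ Z, (m ρ : ℂ) / (s - ρ) ^ (k + 1) = S
    generalize iteratedDeriv k G s = D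
    have e6 : (r : ℂ) ^ (k + 1) / (k.factorial : ℂ) * ((-1) ^ k *
        -((-1) ^ k * (k.factorial : ℂ) * S + D)) =
        -((((-1 : ℂ) ^ k) * (-1) ^ k) * ((r : ℂ) ^ (k + 1) * S)) +
        (r : ℂ) ^ (k + 1) / (k.factorial : ℂ) * ((-1) ^ k * -D) := by
      field_simp
      ring
    rw [e6, e5]
    ring
  rw [key, norm_mul, norm_mul, norm_neg, norm_pow, norm_neg, norm_one, one_pow, one_mul,
    Complex.norm_real, Real.norm_of_nonneg (by positivity)]
  refine (mul_le_mul_of_nonneg_left hGb (by positivity)).trans ?_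
  have e7 : r ^ (k + 1) / (k.factorial : ℝ) * (k.factorial * M / (1 / 16 : ℝ) ^ k) =
      M * (16 ^ k * r ^ (k + 1)) := by
    have h1 : (1 / 16 : ℝ) ^ k = 1 / 16 ^ k := by rw [div_pow, one_pow]
    rw [h1]
    field_simp
  rw [e7, mul_pow]
  apply mul_le_mul_of_nonneg_left _ hM0
  apply mul_le_mul_of_nonneg_right _ (by positivity)
  exact pow_le_pow_right₀ (by norm_num) (Nat.le_succ k)

/-- Proof. For `Re s > 1`, `-L'/L(s) = ∑ Λ(n) χ(n) n^{-s}`, so the sum in `BB` is `(-1)^k (d/ds)^k (-L'/L)` at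
`s₀ = 1 + r + it`. By `local_chi`, `-L'/L = -∑_{ρ ∈ Z} m_ρ/(z-ρ) - G` near `s₀`, whose `k`-th derivative divided by
`k!` is `-∑ m_ρ (-1)^k/(s₀-ρ)^{k+1} - G^{(k)}(s₀)/k!`, and `‖G^{(k)}(s₀)/k!‖ ≤ C L 16^k` by Cauchy's estimate on the circle
of radius `1/16` about `s₀`, which lies in `closedBall (ctr t) (1/8)`. Compare `Th/EFchi.lean`. -/
theorem BB_chi : ∃ C : ℝ, 1 ≤ C ∧ ∀ (q : ℕ) [NeZero q] (χ : DirichletCharacter ℂ q), χ ≠ 1 →
    ∀ (t r L : ℝ), 0 < r → r ≤ 1 / 16 → Real.log (q * (|t| + 3)) ≤ L →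
    ∃ Z : Finset ℂ, (∀ ρ, ρ ∈ Z ↔ ‖ρ - ctr t‖ ≤ 1 / 4 ∧ χ.LFunction ρ = 0) ∧ ∀ k : ℕ,
      ‖BB (fun n => (ArithmeticFunction.vonMangoldt n : ℂ) * χ (n : ZMod q)) r k t +
        (r : ℂ) ^ (k + 1) * ∑ ρ ∈ Z, (mul χ.LFunction ρ : ℂ) / ((1 : ℂ) + r + t * Complex.I - ρ) ^ (k + 1)‖ ≤
        C * L * (16 * r) ^ (k + 1) := by
  obtain ⟨C, hC1, hC⟩ := local_chi
  refine ⟨C, hC1, ?_⟩
  intro q hq χ hχ t r L hr hr2 hL
  obtain ⟨Z, hZ, -, -, G, hG, hG2, hG3⟩ := hC q χ hχ t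
  refine ⟨Z, hZ, ?_⟩
  intro k
  set s : ℂ := (1 : ℂ) + r + t * Complex.I with hs
  have hsre : s.re = 1 + r := BB_re r t
  have hd : ‖s - ctr t‖ ≤ 1 / 16 - r := BB_dist t hr2
  set a : ℕ → ℂ := fun n => (ArithmeticFunction.vonMangoldt n : ℂ) * χ (n : ZMod q) with ha
  have hafun : a = (fun n : ℕ => χ (n : ZMod q)) * (fun n : ℕ => (ArithmeticFunction.vonMangoldt n : ℂ)) := by
    funext n
    simp only [ha, Pi.mul_apply]
    ring
  have habs : LSeries.abscissaOfAbsConv a < (s.re : EReal) := by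
    have h1 : LSeries.abscissaOfAbsConv a ≤ ((1 + r / 2 : ℝ) : EReal) := by
      have h2 : LSeriesSummable a (((1 + r / 2 : ℝ)) : ℂ) := by
        rw [hafun]
        apply DirichletCharacter.LSeriesSummable_twist_vonMangoldt
        rw [Complex.ofReal_re]; linarith
      have h3 := h2.abscissaOfAbsConv_le
      rwa [Complex.ofReal_re] at h3
    refine lt_of_le_of_lt h1 ?_
    rw [hsre]
    exact_mod_cast (by linarith : (1 + r / 2 : ℝ) < 1 + r)
  rw [BB_eq a r hr k t habs]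
  have hLne : ∀ z : ℂ, 1 < z.re → χ.LFunction z ≠ 0 := by
    intro z hz
    rw [DirichletCharacter.LFunction_eq_LSeries χ hz]
    exact DirichletCharacter.LSeries_ne_zero_of_one_lt_re χ hz
  have hev : (LSeries a) =ᶠ[nhds s] fun z => -(∑ ρ ∈ Z, (mul χ.LFunction ρ : ℂ) / (z - ρ) + G z) := by
    have hU : Metric.ball s r ∈ nhds s := Metric.ball_mem_nhds _ hr
    filter_upwards [hU] with z hz
    rw [Metric.mem_ball, dist_eq_norm] at hz
    have hzre : 1 < z.re := by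
      have := Complex.abs_re_le_norm (z - s)
      rw [Complex.sub_re, hsre] at this
      have h2 := (abs_le.mp this).1
      linarith
    have hz4 : z ∈ Metric.ball (ctr t) (1 / 4) := by
      rw [Metric.mem_ball, dist_eq_norm]
      have h3 : ‖z - ctr t‖ ≤ ‖z - s‖ + ‖s - ctr t‖ := norm_sub_le_norm_sub_add_norm_sub _ _ _
      linarith
    rw [← hG3 z hz4 (hLne z hzre), hafun, DirichletCharacter.LSeries_twist_vonMangoldt_eq χ hzre,
      DirichletCharacter.deriv_LFunction_eq_deriv_LSeries χ hzre,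
      DirichletCharacter.LFunction_eq_LSeries χ hzre, neg_div]
  have hdd : iteratedDeriv k (LSeries a) s =
      -iteratedDeriv k (fun z => ∑ ρ ∈ Z, (mul χ.LFunction ρ : ℂ) / (z - ρ) + G z) s := by
    rw [hev.iteratedDeriv_eq k]
    have : (fun z => -(∑ ρ ∈ Z, (mul χ.LFunction ρ : ℂ) / (z - ρ) + G z)) =
      -(fun z => ∑ ρ ∈ Z, (mul χ.LFunction ρ : ℂ) / (z - ρ) + G z) := rfl
    rw [this, iteratedDeriv_neg]
  rw [← hs, hdd]
  have hne : ∀ ρ ∈ Z, s ≠ ρ := by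
    intro ρ hρ h
    have h1 := ((hZ ρ).mp hρ).2
    exact hLne ρ (by rw [← h, hsre]; linarith) h1
  refine (BB_core t r hr hr2 k Z (mul χ.LFunction) G (C * Real.log (q * (|t| + 3))) hne hG hG2).trans ?_
  apply mul_le_mul_of_nonneg_right _ (by positivity)
  exact mul_le_mul_of_nonneg_left hL (by linarith)

/-- The same with `-ζ'/ζ = 1/(s-1) - zt'/zt`; the Taylor coefficient of `1/(s-1)` is at most `|t|^{-k-1} ≤ 2^{k+1}`. -/
theorem BB_zt : ∃ C : ℝ, 1 ≤ C ∧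
    ∀ (t r L : ℝ), 0 < r → r ≤ 1 / 16 → 1 / 2 ≤ |t| → Real.log (|t| + 3) ≤ L →
    ∃ Z : Finset ℂ, (∀ ρ, ρ ∈ Z ↔ ‖ρ - ctr t‖ ≤ 1 / 4 ∧ zt ρ = 0) ∧ ∀ k : ℕ,
      ‖BB (fun n => (ArithmeticFunction.vonMangoldt n : ℂ)) r k t +
        (r : ℂ) ^ (k + 1) * ∑ ρ ∈ Z, (mul zt ρ : ℂ) / ((1 : ℂ) + r + t * Complex.I - ρ) ^ (k + 1)‖ ≤
        C * L * (16 * r) ^ (k + 1) := by
  obtain ⟨C, hC1, hC⟩ := local_zt
  refine ⟨C + 1, by linarith, ?_⟩
  intro t r L hr hr2 ht hL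
  obtain ⟨Z, hZ, -, -, G, hG, hG2, hG3⟩ := hC t
  refine ⟨Z, hZ, ?_⟩
  intro k
  set s : ℂ := (1 : ℂ) + r + t * Complex.I with hs
  have hsre : s.re = 1 + r := BB_re r t
  have hsim : s.im = t := BB_im r t
  have hd : ‖s - ctr t‖ ≤ 1 / 16 - r := BB_dist t hr2
  set a : ℕ → ℂ := fun n => (ArithmeticFunction.vonMangoldt n : ℂ) with ha
  have habs : LSeries.abscissaOfAbsConv a < (s.re : EReal) := by
    have h1 : LSeries.abscissaOfAbsConv a ≤ ((1 + r / 2 : ℝ) : EReal) := by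
      have h2 : LSeriesSummable a (((1 + r / 2 : ℝ)) : ℂ) := by
        apply ArithmeticFunction.LSeriesSummable_vonMangoldt
        rw [Complex.ofReal_re]; linarith
      have h3 := h2.abscissaOfAbsConv_le
      rwa [Complex.ofReal_re] at h3
    refine lt_of_le_of_lt h1 ?_
    rw [hsre]
    exact_mod_cast (by linarith : (1 + r / 2 : ℝ) < 1 + r)
  rw [BB_eq a r hr k t habs]
  have hzne : ∀ z : ℂ, 1 < z.re → z ≠ 1 ∧ riemannZeta z ≠ 0 ∧ zt z ≠ 0 := by
    intro z hz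
    have h1 : z ≠ 1 := by
      rintro rfl
      simp at hz
    have h2 : riemannZeta z ≠ 0 := riemannZeta_ne_zero_of_one_le_re hz.le
    refine ⟨h1, h2, ?_⟩
    unfold zt
    rw [if_neg h1]
    exact mul_ne_zero (sub_ne_zero.mpr h1) h2
  have hlogder : ∀ z : ℂ, 1 < z.re → deriv zt z / zt z = 1 / (z - 1) +
      deriv riemannZeta z / riemannZeta z := by
    intro z hz
    obtain ⟨h1, h2, h3⟩ := hzne z hz
    have hev : zt =ᶠ[nhds z] fun w => (w - 1) * riemannZeta w := by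
      have : {w : ℂ | w ≠ 1} ∈ nhds z := isOpen_ne.mem_nhds h1
      filter_upwards [this] with w hw
      unfold zt
      rw [if_neg hw]
    have hder : HasDerivAt (fun w : ℂ => (w - 1) * riemannZeta w)
        (1 * riemannZeta z + (z - 1) * deriv riemannZeta z) z :=
      ((hasDerivAt_id z).sub_const 1).mul (differentiableAt_riemannZeta h1).hasDerivAt
    rw [hev.deriv_eq, hder.deriv]
    have h4 : zt z = (z - 1) * riemannZeta z := hev.self_of_nhds
    rw [h4]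
    have h5 : z - 1 ≠ 0 := sub_ne_zero.mpr h1
    field_simp
  have hev : (LSeries a) =ᶠ[nhds s] fun z => (1 : ℂ) / (z - 1) +
      -(∑ ρ ∈ Z, (mul zt ρ : ℂ) / (z - ρ) + G z) := by
    have hU : Metric.ball s r ∈ nhds s := Metric.ball_mem_nhds _ hr
    filter_upwards [hU] with z hz
    rw [Metric.mem_ball, dist_eq_norm] at hz
    have hzre : 1 < z.re := by
      have := Complex.abs_re_le_norm (z - s)
      rw [Complex.sub_re, hsre] at this
      have h2 := (abs_le.mp this).1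
      linarith
    have hz4 : z ∈ Metric.ball (ctr t) (1 / 4) := by
      rw [Metric.mem_ball, dist_eq_norm]
      have h3 : ‖z - ctr t‖ ≤ ‖z - s‖ + ‖s - ctr t‖ := norm_sub_le_norm_sub_add_norm_sub _ _ _
      linarith
    rw [← hG3 z hz4 (hzne z hzre).2.2, hlogder z hzre, ha,
      ArithmeticFunction.LSeries_vonMangoldt_eq_deriv_riemannZeta_div hzre]
    ring
  have hs1 : s ≠ 1 := (hzne s (by rw [hsre]; linarith)).1
  have hne : ∀ ρ ∈ Z, s ≠ ρ := by
    intro ρ hρ h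
    have h1 := ((hZ ρ).mp hρ).2
    exact (hzne ρ (by rw [← h, hsre]; linarith)).2.2 h1
  have hin : s ∈ Metric.ball (ctr t) (1 / 4) := by
    rw [Metric.mem_ball, dist_eq_norm]; linarith
  have hdd : iteratedDeriv k (LSeries a) s =
      (1 : ℂ) * ((-1) ^ k * (k.factorial : ℂ) / (s - 1) ^ (k + 1)) +
      -iteratedDeriv k (fun z => ∑ ρ ∈ Z, (mul zt ρ : ℂ) / (z - ρ) + G z) s := by
    rw [hev.iteratedDeriv_eq k]
    have h1 : (fun z => (1 : ℂ) / (z - 1) + -(∑ ρ ∈ Z, (mul zt ρ : ℂ) / (z - ρ) + G z)) =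
      (fun z => (1 : ℂ) / (z - 1)) + (-(fun z => ∑ ρ ∈ Z, (mul zt ρ : ℂ) / (z - ρ) + G z)) := rfl
    obtain ⟨h2, h3⟩ := BB_iter 1 1 s hs1 k
    have h4 : ContDiffAt ℂ k (fun z => ∑ ρ ∈ Z, (mul zt ρ : ℂ) / (z - ρ) + G z) s := by
      refine ContDiffAt.add ?_ (hG s hin).contDiffAt
      apply ContDiffAt.sum
      intro ρ hρ
      exact (BB_iter (mul zt ρ) ρ s (hne ρ hρ) k).2
    have h5 : ContDiffAt ℂ k (-(fun z => ∑ ρ ∈ Z, (mul zt ρ : ℂ) / (z - ρ) + G z)) s := h4.neg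
    rw [h1, iteratedDeriv_add h3 h5, h2, iteratedDeriv_neg]
  rw [← hs, hdd]
  have hcore := BB_core t r hr hr2 k Z (mul zt) G (C * Real.log (|t| + 3)) hne hG hG2
  rw [← hs] at hcore
  have hL1 : 1 ≤ L := by
    refine le_trans ?_ hL
    rw [Real.le_log_iff_exp_le (by positivity)]
    have := Real.exp_one_lt_d9
    have h0 := abs_nonneg t
    linarith
  have hfac : (0 : ℝ) < (k.factorial : ℝ) := by exact_mod_cast Nat.factorial_pos k
  have hfacC : (k.factorial : ℂ) ≠ 0 := by exact_mod_cast (Nat.factorial_pos k).ne'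
  have hpole : ‖((r ^ (k + 1) / (k.factorial : ℝ) : ℝ) : ℂ) * ((-1) ^ k *
      ((1 : ℂ) * ((-1) ^ k * (k.factorial : ℂ) / (s - 1) ^ (k + 1))))‖ ≤ L * (16 * r) ^ (k + 1) := by
    have h1 : ‖((r ^ (k + 1) / (k.factorial : ℝ) : ℝ) : ℂ) * ((-1) ^ k *
        ((1 : ℂ) * ((-1) ^ k * (k.factorial : ℂ) / (s - 1) ^ (k + 1))))‖ =
        r ^ (k + 1) / ‖s - 1‖ ^ (k + 1) := by
      rw [norm_mul, norm_mul, norm_mul, norm_div, norm_mul, norm_pow, norm_pow, norm_neg, norm_one,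
        one_pow, one_mul, one_mul, one_mul, Complex.norm_natCast, Complex.norm_real,
        Real.norm_of_nonneg (by positivity)]
      field_simp
    have h2 : 1 / 2 ≤ ‖s - 1‖ := by
      have := Complex.abs_im_le_norm (s - 1)
      rw [Complex.sub_im, hsim, Complex.one_im, sub_zero] at this
      linarith
    rw [h1, ← div_pow]
    have h3 : r / ‖s - 1‖ ≤ 16 * r := by
      rw [div_le_iff₀ (by linarith)]
      nlinarith
    calc (r / ‖s - 1‖) ^ (k + 1) ≤ (16 * r) ^ (k + 1) :=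
          pow_le_pow_left₀ (by positivity) h3 _
      _ ≤ L * (16 * r) ^ (k + 1) := le_mul_of_one_le_left (by positivity) hL1
  have hsplit : ((r ^ (k + 1) / (k.factorial : ℝ) : ℝ) : ℂ) * ((-1) ^ k *
      ((1 : ℂ) * ((-1) ^ k * (k.factorial : ℂ) / (s - 1) ^ (k + 1)) +
      -iteratedDeriv k (fun z => ∑ ρ ∈ Z, (mul zt ρ : ℂ) / (z - ρ) + G z) s)) +
      (r : ℂ) ^ (k + 1) * ∑ ρ ∈ Z, (mul zt ρ : ℂ) / (s - ρ) ^ (k + 1) =
      ((r ^ (k + 1) / (k.factorial : ℝ) : ℝ) : ℂ) * ((-1) ^ k *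
        ((1 : ℂ) * ((-1) ^ k * (k.factorial : ℂ) / (s - 1) ^ (k + 1)))) +
      (((r ^ (k + 1) / (k.factorial : ℝ) : ℝ) : ℂ) * ((-1) ^ k *
        (-iteratedDeriv k (fun z => ∑ ρ ∈ Z, (mul zt ρ : ℂ) / (z - ρ) + G z) s)) +
      (r : ℂ) ^ (k + 1) * ∑ ρ ∈ Z, (mul zt ρ : ℂ) / (s - ρ) ^ (k + 1)) := by
    ring
  rw [hsplit]
  refine (norm_add_le _ _).trans ((add_le_add hpole hcore).trans ?_)
  have h1 : C * Real.log (|t| + 3) * (16 * r) ^ (k + 1) ≤ C * L * (16 * r) ^ (k + 1) := by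
    apply mul_le_mul_of_nonneg_right _ (by positivity)
    exact mul_le_mul_of_nonneg_left hL (by linarith)
  have h2 : (C + 1) * L * (16 * r) ^ (k + 1) = L * (16 * r) ^ (k + 1) + C * L * (16 * r) ^ (k + 1) := by
    ring
  rw [h2]
  linarith

end Pool.Agent.Lib.MP_629a14_nt.Lf
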