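import Pool.Agent.Lib.MP_629a14_nt.Th.BinW

/-! The Fourier transform of the integers with few binary ones: logarithmic range. -/

set_option autoImplicit false

namespace Pool.Agent.Lib.MP_629a14_nt.Lf

open Finset Pool.Agent.Lib.MP_629a14_nt Pool.Agent.Lib.MP_629a14_nt.Th MeasureTheory

/-- Proof. Let `N = 2^(n+2)`. If `‖WW‖ ≥ τ/(log N)²` then by `bw_hat`
`(j(n-j)/n²) ∑ (1 - Re) ≤ log((n+1)(log N)²/τ) ≤ 4 log n`; as `j(n-j)/n² ≥ min(j,n-j)/(2n) ≥ B log n/(2n)`: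
`∑ (1-Re) ≤ κ n` with `κ = 8/B`. By `digit_measure` and `choose_sum` (`m = ⌊16κn⌋ ≤ n`; `(en/m)^m` is increasing in
`m ≤ n`) the measure is at most `4 · 2^{-n} exp(16κ log(e/(16κ)) n) ≤ 4 · 2^{-n} 2^{cn/2}` if `B` is large in terms of
`c`; and `N^{-1+c} ≥ 2^{-n-2+cn}`. -/
theorem bin_spec (c τ : ℝ) (hc : 0 < c) (hτ : 0 < τ) : ∃ B : ℝ, 1 ≤ B ∧ ∃ n₀ : ℕ, ∀ n j : ℕ, n₀ ≤ n →
    B * Real.log n ≤ j → (j : ℝ) + B * Real.log n ≤ n →
    volume {α : ℝ | α ∈ Set.Icc (0 : ℝ) 1 ∧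
      τ / (Real.log ((2 ^ (n + 2) : ℕ) : ℝ)) ^ 2 ≤ ‖WW (bw n j) (2 ^ (n + 2)) α‖} ≤
      ENNReal.ofReal (((2 ^ (n + 2) : ℕ) : ℝ) ^ (-1 + c)) := by
  -- the constant
  set s : ℝ := max 2 (16 / c) with hs
  have hs2 : 2 ≤ s := le_max_left _ _
  have hsc : 16 / c ≤ s := le_max_right _ _
  have hs0 : 0 < s := by linarith
  have hsc' : 16 ≤ c * s := by
    rw [div_le_iff₀ hc] at hsc
    linarith
  refine ⟨64 * s ^ 2, by nlinarith, ?_⟩
  -- asymptotic facts
  have tn : Filter.Tendsto (fun n : ℕ => (n : ℝ)) Filter.atTop Filter.atTop := tendsto_natCast_atTop_atTop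
  have tl : Filter.Tendsto (fun n : ℕ => Real.log (n : ℝ)) Filter.atTop Filter.atTop :=
    Real.tendsto_log_atTop.comp tn
  have E1 : ∀ᶠ n : ℕ in Filter.atTop, 3 * Real.log 2 - Real.log τ ≤ Real.log (n : ℝ) := tl.eventually_ge_atTop _
  have E2 : ∀ᶠ n : ℕ in Filter.atTop, 7 / c ≤ (n : ℝ) := tn.eventually_ge_atTop _
  have E3 : ∀ᶠ n : ℕ in Filter.atTop, s ^ 2 + 5 ≤ (n : ℝ) := tn.eventually_ge_atTop _
  obtain ⟨n₀, hn₀⟩ := Filter.eventually_atTop.mp (E1.and (E2.and E3))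
  refine ⟨n₀, ?_⟩
  intro n j hn hj1 hj2
  obtain ⟨hE1, hE2, hE3⟩ := hn₀ n hn
  set ℓ := Real.log (n : ℝ) with hℓ
  have hnR : (5 : ℝ) ≤ (n : ℝ) := by nlinarith [sq_nonneg s]
  have hnpos : (0 : ℝ) < (n : ℝ) := by linarith
  have hn1 : 1 ≤ n := by
    have : (1 : ℝ) ≤ n := by linarith
    exact_mod_cast this
  have hℓ1 : 1 ≤ ℓ := by
    rw [hℓ, ← Real.log_exp 1]
    apply Real.log_le_log (Real.exp_pos _)
    have := Real.exp_one_lt_d9
    linarith
  have hℓ0 : 0 < ℓ := by linarith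
  have hB1 : 1 ≤ 64 * s ^ 2 * ℓ := by nlinarith [mul_nonneg (sq_nonneg s) hℓ0.le, mul_le_mul_of_nonneg_left hℓ1 (sq_nonneg s)]
  have hjR : (1 : ℝ) ≤ (j : ℝ) := le_trans hB1 hj1
  have hj1' : 1 ≤ j := by exact_mod_cast hjR
  have hjn : (j : ℝ) < n := by linarith
  have hjn' : j < n := by exact_mod_cast hjn
  set L := Real.log ((2 ^ (n + 2) : ℕ) : ℝ) with hL
  have hLeq : L = (n + 2) * Real.log 2 := by
    rw [hL]
    push_cast
    rw [Real.log_pow]
    push_cast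
    ring
  have hlog2a : 0.6931471803 < Real.log 2 := Real.log_two_gt_d9
  have hlog2b : Real.log 2 < 0.6931471808 := Real.log_two_lt_d9
  have hLlow : (n : ℝ) * Real.log 2 ≤ L := by rw [hLeq]; nlinarith
  have hLup : L ≤ 2 * n := by rw [hLeq]; nlinarith
  have hL1 : 1 < L := by nlinarith
  have hLpos : 0 < L := by linarith
  have hlogLup : Real.log L ≤ Real.log 2 + ℓ := by
    rw [hℓ, ← Real.log_mul (by norm_num) hnpos.ne']
    exact Real.log_le_log hLpos hLup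
  have hlogn1 : Real.log (n + 1) ≤ Real.log 2 + ℓ := by
    rw [hℓ, ← Real.log_mul (by norm_num) hnpos.ne']
    exact Real.log_le_log (by linarith) (by linarith)
  -- the main inclusion
  set κ : ℝ := 1 / (8 * s ^ 2) with hκ
  have hκ0 : 0 ≤ κ := by positivity
  have hincl : {α : ℝ | α ∈ Set.Icc (0 : ℝ) 1 ∧ τ / L ^ 2 ≤ ‖WW (bw n j) (2 ^ (n + 2)) α‖} ⊆
      {α : ℝ | α ∈ Set.Icc (0 : ℝ) 1 ∧ ∃ u : ℂ, ‖u‖ = 1 ∧
        ∑ a ∈ Icc 1 n, (1 - (u * ee (2 ^ a * α)).re) ≤ κ * n} := by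
    rintro α ⟨hα, hW⟩
    refine ⟨hα, ?_⟩
    obtain ⟨u, hu, hb⟩ := bw_hat n j hj1' hjn' α
    refine ⟨u, hu, ?_⟩
    set S := ∑ a ∈ Icc 1 n, (1 - (u * ee (2 ^ a * α)).re) with hS
    have h1 := le_trans hW hb
    have h2 : Real.log (τ / L ^ 2) ≤ Real.log ((n + 1) * Real.exp (-((j : ℝ) * (n - j) / n ^ 2 * S))) :=
      Real.log_le_log (by positivity) h1
    rw [Real.log_div hτ.ne' (by positivity), Real.log_pow, Real.log_mul (by positivity) (Real.exp_pos _).ne',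
      Real.log_exp] at h2
    push_cast at h2
    have h3 : (j : ℝ) * (n - j) / n ^ 2 * S ≤ 4 * ℓ := by
      linarith
    have h4 : 64 * s ^ 2 * ℓ * n / 2 ≤ (j : ℝ) * (n - j) := by
      rcases le_total (j : ℝ) (n / 2) with h | h
      · have : (n : ℝ) / 2 ≤ n - j := by linarith
        have h5 : 64 * s ^ 2 * ℓ * (n / 2) ≤ j * (n - j) := mul_le_mul hj1 this (by positivity) (by linarith)
        linarith
      · have : 64 * s ^ 2 * ℓ ≤ n - j := by linarith
        have h5 : (n / 2) * (64 * s ^ 2 * ℓ) ≤ j * (n - j) := mul_le_mul h this (by positivity) (by linarith)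
        linarith
    by_cases hS0 : S ≤ 0
    · exact le_trans hS0 (by positivity)
    · push Not at hS0
      have h5 : 64 * s ^ 2 * ℓ * n / 2 / n ^ 2 * S ≤ 4 * ℓ := by
        refine le_trans ?_ h3
        apply mul_le_mul_of_nonneg_right _ hS0.le
        exact div_le_div_of_nonneg_right h4 (by positivity)
      have h6 : 64 * s ^ 2 * ℓ * n / 2 / n ^ 2 * S = ℓ * (32 * s ^ 2 * S / n) := by
        field_simp
        ring
      rw [h6] at h5
      have h7 : 32 * s ^ 2 * S / n ≤ 4 := by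
        have : ℓ * (32 * s ^ 2 * S / n) ≤ ℓ * 4 := by linarith
        exact le_of_mul_le_mul_left this hℓ0
      rw [div_le_iff₀ (by positivity)] at h7
      rw [hκ, div_mul_eq_mul_div, le_div_iff₀ (by positivity)]
      linarith
  refine le_trans (measure_mono hincl) ?_
  refine le_trans (digit_measure n (by omega) κ hκ0) ?_
  apply ENNReal.ofReal_le_ofReal
  -- the sum of binomials
  set x : ℝ := 2 * n / s ^ 2 with hx
  have hx16 : 16 * κ * n = x := by rw [hκ, hx]; field_simp; norm_num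
  have hx1 : 2 ≤ x := by
    rw [hx, le_div_iff₀ (by positivity)]
    linarith
  have hxn : x ≤ n := by
    rw [hx, div_le_iff₀ (by positivity)]
    have h4 : (4 : ℝ) ≤ s ^ 2 := by nlinarith
    nlinarith [mul_nonneg hnpos.le (by linarith : (0 : ℝ) ≤ s ^ 2 - 4)]
  rw [hx16]
  set m := ⌊x⌋₊ with hm
  have hmx : (m : ℝ) ≤ x := Nat.floor_le (by linarith)
  have hxm : x < m + 1 := Nat.lt_floor_add_one x
  have hm1' : (1 : ℝ) ≤ m := by
    have h1 : (1 : ℝ) < m + 1 := by linarith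
    have h2 : 0 < m := by
      have : (0 : ℝ) < m := by linarith
      exact_mod_cast this
    exact_mod_cast h2
  have hm1 : 1 ≤ m := by exact_mod_cast hm1'
  have hm0 : (0 : ℝ) < m := by linarith
  have hmn : m ≤ n := by
    have : (m : ℝ) ≤ n := by linarith
    exact_mod_cast this
  have hcs := choose_sum n m hm1 hmn
  have hbase : Real.exp 1 * n / m ≤ Real.exp (2 * s) := by
    have h1 : (n : ℝ) / m ≤ s ^ 2 := by
      rw [div_le_iff₀ hm0]
      have h2 : x / 2 ≤ m := by linarith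
      have h3 : s ^ 2 * (x / 2) ≤ s ^ 2 * m := mul_le_mul_of_nonneg_left h2 (by positivity)
      have h4 : s ^ 2 * (x / 2) = n := by rw [hx]; field_simp
      linarith
    have h2 : s ≤ Real.exp (s - 1) := by
      have := Real.add_one_le_exp (s - 1)
      linarith
    have h3 : s ^ 2 ≤ Real.exp (s - 1) ^ 2 := pow_le_pow_left₀ hs0.le h2 2
    have h4 : Real.exp 1 * Real.exp (s - 1) ^ 2 ≤ Real.exp (2 * s) := by
      rw [← Real.exp_nat_mul, ← Real.exp_add]
      apply Real.exp_le_exp.mpr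
      push_cast
      linarith
    calc Real.exp 1 * n / m = Real.exp 1 * (n / m) := by ring
      _ ≤ Real.exp 1 * s ^ 2 := mul_le_mul_of_nonneg_left h1 (Real.exp_pos _).le
      _ ≤ Real.exp 1 * Real.exp (s - 1) ^ 2 := mul_le_mul_of_nonneg_left h3 (Real.exp_pos _).le
      _ ≤ _ := h4
  have hpow : (Real.exp 1 * n / m) ^ m ≤ Real.exp (c * n / 4) := by
    have h1 : (Real.exp 1 * n / m) ^ m ≤ (Real.exp (2 * s)) ^ m :=
      pow_le_pow_left₀ (by positivity) hbase m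
    refine le_trans h1 ?_
    rw [← Real.exp_nat_mul]
    apply Real.exp_le_exp.mpr
    have h2 : (m : ℝ) * (2 * s) ≤ x * (2 * s) := mul_le_mul_of_nonneg_right hmx (by positivity)
    refine le_trans h2 ?_
    have h3 : x * (2 * s) = 4 * n / s := by rw [hx]; field_simp; ring
    rw [h3, div_le_iff₀ hs0]
    nlinarith [mul_nonneg hnpos.le (by linarith : (0 : ℝ) ≤ c * s - 16)]
  have hfin : 4 * (1 / 2 : ℝ) ^ n * ∑ i ∈ range (m + 1), (n.choose i : ℝ) ≤
      4 * (1 / 2 : ℝ) ^ n * Real.exp (c * n / 4) :=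
    mul_le_mul_of_nonneg_left (le_trans hcs hpow) (by positivity)
  refine le_trans hfin ?_
  have hNpos : (0 : ℝ) < ((2 ^ (n + 2) : ℕ) : ℝ) := by positivity
  have hN1 : ((2 ^ (n + 2) : ℕ) : ℝ) ^ (-1 + c) =
      (1 / 2 : ℝ) ^ n / 4 * Real.exp (c * L) := by
    rw [Real.rpow_add hNpos, Real.rpow_neg_one]
    congr 1
    · push_cast
      rw [pow_add, one_div, inv_pow]
      field_simp
      norm_num
    · rw [Real.rpow_def_of_pos hNpos, ← hL]
      congr 1
      ring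
  rw [hN1]
  have h16 : (16 : ℝ) ≤ Real.exp 3 := by
    have h1 : (2.7182818283 : ℝ) < Real.exp 1 := Real.exp_one_gt_d9
    have h2 : Real.exp 3 = Real.exp 1 ^ 3 := by
      rw [← Real.exp_nat_mul]; norm_num
    rw [h2]
    have h3 : (2.7182818283 : ℝ) ^ 3 ≤ Real.exp 1 ^ 3 := pow_le_pow_left₀ (by norm_num) h1.le 3
    refine le_trans ?_ h3
    norm_num
  have hexp : 16 * Real.exp (c * n / 4) ≤ Real.exp (c * L) := by
    have h1 : 16 * Real.exp (c * n / 4) ≤ Real.exp (3 + c * n / 4) := by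
      rw [Real.exp_add]
      exact mul_le_mul_of_nonneg_right h16 (Real.exp_pos _).le
    refine le_trans h1 (Real.exp_le_exp.mpr ?_)
    have h7 : 7 ≤ c * n := by
      rw [div_le_iff₀ hc] at hE2
      linarith
    have h8 : c * (n * Real.log 2) ≤ c * L := mul_le_mul_of_nonneg_left hLlow hc.le
    have h9 : c * n * 0.6931471803 ≤ c * n * Real.log 2 :=
      mul_le_mul_of_nonneg_left hlog2a.le (by linarith)
    nlinarith
  calc 4 * (1 / 2 : ℝ) ^ n * Real.exp (c * n / 4)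
      = (1 / 2 : ℝ) ^ n / 4 * (16 * Real.exp (c * n / 4)) := by ring
    _ ≤ (1 / 2 : ℝ) ^ n / 4 * Real.exp (c * L) :=
        mul_le_mul_of_nonneg_left hexp (by positivity)

end Pool.Agent.Lib.MP_629a14_nt.Lf
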