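import Pool.Agent.Lib.MP_629a14_nt.Lf.DensA

/-! A zero density estimate without logarithms (Gallagher). -/

set_option autoImplicit false

namespace Pool.Agent.Lib.MP_629a14_nt.Lf

open Finset Pool.Agent.Lib.MP_629a14_nt.Th MeasureTheory

private lemma Dens_mul_nonneg (f : ℂ → ℂ) (ρ : ℂ) : 0 ≤ mul f ρ := by
  unfold mul
  positivity

private lemma Dens_cont (x : CH) (r : ℝ) (m k : ℕ) : Continuous (fun t : ℝ => Fx x r m k t) := by
  unfold Fx
  refine continuous_finsetSum _ fun n hn => ?_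
  have hn1 : (n : ℂ) ≠ 0 := by
    have := (mem_Icc.1 hn).1
    exact_mod_cast (by omega : n ≠ 0)
  refine continuous_const.mul ?_
  exact Continuous.const_cpow (by fun_prop) (Or.inl hn1)

private lemma Dens_sumInt (Z : Finset ℂ) (w : ℂ → ℝ) (hw : ∀ ρ, 0 ≤ w ρ) (f : ℝ → ℝ) (hf : Continuous f)
    (hf0 : ∀ t, 0 ≤ f t) (T r K a : ℝ) (hr : 0 < r) (hr1 : r ≤ 1) (hT : 0 ≤ T)
    (hZ : ∀ ρ ∈ Z, |ρ.im| ≤ T) (hlow : ∀ ρ ∈ Z, ∀ t : ℝ, |ρ.im - t| ≤ r → a ≤ f t)
    (hK : ∀ t : ℝ, |t| ≤ T + 1 → ∑ ρ ∈ Z.filter (fun ρ => |ρ.im - t| ≤ r), w ρ ≤ K) :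
    (∑ ρ ∈ Z, w ρ) * (2 * r * a) ≤ K * ∫ t in (-(T + 1))..(T + 1), f t := by
  have hfi : IntegrableOn f (Set.Ioc (-(T + 1)) (T + 1)) := by
    have := hf.intervalIntegrable (μ := volume) (-(T + 1)) (T + 1)
    exact (intervalIntegrable_iff_integrableOn_Ioc_of_le (by linarith)).1 this
  have hint : ∀ ρ : ℂ, IntegrableOn (Set.indicator (Set.Ioc (ρ.im - r) (ρ.im + r)) f)
      (Set.Ioc (-(T + 1)) (T + 1)) := fun ρ => hfi.indicator measurableSet_Ioc
  have h1 : ∀ ρ ∈ Z, 2 * r * a ≤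
      ∫ t in Set.Ioc (-(T + 1)) (T + 1), Set.indicator (Set.Ioc (ρ.im - r) (ρ.im + r)) f t := by
    intro ρ hρ
    have hρT := abs_le.1 (hZ ρ hρ)
    rw [setIntegral_indicator measurableSet_Ioc]
    have hsub : Set.Ioc (-(T + 1)) (T + 1) ∩ Set.Ioc (ρ.im - r) (ρ.im + r) =
        Set.Ioc (ρ.im - r) (ρ.im + r) := by
      refine Set.inter_eq_right.2 fun t ht => ⟨?_, ?_⟩
      · have := ht.1
        linarith [hρT.1]
      · have := ht.2
        linarith [hρT.2]
    rw [hsub, ← intervalIntegral.integral_of_le (by linarith)]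
    have h2 : ∫ t in (ρ.im - r)..(ρ.im + r), a = 2 * r * a := by
      rw [intervalIntegral.integral_const, smul_eq_mul]
      ring
    rw [← h2]
    refine intervalIntegral.integral_mono_on (by linarith) (by simp) (hf.intervalIntegrable _ _)
      fun t ht => hlow ρ hρ t ?_
    rw [abs_le]
    constructor <;> linarith [ht.1, ht.2]
  rw [intervalIntegral.integral_of_le (by linarith), sum_mul]
  calc ∑ ρ ∈ Z, w ρ * (2 * r * a)
      ≤ ∑ ρ ∈ Z, w ρ * ∫ t in Set.Ioc (-(T + 1)) (T + 1),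
          Set.indicator (Set.Ioc (ρ.im - r) (ρ.im + r)) f t :=
        sum_le_sum fun ρ hρ => mul_le_mul_of_nonneg_left (h1 ρ hρ) (hw ρ)
    _ = ∫ t in Set.Ioc (-(T + 1)) (T + 1), ∑ ρ ∈ Z,
          w ρ * Set.indicator (Set.Ioc (ρ.im - r) (ρ.im + r)) f t := by
        rw [integral_finsetSum]
        · refine sum_congr rfl fun ρ _ => ?_
          rw [integral_const_mul]
        · intro ρ _
          exact (hint ρ).const_mul _
    _ ≤ ∫ t in Set.Ioc (-(T + 1)) (T + 1), K * f t := by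
        refine setIntegral_mono_on ?_ (hfi.const_mul K) measurableSet_Ioc ?_
        · refine integrable_finsetSum _ fun ρ _ => ?_
          exact (hint ρ).const_mul _
        · intro t ht
          have h3 : |t| ≤ T + 1 := abs_le.2 ⟨ht.1.le, ht.2⟩
          refine le_trans ?_ (mul_le_mul_of_nonneg_right (hK t h3) (hf0 t))
          rw [sum_filter, sum_mul]
          refine sum_le_sum fun ρ _ => ?_
          by_cases h4 : t ∈ Set.Ioc (ρ.im - r) (ρ.im + r)
          · rw [Set.indicator_of_mem h4, if_pos]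
            rw [abs_le]
            constructor <;> linarith [h4.1, h4.2]
          · rw [Set.indicator_of_notMem h4, mul_zero]
            split_ifs
            · exact mul_nonneg (hw ρ) (hf0 t)
            · simp
    _ = K * ∫ t in Set.Ioc (-(T + 1)) (T + 1), f t := integral_const_mul _ _

private lemma Dens_mem (P : ℕ) (x : CH) (hx : x ∈ prims P) (h1 : x ≠ ch1) (σ T : ℝ) (ρ : ℂ) :
    ρ ∈ ZF (LL x) σ T ↔ LL x ρ = 0 ∧ σ ≤ ρ.re ∧ |ρ.im| ≤ T := by
  have h2 := prims_ne_one P x hx h1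
  have h3 := ((mem_prims P x).1 hx).1
  obtain ⟨q, χ⟩ := x
  simp only at h2 h3
  have : NeZero q := ⟨by omega⟩
  rw [LL_mk]
  exact mem_ZF_chi q χ h2 σ T ρ

private lemma Dens_ch1 (P : ℕ) (hP : 1 ≤ P) : ch1 ∈ prims P := by
  rw [mem_prims]
  refine ⟨le_rfl, hP, ?_⟩
  change (1 : DirichletCharacter ℂ 1).conductor = 1
  exact DirichletCharacter.conductor_one

open Classical in
/-- The left side of the estimate. -/
private noncomputable def Dens_S (P : ℕ) (T r : ℝ) : ℝ :=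
  (∑ x ∈ (prims P).filter (fun x => x ≠ ch1), ∑ ρ ∈ ZF (LL x) (1 - r) T, mul (LL x) ρ) +
      ∑ ρ ∈ ZF zt (1 - r) T, mul zt ρ

open Classical in
private lemma Dens_mono (P : ℕ) (T r r' : ℝ) (h : r ≤ r') : Dens_S P T r ≤ Dens_S P T r' := by
  unfold Dens_S
  refine add_le_add (sum_le_sum fun x hx => ?_) ?_
  · rw [mem_filter] at hx
    refine sum_le_sum_of_subset_of_nonneg ?_ fun ρ _ _ => Dens_mul_nonneg _ _
    intro ρ hρ
    rw [Dens_mem P x hx.1 hx.2] at hρ ⊢
    exact ⟨hρ.1, by linarith [hρ.2.1], hρ.2.2⟩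
  · refine sum_le_sum_of_subset_of_nonneg ?_ fun ρ _ _ => Dens_mul_nonneg _ _
    intro ρ hρ
    rw [mem_ZF_zt] at hρ ⊢
    exact ⟨hρ.1, by linarith [hρ.2.1], hρ.2.2⟩

private lemma Dens_pow4 (y : ℝ) (hy : 0 ≤ y) : y ^ 4 ≤ 24 * Real.exp y := by
  have h := Real.pow_div_factorial_le_exp y hy 4
  have h2 : ((Nat.factorial 4 : ℕ) : ℝ) = 24 := by norm_num [Nat.factorial]
  rw [h2] at h
  linarith [(div_le_iff₀ (by norm_num : (0 : ℝ) < 24)).1 h]

private lemma Dens_300 (m : ℕ) : (300 : ℝ) ^ m ≤ Real.exp (6 * m) := by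
  have h1 : (300 : ℝ) ≤ Real.exp 6 := by
    have h2 : Real.exp 6 = (Real.exp 1) ^ 6 := by
      rw [← Real.exp_nat_mul]
      norm_num
    have h3 : (2.7182818283 : ℝ) < Real.exp 1 := Real.exp_one_gt_d9
    rw [h2]
    calc (300 : ℝ) ≤ (2.7182818283 : ℝ) ^ 6 := by norm_num
      _ ≤ (Real.exp 1) ^ 6 := pow_le_pow_left₀ (by norm_num) h3.le 6
  calc (300 : ℝ) ^ m ≤ (Real.exp 6) ^ m := pow_le_pow_left₀ (by norm_num) h1 m
    _ = Real.exp (6 * m) := by
      rw [← Real.exp_nat_mul]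
      ring_nf

open Classical in
/-- The main case `r log P ≥ 1/72`. -/
private lemma Dens_core : ∃ A B r₀ : ℝ, 1 ≤ A ∧ 1 ≤ B ∧ 0 < r₀ ∧ r₀ ≤ 1 / 2000 ∧
    ∀ (P : ℕ) (T r : ℝ), 5 ≤ P → 2 ≤ T → T ≤ (P : ℝ) ^ 70 → 0 < r → r ≤ r₀ →
      1 ≤ r * (72 * Real.log P) → Dens_S P T r ≤ A * Real.exp (B * (r * Real.log P)) := by
  obtain ⟨M₁, hM₁, hchi⟩ := large_chi
  obtain ⟨M₂, r₀, hM₂, hr₀, hr₀', hzt⟩ := large_zt
  obtain ⟨C₁, hC₁, hmean⟩ := mean_Fx
  obtain ⟨C₂, hC₂, hdchi⟩ := disc_chi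
  obtain ⟨C₃, hC₃, hdzt⟩ := disc_zt
  set M : ℝ := max M₁ (max M₂ 25600) with hMdef
  have hM1 : M₁ ≤ M := le_max_left _ _
  have hM2 : M₂ ≤ M := (le_max_left _ _).trans (le_max_right _ _)
  have hM3 : 25600 ≤ M := (le_max_right _ _).trans (le_max_right _ _)
  set D : ℝ := max C₂ C₃ with hDdef
  have hD2 : C₂ ≤ D := le_max_left _ _
  have hD3 : C₃ ≤ D := le_max_right _ _
  have hD1 : 1 ≤ D := hC₂.trans hD2
  refine ⟨110592 * D * C₁, 1512 * M, r₀, ?_, by linarith, hr₀, hr₀', ?_⟩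
  · nlinarith [mul_le_mul hD1 hC₁ (by norm_num) (by linarith)]
  intro P T r hP hT hTP hr hrr hrL
  set u : ℝ := (P : ℝ) with hu
  have hu5 : 5 ≤ u := by
    rw [hu]
    exact_mod_cast hP
  have hlog : 0 < Real.log u := Real.log_pos (by linarith)
  set L : ℝ := 72 * Real.log u with hL
  have hLpos : 0 < L := by positivity
  have hr1 : r ≤ 1 / 2000 := hrr.trans hr₀'
  set m : ℕ := ⌈M * (r * L + 1)⌉₊ with hm
  have hMpos : 0 < M := by linarith
  have hm1 : M * (r * L + 1) ≤ m := Nat.le_ceil _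
  have hm2 : (m : ℝ) ≤ M * (r * L + 1) + 1 := (Nat.ceil_lt_add_one (by positivity)).le
  have hm3 : (m : ℝ) ≤ 3 * M * (r * L) := by
    have : 0 ≤ (M - 1) * (r * L - 1) := mul_nonneg (by linarith) (by linarith)
    nlinarith
  have hrL1 : r * L + 1 ≤ m := by
    refine le_trans ?_ hm1
    nlinarith
  have hm4 : (1 : ℝ) ≤ m := by linarith
  have hmN : 1 ≤ m := by exact_mod_cast hm4
  have hupow : ∀ k : ℕ, u ^ k = Real.exp (k * Real.log u) := by
    intro k
    rw [Real.exp_nat_mul, Real.exp_log (by linarith)]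
  have hu70 : 1 ≤ u ^ 70 := one_le_pow₀ (by linarith)
  have hlogt : ∀ t q : ℝ, |t| ≤ T + 1 → 0 ≤ q → q ≤ u → q * (|t| + 3) ≤ u ^ 72 := by
    intro t q ht hq0 hq
    calc q * (|t| + 3) ≤ u * (5 * u ^ 70) :=
          mul_le_mul hq (by linarith) (by positivity) (by linarith)
      _ ≤ u * (u * u ^ 70) := by
          refine mul_le_mul_of_nonneg_left ?_ (by linarith)
          exact mul_le_mul_of_nonneg_right hu5 (by positivity)
      _ = u ^ 72 := by ring
  have hlogL : ∀ t q : ℝ, |t| ≤ T + 1 → 1 ≤ q → q ≤ u → Real.log (q * (|t| + 3)) ≤ L := by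
    intro t q ht hq1 hq
    have h1 := hlogt t q ht (by linarith) hq
    have h2 : Real.log (q * (|t| + 3)) ≤ Real.log (u ^ 72) :=
      Real.log_le_log (by positivity) h1
    rw [Real.log_pow] at h2
    rw [hL]
    exact_mod_cast h2
  set a : ℝ := (1 / 300 : ℝ) ^ m / 64 with ha
  have ha0 : 0 < a := by positivity
  set f : CH → ℝ → ℝ := fun x t => ∑ k ∈ Icc m (2 * m), ‖Fx x r m k t‖ ^ 2 with hf
  have hfc : ∀ x, Continuous (f x) := fun x =>
    continuous_finsetSum _ fun k _ => ((Dens_cont x r m k).norm).pow 2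
  have hf0 : ∀ x t, 0 ≤ f x t := fun x t => sum_nonneg fun k _ => by positivity
  set K : ℝ := D * (r * L + 1) with hK
  have hK0 : 0 ≤ K := by positivity
  have hzsum : ∀ x ∈ (prims P).filter (fun x => x ≠ ch1),
      (∑ ρ ∈ ZF (LL x) (1 - r) T, mul (LL x) ρ) * (2 * r * a) ≤
        K * ∫ t in (-(T + 1))..(T + 1), f x t := by
    intro x hx
    rw [mem_filter] at hx
    obtain ⟨hxP, hx1⟩ := hx
    obtain ⟨hq1, hq2, hprim⟩ := (mem_prims P x).1 hxP
    have hq1' : (1 : ℝ) ≤ (x.1 : ℝ) := by exact_mod_cast hq1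
    have hq2' : (x.1 : ℝ) ≤ u := by
      rw [hu]
      exact_mod_cast hq2
    refine Dens_sumInt _ _ (Dens_mul_nonneg _) (f x) (hfc x) (hf0 x) T r K a hr (by linarith)
      (by linarith) ?_ ?_ ?_
    · intro ρ hρ
      exact ((Dens_mem P x hxP hx1 _ _ ρ).1 hρ).2.2
    · intro ρ hρ t ht
      obtain ⟨h1, h2, h3⟩ := (Dens_mem P x hxP hx1 _ _ ρ).1 hρ
      have h4 : |t| ≤ T + 1 := by
        rw [abs_le] at h3 ht ⊢
        constructor <;> linarith [h3.1, h3.2, ht.1, ht.2]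
      exact hchi P x hxP hx1 t r L hr hr1 (hlogL t x.1 h4 hq1' hq2') ρ h1 h2 ht m
        ((mul_le_mul_of_nonneg_right hM1 (by positivity)).trans hm1)
    · intro t ht
      have hne := prims_ne_one P x hxP hx1
      have hl := hlogL t x.1 ht hq1' hq2'
      obtain ⟨q, χ⟩ := x
      simp only at hq1 hne hl ⊢
      have : NeZero q := ⟨by omega⟩
      rw [LL_mk]
      refine (hdchi q χ hne T t r L hr (by linarith) hl).trans ?_
      rw [hK]
      exact mul_le_mul_of_nonneg_right hD2 (by positivity)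
  have hzz : (∑ ρ ∈ ZF zt (1 - r) T, mul zt ρ) * (2 * r * a) ≤
      K * ∫ t in (-(T + 1))..(T + 1), f ch1 t := by
    have hl1 : ∀ t : ℝ, |t| ≤ T + 1 → Real.log (|t| + 3) ≤ L := by
      intro t ht
      have := hlogL t 1 ht le_rfl (by linarith)
      rwa [one_mul] at this
    refine Dens_sumInt _ _ (Dens_mul_nonneg _) (f ch1) (hfc ch1) (hf0 ch1) T r K a hr (by linarith)
      (by linarith) ?_ ?_ ?_
    · intro ρ hρ
      exact ((mem_ZF_zt _ _ ρ).1 hρ).2.2
    · intro ρ hρ t ht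
      obtain ⟨h1, h2, h3⟩ := (mem_ZF_zt _ _ ρ).1 hρ
      have h4 : |t| ≤ T + 1 := by
        rw [abs_le] at h3 ht ⊢
        constructor <;> linarith [h3.1, h3.2, ht.1, ht.2]
      exact hzt t r L hr hrr (hl1 t h4) ρ h1 h2 ht m
        ((mul_le_mul_of_nonneg_right hM2 (by positivity)).trans hm1)
    · intro t ht
      refine (hdzt T t r L hr (by linarith) (hl1 t ht)).trans ?_
      rw [hK]
      exact mul_le_mul_of_nonneg_right hD3 (by positivity)
  have hmn : ∀ k : ℕ, Real.log u * ∑ x ∈ prims P, ∫ t in (-(T + 1))..(T + 1), ‖Fx x r m k t‖ ^ 2 ≤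
      C₁ * (m : ℝ) ^ 2 := by
    intro k
    refine hmean P m k T r (by omega) (by linarith) hr (by linarith) hmN ?_
    have h1 : u ^ 4 * (T + 1) ≤ u ^ 75 := by
      calc u ^ 4 * (T + 1) ≤ u ^ 4 * (u * u ^ 70) := by
            refine mul_le_mul_of_nonneg_left ?_ (by positivity)
            nlinarith
        _ = u ^ 75 := by ring
    refine h1.trans ?_
    rw [hupow]
    refine Real.exp_le_exp.2 ?_
    rw [le_div_iff₀ (by positivity)]
    have h2 : 25600 * (r * L) ≤ m := by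
      refine le_trans ?_ hm1
      have : 0 < r * L := by positivity
      nlinarith
    rw [hL] at h2
    have h3 : 0 < r * Real.log u := by positivity
    push_cast
    nlinarith
  have hfint : ∀ x, ∫ t in (-(T + 1))..(T + 1), f x t =
      ∑ k ∈ Icc m (2 * m), ∫ t in (-(T + 1))..(T + 1), ‖Fx x r m k t‖ ^ 2 := by
    intro x
    rw [hf]
    simp only
    rw [intervalIntegral.integral_finsetSum]
    intro k _
    exact (((Dens_cont x r m k).norm).pow 2).intervalIntegrable _ _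
  have htot : Dens_S P T r * (2 * r * a) ≤
      K * ∑ x ∈ prims P, ∫ t in (-(T + 1))..(T + 1), f x t := by
    have e : ∑ x ∈ prims P, ∫ t in (-(T + 1))..(T + 1), f x t =
        (∑ x ∈ (prims P).filter (fun x => x ≠ ch1), ∫ t in (-(T + 1))..(T + 1), f x t) +
          ∫ t in (-(T + 1))..(T + 1), f ch1 t := by
      rw [filter_ne' (prims P) ch1]
      exact (sum_erase_add _ _ (Dens_ch1 P (by omega))).symm
    rw [e, mul_add, mul_sum]
    unfold Dens_S
    rw [add_mul, sum_mul]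
    refine add_le_add ?_ hzz
    exact sum_le_sum hzsum
  have hsum : Real.log u * ∑ x ∈ prims P, ∫ t in (-(T + 1))..(T + 1), f x t ≤
      (m + 1) * (C₁ * (m : ℝ) ^ 2) := by
    have e : ∑ x ∈ prims P, ∫ t in (-(T + 1))..(T + 1), f x t =
        ∑ k ∈ Icc m (2 * m), ∑ x ∈ prims P, ∫ t in (-(T + 1))..(T + 1), ‖Fx x r m k t‖ ^ 2 := by
      rw [sum_comm]
      exact sum_congr rfl fun x _ => hfint x
    rw [e, mul_sum]
    refine (sum_le_sum fun k _ => hmn k).trans ?_
    rw [sum_const, Nat.card_Icc, nsmul_eq_mul]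
    have : 2 * m + 1 - m = m + 1 := by omega
    rw [this]
    push_cast
    exact le_rfl
  -- arithmetic
  have hS0 : 0 ≤ Dens_S P T r := by
    unfold Dens_S
    exact add_nonneg (sum_nonneg fun x _ => sum_nonneg fun ρ _ => Dens_mul_nonneg _ _)
      (sum_nonneg fun ρ _ => Dens_mul_nonneg _ _)
  have hA1 : Dens_S P T r * (2 * r * a) * Real.log u ≤ K * ((m + 1) * (C₁ * (m : ℝ) ^ 2)) := by
    calc Dens_S P T r * (2 * r * a) * Real.log u
        ≤ K * (∑ x ∈ prims P, ∫ t in (-(T + 1))..(T + 1), f x t) * Real.log u :=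
          mul_le_mul_of_nonneg_right htot hlog.le
      _ = K * (Real.log u * ∑ x ∈ prims P, ∫ t in (-(T + 1))..(T + 1), f x t) := by ring
      _ ≤ _ := mul_le_mul_of_nonneg_left hsum hK0
  have hA2 : Dens_S P T r * ((1 / 300 : ℝ) ^ m) ≤ 4608 * D * C₁ * (m : ℝ) ^ 4 := by
    have h1 : 1 / 72 ≤ r * Real.log u := by
      rw [hL] at hrL
      linarith
    have h2 : Dens_S P T r * a * (2 * (1 / 72)) ≤ Dens_S P T r * (2 * r * a) * Real.log u := by
      have h3 : 0 ≤ Dens_S P T r * a := mul_nonneg hS0 ha0.le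
      have := mul_le_mul_of_nonneg_left h1 h3
      linarith
    have h4 : K ≤ D * m := by
      rw [hK]
      exact mul_le_mul_of_nonneg_left hrL1 (by linarith)
    have h5 : K * ((m + 1) * (C₁ * (m : ℝ) ^ 2)) ≤ D * m * ((2 * m) * (C₁ * (m : ℝ) ^ 2)) := by
      refine mul_le_mul h4 ?_ (by positivity) (by positivity)
      exact mul_le_mul_of_nonneg_right (by linarith) (by positivity)
    have h6 := (h2.trans hA1).trans h5
    rw [ha] at h6
    nlinarith
  have hA3 : Dens_S P T r ≤ 4608 * D * C₁ * (m : ℝ) ^ 4 * (300 : ℝ) ^ m := by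
    have h1 : ((1 / 300 : ℝ) ^ m) * (300 : ℝ) ^ m = 1 := by
      rw [← mul_pow]
      norm_num
    calc Dens_S P T r = Dens_S P T r * ((1 / 300 : ℝ) ^ m) * (300 : ℝ) ^ m := by
          rw [mul_assoc, h1, mul_one]
      _ ≤ _ := mul_le_mul_of_nonneg_right hA2 (by positivity)
  calc Dens_S P T r ≤ 4608 * D * C₁ * (m : ℝ) ^ 4 * (300 : ℝ) ^ m := hA3
    _ ≤ 4608 * D * C₁ * (24 * Real.exp m) * Real.exp (6 * m) := by
        have h1 := Dens_pow4 m (by positivity)
        have h2 := Dens_300 m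
        exact mul_le_mul (mul_le_mul_of_nonneg_left h1 (by positivity)) h2 (by positivity)
          (by positivity)
    _ = 110592 * D * C₁ * Real.exp (7 * m) := by
        have : Real.exp (7 * (m : ℝ)) = Real.exp m * Real.exp (6 * m) := by
          rw [← Real.exp_add]
          ring_nf
        rw [this]
        ring
    _ ≤ 110592 * D * C₁ * Real.exp (1512 * M * (r * Real.log u)) := by
        refine mul_le_mul_of_nonneg_left (Real.exp_le_exp.2 ?_) (by positivity)
        rw [hL] at hm3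
        linarith

open Classical in
/-- Proof. Let `L = 72 log P` (so `log(q(|t|+3)) ≤ L` for `q ≤ P`, `|t| ≤ T+1`); we may assume `r ≥ 1/L` (the count grows
with `r`, and `1/L ≤ r₀` if `P` is large), so `rL ≥ 1`. Let `m = ⌈M(rL+1)⌉ ≤ 3M rL`, with `M` large (larger than the
constants of `large_chi`, `large_zt`, and `M ≥ 25600`, so that `m/(100r) ≥ 256 L` and `mean_Fx` applies). For each zero
`ρ` integrate `large_chi` over `|t - Im ρ| ≤ r`, multiply by `m_ρ` and sum; each `t` is within `r` of the ordinates of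
zeros of total multiplicity `≤ C(rL+1)` (`disc_chi`, `disc_zt`):
`2r (1/300)^m/64 · (total) ≤ C (rL+1) ∑_{k=m}^{2m} ∑_x ∫_{-T-1}^{T+1} ‖Fx‖² dt ≤ C (rL+1)(m+1) m²/log P`,
and `r log P ≥ 1/72`, so the total is at most `C 300^m m⁴ ≤ C e^{C m} ≤ C e^{C r L}`. -/
theorem density_lf : ∃ C r₀ : ℝ, 1 ≤ C ∧ 0 < r₀ ∧ r₀ ≤ 1 / 2000 ∧
    ∀ (P : ℕ) (T r : ℝ), C ≤ P → 2 ≤ T → T ≤ (P : ℝ) ^ 70 → 0 ≤ r → r ≤ r₀ →
    (∑ x ∈ (prims P).filter (fun x => x ≠ ch1), ∑ ρ ∈ ZF (LL x) (1 - r) T, mul (LL x) ρ) +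
      ∑ ρ ∈ ZF zt (1 - r) T, mul zt ρ ≤ C * Real.exp (C * r * Real.log P) := by
  obtain ⟨A, B, r₀, hA, hB, hr₀, hr₀', hcore⟩ := Dens_core
  set C : ℝ := max (A * Real.exp (B / 72)) (max B (max 5 (Real.exp (1 / (72 * r₀))))) with hC
  have hC1 : A * Real.exp (B / 72) ≤ C := le_max_left _ _
  have hC2 : B ≤ C := (le_max_left _ _).trans (le_max_right _ _)
  have hC3 : 5 ≤ C := (le_max_left _ _).trans ((le_max_right _ _).trans (le_max_right _ _))
  have hC4 : Real.exp (1 / (72 * r₀)) ≤ C :=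
    (le_max_right _ _).trans ((le_max_right _ _).trans (le_max_right _ _))
  have hexp : 1 ≤ Real.exp (B / 72) := Real.one_le_exp (by positivity)
  have hAC : A ≤ C := by
    refine le_trans ?_ hC1
    nlinarith
  refine ⟨C, r₀, by linarith, hr₀, hr₀', ?_⟩
  intro P T r hP hT hTP hr hrr
  have hP5 : 5 ≤ P := by
    have : (5 : ℝ) ≤ P := by linarith
    exact_mod_cast this
  have hlog : 0 < Real.log P := Real.log_pos (by linarith)
  have hlog2 : 1 / (72 * r₀) ≤ Real.log P := by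
    rw [Real.le_log_iff_exp_le (by linarith)]
    linarith
  have goal : Dens_S P T r ≤ C * Real.exp (C * r * Real.log P) := by
    rcases le_or_gt 1 (r * (72 * Real.log P)) with h | h
    · have hrpos : 0 < r := by
        rcases hr.eq_or_lt with h0 | h0
        · rw [← h0, zero_mul] at h
          linarith
        · exact h0
      refine (hcore P T r hP5 hT hTP hrpos hrr h).trans ?_
      refine mul_le_mul hAC (Real.exp_le_exp.2 ?_) (by positivity) (by linarith)
      have : 0 ≤ r * Real.log P := by positivity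
      nlinarith
    · set r' : ℝ := 1 / (72 * Real.log P) with hr'
      have h1 : r ≤ r' := by
        rw [hr', le_div_iff₀ (by positivity)]
        exact h.le
      have h2 : 0 < r' := by positivity
      have h3 : r' ≤ r₀ := by
        rw [hr', div_le_iff₀ (by positivity)]
        rw [div_le_iff₀ (by positivity)] at hlog2
        linarith
      have h4 : r' * (72 * Real.log P) = 1 := by
        rw [hr']
        field_simp
      have h5 : r' * Real.log P = 1 / 72 := by linarith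
      refine (Dens_mono P T r r' h1).trans ?_
      refine (hcore P T r' hP5 hT hTP h2 h3 h4.ge).trans ?_
      rw [h5, mul_one_div]
      refine hC1.trans ?_
      have : 1 ≤ Real.exp (C * r * Real.log P) := Real.one_le_exp (by positivity)
      nlinarith
  exact goal

end Pool.Agent.Lib.MP_629a14_nt.Lf
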