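import Pool.Agent.Lib.MP_629a14_nt.Th.Lower

/-! The zeros near the line `Re s = 1`, with multiplicities. -/

set_option autoImplicit false

namespace Pool.Agent.Lib.MP_629a14_nt.Lf

open Finset Pool.Agent.Lib.MP_629a14_nt.Th

private theorem Near_re (t σ : ℝ) : ((σ : ℂ) + t * Complex.I).re = σ := by simp

/-- `‖L'/L(σ+it, χ)‖ ≤ -ζ'/ζ(σ)`. -/
private theorem Near_cmp (q : ℕ) [NeZero q] (χ : DirichletCharacter ℂ q) (t σ : ℝ) (h1 : 1 < σ) :
    ‖deriv χ.LFunction (σ + t * Complex.I) / χ.LFunction (σ + t * Complex.I)‖ ≤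
      -(deriv riemannZeta (σ : ℂ) / riemannZeta (σ : ℂ)).re := by
  have hs : 1 < ((σ : ℂ) + t * Complex.I).re := by rw [Near_re]; exact h1
  have hσ : 1 < ((σ : ℂ)).re := by simpa using h1
  have hA := DirichletCharacter.LSeriesSummable_twist_vonMangoldt χ hs
  have hA2 := DirichletCharacter.LSeries_twist_vonMangoldt_eq χ hs
  rw [← χ.deriv_LFunction_eq_deriv_LSeries hs, ← χ.LFunction_eq_LSeries hs] at hA2
  have hB := ArithmeticFunction.LSeriesSummable_vonMangoldt hσ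
  have hB2 := ArithmeticFunction.LSeries_vonMangoldt_eq_deriv_riemannZeta_div hσ
  have e1 : ‖deriv χ.LFunction (σ + t * Complex.I) / χ.LFunction (σ + t * Complex.I)‖ =
      ‖LSeries ((fun n : ℕ => χ (n : ZMod q)) * fun n : ℕ => (ArithmeticFunction.vonMangoldt n : ℂ))
        ((σ : ℂ) + t * Complex.I)‖ := by
    rw [hA2, neg_div, norm_neg]
  have e2 : -(deriv riemannZeta (σ : ℂ) / riemannZeta (σ : ℂ)).re =
      ∑' n : ℕ, (LSeries.term (fun n : ℕ => (ArithmeticFunction.vonMangoldt n : ℂ)) (σ : ℂ) n).re := by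
    have h3 := (Complex.hasSum_re hB.LSeriesHasSum).tsum_eq
    rw [h3, hB2, neg_div, Complex.neg_re]
  have hterm : ∀ n : ℕ, ‖LSeries.term ((fun n : ℕ => χ (n : ZMod q)) *
        fun n : ℕ => (ArithmeticFunction.vonMangoldt n : ℂ)) ((σ : ℂ) + t * Complex.I) n‖ ≤
      (LSeries.term (fun n : ℕ => (ArithmeticFunction.vonMangoldt n : ℂ)) (σ : ℂ) n).re := by
    intro n
    rcases eq_or_ne n 0 with rfl | hn
    · simp
    · rw [LSeries.norm_term_eq, if_neg hn, Near_re, LSeries.term_of_ne_zero hn]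
      have e : (n : ℂ) ^ (σ : ℂ) = ((((n : ℝ) ^ σ : ℝ)) : ℂ) := by
        rw [Complex.ofReal_cpow (Nat.cast_nonneg n), Complex.ofReal_natCast]
      rw [e, ← Complex.ofReal_div, Complex.ofReal_re]
      refine div_le_div_of_nonneg_right ?_ (by positivity)
      rw [Pi.mul_apply, norm_mul]
      have h4 : ‖((ArithmeticFunction.vonMangoldt n : ℝ) : ℂ)‖ = ArithmeticFunction.vonMangoldt n := by
        rw [Complex.norm_real, Real.norm_eq_abs, abs_of_nonneg ArithmeticFunction.vonMangoldt_nonneg]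
      rw [h4]
      calc ‖χ (n : ZMod q)‖ * ArithmeticFunction.vonMangoldt n ≤ 1 * ArithmeticFunction.vonMangoldt n :=
            mul_le_mul_of_nonneg_right (χ.norm_le_one _) ArithmeticFunction.vonMangoldt_nonneg
        _ = _ := one_mul _
  have hsB : Summable fun n : ℕ =>
      (LSeries.term (fun n : ℕ => (ArithmeticFunction.vonMangoldt n : ℂ)) (σ : ℂ) n).re :=
    (Complex.hasSum_re hB.LSeriesHasSum).summable
  rw [e1, e2]
  unfold LSeries
  exact (norm_tsum_le_tsum_norm hA.norm).trans (hA.norm.tsum_le_tsum hterm hsB)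

/-- `‖L'/L(σ+it, χ)‖ ≤ -ζ'/ζ(σ) ≤ 1/(σ-1) + C`. -/
theorem logder_le : ∃ C : ℝ, 1 ≤ C ∧ ∀ (q : ℕ) [NeZero q] (χ : DirichletCharacter ℂ q) (t σ : ℝ), 1 < σ →
    σ ≤ 17 / 16 →
    ‖deriv χ.LFunction (σ + t * Complex.I) / χ.LFunction (σ + t * Complex.I)‖ ≤ 1 / (σ - 1) + C := by
  obtain ⟨C, hC, h⟩ := upper_zeta
  have hl : 0 ≤ Real.log 3 := Real.log_nonneg (by norm_num)
  refine ⟨C * Real.log 3 + 1, by nlinarith, ?_⟩
  intro q _ χ t σ h1 h2
  refine (Near_cmp q χ t σ h1).trans ?_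
  have h3 := h 0 σ h1 h2 ∅ (by simp)
  rw [Finset.sum_empty, sub_zero] at h3
  have e1 : (σ : ℂ) + ((0 : ℝ) : ℂ) * Complex.I = σ := by simp
  have e2 : (1 / (((σ : ℂ) - 1) + ((0 : ℝ) : ℂ) * Complex.I)).re = 1 / (σ - 1) := by
    have : (1 / (((σ : ℂ) - 1) + ((0 : ℝ) : ℂ) * Complex.I)) = ((1 / (σ - 1) : ℝ) : ℂ) := by
      push_cast
      simp
    rw [this, Complex.ofReal_re]
  rw [e1, e2, abs_zero, zero_add] at h3
  linarith

private theorem Near_dist (t r : ℝ) (h0 : 0 < r) (h1 : r ≤ 1 / 16) :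
    ‖((1 : ℂ) + r + t * Complex.I) - ctr t‖ ≤ 1 / 16 := by
  have h : ((1 : ℂ) + r + t * Complex.I) - ctr t = ((r - 1 / 16 : ℝ) : ℂ) := by
    unfold ctr
    push_cast
    ring
  rw [h, Complex.norm_real, Real.norm_eq_abs, abs_le]
  constructor <;> linarith

private theorem Near_re_inv_nonneg (w : ℂ) (hw : 0 < w.re) : 0 ≤ (1 / w).re := by
  rw [one_div, Complex.inv_re]
  exact div_nonneg hw.le (Complex.normSq_nonneg _)

/-- The general inequality. -/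
private theorem Near_gen (Z S : Finset ℂ) (m : ℂ → ℝ) (s d G : ℂ) (A B : ℝ) (hSZ : S ⊆ Z)
    (hre : ∀ ρ ∈ Z, ρ.re < s.re) (hm : ∀ ρ ∈ Z, 1 ≤ m ρ) (hG : ‖G‖ ≤ B) (hA : ‖d‖ ≤ A)
    (hd : d = ∑ ρ ∈ Z, (m ρ : ℂ) / (s - ρ) + G) :
    ∑ ρ ∈ S, m ρ * (1 / (s - ρ)).re ≤ A + B := by
  have h1 : d.re = ∑ ρ ∈ Z, m ρ * (1 / (s - ρ)).re + G.re := by
    rw [hd, Complex.add_re, Complex.re_sum]
    congr 1
    refine Finset.sum_congr rfl fun ρ _ => ?_
    rw [show (m ρ : ℂ) / (s - ρ) = (m ρ : ℂ) * (1 / (s - ρ)) by ring, Complex.re_ofReal_mul]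
  have hpos : ∀ ρ ∈ Z, 0 ≤ m ρ * (1 / (s - ρ)).re := fun ρ hρ => by
    refine mul_nonneg (zero_le_one.trans (hm ρ hρ)) (Near_re_inv_nonneg _ ?_)
    rw [Complex.sub_re]
    linarith [hre ρ hρ]
  have h2 : ∑ ρ ∈ S, m ρ * (1 / (s - ρ)).re ≤ ∑ ρ ∈ Z, m ρ * (1 / (s - ρ)).re :=
    Finset.sum_le_sum_of_subset_of_nonneg hSZ fun ρ hρ _ => hpos ρ hρ
  have h3 := (abs_le.1 ((Complex.abs_re_le_norm G).trans hG)).1
  have h4 := (abs_le.1 ((Complex.abs_re_le_norm d).trans hA)).2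
  linarith

private theorem Near_log (q : ℕ) [NeZero q] (t L : ℝ) (h : Real.log (q * (|t| + 3)) ≤ L) : 1 ≤ L := by
  have hq : (1 : ℝ) ≤ q := by exact_mod_cast Nat.one_le_iff_ne_zero.2 (NeZero.ne q)
  have h3 : (3 : ℝ) ≤ q * (|t| + 3) := by nlinarith [abs_nonneg t]
  have h4 : 1 ≤ Real.log (q * (|t| + 3)) := by
    rw [Real.le_log_iff_exp_le (by linarith)]
    linarith [Real.exp_one_lt_d9]
  linarith

private theorem Near_log' (t L : ℝ) (h : Real.log (|t| + 3) ≤ L) : 1 ≤ L := by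
  have h4 : 1 ≤ Real.log (|t| + 3) := by
    rw [Real.le_log_iff_exp_le (by linarith [abs_nonneg t])]
    linarith [Real.exp_one_lt_d9, abs_nonneg t]
  linarith

/-- Proof. `local_chi` at `s₀ = 1 + r + it` (distance at most `1/16` from `ctr t`): `∑_ρ m_ρ Re 1/(s₀-ρ) =
Re(L'/L(s₀) - G(s₀)) ≤ 1/r + C + C log(q(|t|+3))` (`logder_le`) for the sum over all zeros in
`closedBall (ctr t) (1/4)`; all terms are positive since the zeros have real part `< 1`. -/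
theorem near_chi : ∃ C : ℝ, 1 ≤ C ∧ ∀ (q : ℕ) [NeZero q] (χ : DirichletCharacter ℂ q), χ ≠ 1 →
    ∀ t r L : ℝ, 0 < r → r ≤ 1 / 16 → Real.log (q * (|t| + 3)) ≤ L →
    ∀ Z : Finset ℂ, (∀ ρ ∈ Z, ‖ρ - ctr t‖ ≤ 1 / 4 ∧ χ.LFunction ρ = 0) →
      ∑ ρ ∈ Z, mul χ.LFunction ρ * (1 / ((1 : ℂ) + r + t * Complex.I - ρ)).re ≤ C * (L + 1 / r) := by
  obtain ⟨C₁, hC₁, h₁⟩ := logder_le
  obtain ⟨C₂, hC₂, h₂⟩ := local_chi
  refine ⟨C₁ + C₂, by linarith, ?_⟩
  intro q _ χ hχ t r L hr0 hr hL S hS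
  obtain ⟨Z, hZ, -, hm, G, -, hG, hd⟩ := h₂ q χ hχ t
  have hL1 := Near_log q t L hL
  have hdist := Near_dist t r hr0 hr
  have hsre : ((1 : ℂ) + r + t * Complex.I).re = 1 + r := by simp
  have hne : χ.LFunction ((1 : ℂ) + r + t * Complex.I) ≠ 0 := by
    intro h0
    have := re_lt_one_chi q χ hχ _ h0
    rw [hsre] at this
    linarith
  have hA : ‖deriv χ.LFunction ((1 : ℂ) + r + t * Complex.I) / χ.LFunction ((1 : ℂ) + r + t * Complex.I)‖ ≤
      1 / r + C₁ := by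
    have := h₁ q χ t (1 + r) (by linarith) (by linarith)
    push_cast at this
    have e : (1 : ℝ) + r - 1 = r := by ring
    rw [e] at this
    exact this
  have h3 := Near_gen Z S (fun ρ => mul χ.LFunction ρ) _ _ _ _ _ (fun ρ hρ => (hZ ρ).2 (hS ρ hρ))
    (fun ρ hρ => by
      rw [hsre]
      linarith [re_lt_one_chi q χ hχ ρ ((hZ ρ).1 hρ).2]) hm
    (hG ((1 : ℂ) + r + t * Complex.I) (by
      rw [Metric.mem_closedBall, dist_eq_norm]
      linarith)) hA (hd _ (by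
      rw [Metric.mem_ball, dist_eq_norm]
      linarith) hne)
  refine h3.trans ?_
  have hr' : 0 < 1 / r := by positivity
  have h4 : C₂ * Real.log (q * (|t| + 3)) ≤ C₂ * L := mul_le_mul_of_nonneg_left hL (by linarith)
  nlinarith

private theorem Near_zeta (s : ℂ) (hs : 1 < s.re) :
    deriv riemannZeta s / riemannZeta s = deriv zt s / zt s - 1 / (s - 1) := by
  have hs1 : s ≠ 1 := by
    rintro rfl
    simp at hs
  have hs10 : s - 1 ≠ 0 := sub_ne_zero.2 hs1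
  have hz : riemannZeta s ≠ 0 := riemannZeta_ne_zero_of_one_le_re hs.le
  have hev : zt =ᶠ[nhds s] fun z => (z - 1) * riemannZeta z := by
    filter_upwards [isOpen_ne.mem_nhds hs1] with z hz
    unfold zt
    rw [if_neg hz]
  have h1 : deriv zt s = riemannZeta s + (s - 1) * deriv riemannZeta s := by
    rw [hev.deriv_eq]
    have hd : HasDerivAt (fun z : ℂ => (z - 1) * riemannZeta z)
        (1 * riemannZeta s + (s - 1) * deriv riemannZeta s) s :=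
      ((hasDerivAt_id s).sub_const 1).mul (differentiableAt_riemannZeta hs1).hasDerivAt
    rw [hd.deriv, one_mul]
  have h2 : zt s = (s - 1) * riemannZeta s := hev.eq_of_nhds
  rw [h1, h2]
  field_simp
  ring

/-- The same for `zt`: `zt'/zt = ζ'/ζ + 1/(s-1)`. -/
theorem near_zt : ∃ C : ℝ, 1 ≤ C ∧
    ∀ t r L : ℝ, 0 < r → r ≤ 1 / 16 → Real.log (|t| + 3) ≤ L →
    ∀ Z : Finset ℂ, (∀ ρ ∈ Z, ‖ρ - ctr t‖ ≤ 1 / 4 ∧ zt ρ = 0) →
      ∑ ρ ∈ Z, mul zt ρ * (1 / ((1 : ℂ) + r + t * Complex.I - ρ)).re ≤ C * (L + 1 / r) := by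
  obtain ⟨C₁, hC₁, h₁⟩ := logder_le
  obtain ⟨C₂, hC₂, h₂⟩ := local_zt
  refine ⟨C₁ + C₂ + 1, by linarith, ?_⟩
  intro t r L hr0 hr hL S hS
  obtain ⟨Z, hZ, -, hm, G, -, hG, hd⟩ := h₂ t
  have hL1 := Near_log' t L hL
  have hdist := Near_dist t r hr0 hr
  have hsre : ((1 : ℂ) + r + t * Complex.I).re = 1 + r := by simp
  have hne : zt ((1 : ℂ) + r + t * Complex.I) ≠ 0 := by
    intro h0
    have := re_lt_one_zt _ h0
    rw [hsre] at this
    linarith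
  have hA : ‖deriv zt ((1 : ℂ) + r + t * Complex.I) / zt ((1 : ℂ) + r + t * Complex.I)‖ ≤
      (1 / r + C₁) + 1 / r := by
    have h3 := h₁ 1 (1 : DirichletCharacter ℂ 1) t (1 + r) (by linarith) (by linarith)
    rw [DirichletCharacter.LFunction_modOne_eq] at h3
    push_cast at h3
    have e : (1 : ℝ) + r - 1 = r := by ring
    rw [e] at h3
    have h4 := Near_zeta ((1 : ℂ) + r + t * Complex.I) (by rw [hsre]; linarith)
    have h5 : deriv zt ((1 : ℂ) + r + t * Complex.I) / zt ((1 : ℂ) + r + t * Complex.I) =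
        deriv riemannZeta ((1 : ℂ) + r + t * Complex.I) / riemannZeta ((1 : ℂ) + r + t * Complex.I) +
          1 / ((1 : ℂ) + r + t * Complex.I - 1) := by
      rw [h4]
      ring
    have h6 : ‖1 / ((1 : ℂ) + r + t * Complex.I - 1)‖ ≤ 1 / r := by
      rw [norm_div, norm_one]
      refine one_div_le_one_div_of_le hr0 ?_
      have h7 := Complex.abs_re_le_norm ((1 : ℂ) + r + t * Complex.I - 1)
      rw [Complex.sub_re, hsre, Complex.one_re, e] at h7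
      exact (le_abs_self r).trans h7
    rw [h5]
    exact (norm_add_le _ _).trans (add_le_add h3 h6)
  have h3 := Near_gen Z S (fun ρ => mul zt ρ) _ _ _ _ _ (fun ρ hρ => (hZ ρ).2 (hS ρ hρ))
    (fun ρ hρ => by
      rw [hsre]
      linarith [re_lt_one_zt ρ ((hZ ρ).1 hρ).2]) hm
    (hG ((1 : ℂ) + r + t * Complex.I) (by
      rw [Metric.mem_closedBall, dist_eq_norm]
      linarith)) hA (hd _ (by
      rw [Metric.mem_ball, dist_eq_norm]
      linarith) hne)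
  refine h3.trans ?_
  have hr' : 0 < 1 / r := by positivity
  have h4 : C₂ * Real.log (|t| + 3) ≤ C₂ * L := mul_le_mul_of_nonneg_left hL (by linarith)
  nlinarith

/-- A zero in the small square. -/
private theorem Near_sq (t r : ℝ) (hr0 : 0 < r) (hr : r ≤ 1 / 32) (ρ : ℂ) (h1 : 1 - r ≤ ρ.re) (h2 : ρ.re < 1)
    (h3 : |ρ.im - t| ≤ r) :
    ‖ρ - ctr t‖ ≤ 1 / 4 ∧ 1 / (5 * r) ≤ (1 / ((1 : ℂ) + r + t * Complex.I - ρ)).re := by
  constructor
  · have hc1 : (ρ - ctr t).re = ρ.re - 17 / 16 := by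
      unfold ctr
      simp only [Complex.sub_re, Complex.add_re, Complex.mul_re, Complex.ofReal_re, Complex.ofReal_im, Complex.I_re,
        Complex.I_im]
      norm_num
    have hc2 : (ρ - ctr t).im = ρ.im - t := by
      unfold ctr
      simp only [Complex.sub_im, Complex.add_im, Complex.mul_im, Complex.ofReal_re, Complex.ofReal_im, Complex.I_re,
        Complex.I_im]
      norm_num
    refine (Complex.norm_le_abs_re_add_abs_im _).trans ?_
    rw [hc1, hc2]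
    have : |ρ.re - 17 / 16| ≤ 3 / 32 := by
      rw [abs_le]
      constructor <;> linarith
    linarith
  · set w : ℂ := (1 : ℂ) + r + t * Complex.I - ρ with hw
    have hwre : w.re = 1 + r - ρ.re := by
      rw [hw]
      simp
    have hwim : w.im = t - ρ.im := by
      rw [hw]
      simp
    have ha1 : r ≤ w.re := by rw [hwre]; linarith
    have ha2 : w.re ≤ 2 * r := by rw [hwre]; linarith
    have hb : w.im ^ 2 ≤ r ^ 2 := by
      rw [hwim, ← sq_abs, abs_sub_comm]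
      exact pow_le_pow_left₀ (abs_nonneg _) h3 2
    rw [one_div w, Complex.inv_re, Complex.normSq_apply]
    have hpos : 0 < w.re * w.re + w.im * w.im := by nlinarith
    rw [div_le_div_iff₀ (by positivity) hpos]
    nlinarith

/-- The zeros with `1 - Re ρ ≤ r`, `|Im ρ - t| ≤ r` satisfy `Re 1/(s₀-ρ) ≥ 1/(5r)`. -/
theorem disc_chi : ∃ C : ℝ, 1 ≤ C ∧ ∀ (q : ℕ) [NeZero q] (χ : DirichletCharacter ℂ q), χ ≠ 1 →
    ∀ T t r L : ℝ, 0 < r → r ≤ 1 / 32 → Real.log (q * (|t| + 3)) ≤ L →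
      ∑ ρ ∈ (ZF χ.LFunction (1 - r) T).filter (fun ρ => |ρ.im - t| ≤ r), mul χ.LFunction ρ ≤ C * (r * L + 1) := by
  obtain ⟨C, hC, h⟩ := near_chi
  refine ⟨5 * C, by linarith, ?_⟩
  intro q _ χ hχ T t r L hr0 hr hL
  set Z := (ZF χ.LFunction (1 - r) T).filter (fun ρ => |ρ.im - t| ≤ r) with hZ
  have hmem : ∀ ρ ∈ Z, χ.LFunction ρ = 0 ∧ ‖ρ - ctr t‖ ≤ 1 / 4 ∧
      1 / (5 * r) ≤ (1 / ((1 : ℂ) + r + t * Complex.I - ρ)).re := by
    intro ρ hρ
    rw [hZ, mem_filter, mem_ZF_chi q χ hχ] at hρ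
    exact ⟨hρ.1.1, Near_sq t r hr0 hr ρ hρ.1.2.1 (re_lt_one_chi q χ hχ ρ hρ.1.1) hρ.2⟩
  have h1 := h q χ hχ t r L hr0 (by linarith) hL Z (fun ρ hρ => ⟨(hmem ρ hρ).2.1, (hmem ρ hρ).1⟩)
  have h2 : ∑ ρ ∈ Z, mul χ.LFunction ρ * (1 / (5 * r)) ≤
      ∑ ρ ∈ Z, mul χ.LFunction ρ * (1 / ((1 : ℂ) + r + t * Complex.I - ρ)).re := by
    refine sum_le_sum fun ρ hρ => mul_le_mul_of_nonneg_left (hmem ρ hρ).2.2 ?_
    exact zero_le_one.trans (one_le_mul_chi q χ hχ ρ (hmem ρ hρ).1)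
  rw [← sum_mul] at h2
  have h3 := h2.trans h1
  rw [mul_one_div, div_le_iff₀ (by positivity)] at h3
  refine h3.trans (le_of_eq ?_)
  field_simp

theorem disc_zt : ∃ C : ℝ, 1 ≤ C ∧
    ∀ T t r L : ℝ, 0 < r → r ≤ 1 / 32 → Real.log (|t| + 3) ≤ L →
      ∑ ρ ∈ (ZF zt (1 - r) T).filter (fun ρ => |ρ.im - t| ≤ r), mul zt ρ ≤ C * (r * L + 1) := by
  obtain ⟨C, hC, h⟩ := near_zt
  refine ⟨5 * C, by linarith, ?_⟩
  intro T t r L hr0 hr hL
  set Z := (ZF zt (1 - r) T).filter (fun ρ => |ρ.im - t| ≤ r) with hZ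
  have hmem : ∀ ρ ∈ Z, zt ρ = 0 ∧ ‖ρ - ctr t‖ ≤ 1 / 4 ∧
      1 / (5 * r) ≤ (1 / ((1 : ℂ) + r + t * Complex.I - ρ)).re := by
    intro ρ hρ
    rw [hZ, mem_filter, mem_ZF_zt] at hρ
    exact ⟨hρ.1.1, Near_sq t r hr0 hr ρ hρ.1.2.1 (re_lt_one_zt ρ hρ.1.1) hρ.2⟩
  have h1 := h t r L hr0 (by linarith) hL Z (fun ρ hρ => ⟨(hmem ρ hρ).2.1, (hmem ρ hρ).1⟩)
  have h2 : ∑ ρ ∈ Z, mul zt ρ * (1 / (5 * r)) ≤
      ∑ ρ ∈ Z, mul zt ρ * (1 / ((1 : ℂ) + r + t * Complex.I - ρ)).re := by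
    refine sum_le_sum fun ρ hρ => mul_le_mul_of_nonneg_left (hmem ρ hρ).2.2 ?_
    exact zero_le_one.trans (one_le_mul_zt ρ (hmem ρ hρ).1)
  rw [← sum_mul] at h2
  have h3 := h2.trans h1
  rw [mul_one_div, div_le_iff₀ (by positivity)] at h3
  refine h3.trans (le_of_eq ?_)
  field_simp

end Pool.Agent.Lib.MP_629a14_nt.Lf
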