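import Pool.Agent.Lib.MP_629a14_nt.Lf.Tlow
import Pool.Agent.Lib.MP_629a14_nt.Lf.Near
import Pool.Agent.Lib.MP_629a14_nt.Lf.BB
import Pool.Agent.Lib.MP_629a14_nt.Th.ZfrZ

/-! A lower bound for Taylor coefficients in the presence of a zero. -/

set_option autoImplicit false

namespace Pool.Agent.Lib.MP_629a14_nt.Lf

open Finset Pool.Agent.Lib.MP_629a14_nt.Th

private theorem TlowC_re (t r : ℝ) (ρ : ℂ) :
    ((1 : ℂ) + r + t * Complex.I - ρ).re = 1 + r - ρ.re := by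
  simp

private theorem TlowC_im (t r : ℝ) (ρ : ℂ) :
    ((1 : ℂ) + r + t * Complex.I - ρ).im = t - ρ.im := by
  simp

private theorem TlowC_dist (t r : ℝ) (ρ : ℂ) (h1 : 1 - r ≤ ρ.re) (h2 : ρ.re < 1)
    (h3 : |ρ.im - t| ≤ r) : ‖(1 : ℂ) + r + t * Complex.I - ρ‖ ≤ 3 * r := by
  refine (Complex.norm_le_abs_re_add_abs_im _).trans ?_
  rw [TlowC_re, TlowC_im, abs_sub_comm t]
  have : |1 + r - ρ.re| ≤ 2 * r := by
    rw [abs_le]
    have := le_trans (abs_nonneg _) h3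
    constructor <;> linarith
  linarith

private theorem TlowC_ctr (t r : ℝ) (hr : r ≤ 1 / 2000) (ρ : ℂ) (h1 : 1 - r ≤ ρ.re)
    (h2 : ρ.re < 1) (h3 : |ρ.im - t| ≤ r) : ‖ρ - ctr t‖ ≤ 1 / 4 := by
  refine (Complex.norm_le_abs_re_add_abs_im _).trans ?_
  have e1 : (ρ - ctr t).re = ρ.re - 17 / 16 := by
    unfold ctr
    simp
  have e2 : (ρ - ctr t).im = ρ.im - t := by
    unfold ctr
    simp
  rw [e1, e2]
  have : |ρ.re - 17 / 16| ≤ 1 / 16 + r := by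
    rw [abs_le]
    have := le_trans (abs_nonneg _) h3
    constructor <;> linarith
  linarith

/-- `tlow_abs` with `BB_chi`, `near_chi`; `‖s₀-ρ‖ ≤ √(4r²+r²) ≤ 3r` and `ρ ∈ closedBall (ctr t) (1/4)`. -/
theorem tlow_chi : ∃ M : ℝ, 1 ≤ M ∧ ∀ (q : ℕ) [NeZero q] (χ : DirichletCharacter ℂ q), χ ≠ 1 →
    ∀ (t r L : ℝ), 0 < r → r ≤ 1 / 2000 → Real.log (q * (|t| + 3)) ≤ L →
    ∀ ρ : ℂ, χ.LFunction ρ = 0 → 1 - r ≤ ρ.re → |ρ.im - t| ≤ r →
    ∀ m : ℕ, M * (r * L + 1) ≤ m → ∃ k : ℕ, m ≤ k ∧ k ≤ 2 * m ∧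
      (1 / 4 : ℝ) ^ (k + 1) ≤
        ‖BB (fun n => (ArithmeticFunction.vonMangoldt n : ℂ) * χ (n : ZMod q)) r k t‖ := by
  obtain ⟨C₁, hC₁, hB⟩ := BB_chi
  obtain ⟨C₂, hC₂, hN⟩ := near_chi
  obtain ⟨M, hM1, hM⟩ := tlow_abs (max C₁ C₂) (le_trans hC₁ (le_max_left _ _))
  refine ⟨M, hM1, ?_⟩
  intro q _ χ hχ t r L hr hr2 hL ρ hρ hre him m hm
  obtain ⟨Z, hZ, hBZ⟩ := hB q χ hχ t r L hr (by linarith) hL
  have hq : (1 : ℝ) ≤ q := by exact_mod_cast NeZero.one_le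
  have hL0 : 0 ≤ L := by
    refine le_trans (Real.log_nonneg ?_) hL
    have := abs_nonneg t
    nlinarith
  have hmx0 : 0 ≤ max C₁ C₂ := le_trans (by linarith) (le_max_left C₁ C₂)
  refine hM r L ((1 : ℂ) + r + t * Complex.I) Z (mul χ.LFunction) _ hr hr2 hL0 ?_ ?_ ?_ ?_ m hm
  · intro σ hσ
    have h0 := ((hZ σ).1 hσ).2
    refine ⟨one_le_mul_chi q χ hχ σ h0, ?_⟩
    rw [TlowC_re]
    have := re_lt_one_chi q χ hχ σ h0
    linarith
  · refine le_trans (hN q χ hχ t r L hr (by linarith) hL Z (fun σ hσ => (hZ σ).1 hσ)) ?_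
    exact mul_le_mul_of_nonneg_right (le_max_right _ _) (by positivity)
  · intro k
    refine le_trans (hBZ k) ?_
    refine mul_le_mul_of_nonneg_right ?_ (by positivity)
    exact mul_le_mul (le_max_left _ _) (by linarith) hL0 hmx0
  · have h1 := re_lt_one_chi q χ hχ ρ hρ
    exact ⟨ρ, (hZ ρ).2 ⟨TlowC_ctr t r hr2 ρ hre h1 him, hρ⟩, TlowC_dist t r ρ hre h1 him⟩

/-- The same with `BB_zt`, `near_zt`; by `zfrZ` a zero of `zt` with real part `≥ 1 - r₀` has `|Im ρ| ≥ 1` if `r₀` is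
small. -/
theorem tlow_zt : ∃ M r₀ : ℝ, 1 ≤ M ∧ 0 < r₀ ∧ r₀ ≤ 1 / 2000 ∧
    ∀ (t r L : ℝ), 0 < r → r ≤ r₀ → Real.log (|t| + 3) ≤ L →
    ∀ ρ : ℂ, zt ρ = 0 → 1 - r ≤ ρ.re → |ρ.im - t| ≤ r →
    ∀ m : ℕ, M * (r * L + 1) ≤ m → ∃ k : ℕ, m ≤ k ∧ k ≤ 2 * m ∧
      (1 / 4 : ℝ) ^ (k + 1) ≤ ‖BB (fun n => (ArithmeticFunction.vonMangoldt n : ℂ)) r k t‖ := by
  obtain ⟨C₁, hC₁, hB⟩ := BB_zt
  obtain ⟨C₂, hC₂, hN⟩ := near_zt
  obtain ⟨M, hM1, hM⟩ := tlow_abs (max C₁ C₂) (le_trans hC₁ (le_max_left _ _))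
  obtain ⟨c, hc, hz⟩ := zfrZ
  have hlog4 : 0 < Real.log 4 := Real.log_pos (by norm_num)
  refine ⟨M, min (1 / 2000) (c / (2 * Real.log 4)), hM1, by positivity, min_le_left _ _, ?_⟩
  intro t r L hr hr0 hL ρ hρ hre him m hm
  have hr2 : r ≤ 1 / 2000 := le_trans hr0 (min_le_left _ _)
  have hr3 : r ≤ c / (2 * Real.log 4) := le_trans hr0 (min_le_right _ _)
  have hρ1 : 1 ≤ |ρ.im| := by
    by_contra hlt
    push Not at hlt
    have h1 := hz ρ hρ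
    have h2 : Real.log (|ρ.im| + 3) ≤ Real.log 4 :=
      Real.log_le_log (by positivity) (by linarith)
    have h3 : 0 < Real.log (|ρ.im| + 3) := Real.log_pos (by have := abs_nonneg ρ.im; linarith)
    have h4 : c / Real.log 4 ≤ c / Real.log (|ρ.im| + 3) :=
      div_le_div_of_nonneg_left hc.le h3 h2
    have h5 : c / Real.log 4 = 2 * (c / (2 * Real.log 4)) := by
      field_simp
    have h6 : 0 < c / (2 * Real.log 4) := by positivity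
    linarith
  have ht : 1 / 2 ≤ |t| := by
    have h1 : |ρ.im| ≤ |ρ.im - t| + |t| := by
      have := abs_add_le (ρ.im - t) t
      rwa [sub_add_cancel] at this
    linarith
  obtain ⟨Z, hZ, hBZ⟩ := hB t r L hr (by linarith) ht hL
  have hL0 : 0 ≤ L := by
    refine le_trans (Real.log_nonneg ?_) hL
    have := abs_nonneg t
    linarith
  have hmx0 : 0 ≤ max C₁ C₂ := le_trans (by linarith) (le_max_left C₁ C₂)
  refine hM r L ((1 : ℂ) + r + t * Complex.I) Z (mul zt) _ hr hr2 hL0 ?_ ?_ ?_ ?_ m hm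
  · intro σ hσ
    have h0 := ((hZ σ).1 hσ).2
    refine ⟨one_le_mul_zt σ h0, ?_⟩
    rw [TlowC_re]
    have := re_lt_one_zt σ h0
    linarith
  · refine le_trans (hN t r L hr (by linarith) hL Z (fun σ hσ => (hZ σ).1 hσ)) ?_
    exact mul_le_mul_of_nonneg_right (le_max_right _ _) (by positivity)
  · intro k
    refine le_trans (hBZ k) ?_
    refine mul_le_mul_of_nonneg_right ?_ (by positivity)
    exact mul_le_mul (le_max_left _ _) (by linarith) hL0 hmx0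
  · have h1 := re_lt_one_zt ρ hρ
    exact ⟨ρ, (hZ ρ).2 ⟨TlowC_ctr t r hr2 ρ hre h1 him, hρ⟩, TlowC_dist t r ρ hre h1 him⟩

end Pool.Agent.Lib.MP_629a14_nt.Lf
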