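import Pool.Agent.Lib.MP_629a14_nt.Lf.BB

/-! Truncation of the series to primes in a range. -/

set_option autoImplicit false

namespace Pool.Agent.Lib.MP_629a14_nt.Lf

open Finset Pool.Agent.Lib.MP_629a14_nt.Th

/-- The density of the Gamma distribution. -/
noncomputable def Wk (k : ℕ) (u : ℝ) : ℝ := Real.exp (-u) * u ^ k / (k.factorial : ℝ)

/-- The lower end of the range. -/
noncomputable def PX (r : ℝ) (m : ℕ) : ℕ := ⌊Real.exp (m / (100 * r))⌋₊

/-- The upper end of the range. -/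
noncomputable def PY (r : ℝ) (m : ℕ) : ℕ := ⌈Real.exp (200 * m / r)⌉₊

/-- The coefficients, supported on the primes larger than `PX r m`. -/
noncomputable def cP (r : ℝ) (m k n : ℕ) : ℝ :=
  if n.Prime ∧ PX r m < n then r * Real.log n / n * Wk k (r * Real.log n) else 0

theorem Wk_nonneg (k : ℕ) (u : ℝ) (hu : 0 ≤ u) : 0 ≤ Wk k u := by
  unfold Wk
  positivity

theorem Wk_le_one (k : ℕ) (u : ℝ) (hu : 0 ≤ u) : Wk k u ≤ 1 := by
  unfold Wk
  have h := Real.pow_div_factorial_le_exp u hu k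
  rw [mul_div_assoc]
  calc Real.exp (-u) * (u ^ k / (k.factorial : ℝ)) ≤ Real.exp (-u) * Real.exp u := by gcongr
    _ = 1 := by rw [← Real.exp_add]; simp

/-- `W_k(u) ≤ u^k/k! ≤ (e/100)^k` for `u ≤ k/100`. -/
theorem Wk_small (k : ℕ) (u : ℝ) (hu : 0 ≤ u) (h : 100 * u ≤ k) : Wk k u ≤ (3 / 100) ^ k := by
  unfold Wk
  have h1 := Real.pow_div_factorial_le_exp (k : ℝ) (Nat.cast_nonneg k) k
  have h2 : u ≤ (k : ℝ) / 100 := by linarith
  have h3 : Real.exp (-u) ≤ 1 := by rw [Real.exp_le_one_iff]; linarith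
  have h4 : Real.exp (k : ℝ) ≤ 3 ^ k := by
    have : Real.exp (k : ℝ) = Real.exp 1 ^ k := by rw [← Real.exp_nat_mul]; simp
    rw [this]
    gcongr
    have := Real.exp_one_lt_d9
    linarith
  rw [mul_div_assoc]
  calc Real.exp (-u) * (u ^ k / (k.factorial : ℝ)) ≤ 1 * (((k : ℝ) / 100) ^ k / (k.factorial : ℝ)) := by
        gcongr
    _ = (1 / 100) ^ k * ((k : ℝ) ^ k / (k.factorial : ℝ)) := by
        rw [one_mul, div_pow, div_pow, one_pow]; ring
    _ ≤ (1 / 100) ^ k * 3 ^ k := by gcongr; exact h1.trans h4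
    _ = (3 / 100) ^ k := by rw [← mul_pow]; norm_num

/-- `W_k(u) ≤ 2^k e^{-u/2}`. -/
theorem Wk_large (k : ℕ) (u : ℝ) (hu : 0 ≤ u) : Wk k u ≤ 2 ^ k * Real.exp (-(u / 2)) := by
  unfold Wk
  have h1 := Real.pow_div_factorial_le_exp (u / 2) (by positivity) k
  have h2 : u ^ k / (k.factorial : ℝ) = 2 ^ k * ((u / 2) ^ k / (k.factorial : ℝ)) := by
    rw [div_pow]; field_simp
  rw [mul_div_assoc, h2]
  calc Real.exp (-u) * (2 ^ k * ((u / 2) ^ k / (k.factorial : ℝ))) ≤
        Real.exp (-u) * (2 ^ k * Real.exp (u / 2)) := by gcongr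
    _ = 2 ^ k * (Real.exp (-u) * Real.exp (u / 2)) := by ring
    _ = 2 ^ k * Real.exp (-(u / 2)) := by
        rw [← Real.exp_add]; congr 2; ring

open ArithmeticFunction in
private theorem Trunc_psi_le (N : ℕ) : ∑ n ∈ Ioc 0 N, vonMangoldt n ≤ 6 * N := by
  have h1 := Chebyshev.psi_le_const_mul_self (x := (N : ℝ)) (Nat.cast_nonneg _)
  unfold Chebyshev.psi at h1
  rw [Nat.floor_natCast] at h1
  refine h1.trans ?_
  apply mul_le_mul_of_nonneg_right _ (Nat.cast_nonneg _)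
  have : Real.log 4 ≤ 2 := by
    have h2 : Real.log 4 = 2 * Real.log 2 := by
      rw [show (4 : ℝ) = 2 ^ 2 by norm_num, Real.log_pow]
      norm_num
    rw [h2]
    have := Real.log_two_lt_d9
    linarith
  linarith

open ArithmeticFunction in
open scoped ArithmeticFunction.zeta in
/-- `∑_{n ≤ x} Λ(n)/n ≤ log x + C`. -/
theorem mertens_le : ∃ C : ℝ, 1 ≤ C ∧ ∀ x : ℕ, 1 ≤ x →
    ∑ n ∈ Icc 1 x, ArithmeticFunction.vonMangoldt n / n ≤ Real.log x + C := by
  refine ⟨6, by norm_num, fun N hN => ?_⟩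
  have hset : Icc 1 N = Ioc 0 N := rfl
  rw [hset]
  have hN0 : (0 : ℝ) < N := by exact_mod_cast hN
  have h1 : ∑ n ∈ Ioc 0 N, Real.log n = ∑ n ∈ Ioc 0 N, vonMangoldt n * ((N / n : ℕ) : ℝ) := by
    rw [← sum_Ioc_mul_zeta_eq_sum]
    refine Finset.sum_congr rfl fun n _ => ?_
    rw [vonMangoldt_mul_zeta, log_apply]
  have h2 : ∑ n ∈ Ioc 0 N, Real.log n ≤ N * Real.log N := by
    refine (Finset.sum_le_card_nsmul _ _ (Real.log N) ?_).trans ?_
    · intro n hn
      rw [mem_Ioc] at hn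
      exact Real.log_le_log (by exact_mod_cast hn.1) (by exact_mod_cast hn.2)
    · simp
  have h3 : N * ∑ n ∈ Ioc 0 N, vonMangoldt n / n - ∑ n ∈ Ioc 0 N, vonMangoldt n ≤
      ∑ n ∈ Ioc 0 N, vonMangoldt n * ((N / n : ℕ) : ℝ) := by
    rw [Finset.mul_sum, ← Finset.sum_sub_distrib]
    refine Finset.sum_le_sum fun n hn => ?_
    rw [mem_Ioc] at hn
    have hn0 : (0 : ℝ) < n := by exact_mod_cast hn.1
    have h5 : (N : ℝ) / n ≤ ((N / n : ℕ) : ℝ) + 1 := by
      have := Nat.lt_div_mul_add (a := N) hn.1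
      have h6 : (N : ℝ) < ((N / n : ℕ) : ℝ) * n + n := by exact_mod_cast this
      rw [div_le_iff₀ hn0]
      linarith
    have h6 : (0 : ℝ) ≤ vonMangoldt n := vonMangoldt_nonneg
    have h7 : (N : ℝ) * (vonMangoldt n / n) = vonMangoldt n * (N / n) := by ring
    rw [h7]
    nlinarith
  have h4 := Trunc_psi_le N
  have h5 : (N : ℝ) * ∑ n ∈ Ioc 0 N, vonMangoldt n / n ≤ N * (Real.log N + 6) := by
    nlinarith
  exact le_of_mul_le_mul_left h5 hN0

/-- `∑ Λ(n) n^{-1-δ} ≤ 1/δ + C`. -/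
theorem zeta_series_le : ∃ C : ℝ, 1 ≤ C ∧ ∀ δ : ℝ, 0 < δ → δ ≤ 1 →
    Summable (fun n : ℕ => ArithmeticFunction.vonMangoldt n * (n : ℝ) ^ (-(1 + δ))) ∧
    ∑' n : ℕ, ArithmeticFunction.vonMangoldt n * (n : ℝ) ^ (-(1 + δ)) ≤ 1 / δ + C := by
  have hcd : Continuous (deriv zt) := by
    have h0 : ContDiff ℂ 1 zt := zt_differentiable.contDiff
    exact h0.continuous_deriv le_rfl
  have hcont : ContinuousOn (fun x : ℝ => ‖deriv zt (x : ℂ) / zt (x : ℂ)‖) (Set.Icc 1 2) := by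
    apply ContinuousOn.norm
    apply ContinuousOn.div
    · exact (hcd.comp Complex.continuous_ofReal).continuousOn
    · exact (zt_differentiable.continuous.comp Complex.continuous_ofReal).continuousOn
    · intro x hx
      exact zt_ne_zero _ (by simpa using hx.1)
  obtain ⟨C, hC⟩ := (isCompact_Icc.bddAbove_image hcont)
  refine ⟨max 1 C, le_max_left _ _, fun δ hδ hδ1 => ?_⟩
  set s : ℂ := ((1 + δ : ℝ) : ℂ) with hs
  have hsre : s.re = 1 + δ := by rw [hs, Complex.ofReal_re]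
  have hs1 : 1 < s.re := by rw [hsre]; linarith
  have h1 := (ArithmeticFunction.LSeriesSummable_vonMangoldt hs1).LSeriesHasSum
  rw [ArithmeticFunction.LSeries_vonMangoldt_eq_deriv_riemannZeta_div hs1] at h1
  have h2 := Complex.hasSum_re h1
  have hterm : (fun n : ℕ => (LSeries.term (fun m : ℕ => (ArithmeticFunction.vonMangoldt m : ℂ)) s n).re) =
      fun n : ℕ => ArithmeticFunction.vonMangoldt n * (n : ℝ) ^ (-(1 + δ)) := by
    funext n
    rcases eq_or_ne n 0 with rfl | hn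
    · simp
    · rw [LSeries.term_of_ne_zero hn, hs]
      have e : (n : ℂ) ^ ((1 + δ : ℝ) : ℂ) = ((((n : ℝ) ^ (1 + δ) : ℝ)) : ℂ) := by
        rw [Complex.ofReal_cpow (Nat.cast_nonneg n), Complex.ofReal_natCast]
      rw [e, ← Complex.ofReal_div, Complex.ofReal_re, Real.rpow_neg (Nat.cast_nonneg n)]
      rfl
  rw [hterm] at h2
  refine ⟨h2.summable, ?_⟩
  rw [h2.tsum_eq]
  have hs0 : s ≠ 1 := by
    intro h
    rw [h] at hs1
    simp at hs1
  have hζ0 : riemannZeta s ≠ 0 := riemannZeta_ne_zero_of_one_le_re hs1.le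
  have hev : zt =ᶠ[nhds s] fun z => (z - 1) * riemannZeta z := by
    have : ∀ᶠ z in nhds s, z ≠ 1 := isOpen_ne.mem_nhds hs0
    filter_upwards [this] with z hz
    unfold zt
    rw [if_neg hz]
  have hder : deriv zt s = riemannZeta s + (s - 1) * deriv riemannZeta s := by
    rw [hev.deriv_eq, deriv_fun_mul (by fun_prop) (differentiableAt_riemannZeta hs0)]
    simp
  have hzts : zt s = (s - 1) * riemannZeta s := hev.eq_of_nhds
  have hs10 : s - 1 ≠ 0 := sub_ne_zero.2 hs0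
  have hkey : -deriv riemannZeta s / riemannZeta s = 1 / (s - 1) - deriv zt s / zt s := by
    rw [hder, hzts]
    field_simp
    ring
  rw [hkey, Complex.sub_re]
  have e1 : (1 / (s - 1)).re = 1 / δ := by
    have : s - 1 = ((δ : ℝ) : ℂ) := by rw [hs]; push_cast; ring
    rw [this, ← Complex.ofReal_one, ← Complex.ofReal_div, Complex.ofReal_re]
  rw [e1]
  have h3 : -(deriv zt s / zt s).re ≤ C := by
    have h4 : ‖deriv zt s / zt s‖ ≤ C := hC ⟨1 + δ, ⟨by linarith, by linarith⟩, rfl⟩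
    have h5 := Complex.abs_re_le_norm (deriv zt s / zt s)
    have h6 := neg_abs_le (deriv zt s / zt s).re
    linarith
  have h7 := le_max_right 1 C
  linarith

/-- the bound for a single proper prime power -/
private theorem Trunc_term (p k : ℕ) (hp : 2 ≤ p) (hk : 1 ≤ k) :
    ArithmeticFunction.vonMangoldt (p ^ k) * ((p ^ k : ℕ) : ℝ) ^ (-(2 / 3 : ℝ)) ≤
      Real.log p * ((p : ℝ) ^ (-(2 / 3 : ℝ))) ^ k := by
  have hp0 : (0 : ℝ) ≤ p := Nat.cast_nonneg p
  rw [ArithmeticFunction.vonMangoldt_apply_pow (by omega)]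
  have e : ((p ^ k : ℕ) : ℝ) ^ (-(2 / 3 : ℝ)) = ((p : ℝ) ^ (-(2 / 3 : ℝ))) ^ k := by
    rw [Nat.cast_pow, ← Real.rpow_natCast, ← Real.rpow_natCast, ← Real.rpow_mul hp0, ← Real.rpow_mul hp0,
      mul_comm]
  rw [e]
  apply mul_le_mul_of_nonneg_right _ (by positivity)
  exact ArithmeticFunction.vonMangoldt_le_log

private theorem Trunc_geom (p K : ℕ) (hp : 2 ≤ p) :
    ∑ k ∈ Icc 2 K, ((p : ℝ) ^ (-(2 / 3 : ℝ))) ^ k ≤ 3 * (p : ℝ) ^ (-(4 / 3 : ℝ)) := by
  have hp0 : (0 : ℝ) < p := by positivity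
  set y : ℝ := (p : ℝ) ^ (-(2 / 3 : ℝ)) with hy
  have hy0 : 0 < y := by positivity
  have hy1 : y ≤ 2 / 3 := by
    have h1 : y ≤ (2 : ℝ) ^ (-(2 / 3 : ℝ)) := by
      rw [hy]
      exact Real.rpow_le_rpow_of_nonpos (by norm_num) (by exact_mod_cast hp) (by norm_num)
    have h2 : (2 : ℝ) ^ (-(2 / 3 : ℝ)) ≤ 2 / 3 := by
      rw [Real.rpow_neg (by norm_num), inv_le_comm₀ (by positivity) (by norm_num)]
      have h3 : ((2 : ℝ) / 3)⁻¹ = ((27 / 8 : ℝ)) ^ (1 / 3 : ℝ) := by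
        rw [show (27 / 8 : ℝ) = (3 / 2) ^ (3 : ℝ) by norm_num, ← Real.rpow_mul (by norm_num)]
        norm_num
      have h4 : (2 : ℝ) ^ (2 / 3 : ℝ) = (4 : ℝ) ^ (1 / 3 : ℝ) := by
        rw [show (4 : ℝ) = 2 ^ (2 : ℝ) by norm_num, ← Real.rpow_mul (by norm_num)]
        norm_num
      rw [h3, h4]
      exact Real.rpow_le_rpow (by norm_num) (by norm_num) (by norm_num)
    linarith
  have hy2 : y ^ 2 = (p : ℝ) ^ (-(4 / 3 : ℝ)) := by
    rw [hy, ← Real.rpow_natCast, ← Real.rpow_mul hp0.le]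
    norm_num
  have hsum : ∑ k ∈ Icc 2 K, y ^ k ≤ 3 * y ^ 2 := by
    rcases Nat.lt_or_ge K 2 with h | h
    · rw [Icc_eq_empty (by omega)]
      simp
      positivity
    · have h5 : ∑ k ∈ Icc 2 K, y ^ k = y ^ 2 * ∑ j ∈ range (K - 1), y ^ j := by
        rw [mul_sum]
        have : Icc 2 K = (range (K - 1)).map ⟨fun j => j + 2, fun a b h => by simpa using h⟩ := by
          ext k
          simp only [mem_Icc, mem_map, mem_range, Function.Embedding.coeFn_mk]
          constructor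
          · intro hk
            exact ⟨k - 2, by omega, by omega⟩
          · rintro ⟨j, hj, rfl⟩
            omega
        rw [this, sum_map]
        refine sum_congr rfl fun j _ => ?_
        simp only [Function.Embedding.coeFn_mk]
        ring
      rw [h5]
      have h6 : ∑ j ∈ range (K - 1), y ^ j ≤ 3 := by
        have h7 := mul_neg_geom_sum y (K - 1)
        have h8 : 0 ≤ ∑ j ∈ range (K - 1), y ^ j := by positivity
        have h9 : 0 ≤ y ^ (K - 1) := by positivity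
        nlinarith
      calc y ^ 2 * ∑ j ∈ range (K - 1), y ^ j ≤ y ^ 2 * 3 := by gcongr
        _ = 3 * y ^ 2 := by ring
  rw [← hy2]
  exact hsum

private theorem Trunc_outer (X : ℕ) :
    ∑ p ∈ Icc 2 X, Real.log p * (3 * (p : ℝ) ^ (-(4 / 3 : ℝ))) ≤
      18 * ∑' n : ℕ, 1 / (n : ℝ) ^ (7 / 6 : ℝ) := by
  have hs : Summable (fun n : ℕ => 1 / (n : ℝ) ^ (7 / 6 : ℝ)) :=
    Real.summable_one_div_nat_rpow.mpr (by norm_num)
  have h1 : ∑ p ∈ Icc 2 X, Real.log p * (3 * (p : ℝ) ^ (-(4 / 3 : ℝ))) ≤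
      ∑ p ∈ Icc 2 X, 18 * (1 / (p : ℝ) ^ (7 / 6 : ℝ)) := by
    refine sum_le_sum fun p hp => ?_
    rw [mem_Icc] at hp
    have hp0 : (0 : ℝ) < p := by
      have : 0 < p := by omega
      exact_mod_cast this
    have h2 : Real.log p ≤ (p : ℝ) ^ (1 / 6 : ℝ) / (1 / 6) :=
      Real.log_le_rpow_div hp0.le (by norm_num)
    have h3 : (p : ℝ) ^ (1 / 6 : ℝ) * (p : ℝ) ^ (-(4 / 3 : ℝ)) = 1 / (p : ℝ) ^ (7 / 6 : ℝ) := by
      rw [← Real.rpow_add hp0, one_div ((p : ℝ) ^ (7 / 6 : ℝ)), ← Real.rpow_neg hp0.le]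
      norm_num
    calc Real.log p * (3 * (p : ℝ) ^ (-(4 / 3 : ℝ))) ≤
          ((p : ℝ) ^ (1 / 6 : ℝ) / (1 / 6)) * (3 * (p : ℝ) ^ (-(4 / 3 : ℝ))) := by gcongr
      _ = 18 * ((p : ℝ) ^ (1 / 6 : ℝ) * (p : ℝ) ^ (-(4 / 3 : ℝ))) := by ring
      _ = _ := by rw [h3]
  refine h1.trans ?_
  rw [← mul_sum]
  apply mul_le_mul_of_nonneg_left _ (by norm_num)
  exact hs.sum_le_tsum _ (fun n _ => by positivity)

private theorem Trunc_all (X : ℕ) :
    ∑ n ∈ (Icc 1 X).filter (fun n : ℕ => ¬ n.Prime), ArithmeticFunction.vonMangoldt n * (n : ℝ) ^ (-(2 / 3 : ℝ)) ≤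
      18 * ∑' n : ℕ, 1 / (n : ℝ) ^ (7 / 6 : ℝ) := by
  classical
  have hnn : ∀ n : ℕ, 0 ≤ ArithmeticFunction.vonMangoldt n * (n : ℝ) ^ (-(2 / 3 : ℝ)) := fun n =>
    mul_nonneg ArithmeticFunction.vonMangoldt_nonneg (by positivity)
  set S := ((Icc 2 X) ×ˢ (Icc 2 X)).image (fun x : ℕ × ℕ => x.1 ^ x.2) with hS
  have h1 : ∑ n ∈ (Icc 1 X).filter (fun n : ℕ => ¬ n.Prime),
      ArithmeticFunction.vonMangoldt n * (n : ℝ) ^ (-(2 / 3 : ℝ)) ≤
      ∑ n ∈ S, ArithmeticFunction.vonMangoldt n * (n : ℝ) ^ (-(2 / 3 : ℝ)) := by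
    rw [← sum_filter_add_sum_filter_not ((Icc 1 X).filter (fun n : ℕ => ¬ n.Prime)) (fun n => n ∈ S)]
    have h2 : ∑ n ∈ ((Icc 1 X).filter (fun n : ℕ => ¬ n.Prime)).filter (fun n => n ∉ S),
        ArithmeticFunction.vonMangoldt n * (n : ℝ) ^ (-(2 / 3 : ℝ)) = 0 := by
      refine sum_eq_zero fun n hn => ?_
      rw [mem_filter, mem_filter, mem_Icc] at hn
      obtain ⟨⟨⟨hn1, hnX⟩, hnp⟩, hnS⟩ := hn
      rw [ArithmeticFunction.vonMangoldt_apply, if_neg, zero_mul]
      intro hpp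
      rw [isPrimePow_nat_iff] at hpp
      obtain ⟨p, k, hp, hk, rfl⟩ := hpp
      apply hnS
      have hk1 : k ≠ 1 := by
        rintro rfl
        exact hnp (by simpa using hp)
      rw [hS, mem_image]
      refine ⟨(p, k), ?_, rfl⟩
      rw [mem_product, mem_Icc, mem_Icc]
      have h3 : p ≤ p ^ k := Nat.le_self_pow (by omega) p
      have h4 : k < p ^ k := Nat.lt_pow_self hp.one_lt
      exact ⟨⟨hp.two_le, h3.trans hnX⟩, ⟨by omega, by omega⟩⟩
    rw [h2, add_zero]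
    exact sum_le_sum_of_subset_of_nonneg (fun n hn => (mem_filter.1 hn).2) (fun n _ _ => hnn n)
  refine h1.trans ?_
  have h5 : ∑ n ∈ S, ArithmeticFunction.vonMangoldt n * (n : ℝ) ^ (-(2 / 3 : ℝ)) ≤
      ∑ x ∈ (Icc 2 X) ×ˢ (Icc 2 X), ArithmeticFunction.vonMangoldt (x.1 ^ x.2) *
        ((x.1 ^ x.2 : ℕ) : ℝ) ^ (-(2 / 3 : ℝ)) := by
    rw [hS]
    exact sum_image_le_of_nonneg (fun n _ => hnn n)
  refine h5.trans ?_
  rw [sum_product]
  refine le_trans ?_ (Trunc_outer X)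
  refine sum_le_sum fun p hp => ?_
  rw [mem_Icc] at hp
  refine (sum_le_sum fun k hk => Trunc_term p k hp.1 ((by norm_num : 1 ≤ 2).trans (mem_Icc.1 hk).1)).trans ?_
  rw [← mul_sum]
  apply mul_le_mul_of_nonneg_left (Trunc_geom p X hp.1)
  exact Real.log_natCast_nonneg p

/-- `∑ Λ(n)/n` over the proper prime powers `n > x` is at most `C x^{-1/3}`. -/
theorem pp_tail : ∃ C : ℝ, 1 ≤ C ∧ ∀ (x : ℝ) (X : ℕ), 1 ≤ x →
    ∑ n ∈ (Icc 1 X).filter (fun n : ℕ => x < n ∧ ¬ n.Prime), ArithmeticFunction.vonMangoldt n / n ≤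
      C * x ^ (-(1 / 3 : ℝ)) := by
  refine ⟨max 1 (18 * ∑' n : ℕ, 1 / (n : ℝ) ^ (7 / 6 : ℝ)), le_max_left _ _, fun x X hx => ?_⟩
  have hx0 : 0 < x := by linarith
  have h1 : ∑ n ∈ (Icc 1 X).filter (fun n : ℕ => x < n ∧ ¬ n.Prime), ArithmeticFunction.vonMangoldt n / n ≤
      ∑ n ∈ (Icc 1 X).filter (fun n : ℕ => x < n ∧ ¬ n.Prime),
        x ^ (-(1 / 3 : ℝ)) * (ArithmeticFunction.vonMangoldt n * (n : ℝ) ^ (-(2 / 3 : ℝ))) := by
    refine sum_le_sum fun n hn => ?_
    rw [mem_filter] at hn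
    have hn0 : (0 : ℝ) < n := hx0.trans hn.2.1
    have h2 : (1 : ℝ) / n ≤ x ^ (-(1 / 3 : ℝ)) * (n : ℝ) ^ (-(2 / 3 : ℝ)) := by
      have h3 : (n : ℝ) ^ (-(1 / 3 : ℝ)) ≤ x ^ (-(1 / 3 : ℝ)) :=
        Real.rpow_le_rpow_of_nonpos hx0 hn.2.1.le (by norm_num)
      calc (1 : ℝ) / n = (n : ℝ) ^ (-(1 / 3 : ℝ)) * (n : ℝ) ^ (-(2 / 3 : ℝ)) := by
            rw [← Real.rpow_add hn0, one_div, ← Real.rpow_neg_one]
            norm_num
        _ ≤ _ := by gcongr
    calc ArithmeticFunction.vonMangoldt n / n = ArithmeticFunction.vonMangoldt n * (1 / n) := by ring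
      _ ≤ ArithmeticFunction.vonMangoldt n * (x ^ (-(1 / 3 : ℝ)) * (n : ℝ) ^ (-(2 / 3 : ℝ))) :=
          mul_le_mul_of_nonneg_left h2 ArithmeticFunction.vonMangoldt_nonneg
      _ = _ := by ring
  refine h1.trans ?_
  rw [← mul_sum, mul_comm]
  apply mul_le_mul_of_nonneg_right _ (by positivity)
  refine le_trans ?_ (le_max_right _ _)
  refine le_trans ?_ (Trunc_all X)
  apply sum_le_sum_of_subset_of_nonneg
  · intro n hn
    rw [mem_filter] at hn ⊢
    exact ⟨hn.1, hn.2.2⟩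
  · intro n _ _
    exact mul_nonneg ArithmeticFunction.vonMangoldt_nonneg (by positivity)

private theorem Trunc_factor (n : ℕ) (hn : n ≠ 0) (r : ℝ) (k : ℕ) (t : ℝ) (a : ℝ) (c : ℂ) :
    ((r ^ (k + 1) / (k.factorial : ℝ) : ℝ) : ℂ) *
      ((a : ℂ) * c * (((Real.log n) ^ k : ℝ) : ℂ) * (n : ℂ) ^ (-((1 : ℂ) + r + t * Complex.I))) =
      ((a * (r / n) * Wk k (r * Real.log n) : ℝ) : ℂ) * (c * (n : ℂ) ^ (-(t * Complex.I))) := by
  have hnC : (n : ℂ) ≠ 0 := by exact_mod_cast hn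
  have hn0 : (0 : ℝ) < n := by
    have : 0 < n := Nat.pos_of_ne_zero hn
    exact_mod_cast this
  have e1 : (n : ℂ) ^ (-((1 : ℂ) + r + t * Complex.I)) =
      (((n : ℝ)⁻¹ * Real.exp (-(r * Real.log n)) : ℝ) : ℂ) * (n : ℂ) ^ (-(t * Complex.I)) := by
    have e2 : -((1 : ℂ) + r + t * Complex.I) = -1 + (((-r : ℝ) : ℂ) + -(t * Complex.I)) := by
      push_cast; ring
    rw [e2, Complex.cpow_add _ _ hnC, Complex.cpow_add _ _ hnC, Complex.cpow_neg_one]
    have e3 : (n : ℂ) ^ (((-r : ℝ)) : ℂ) = ((Real.exp (-(r * Real.log n)) : ℝ) : ℂ) := by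
      have : ((((n : ℝ)) ^ (-r) : ℝ) : ℂ) = (n : ℂ) ^ (((-r : ℝ)) : ℂ) := by
        rw [Complex.ofReal_cpow (Nat.cast_nonneg n), Complex.ofReal_natCast]
      rw [← this, Real.rpow_def_of_pos hn0]
      congr 2
      ring
    rw [e3]
    push_cast
    ring
  rw [e1]
  unfold Wk
  push_cast
  ring

theorem BB_eq (q : ℕ) (χ : DirichletCharacter ℂ q) (r : ℝ) (hr : 0 < r) (k : ℕ) (t : ℝ) :
    BB (fun n => (ArithmeticFunction.vonMangoldt n : ℂ) * χ (n : ZMod q)) r k t =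
      ∑' n : ℕ, ((ArithmeticFunction.vonMangoldt n * (r / n) * Wk k (r * Real.log n) : ℝ) : ℂ) *
        (χ (n : ZMod q) * (n : ℂ) ^ (-(t * Complex.I))) := by
  unfold BB
  rw [← tsum_mul_left]
  refine tsum_congr fun n => ?_
  rcases eq_or_ne n 0 with rfl | hn
  · simp
  · exact Trunc_factor n hn r k t _ _

theorem BB_eq_one (r : ℝ) (hr : 0 < r) (k : ℕ) (t : ℝ) :
    BB (fun n => (ArithmeticFunction.vonMangoldt n : ℂ)) r k t =
      ∑' n : ℕ, ((ArithmeticFunction.vonMangoldt n * (r / n) * Wk k (r * Real.log n) : ℝ) : ℂ) *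
        (n : ℂ) ^ (-(t * Complex.I)) := by
  unfold BB
  rw [← tsum_mul_left]
  refine tsum_congr fun n => ?_
  rcases eq_or_ne n 0 with rfl | hn
  · simp
  · have := Trunc_factor n hn r k t (ArithmeticFunction.vonMangoldt n) 1
    rw [mul_one, one_mul] at this
    exact this

/-- the summands of the series -/
private noncomputable def Trunc_a (r : ℝ) (k n : ℕ) : ℝ :=
  ArithmeticFunction.vonMangoldt n * (r / n) * Wk k (r * Real.log n)

private theorem Trunc_a_nonneg (r : ℝ) (hr : 0 < r) (k n : ℕ) : 0 ≤ Trunc_a r k n := by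
  unfold Trunc_a
  have h1 : 0 ≤ Real.log (n : ℝ) := Real.log_natCast_nonneg n
  exact mul_nonneg (mul_nonneg ArithmeticFunction.vonMangoldt_nonneg (by positivity))
    (Wk_nonneg _ _ (by positivity))

private theorem Trunc_rpow (r : ℝ) (n : ℕ) (hn : n ≠ 0) (b : ℝ) :
    (1 / (n : ℝ)) * Real.exp (-(b * Real.log n)) = (n : ℝ) ^ (-(1 + b)) := by
  have hn0 : (0 : ℝ) < n := by
    have : 0 < n := Nat.pos_of_ne_zero hn
    exact_mod_cast this
  rw [neg_add, Real.rpow_add hn0, Real.rpow_neg_one, one_div]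
  congr 1
  rw [Real.rpow_def_of_pos hn0]
  congr 1
  ring

/-- Upper bound of all the summands. -/
private theorem Trunc_a_le (r : ℝ) (hr : 0 < r) (k n : ℕ) :
    Trunc_a r k n ≤ (2 ^ k * r) * (ArithmeticFunction.vonMangoldt n * (n : ℝ) ^ (-(1 + r / 2))) := by
  unfold Trunc_a
  rcases eq_or_ne n 0 with rfl | hn
  · simp
  have h1 : 0 ≤ Real.log (n : ℝ) := Real.log_natCast_nonneg n
  have h2 := Wk_large k (r * Real.log n) (by positivity)
  have h3 : (0 : ℝ) ≤ ArithmeticFunction.vonMangoldt n := ArithmeticFunction.vonMangoldt_nonneg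
  have hn0 : (0 : ℝ) < n := by
    have : 0 < n := Nat.pos_of_ne_zero hn
    exact_mod_cast this
  rw [← Trunc_rpow r n hn (r / 2)]
  calc ArithmeticFunction.vonMangoldt n * (r / n) * Wk k (r * Real.log n) ≤
        ArithmeticFunction.vonMangoldt n * (r / n) * (2 ^ k * Real.exp (-(r * Real.log n / 2))) := by
        gcongr
    _ = _ := by
        have : r / 2 * Real.log n = r * Real.log n / 2 := by ring
        rw [this]
        ring

private theorem Trunc_a_summable (r : ℝ) (hr : 0 < r) (hr1 : r ≤ 1) (k : ℕ) : Summable (Trunc_a r k) := by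
  obtain ⟨C, hC, h⟩ := zeta_series_le
  exact ((h (r / 2) (by linarith) (by linarith)).1.mul_left (2 ^ k * r)).of_nonneg_of_le
    (fun n => Trunc_a_nonneg r hr k n) (fun n => Trunc_a_le r hr k n)

/-- The part below the range. -/
private theorem Trunc_low : ∃ C : ℝ, 1 ≤ C ∧ ∀ (r : ℝ) (m k : ℕ), 0 < r → r ≤ 1 → m ≤ k →
    ∑ n ∈ Icc 1 (PX r m), Trunc_a r k n ≤ (m + C) * (3 / 100) ^ k := by
  obtain ⟨C, hC, h⟩ := mertens_le
  refine ⟨C, hC, fun r m k hr hr1 hmk => ?_⟩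
  have hX1 : 1 ≤ PX r m := by
    unfold PX
    rw [Nat.one_le_floor_iff]
    exact Real.one_le_exp (by positivity)
  have hlog : ∀ n : ℕ, n ≠ 0 → n ≤ PX r m → 100 * (r * Real.log n) ≤ m := by
    intro n hn0 hn
    have hn' : (0 : ℝ) < n := by
      have : 0 < n := Nat.pos_of_ne_zero hn0
      exact_mod_cast this
    have h1 : (n : ℝ) ≤ Real.exp (m / (100 * r)) := by
      unfold PX at hn
      exact (Nat.le_floor_iff (Real.exp_pos _).le).1 hn
    have h2 : Real.log n ≤ m / (100 * r) := by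
      rw [← Real.log_exp (m / (100 * r))]
      exact Real.log_le_log hn' h1
    have h3 : (100 * r) * Real.log n ≤ (100 * r) * (m / (100 * r)) := by gcongr
    have h4 : (100 * r) * (m / (100 * r)) = m := by field_simp
    linarith
  have hmk' : (m : ℝ) ≤ k := by exact_mod_cast hmk
  calc ∑ n ∈ Icc 1 (PX r m), Trunc_a r k n ≤
        ∑ n ∈ Icc 1 (PX r m), (r * (3 / 100) ^ k) * (ArithmeticFunction.vonMangoldt n / n) := by
        refine sum_le_sum fun n hn => ?_
        rw [mem_Icc] at hn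
        have h1 : 0 ≤ Real.log (n : ℝ) := Real.log_natCast_nonneg n
        have h3 : (0 : ℝ) ≤ ArithmeticFunction.vonMangoldt n := ArithmeticFunction.vonMangoldt_nonneg
        have h2 := Wk_small k (r * Real.log n) (by positivity) ((hlog n (by omega) hn.2).trans hmk')
        unfold Trunc_a
        calc ArithmeticFunction.vonMangoldt n * (r / n) * Wk k (r * Real.log n) ≤
            ArithmeticFunction.vonMangoldt n * (r / n) * (3 / 100) ^ k := by gcongr
          _ = _ := by ring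
    _ = (r * (3 / 100) ^ k) * ∑ n ∈ Icc 1 (PX r m), ArithmeticFunction.vonMangoldt n / n := by
        rw [mul_sum]
    _ ≤ (r * (3 / 100) ^ k) * (Real.log (PX r m) + C) := by
        gcongr
        exact h _ hX1
    _ = (r * Real.log (PX r m) + r * C) * (3 / 100) ^ k := by ring
    _ ≤ (m + C) * (3 / 100) ^ k := by
        have h5 := hlog (PX r m) (by omega) le_rfl
        have h6 : r * C ≤ C := by nlinarith
        have h7 : (0 : ℝ) ≤ m := Nat.cast_nonneg m
        gcongr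
        linarith

/-- The proper prime powers. -/
private theorem Trunc_mid : ∃ C : ℝ, 1 ≤ C ∧ ∀ (r : ℝ) (m k X : ℕ), 0 < r → r ≤ 1 / 2000 → m ≤ k → k ≤ 2 * m →
    ∑ n ∈ (Icc 1 X).filter (fun n : ℕ => PX r m < n ∧ ¬ n.Prime), Trunc_a r k n ≤ C * Real.exp (-(3 * k)) := by
  obtain ⟨C, hC, h⟩ := pp_tail
  refine ⟨C, hC, fun r m k X hr hr1 hmk hk2 => ?_⟩
  have hx1 : (1 : ℝ) ≤ Real.exp (m / (100 * r)) := Real.one_le_exp (by positivity)
  have hset : (Icc 1 X).filter (fun n : ℕ => PX r m < n ∧ ¬ n.Prime) =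
      (Icc 1 X).filter (fun n : ℕ => Real.exp (m / (100 * r)) < n ∧ ¬ n.Prime) := by
    refine filter_congr fun n _ => ?_
    unfold PX
    rw [Nat.floor_lt (Real.exp_pos _).le]
  rw [hset]
  have h1 := h (Real.exp (m / (100 * r))) X hx1
  have h2 : ∑ n ∈ (Icc 1 X).filter (fun n : ℕ => Real.exp (m / (100 * r)) < n ∧ ¬ n.Prime), Trunc_a r k n ≤
      ∑ n ∈ (Icc 1 X).filter (fun n : ℕ => Real.exp (m / (100 * r)) < n ∧ ¬ n.Prime),
        ArithmeticFunction.vonMangoldt n / n := by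
    refine sum_le_sum fun n hn => ?_
    have h1 : 0 ≤ Real.log (n : ℝ) := Real.log_natCast_nonneg n
    have h3 : (0 : ℝ) ≤ ArithmeticFunction.vonMangoldt n := ArithmeticFunction.vonMangoldt_nonneg
    have h4 := Wk_le_one k (r * Real.log n) (by positivity)
    have h5 := Wk_nonneg k (r * Real.log n) (by positivity)
    unfold Trunc_a
    calc ArithmeticFunction.vonMangoldt n * (r / n) * Wk k (r * Real.log n) ≤
        ArithmeticFunction.vonMangoldt n * (1 / n) * 1 := by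
          gcongr
          linarith
      _ = _ := by ring
  refine (h2.trans h1).trans ?_
  rw [← Real.exp_mul]
  gcongr
  have h6 : (m : ℝ) / (100 * r) ≥ 20 * m := by
    rw [ge_iff_le, le_div_iff₀ (by positivity)]
    have : (0 : ℝ) ≤ m := Nat.cast_nonneg m
    nlinarith
  have h7 : (k : ℝ) ≤ 2 * m := by exact_mod_cast hk2
  have h8 : (m : ℝ) / (100 * r) * -(1 / 3) ≤ (20 * m) * -(1 / 3) := by
    nlinarith
  nlinarith

/-- The part above the range. -/
private theorem Trunc_high : ∃ C : ℝ, 1 ≤ C ∧ ∀ (r : ℝ) (m k n : ℕ), 0 < r → r ≤ 1 → k ≤ 2 * m → PY r m < n →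
    Trunc_a r k n ≤ 2 ^ k * Real.exp (-(25 * k)) * (r * (ArithmeticFunction.vonMangoldt n * (n : ℝ) ^ (-(1 + r / 4)))) := by
  refine ⟨1, le_rfl, fun r m k n hr hr1 hk2 hn => ?_⟩
  have hn1 : Real.exp (200 * m / r) < n := by
    unfold PY at hn
    exact (Nat.le_ceil _).trans_lt (by exact_mod_cast hn)
  have hn0 : (0 : ℝ) < n := (Real.exp_pos _).trans hn1
  have hnz : n ≠ 0 := by
    rintro rfl
    simp at hn0
  have h1 : 200 * m / r ≤ Real.log n := by
    rw [← Real.log_exp (200 * m / r)]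
    exact Real.log_le_log (Real.exp_pos _) hn1.le
  have h2 : 200 * (m : ℝ) ≤ r * Real.log n := by
    rw [div_le_iff₀ hr] at h1
    linarith
  have h7 : (k : ℝ) ≤ 2 * m := by exact_mod_cast hk2
  have hl : 0 ≤ Real.log (n : ℝ) := Real.log_natCast_nonneg n
  have h3 := Wk_large k (r * Real.log n) (by positivity)
  have h4 : Real.exp (-(r * Real.log n / 2)) ≤ Real.exp (-(25 * k)) * Real.exp (-(r / 4 * Real.log n)) := by
    rw [← Real.exp_add]
    apply Real.exp_le_exp.2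
    nlinarith
  have h5 : (0 : ℝ) ≤ ArithmeticFunction.vonMangoldt n := ArithmeticFunction.vonMangoldt_nonneg
  rw [← Trunc_rpow r n hnz (r / 4)]
  unfold Trunc_a
  calc ArithmeticFunction.vonMangoldt n * (r / n) * Wk k (r * Real.log n) ≤
        ArithmeticFunction.vonMangoldt n * (r / n) *
          (2 ^ k * (Real.exp (-(25 * k)) * Real.exp (-(r / 4 * Real.log n)))) := by
        gcongr
        exact h3.trans (by gcongr)
    _ = _ := by ring

private theorem Trunc_num (C : ℝ) (hC : 1 ≤ C) (k : ℕ) (hk : 8 * (3 * C + 5) ≤ k) :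
    ((k : ℝ) + C) * (3 / 100) ^ k + C * Real.exp (-(3 * k)) + 2 ^ k * Real.exp (-(25 * k)) * (4 + C) ≤
      (1 / 4) ^ (k + 1) / 2 := by
  have h1 : ((3 / 100 : ℝ)) ^ k ≤ (1 / 20) ^ k := pow_le_pow_left₀ (by norm_num) (by norm_num) k
  have he3 : (20 : ℝ) ≤ Real.exp 3 := by
    have h := Real.exp_one_gt_d9
    have : Real.exp 3 = Real.exp 1 ^ 3 := by rw [← Real.exp_nat_mul]; norm_num
    rw [this]
    calc (20 : ℝ) ≤ 2.7182818283 ^ 3 := by norm_num
      _ ≤ _ := by gcongr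
  have h2 : Real.exp (-(3 * (k : ℝ))) ≤ (1 / 20) ^ k := by
    have : Real.exp (-(3 * (k : ℝ))) = (1 / Real.exp 3) ^ k := by
      rw [one_div, ← Real.exp_neg, ← Real.exp_nat_mul]
      congr 1
      ring
    rw [this]
    gcongr
  have h3 : 2 ^ k * Real.exp (-(25 * (k : ℝ))) ≤ (1 / 20) ^ k := by
    have : Real.exp (-(25 * (k : ℝ))) = (1 / Real.exp 25) ^ k := by
      rw [one_div, ← Real.exp_neg, ← Real.exp_nat_mul]
      congr 1
      ring
    rw [this, ← mul_pow]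
    have h4 : (40 : ℝ) ≤ Real.exp 25 := by
      have := Real.add_one_le_exp (25 : ℝ)
      have h5 : Real.exp 25 = Real.exp 3 * Real.exp 22 := by rw [← Real.exp_add]; norm_num
      have h6 := Real.add_one_le_exp (22 : ℝ)
      rw [h5]
      nlinarith
    apply pow_le_pow_left₀ (by positivity)
    rw [mul_one_div, div_le_iff₀ (by positivity)]
    linarith
  have hk0 : (0 : ℝ) ≤ k := Nat.cast_nonneg k
  have h5 : ((k : ℝ) + C) * (3 / 100) ^ k + C * Real.exp (-(3 * k)) + 2 ^ k * Real.exp (-(25 * k)) * (4 + C) ≤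
      (k + 3 * C + 4) * (1 / 20) ^ k := by
    have a1 : ((k : ℝ) + C) * (3 / 100) ^ k ≤ ((k : ℝ) + C) * (1 / 20) ^ k := by gcongr
    have a2 : C * Real.exp (-(3 * k)) ≤ C * (1 / 20) ^ k := by gcongr
    have a3 : 2 ^ k * Real.exp (-(25 * k)) * (4 + C) ≤ (1 / 20) ^ k * (4 + C) := by gcongr
    linarith
  refine h5.trans ?_
  have h6 : (8 : ℝ) * (k + 3 * C + 4) ≤ 5 ^ k := by
    have h7 : ((k : ℝ) + 1) ≤ 2 ^ k := by exact_mod_cast Nat.lt_two_pow_self (n := k)
    have h8 : (4 : ℝ) ^ k ≤ 5 ^ k := by gcongr; norm_num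
    have h9 : (4 : ℝ) ^ k = 2 ^ k * 2 ^ k := by rw [← mul_pow]; norm_num
    have h10 : ((k : ℝ) + 1) * ((k : ℝ) + 1) ≤ 2 ^ k * 2 ^ k := by gcongr
    nlinarith
  have h11 : ((1 : ℝ) / 20) ^ k = (1 / 4) ^ k * (1 / 5) ^ k := by rw [← mul_pow]; norm_num
  have h12 : ((5 : ℝ)) ^ k * (1 / 5) ^ k = 1 := by rw [← mul_pow]; norm_num
  have h13 : (0 : ℝ) < (1 / 4) ^ k := by positivity
  have h14 : (0 : ℝ) < (1 / 5) ^ k := by positivity
  rw [h11, pow_succ]
  have h15 : (8 : ℝ) * (k + 3 * C + 4) * (1 / 5) ^ k ≤ 1 := by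
    calc (8 : ℝ) * (k + 3 * C + 4) * (1 / 5) ^ k ≤ 5 ^ k * (1 / 5) ^ k := by gcongr
      _ = 1 := h12
  have h16 : (1 / 4 : ℝ) ^ k * (8 * (k + 3 * C + 4) * (1 / 5) ^ k) ≤ (1 / 4) ^ k * 1 := by gcongr
  linarith

/-- Proof. The `n ≤ PX` contribute at most `r (log PX + C) (3/100)^k ≤ (m + C) (3/100)^k` (`mertens_le`, `Wk_small`:
`r log n ≤ m/100 ≤ k/100`). The `n > PY`: `r log n ≥ 200 m ≥ 100 k`, so by `Wk_large` they contribute at most
`2^k e^{-25 k} r ∑ Λ(n) n^{-1-r/4} ≤ 2^k e^{-25k} (4 + C r)` (`zeta_series_le`). The proper prime powers `n > PX`: at most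
`r C PX'^{-1/3}`, `PX' = exp(m/(100r))`, and `exp(-m/(300 r)) ≤ exp(-k/(600 r)) ≤ exp(-3k)`. All are at most
`(1/4)^{k+1}/8` for `k ≥ m ≥ m₀`. -/
theorem trunc : ∃ m₀ : ℕ, ∀ (r : ℝ) (m k : ℕ) (g : ℕ → ℂ), 0 < r → r ≤ 1 / 2000 → m₀ ≤ m → m ≤ k → k ≤ 2 * m →
    (∀ n, ‖g n‖ ≤ 1) →
    ‖(∑' n : ℕ, ((ArithmeticFunction.vonMangoldt n * (r / n) * Wk k (r * Real.log n) : ℝ) : ℂ) * g n) -
      ∑ n ∈ Icc 1 (PY r m), (cP r m k n : ℂ) * g n‖ ≤ (1 / 4) ^ (k + 1) / 2 := by
  obtain ⟨C1, hC1, H1⟩ := Trunc_low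
  obtain ⟨C2, hC2, H2⟩ := Trunc_mid
  obtain ⟨C3, hC3, H3⟩ := zeta_series_le
  obtain ⟨C4, hC4, H4⟩ := Trunc_high
  set C := C1 + C2 + C3 with hC
  refine ⟨⌈8 * (3 * C + 5)⌉₊, fun r m k g hr hr1 hm hmk hk2 hg => ?_⟩
  have hr2 : r ≤ 1 := by linarith
  have hk : 8 * (3 * C + 5) ≤ k := by
    have h1 := Nat.le_ceil (8 * (3 * C + 5))
    have h2 : ((⌈8 * (3 * C + 5)⌉₊ : ℕ) : ℝ) ≤ m := by exact_mod_cast hm
    have h3 : (m : ℝ) ≤ k := by exact_mod_cast hmk
    linarith
  refine le_trans ?_ (Trunc_num C (by linarith) k hk)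
  -- the finite sum as a series
  set c : ℕ → ℝ := fun n => if n ∈ Icc 1 (PY r m) then cP r m k n else 0 with hc
  have hfin : ∑ n ∈ Icc 1 (PY r m), (cP r m k n : ℂ) * g n = ∑' n : ℕ, (c n : ℂ) * g n := by
    rw [tsum_eq_sum (s := Icc 1 (PY r m))]
    · refine sum_congr rfl fun n hn => ?_
      simp only [hc, if_pos hn]
    · intro n hn
      simp only [hc, if_neg hn]
      simp
  have hcs : Summable (fun n : ℕ => (c n : ℂ) * g n) := by
    apply summable_of_ne_finset_zero (s := Icc 1 (PY r m))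
    intro n hn
    simp only [hc, if_neg hn]
    simp
  have hcs' : Summable c := by
    apply summable_of_ne_finset_zero (s := Icc 1 (PY r m))
    intro n hn
    simp only [hc, if_neg hn]
  have hsa := Trunc_a_summable r hr hr2 k
  have hfs : Summable (fun n : ℕ => (Trunc_a r k n : ℂ) * g n) := by
    apply Summable.of_norm_bounded hsa
    intro n
    rw [norm_mul, Complex.norm_real, Real.norm_eq_abs, abs_of_nonneg (Trunc_a_nonneg r hr k n)]
    have := Trunc_a_nonneg r hr k n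
    have := hg n
    nlinarith
  have hmain : (∑' n : ℕ, ((ArithmeticFunction.vonMangoldt n * (r / n) * Wk k (r * Real.log n) : ℝ) : ℂ) * g n) -
      ∑ n ∈ Icc 1 (PY r m), (cP r m k n : ℂ) * g n = ∑' n : ℕ, ((Trunc_a r k n - c n : ℝ) : ℂ) * g n := by
    rw [hfin]
    change (∑' n : ℕ, (Trunc_a r k n : ℂ) * g n) - _ = _
    rw [← hfs.tsum_sub hcs]
    refine tsum_congr fun n => ?_
    push_cast
    ring
  rw [hmain]
  -- comparison function
  set u : ℕ → ℝ := fun n => if n ∈ Icc 1 (PX r m) then Trunc_a r k n else 0 with hu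
  set v : ℕ → ℝ := fun n => if n ∈ (Icc 1 (PY r m)).filter (fun n : ℕ => PX r m < n ∧ ¬ n.Prime) then
    Trunc_a r k n else 0 with hv
  set w : ℕ → ℝ := fun n => 2 ^ k * Real.exp (-(25 * k)) *
    (r * (ArithmeticFunction.vonMangoldt n * (n : ℝ) ^ (-(1 + r / 4)))) with hw
  have hw0 : ∀ n, 0 ≤ w n := by
    intro n
    have h5 : (0 : ℝ) ≤ ArithmeticFunction.vonMangoldt n := ArithmeticFunction.vonMangoldt_nonneg
    simp only [hw]
    positivity
  have hu0 : ∀ n, 0 ≤ u n := by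
    intro n
    simp only [hu]
    split_ifs
    · exact Trunc_a_nonneg r hr k n
    · exact le_rfl
  have hv0 : ∀ n, 0 ≤ v n := by
    intro n
    simp only [hv]
    split_ifs
    · exact Trunc_a_nonneg r hr k n
    · exact le_rfl
  have hprime : ∀ n : ℕ, n.Prime → Trunc_a r k n = r * Real.log n / n * Wk k (r * Real.log n) := by
    intro n hn
    unfold Trunc_a
    rw [ArithmeticFunction.vonMangoldt_apply_prime hn]
    ring
  have hc1 : ∀ n, c n ≤ Trunc_a r k n := by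
    intro n
    simp only [hc]
    split_ifs with h
    · unfold cP
      split_ifs with h'
      · rw [hprime n h'.1]
      · exact Trunc_a_nonneg r hr k n
    · exact Trunc_a_nonneg r hr k n
  have hD : ∀ n, Trunc_a r k n - c n ≤ u n + v n + w n := by
    intro n
    rcases Nat.eq_zero_or_pos n with rfl | hn
    · have h1 := hu0 0
      have h2 := hv0 0
      have h3 := hw0 0
      have h4 : Trunc_a r k 0 = 0 := by simp [Trunc_a]
      have h5 : c 0 = 0 := by simp [hc]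
      rw [h4, h5]
      linarith
    rcases Nat.lt_or_ge (PY r m) n with hY | hY
    · have h1 : c n = 0 := by
        simp only [hc]
        rw [if_neg]
        rw [mem_Icc]
        omega
      have h2 := H4 r m k n hr hr2 hk2 hY
      have h3 := hu0 n
      have h4 := hv0 n
      rw [h1]
      simp only [hw]
      linarith
    · have hmem : n ∈ Icc 1 (PY r m) := mem_Icc.2 ⟨hn, hY⟩
      rcases Nat.lt_or_ge (PX r m) n with hX | hX
      · by_cases hp : n.Prime
        · have h1 : c n = Trunc_a r k n := by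
            simp only [hc]
            rw [if_pos hmem, hprime n hp]
            unfold cP
            rw [if_pos ⟨hp, hX⟩]
          rw [h1]
          have := hu0 n
          have := hv0 n
          have := hw0 n
          linarith
        · have h1 : c n = 0 := by
            simp only [hc]
            rw [if_pos hmem]
            unfold cP
            rw [if_neg (fun h => hp h.1)]
          have h2 : v n = Trunc_a r k n := by
            simp only [hv]
            rw [if_pos (mem_filter.2 ⟨hmem, hX, hp⟩)]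
          rw [h1, h2]
          have := hu0 n
          have := hw0 n
          linarith
      · have h1 : c n = 0 := by
          simp only [hc]
          rw [if_pos hmem]
          unfold cP
          rw [if_neg (fun h => by omega)]
        have h2 : u n = Trunc_a r k n := by
          simp only [hu]
          rw [if_pos (mem_Icc.2 ⟨hn, hX⟩)]
        rw [h1, h2]
        have := hv0 n
        have := hw0 n
        linarith
  have hus : HasSum u (∑ n ∈ Icc 1 (PX r m), Trunc_a r k n) := by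
    have h : HasSum u (∑ n ∈ Icc 1 (PX r m), u n) := hasSum_sum_of_ne_finset_zero (fun n hn => by
      simp only [hu, if_neg hn])
    have e : ∑ n ∈ Icc 1 (PX r m), u n = ∑ n ∈ Icc 1 (PX r m), Trunc_a r k n :=
      sum_congr rfl fun n hn => by simp only [hu, if_pos hn]
    rwa [e] at h
  have hvs : HasSum v (∑ n ∈ (Icc 1 (PY r m)).filter (fun n : ℕ => PX r m < n ∧ ¬ n.Prime), Trunc_a r k n) := by
    have h : HasSum v (∑ n ∈ (Icc 1 (PY r m)).filter (fun n : ℕ => PX r m < n ∧ ¬ n.Prime), v n) :=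
      hasSum_sum_of_ne_finset_zero (fun n hn => by simp only [hv, if_neg hn])
    have e : ∑ n ∈ (Icc 1 (PY r m)).filter (fun n : ℕ => PX r m < n ∧ ¬ n.Prime), v n =
        ∑ n ∈ (Icc 1 (PY r m)).filter (fun n : ℕ => PX r m < n ∧ ¬ n.Prime), Trunc_a r k n :=
      sum_congr rfl fun n hn => by simp only [hv, if_pos hn]
    rwa [e] at h
  obtain ⟨hz1, hz2⟩ := H3 (r / 4) (by linarith) (by linarith)
  have hws : HasSum w (2 ^ k * Real.exp (-(25 * k)) *
      (r * ∑' n : ℕ, ArithmeticFunction.vonMangoldt n * (n : ℝ) ^ (-(1 + r / 4)))) :=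
    (hz1.hasSum.mul_left r).mul_left _
  have htot := (hus.add hvs).add hws
  have hDs : Summable (fun n => Trunc_a r k n - c n) := hsa.sub hcs'
  have hnorm : ‖∑' n : ℕ, ((Trunc_a r k n - c n : ℝ) : ℂ) * g n‖ ≤ ∑' n : ℕ, (Trunc_a r k n - c n) := by
    apply tsum_of_norm_bounded hDs.hasSum
    intro n
    have h1 := hc1 n
    rw [norm_mul, Complex.norm_real, Real.norm_eq_abs, abs_of_nonneg (by linarith)]
    have := hg n
    nlinarith
  refine hnorm.trans ?_
  have hcmp := hasSum_le hD hDs.hasSum htot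
  refine hcmp.trans ?_
  have b1 := H1 r m k hr hr2 hmk
  have b2 := H2 r m k (PY r m) hr hr1 hmk hk2
  have hmk' : (m : ℝ) ≤ k := by exact_mod_cast hmk
  have b1' : ((m : ℝ) + C1) * (3 / 100) ^ k ≤ ((k : ℝ) + C) * (3 / 100) ^ k := by
    gcongr
    linarith
  have b2' : C2 * Real.exp (-(3 * k)) ≤ C * Real.exp (-(3 * k)) := by
    gcongr
    linarith
  have b3 : r * ∑' n : ℕ, ArithmeticFunction.vonMangoldt n * (n : ℝ) ^ (-(1 + r / 4)) ≤ 4 + C := by
    calc r * ∑' n : ℕ, ArithmeticFunction.vonMangoldt n * (n : ℝ) ^ (-(1 + r / 4)) ≤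
          r * (1 / (r / 4) + C3) := by gcongr
      _ = 4 + r * C3 := by field_simp
      _ ≤ 4 + C := by nlinarith
  have b3' : 2 ^ k * Real.exp (-(25 * k)) *
      (r * ∑' n : ℕ, ArithmeticFunction.vonMangoldt n * (n : ℝ) ^ (-(1 + r / 4))) ≤
      2 ^ k * Real.exp (-(25 * k)) * (4 + C) := by gcongr
  linarith

/-- `∑ n cP² ≤ C m²`: `r² ∑_{p ≤ PY} (log p)²/p ≤ r² log PY (log PY + C)`, `log PY ≤ 200 m/r + 1`. -/
theorem cP_sq : ∃ C : ℝ, 1 ≤ C ∧ ∀ (r : ℝ) (m k : ℕ), 0 < r → r ≤ 1 → 1 ≤ m →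
    ∑ n ∈ Icc 1 (PY r m), (n : ℝ) * cP r m k n ^ 2 ≤ C * (m : ℝ) ^ 2 := by
  obtain ⟨C, hC, H⟩ := mertens_le
  refine ⟨201 * (201 + C), by nlinarith, fun r m k hr hr1 hm => ?_⟩
  have hm1 : (1 : ℝ) ≤ m := by exact_mod_cast hm
  have hY1 : 1 ≤ PY r m := by
    unfold PY
    rw [Nat.one_le_ceil_iff]
    exact Real.exp_pos _
  have hL : r * Real.log (PY r m) ≤ 201 * m := by
    have h1 : ((PY r m : ℕ) : ℝ) ≤ Real.exp (200 * m / r + 1) := by
      unfold PY
      have h2 := (Nat.ceil_lt_add_one (Real.exp_pos (200 * m / r)).le).le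
      refine h2.trans ?_
      rw [Real.exp_add]
      have h3 : (1 : ℝ) ≤ Real.exp (200 * m / r) := Real.one_le_exp (by positivity)
      have h4 := Real.exp_one_gt_d9
      nlinarith
    have hpos : (0 : ℝ) < PY r m := by
      have : 0 < PY r m := by omega
      exact_mod_cast this
    have h2 : Real.log (PY r m) ≤ 200 * m / r + 1 := by
      rw [← Real.log_exp (200 * m / r + 1)]
      exact Real.log_le_log hpos h1
    calc r * Real.log (PY r m) ≤ r * (200 * m / r + 1) := by gcongr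
      _ = 200 * m + r := by field_simp
      _ ≤ 201 * m := by linarith
  have hL0 : 0 ≤ Real.log (PY r m) := Real.log_natCast_nonneg _
  calc ∑ n ∈ Icc 1 (PY r m), (n : ℝ) * cP r m k n ^ 2 ≤
        ∑ n ∈ Icc 1 (PY r m), (r ^ 2 * Real.log (PY r m)) * (ArithmeticFunction.vonMangoldt n / n) := by
        refine sum_le_sum fun n hn => ?_
        rw [mem_Icc] at hn
        have hn0 : (0 : ℝ) < n := by
          have : 0 < n := by omega
          exact_mod_cast this
        have h5 : (0 : ℝ) ≤ ArithmeticFunction.vonMangoldt n := ArithmeticFunction.vonMangoldt_nonneg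
        unfold cP
        split_ifs with h
        · rw [ArithmeticFunction.vonMangoldt_apply_prime h.1]
          have hl : 0 ≤ Real.log (n : ℝ) := Real.log_natCast_nonneg n
          have h1 := Wk_nonneg k (r * Real.log n) (by positivity)
          have h2 := Wk_le_one k (r * Real.log n) (by positivity)
          have h3 : Wk k (r * Real.log n) ^ 2 ≤ 1 := by nlinarith
          have h4 : Real.log (n : ℝ) ≤ Real.log (PY r m) :=
            Real.log_le_log hn0 (by exact_mod_cast hn.2)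
          calc (n : ℝ) * (r * Real.log n / n * Wk k (r * Real.log n)) ^ 2 =
                (r ^ 2 * Real.log n) * (Real.log n / n) * Wk k (r * Real.log n) ^ 2 := by
                field_simp
            _ ≤ (r ^ 2 * Real.log (PY r m)) * (Real.log n / n) * 1 := by gcongr
            _ = _ := by ring
        · simp only [ne_eq, OfNat.ofNat_ne_zero, not_false_eq_true, zero_pow, mul_zero]
          positivity
    _ = (r ^ 2 * Real.log (PY r m)) * ∑ n ∈ Icc 1 (PY r m), ArithmeticFunction.vonMangoldt n / n := by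
        rw [mul_sum]
    _ ≤ (r ^ 2 * Real.log (PY r m)) * (Real.log (PY r m) + C) := by
        gcongr
        exact H _ hY1
    _ = (r * Real.log (PY r m)) * (r * Real.log (PY r m) + r * C) := by ring
    _ ≤ (201 * m) * (201 * m + C * m) := by
        have h6 : r * C ≤ C * m := by nlinarith
        have h7 : 0 ≤ r * Real.log (PY r m) := by positivity
        gcongr
    _ = 201 * (201 + C) * (m : ℝ) ^ 2 := by ring

end Pool.Agent.Lib.MP_629a14_nt.Lf
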