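import Pool.Agent.Lib.MP_629a14_nt.Lf.HybridS
import Pool.Agent.Lib.MP_629a14_nt.Lf.Trunc
import Pool.Agent.Lib.MP_629a14_nt.Lf.TlowC

/-! The zeros detect large values of prime polynomials. -/

set_option autoImplicit false

namespace Pool.Agent.Lib.MP_629a14_nt.Lf

open Finset Pool.Agent.Lib.MP_629a14_nt.Th

/-- The prime polynomial. -/
noncomputable def Fx (x : CH) (r : ℝ) (m k : ℕ) (t : ℝ) : ℂ :=
  ∑ n ∈ Icc 1 (PY r m), (cP r m k n : ℂ) * x.2 (n : ZMod x.1) * (n : ℂ) ^ (-(t * Complex.I))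

private theorem DensA_norm (n : ℕ) (t : ℝ) : ‖(n : ℂ) ^ (-(t * Complex.I))‖ ≤ 1 := by
  rcases Nat.eq_zero_or_pos n with h | h
  · subst h
    by_cases ht : t = 0
    · subst ht
      simp
    · have h1 : (-((t : ℂ) * Complex.I)) ≠ 0 := by
        rw [neg_ne_zero]
        exact mul_ne_zero (by exact_mod_cast ht) Complex.I_ne_zero
      rw [Nat.cast_zero, Complex.zero_cpow h1, norm_zero]
      norm_num
  · rw [Complex.norm_natCast_cpow_of_pos h]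
    have h1 : (-((t : ℂ) * Complex.I)).re = 0 := by simp
    rw [h1, Real.rpow_zero]

private theorem DensA_fin (S : ℂ) (F : ℕ → ℝ) (k m : ℕ) (h1 : m ≤ k) (h2 : k ≤ 2 * m)
    (h3 : (1 / 4 : ℝ) ^ (k + 1) ≤ ‖S‖) {w : ℂ} (h4 : ‖S - w‖ ≤ (1 / 4) ^ (k + 1) / 2) (hF : F k = ‖w‖) :
    (1 / 300 : ℝ) ^ m / 64 ≤ ∑ k ∈ Icc m (2 * m), F k ^ 2 := by
  have h5 : (1 / 4 : ℝ) ^ (k + 1) / 2 ≤ F k := by
    have h6 := norm_sub_norm_le S w
    rw [hF]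
    linarith
  have h6 : ((1 / 4 : ℝ) ^ (k + 1) / 2) ^ 2 ≤ F k ^ 2 := pow_le_pow_left₀ (by positivity) h5 2
  have h7 : F k ^ 2 ≤ ∑ k ∈ Icc m (2 * m), F k ^ 2 :=
    Finset.single_le_sum (f := fun k => F k ^ 2) (fun _ _ => sq_nonneg _) (Finset.mem_Icc.2 ⟨h1, h2⟩)
  refine le_trans ?_ (le_trans h6 h7)
  have h8 : (1 / 4 : ℝ) ^ (2 * m + 1) ≤ (1 / 4) ^ (k + 1) :=
    pow_le_pow_of_le_one (by norm_num) (by norm_num) (by omega)
  have h9 : (1 / 300 : ℝ) ^ m ≤ (1 / 256) ^ m := pow_le_pow_left₀ (by norm_num) (by norm_num) m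
  have h10 : ((1 / 4 : ℝ) ^ (2 * m + 1) / 2) ^ 2 = (1 / 256) ^ m / 64 := by
    have h11 : (1 / 4 : ℝ) ^ (2 * m + 1) = ((1 / 16) ^ m) * (1 / 4) := by
      rw [pow_succ, pow_mul]
      norm_num
    have h12 : (1 / 256 : ℝ) ^ m = ((1 / 16) ^ m) ^ 2 := by
      rw [← pow_mul, mul_comm m 2, pow_mul]
      norm_num
    rw [h11, h12]
    ring
  have h13 : ((1 / 4 : ℝ) ^ (2 * m + 1) / 2) ^ 2 ≤ ((1 / 4 : ℝ) ^ (k + 1) / 2) ^ 2 :=
    pow_le_pow_left₀ (by positivity) (by linarith) 2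
  linarith

/-- `tlow_chi`, `BB_eq`, `trunc`: some `k ∈ [m, 2m]` has `‖Fx‖ ≥ (1/4)^{k+1}/2`, and
`∑_k ‖Fx‖² ≥ (1/4)^{4m+2}/4 ≥ (1/300)^m/64`. -/
theorem large_chi : ∃ M : ℝ, 1 ≤ M ∧ ∀ (P : ℕ) (x : CH), x ∈ prims P → x ≠ ch1 →
    ∀ (t r L : ℝ), 0 < r → r ≤ 1 / 2000 → Real.log (x.1 * (|t| + 3)) ≤ L →
    ∀ ρ : ℂ, LL x ρ = 0 → 1 - r ≤ ρ.re → |ρ.im - t| ≤ r → ∀ m : ℕ, M * (r * L + 1) ≤ m →
      (1 / 300 : ℝ) ^ m / 64 ≤ ∑ k ∈ Icc m (2 * m), ‖Fx x r m k t‖ ^ 2 := by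
  obtain ⟨M, hM, hlow⟩ := tlow_chi
  obtain ⟨m₀, htr⟩ := trunc
  refine ⟨max M m₀, le_trans hM (le_max_left _ _), ?_⟩
  intro P x hx hx1 t r L hr hr2 hL ρ hρ hρ1 hρ2 m hm
  obtain ⟨hq1, -, -⟩ := (mem_prims P x).1 hx
  have hne := prims_ne_one P x hx hx1
  have hq0 : x.1 ≠ 0 := by omega
  have : NeZero x.1 := ⟨hq0⟩
  have hρ' : x.2.LFunction ρ = 0 := by
    unfold LL at hρ
    rw [dif_neg hq0] at hρ
    exact hρ
  have hL0 : 0 ≤ L := by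
    refine le_trans (Real.log_nonneg ?_) hL
    have h1 : (1 : ℝ) ≤ x.1 := by exact_mod_cast hq1
    have h2 : (1 : ℝ) ≤ |t| + 3 := by
      have := abs_nonneg t
      linarith
    nlinarith
  have h1 : (1 : ℝ) ≤ r * L + 1 := by
    have := mul_nonneg hr.le hL0
    linarith
  have h0 : 0 ≤ max M (m₀ : ℝ) := le_trans (by linarith) (le_max_left _ _)
  have hmM : M * (r * L + 1) ≤ m := le_trans (mul_le_mul_of_nonneg_right (le_max_left _ _) (by linarith)) hm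
  have hm0 : m₀ ≤ m := by
    have h2 : (m₀ : ℝ) ≤ max M (m₀ : ℝ) * (r * L + 1) :=
      le_trans (le_max_right _ _) (le_mul_of_one_le_right h0 h1)
    exact_mod_cast le_trans h2 hm
  obtain ⟨k, hk1, hk2, hk3⟩ := hlow x.1 x.2 hne t r L hr hr2 hL ρ hρ' hρ1 hρ2 m hmM
  rw [BB_eq x.1 x.2 r hr k t] at hk3
  have h3 := htr r m k (fun n => x.2 (n : ZMod x.1) * (n : ℂ) ^ (-(t * Complex.I))) hr hr2 hm0 hk1 hk2
    (fun n => by
      rw [norm_mul]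
      calc ‖x.2 (n : ZMod x.1)‖ * ‖(n : ℂ) ^ (-(t * Complex.I))‖ ≤ 1 * 1 :=
            mul_le_mul (DirichletCharacter.norm_le_one _ _) (DensA_norm n t) (norm_nonneg _) zero_le_one
        _ = 1 := one_mul 1)
  have h4 : Fx x r m k t = ∑ n ∈ Icc 1 (PY r m), (cP r m k n : ℂ) *
      (x.2 (n : ZMod x.1) * (n : ℂ) ^ (-(t * Complex.I))) := by
    unfold Fx
    refine Finset.sum_congr rfl fun n _ => ?_
    rw [mul_assoc]
  rw [← h4] at h3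
  exact DensA_fin _ (fun k => ‖Fx x r m k t‖) k m hk1 hk2 hk3 h3 rfl

/-- The same for `zt` (`ch1` is the character of modulus 1). -/
theorem large_zt : ∃ M r₀ : ℝ, 1 ≤ M ∧ 0 < r₀ ∧ r₀ ≤ 1 / 2000 ∧
    ∀ (t r L : ℝ), 0 < r → r ≤ r₀ → Real.log (|t| + 3) ≤ L →
    ∀ ρ : ℂ, zt ρ = 0 → 1 - r ≤ ρ.re → |ρ.im - t| ≤ r → ∀ m : ℕ, M * (r * L + 1) ≤ m →
      (1 / 300 : ℝ) ^ m / 64 ≤ ∑ k ∈ Icc m (2 * m), ‖Fx ch1 r m k t‖ ^ 2 := by
  obtain ⟨M, r₀, hM, hr₀, hr₀', hlow⟩ := tlow_zt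
  obtain ⟨m₀, htr⟩ := trunc
  refine ⟨max M m₀, r₀, le_trans hM (le_max_left _ _), hr₀, hr₀', ?_⟩
  intro t r L hr hr2 hL ρ hρ hρ1 hρ2 m hm
  have hL0 : 0 ≤ L := by
    refine le_trans (Real.log_nonneg ?_) hL
    have := abs_nonneg t
    linarith
  have h1 : (1 : ℝ) ≤ r * L + 1 := by
    have := mul_nonneg hr.le hL0
    linarith
  have h0 : 0 ≤ max M (m₀ : ℝ) := le_trans (by linarith) (le_max_left _ _)
  have hmM : M * (r * L + 1) ≤ m := le_trans (mul_le_mul_of_nonneg_right (le_max_left _ _) (by linarith)) hm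
  have hm0 : m₀ ≤ m := by
    have h2 : (m₀ : ℝ) ≤ max M (m₀ : ℝ) * (r * L + 1) :=
      le_trans (le_max_right _ _) (le_mul_of_one_le_right h0 h1)
    exact_mod_cast le_trans h2 hm
  obtain ⟨k, hk1, hk2, hk3⟩ := hlow t r L hr hr2 hL ρ hρ hρ1 hρ2 m hmM
  rw [BB_eq_one r hr k t] at hk3
  have h3 := htr r m k (fun n => (n : ℂ) ^ (-(t * Complex.I))) hr (hr2.trans hr₀') hm0 hk1 hk2
    (fun n => DensA_norm n t)
  have h4 : Fx ch1 r m k t = ∑ n ∈ Icc 1 (PY r m), (cP r m k n : ℂ) * (n : ℂ) ^ (-(t * Complex.I)) := by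
    unfold Fx
    refine Finset.sum_congr rfl fun n _ => ?_
    have h5 : ch1.2 (n : ZMod ch1.1) = 1 := by
      show (1 : DirichletCharacter ℂ 1) (n : ZMod 1) = 1
      have : (n : ZMod 1) = 1 := Subsingleton.elim _ _
      rw [this, map_one]
    rw [h5, mul_one]
  rw [← h4] at h3
  exact DensA_fin _ (fun k => ‖Fx ch1 r m k t‖) k m hk1 hk2 hk3 h3 rfl

/-- `hybridS` with `Q = P`, `T + 1` in place of `T`: the coefficients live on primes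
`n > exp(m/(100 r)) ≥ P⁴(T+1)`, and `cP_sq`. -/
theorem mean_Fx : ∃ C : ℝ, 1 ≤ C ∧ ∀ (P m k : ℕ) (T r : ℝ), 2 ≤ P → 1 ≤ T → 0 < r → r ≤ 1 → 1 ≤ m →
    (P : ℝ) ^ 4 * (T + 1) ≤ Real.exp (m / (100 * r)) →
    Real.log P * ∑ x ∈ prims P, ∫ t in (-(T + 1))..(T + 1), ‖Fx x r m k t‖ ^ 2 ≤ C * (m : ℝ) ^ 2 := by
  obtain ⟨C1, hC1, hyb⟩ := hybridS
  obtain ⟨C2, hC2, hsq⟩ := cP_sq
  refine ⟨2 * C1 * C2, by nlinarith, ?_⟩
  intro P m k T r hP hT hr hr1 hm hE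
  have hbig : ∀ n, cP r m k n ≠ 0 → n.Prime ∧ (P : ℝ) ^ 4 * (T + 1) < n := by
    intro n hn
    unfold cP at hn
    by_cases hc : n.Prime ∧ PX r m < n
    · refine ⟨hc.1, lt_of_le_of_lt hE ?_⟩
      have h1 : Real.exp (m / (100 * r)) < (⌊Real.exp (m / (100 * r))⌋₊ : ℝ) + 1 := Nat.lt_floor_add_one _
      have h2 : (PX r m : ℝ) + 1 ≤ n := by
        have : PX r m + 1 ≤ n := hc.2
        exact_mod_cast this
      exact lt_of_lt_of_le h1 h2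
    · rw [if_neg hc] at hn
      exact absurd rfl hn
  have hP1 : (2 : ℝ) ≤ P := by exact_mod_cast hP
  have ha : ∀ n, (fun n => ((cP r m k n : ℝ) : ℂ)) n ≠ 0 → n.Prime ∧ P ^ 2 < n := by
    intro n hn
    have hn' : cP r m k n ≠ 0 := by
      intro h0
      apply hn
      show ((cP r m k n : ℝ) : ℂ) = 0
      rw [h0, Complex.ofReal_zero]
    obtain ⟨h1, h2⟩ := hbig n hn'
    refine ⟨h1, ?_⟩
    have h3 : ((P ^ 2 : ℕ) : ℝ) < (n : ℝ) := by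
      refine lt_of_le_of_lt ?_ h2
      push_cast
      have h4 : (1 : ℝ) ≤ (P : ℝ) ^ 2 := by nlinarith
      have h5 : (P : ℝ) ^ 2 ≤ (P : ℝ) ^ 4 := by nlinarith
      nlinarith [mul_nonneg (by positivity : (0 : ℝ) ≤ (P : ℝ) ^ 4) (by linarith : (0 : ℝ) ≤ T)]
    exact_mod_cast h3
  have h1 := hyb P (PY r m) (fun n => ((cP r m k n : ℝ) : ℂ)) (T + 1) (by linarith) hP ha
  have h2 : C1 * ∑ n ∈ Icc 1 (PY r m), ((n : ℝ) + (P : ℝ) ^ 4 * (T + 1)) * ‖((cP r m k n : ℝ) : ℂ)‖ ^ 2 ≤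
      C1 * (2 * (C2 * (m : ℝ) ^ 2)) := by
    apply mul_le_mul_of_nonneg_left _ (by linarith)
    have h3 : ∑ n ∈ Icc 1 (PY r m), ((n : ℝ) + (P : ℝ) ^ 4 * (T + 1)) * ‖((cP r m k n : ℝ) : ℂ)‖ ^ 2 ≤
        ∑ n ∈ Icc 1 (PY r m), 2 * ((n : ℝ) * cP r m k n ^ 2) := by
      apply Finset.sum_le_sum
      intro n _
      rw [Complex.norm_real, Real.norm_eq_abs, sq_abs]
      by_cases h0 : cP r m k n = 0
      · rw [h0]
        simp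
      · have h4 := (hbig n h0).2
        have h5 : (0 : ℝ) ≤ cP r m k n ^ 2 := sq_nonneg _
        nlinarith [mul_nonneg h5 (by linarith : (0 : ℝ) ≤ n - (P : ℝ) ^ 4 * (T + 1))]
    refine le_trans h3 ?_
    rw [← Finset.mul_sum]
    exact mul_le_mul_of_nonneg_left (hsq r m k hr hr1 hm) (by norm_num)
  have h3 : Real.log P * ∑ x ∈ prims P, ∫ t in (-(T + 1))..(T + 1), ‖Fx x r m k t‖ ^ 2 ≤
      C1 * (2 * (C2 * (m : ℝ) ^ 2)) := le_trans h1 h2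
  refine le_trans h3 (le_of_eq ?_)
  ring

end Pool.Agent.Lib.MP_629a14_nt.Lf
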