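import Pool.Agent.Lib.MP_629a14_nt.Th.Gs

/-! Gauss sums of imprimitive characters. -/

set_option autoImplicit false

namespace Pool.Agent.Lib.MP_629a14_nt.Lf

open Finset Pool.Agent.Lib.MP_629a14_nt Pool.Agent.Lib.MP_629a14_nt.Th

/-- A Gauss sum as a sum over the units. -/
private lemma gs2_units (q : ℕ) [NeZero q] (χ : DirichletCharacter ℂ q) (k : ℤ) :
    gs χ k = ∑ u : (ZMod q)ˣ, χ (u : ZMod q) * ZMod.stdAddChar ((u : ZMod q) * (k : ZMod q)) := by
  rw [gs_eq_gaussSum, gaussSum]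
  symm
  refine Fintype.sum_of_injective (fun u : (ZMod q)ˣ => (u : ZMod q)) Units.val_injective _ _ ?_ ?_
  · intro x hx
    have hx' : ¬ IsUnit x := by
      rintro ⟨u, hu⟩
      exact hx ⟨u, hu⟩
    rw [MulChar.map_nonunit χ hx', zero_mul]
  · intro u
    rw [AddChar.mulShift_apply, mul_comm (k : ZMod q)]

private lemma gs2_ee_eq (q : ℕ) [NeZero q] (j : ℤ) :
    ZMod.stdAddChar (j : ZMod q) = ee ((j : ℝ) / q) := by
  rw [ZMod.stdAddChar_coe, ee]
  congr 1
  push_cast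
  ring

/-- With `d = (q,k)`: the additive character `x ↦ e(xk/q)` is `e(x(k/d)/(q/d))`. -/
private lemma gs2_add (q : ℕ) [NeZero q] (q₁ d : ℕ) (hq : q = q₁ * d) [NeZero q₁] (k' : ℤ)
    (x : ZMod q) :
    ZMod.stdAddChar (x * (((d : ℤ) * k' : ℤ) : ZMod q)) =
      ZMod.stdAddChar ((ZMod.castHom (Dvd.intro _ hq.symm) (ZMod q₁) x) * (k' : ZMod q₁)) := by
  obtain ⟨a, rfl⟩ := ZMod.intCast_surjective x
  have h1 : (a : ZMod q) * (((d : ℤ) * k' : ℤ) : ZMod q) = ((a * ((d : ℤ) * k') : ℤ) : ZMod q) := by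
    push_cast; rfl
  have h2 : (ZMod.castHom (Dvd.intro _ hq.symm) (ZMod q₁) (a : ZMod q)) * (k' : ZMod q₁) =
      ((a * k' : ℤ) : ZMod q₁) := by
    rw [map_intCast]; push_cast; rfl
  rw [h1, h2, gs2_ee_eq, gs2_ee_eq]
  congr 1
  have hq0 : (q₁ : ℝ) ≠ 0 := by exact_mod_cast NeZero.ne q₁
  have hd0 : (d : ℝ) ≠ 0 := by
    have : d ≠ 0 := by rintro rfl; exact NeZero.ne q (by simpa using hq)
    exact_mod_cast this
  rw [hq]
  push_cast
  field_simp

private lemma gs2_split (q : ℕ) [NeZero q] (k : ℤ) :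
    ∃ (q₁ d : ℕ) (k' : ℤ), q = q₁ * d ∧ q₁ ≠ 0 ∧ q / Nat.gcd q k.natAbs = q₁ ∧ k = (d : ℤ) * k' ∧
      IsCoprime k' (q₁ : ℤ) := by
  set d := Nat.gcd q k.natAbs with hd
  have hd0 : 0 < d := Nat.gcd_pos_of_pos_left _ (Nat.pos_of_ne_zero (NeZero.ne q))
  have h1 : d ∣ q := Nat.gcd_dvd_left _ _
  have h2 : (d : ℤ) ∣ k := Int.natCast_dvd.mpr (Nat.gcd_dvd_right _ _)
  obtain ⟨k', hk'⟩ := h2
  refine ⟨q / d, d, k', (Nat.div_mul_cancel h1).symm, ?_, rfl, hk', ?_⟩
  · exact (Nat.div_pos (Nat.le_of_dvd (Nat.pos_of_ne_zero (NeZero.ne q)) h1) hd0).ne'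
  · rw [Int.isCoprime_iff_gcd_eq_one]
    have h3 : Nat.Coprime (q / d) (k.natAbs / d) := Nat.coprime_div_gcd_div_gcd hd0
    have h4 : k.natAbs / d = k'.natAbs := by
      rw [hk', Int.natAbs_mul, Int.natAbs_natCast, Nat.mul_div_cancel_left _ hd0]
    rw [h4] at h3
    rw [Int.gcd, Int.natAbs_natCast]
    exact h3.symm

/-- Proof. Let `d = (q,k)`, `q = d q₁`, `k = d k'`, `(k',q₁) = 1`. `gs χ k = ∑_{b mod q₁} e(bk'/q₁) ∑_{a ≡ b mod q₁} χ(a)` (`a` over
the reduced residues modulo `q`). If `χ` is not trivial on the units `≡ 1 mod q₁` (that is, `cond χ ∤ q₁`), the inner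
sums vanish. -/
theorem gs_eq_zero (q : ℕ) [NeZero q] (χ : DirichletCharacter ℂ q) (k : ℤ) (h : ¬ χ.conductor ∣ q / Nat.gcd q k.natAbs) :
    gs χ k = 0 := by
  obtain ⟨q₁, d, k', hq, hq₁, hqd, hk, _⟩ := gs2_split q k
  rw [hqd] at h
  have : NeZero q₁ := ⟨hq₁⟩
  have hdvd : q₁ ∣ q := Dvd.intro _ hq.symm
  rw [← DirichletCharacter.mem_conductorSet_iff_conductor_dvd χ hdvd,
    DirichletCharacter.mem_conductorSet_iff,
    DirichletCharacter.factorsThrough_iff_ker_unitsMap hdvd] at h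
  rw [SetLike.not_le_iff_exists] at h
  obtain ⟨v, hv, hvχ⟩ := h
  rw [MonoidHom.mem_ker] at hv
  have hχv : χ (v : ZMod q) ≠ 1 := by
    intro h1
    apply hvχ
    rw [MonoidHom.mem_ker]
    ext
    rw [MulChar.coe_toUnitHom, h1]
    rfl
  rw [gs2_units, hk]
  set S := ∑ u : (ZMod q)ˣ, χ (u : ZMod q) *
    ZMod.stdAddChar ((u : ZMod q) * (((d : ℤ) * k' : ℤ) : ZMod q)) with hS
  have h2 : S = χ (v : ZMod q) * S := by
    conv_lhs => rw [hS, ← Equiv.sum_comp (Equiv.mulRight v)]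
    rw [hS, Finset.mul_sum]
    refine Finset.sum_congr rfl (fun u _ => ?_)
    rw [Equiv.coe_mulRight, gs2_add q q₁ d hq k', gs2_add q q₁ d hq k', Units.val_mul, map_mul χ,
      map_mul (ZMod.castHom hdvd (ZMod q₁))]
    have h3 : (ZMod.castHom hdvd (ZMod q₁)) (v : ZMod q) = 1 := by
      have h4 := congrArg (fun w : (ZMod q₁)ˣ => (w : ZMod q₁)) hv
      simpa [ZMod.unitsMap_def] using h4
    rw [h3, mul_one]
    ring
  have h5 : (1 - χ (v : ZMod q)) * S = 0 := by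
    rw [sub_mul, one_mul, ← h2, sub_self]
  rcases mul_eq_zero.mp h5 with h6 | h6
  · exact absurd (sub_eq_zero.mp h6).symm hχv
  · exact h6

private lemma gs2_fiber {G H : Type*} [Group G] [Group H] [Fintype G] [Fintype H] [DecidableEq H]
    (π : G →* H) (hπ : Function.Surjective π) (F : H → ℂ) :
    ∑ u : G, F (π u) = ((Fintype.card G : ℂ) / (Fintype.card H : ℂ)) * ∑ w : H, F w := by
  classical
  have hc : ∀ w : H, (Finset.univ.filter (fun g : G => π g = w)).card =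
      (Finset.univ.filter (fun g : G => π g = 1)).card := fun w =>
    MonoidHom.card_fiber_eq_of_mem_range π (hπ w) (hπ 1)
  have h1 : ∑ u : G, F (π u) =
      ∑ w : H, ∑ u ∈ Finset.univ.filter (fun g : G => π g = w), F (π u) :=
    (Finset.sum_fiberwise Finset.univ π (fun u => F (π u))).symm
  have h2 : ∑ u : G, F (π u) =
      ((Finset.univ.filter (fun g : G => π g = 1)).card : ℂ) * ∑ w : H, F w := by
    rw [h1, Finset.mul_sum]
    refine Finset.sum_congr rfl (fun w _ => ?_)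
    rw [Finset.sum_congr rfl (fun u hu => by rw [(Finset.mem_filter.mp hu).2]), Finset.sum_const,
      hc w, nsmul_eq_mul]
  have h3 : (Fintype.card G : ℂ) =
      ((Finset.univ.filter (fun g : G => π g = 1)).card : ℂ) * (Fintype.card H : ℂ) := by
    have h4 : Fintype.card G =
        ∑ w : H, (Finset.univ.filter (fun g : G => π g = w)).card := by
      rw [← Finset.card_univ]
      exact Finset.card_eq_sum_card_fiberwise (fun _ _ => Finset.mem_univ _)
    rw [Finset.sum_congr rfl (fun w _ => hc w), Finset.sum_const, Finset.card_univ,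
      smul_eq_mul] at h4
    rw [h4]
    push_cast
    ring
  have h5 : (Fintype.card H : ℂ) ≠ 0 := by
    exact_mod_cast (Fintype.card_pos_iff.mpr ⟨(1 : H)⟩).ne'
  rw [h2, h3, mul_div_assoc, div_self h5, mul_one]

/-- Proof. If `cond χ ∣ q₁`, then on the units `χ` is induced by a character `χ'` modulo `q₁`, the inner sum is
`χ'(b) φ(q)/φ(q₁)`, and `gs χ k = (φ(q)/φ(q₁)) gs χ' k'`, `‖gs χ' k'‖ = ‖gs χ' 1‖ ≤ √cond` (`norm_gs_one_le`). -/
theorem norm_gs_le (q : ℕ) [NeZero q] (χ : DirichletCharacter ℂ q) (k : ℤ) :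
    ‖gs χ k‖ ≤ Real.sqrt χ.conductor * ((q.totient : ℝ) / ((q / Nat.gcd q k.natAbs).totient : ℝ)) := by
  by_cases h : χ.conductor ∣ q / Nat.gcd q k.natAbs
  swap
  · rw [gs_eq_zero q χ k h, norm_zero]
    positivity
  obtain ⟨q₁, d, k', hq, hq₁, hqd, hk, hcop⟩ := gs2_split q k
  rw [hqd] at h ⊢
  have : NeZero q₁ := ⟨hq₁⟩
  have hdvd : q₁ ∣ q := Dvd.intro _ hq.symm
  rw [← DirichletCharacter.mem_conductorSet_iff_conductor_dvd χ hdvd,
    DirichletCharacter.mem_conductorSet_iff] at h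
  obtain ⟨_, χ', hχ'⟩ := h
  have hcond : χ.conductor = χ'.conductor := by
    rw [hχ', DirichletCharacter.conductor_changeLevel]
  -- the value at `k'`
  have hku : IsUnit (k' : ZMod q₁) := by
    obtain ⟨a, b, hab⟩ := hcop
    have h7 := congrArg (fun z : ℤ => (z : ZMod q₁)) hab
    simp only [Int.cast_add, Int.cast_mul, Int.cast_one, Int.cast_natCast, ZMod.natCast_self,
      mul_zero, add_zero] at h7
    exact IsUnit.of_mul_eq_one (a : ZMod q₁) (by rw [mul_comm]; exact h7)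
  have h1 : gs χ k = ((q.totient : ℂ) / (q₁.totient : ℂ)) * gs χ' k' := by
    rw [gs2_units, gs2_units, hk]
    have h2 := gs2_fiber (ZMod.unitsMap hdvd) (ZMod.unitsMap_surjective hdvd)
      (fun w : (ZMod q₁)ˣ => χ' (w : ZMod q₁) * ZMod.stdAddChar ((w : ZMod q₁) * (k' : ZMod q₁)))
    rw [ZMod.card_units_eq_totient, ZMod.card_units_eq_totient] at h2
    rw [← h2]
    refine Finset.sum_congr rfl (fun u _ => ?_)
    rw [gs2_add q q₁ d hq k', hχ', DirichletCharacter.changeLevel_eq_cast_of_dvd]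
    rfl
  have h2 : ‖gs χ' k'‖ ≤ Real.sqrt χ'.conductor := by
    have h3 := norm_gs_one_le q₁ χ'
    have h4 := gaussSum_mulShift χ' (ZMod.stdAddChar (N := q₁)) hku.unit
    rw [gs_eq_gaussSum] at h3 ⊢
    have h5 : (ZMod.stdAddChar (N := q₁)).mulShift ((1 : ℤ) : ZMod q₁) = ZMod.stdAddChar := by
      rw [Int.cast_one, AddChar.mulShift_one]
    rw [h5] at h3
    rw [IsUnit.unit_spec] at h4
    have h6 : ‖χ' (k' : ZMod q₁)‖ = 1 := by
      have := DirichletCharacter.unit_norm_eq_one χ' hku.unit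
      rwa [IsUnit.unit_spec] at this
    rw [← h4, norm_mul, h6, one_mul] at h3
    exact h3
  rw [h1, norm_mul, hcond, mul_comm]
  refine mul_le_mul h2 (le_of_eq ?_) (norm_nonneg _) (Real.sqrt_nonneg _)
  rw [norm_div, Complex.norm_natCast, Complex.norm_natCast]

end Pool.Agent.Lib.MP_629a14_nt.Lf
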