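import Pool.Agent.Lib.MP_629a14_nt.Lf.Wsum
import Pool.Agent.Lib.MP_629a14_nt.Th.PairS

/-! The non-exceptional characters contribute little, without logarithms. -/

set_option autoImplicit false

namespace Pool.Agent.Lib.MP_629a14_nt.Lf

open Finset Pool.Agent.Lib.MP_629a14_nt Pool.Agent.Lib.MP_629a14_nt.Th

open Classical in
private theorem PairS_MC (j : ℕ) (e : CH) (χ : DirichletCharacter ℂ (j + 1)) :
    χ ∈ MC (j + 1) e ↔ (cls χ = e ∨ cls χ = ch1) := by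
  unfold MC
  rw [dif_neg (Nat.succ_ne_zero j)]
  simp

open Classical in
/-- The difference as a sum over the pairs which are not both exceptional. -/
private theorem PairS_diff (P N H : ℕ) (e : CH) (n : ℕ) :
    RM P N H n - MT P N H e n = ∑ j ∈ range P, (((j + 1).totient : ℂ) ^ 2)⁻¹ *
      ∑ χ₁ : DirichletCharacter ℂ (j + 1), ∑ χ₂ : DirichletCharacter ℂ (j + 1),
        (if χ₁ ∈ MC (j + 1) e ∧ χ₂ ∈ MC (j + 1) e then 0 else
          gs χ₁⁻¹ 1 * gs χ₂⁻¹ 1 * gs (χ₁ * χ₂) (-(n : ℤ)) * II P N H χ₁ χ₂ n) := by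
  have h1 : MT P N H e n = ∑ j ∈ range P, (((j + 1).totient : ℂ) ^ 2)⁻¹ *
      ∑ χ₁ ∈ MC (j + 1) e, ∑ χ₂ ∈ MC (j + 1) e,
        gs χ₁⁻¹ 1 * gs χ₂⁻¹ 1 * gs (χ₁ * χ₂) (-(n : ℤ)) * II P N H χ₁ χ₂ n := by
    unfold MT
    have h2 : Icc 1 P = (range P).image (fun j => j + 1) := by
      ext q
      rw [mem_Icc, mem_image]
      constructor
      · rintro ⟨h, h'⟩
        exact ⟨q - 1, by rw [mem_range]; omega, by omega⟩
      · rintro ⟨j, hj, rfl⟩
        rw [mem_range] at hj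
        omega
    rw [h2, sum_image (fun i _ j _ h => by simpa using h)]
  rw [RM_expand, h1, ← sum_sub_distrib]
  apply sum_congr rfl
  intro j _
  rw [← mul_sub]
  congr 1
  have h3 : ∀ g : DirichletCharacter ℂ (j + 1) → ℂ, ∑ χ ∈ MC (j + 1) e, g χ =
      ∑ χ : DirichletCharacter ℂ (j + 1), if χ ∈ MC (j + 1) e then g χ else 0 := by
    intro g
    rw [sum_ite_mem, univ_inter]
  rw [h3, ← sum_sub_distrib]
  apply sum_congr rfl
  intro χ₁ _
  by_cases hχ : χ₁ ∈ MC (j + 1) e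
  · rw [if_pos hχ, h3, ← sum_sub_distrib]
    apply sum_congr rfl
    intro χ₂ _
    by_cases hχ2 : χ₂ ∈ MC (j + 1) e
    · rw [if_pos hχ2, if_pos ⟨hχ, hχ2⟩, sub_self]
    · rw [if_neg hχ2, if_neg (fun h => hχ2 h.2), sub_zero]
  · rw [if_neg hχ, sub_zero]
    apply sum_congr rfl
    intro χ₂ _
    rw [if_neg (fun h => hχ h.1)]

open Classical in
/-- As `Th.pair_sum` (copy its proof), with the exact coefficients and `w_pair` in place of `pair_count`. -/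
theorem pair_sum : ∃ C : ℝ, 1 ≤ C ∧ ∃ N₀ : ℕ, ∀ N P : ℕ, N₀ ≤ N →
    Real.exp ((Real.log N) ^ (3 / 4 : ℝ)) ≤ P → P ^ 100 ≤ N →
    ∀ (e : CH) (D : CH → ℝ) (E : ℝ), (∀ x, 0 ≤ D x) →
      (∀ x ∈ prims P, x ≠ ch1 → x ≠ e → ∀ v : ℕ, N ≤ v * P ^ 5 → v ≤ N →
        ‖wnd (fun m => (aP P m : ℂ) * x.2 (m : ZMod x.1)) (N / P ^ 20) v‖ ≤ D x) →
      ∑ x ∈ (prims P).filter (fun x => x ≠ e ∧ x ≠ ch1), Real.sqrt (D x) ≤ E → E ≤ 1 →
      ∀ n : ℕ, 1 ≤ n → n ≤ N →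
        ‖RM P N (N / P ^ 20) n - MT P N (N / P ^ 20) e n‖ ≤
          C * N * ((n : ℝ) / n.totient) * E + N / Real.sqrt P := by
  obtain ⟨C₀, hC₀, hpc⟩ := w_pair
  obtain ⟨N₁, hN₁⟩ := II_le_wnd
  refine ⟨20 * C₀, by linarith, max N₁ 8, ?_⟩
  intro N P hN hP hPN e D E hD hwnd hsum hE n hn1 hn
  have hNN1 : N₁ ≤ N := (le_max_left _ _).trans hN
  have hN8 : 8 ≤ N := (le_max_right _ _).trans hN
  have hNr : (8 : ℝ) ≤ N := by exact_mod_cast hN8
  have hN0 : (0 : ℝ) < N := by linarith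
  have hP1r : (1 : ℝ) ≤ P := by
    have h1 : (1 : ℝ) ≤ Real.exp ((Real.log N) ^ (3 / 4 : ℝ)) := by
      apply Real.one_le_exp
      apply Real.rpow_nonneg
      exact Real.log_nonneg (by linarith)
    linarith
  have hP1 : 1 ≤ P := by exact_mod_cast hP1r
  have hP0 : (0 : ℝ) < P := by linarith
  have hlogN : 2 ≤ Real.log N := by
    have h1 : Real.log 8 ≤ Real.log N := Real.log_le_log (by norm_num) hNr
    have h2 : Real.log 8 = 3 * Real.log 2 := by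
      rw [show (8 : ℝ) = 2 ^ 3 by norm_num, Real.log_pow]; norm_num
    have h3 : (0.6931471803 : ℝ) < Real.log 2 := Real.log_two_gt_d9
    linarith
  have hlogP0 : 0 ≤ Real.log P := Real.log_nonneg hP1r
  have hlogP : 1 + Real.log P ≤ Real.log N := by
    have h1 : Real.log ((P : ℝ) ^ 100) ≤ Real.log N := by
      apply Real.log_le_log (by positivity)
      exact_mod_cast hPN
    rw [Real.log_pow] at h1
    push_cast at h1
    linarith
  set F : CH → ℝ := fun x => if x ≠ e ∧ x ≠ ch1 then Real.sqrt (D x) else 0 with hF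
  set I : CH → ℝ := fun x => if x = e ∨ x = ch1 then 1 else 0 with hI
  have hF0 : ∀ x, 0 ≤ F x := by
    intro x
    simp only [hF]
    split_ifs
    · exact Real.sqrt_nonneg _
    · exact le_rfl
  have hI0 : ∀ x, 0 ≤ I x := by
    intro x
    simp only [hI]
    split_ifs <;> norm_num
  have hFs : ∑ x ∈ prims P, F x ≤ E := by
    simp only [hF]
    rw [← sum_filter]
    exact hsum
  have hE0 : 0 ≤ E := (sum_nonneg (fun x _ => hF0 x)).trans hFs
  have hIs : ∑ x ∈ prims P, I x ≤ 2 := by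
    simp only [hI]
    rw [← sum_filter, sum_const, nsmul_eq_mul, mul_one]
    have h1 : (prims P).filter (fun x => x = e ∨ x = ch1) ⊆ {e, ch1} := by
      intro x hx
      rw [mem_filter] at hx
      rw [mem_insert, mem_singleton]
      exact hx.2
    have h2 := (card_le_card h1).trans (card_insert_le _ _)
    rw [card_singleton] at h2
    exact_mod_cast h2
  have hF1 : ∀ x ∈ prims P, F x ≤ 1 := by
    intro x hx
    exact ((single_le_sum (fun y _ => hF0 y) hx).trans hFs).trans hE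
  -- bound for `II`
  have hII : ∀ j ∈ range P, ∀ χ₁ χ₂ : DirichletCharacter ℂ (j + 1),
      ¬ (χ₁ ∈ MC (j + 1) e ∧ χ₂ ∈ MC (j + 1) e) →
      ‖II P N (N / P ^ 20) χ₁ χ₂ n‖ ≤ 4 * N * (F (cls χ₁) * F (cls χ₂) + F (cls χ₁) * I (cls χ₂) +
        I (cls χ₁) * F (cls χ₂)) + N / (P : ℝ) ^ 4 := by
    intro j hj χ₁ χ₂ hnot
    rw [mem_range] at hj
    have hone : ∀ χ χ' : DirichletCharacter ℂ (j + 1), χ ∉ MC (j + 1) e →
        ‖II P N (N / P ^ 20) χ χ' n‖ ≤ 4 * N * D (cls χ) + N / (P : ℝ) ^ 4 := by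
      intro χ χ' hχ
      rw [PairS_MC] at hχ
      push Not at hχ
      apply hN₁ N P hNN1 hP hPN (j + 1) χ χ' (D (cls χ)) (hD _) _ n hn
      intro v hv1 hv2
      rw [wnd_cls P _ v (j + 1) (by omega) χ]
      exact hwnd (cls χ) (cls_mem_prims P (j + 1) (by omega) χ) hχ.2 hχ.1 v hv1 hv2
    have hFD : ∀ χ : DirichletCharacter ℂ (j + 1), χ ∉ MC (j + 1) e →
        F (cls χ) = Real.sqrt (D (cls χ)) ∧ I (cls χ) = 0 := by
      intro χ hχ
      rw [PairS_MC] at hχ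
      push Not at hχ
      refine ⟨?_, ?_⟩
      · simp only [hF]
        rw [if_pos ⟨hχ.1, hχ.2⟩]
      · simp only [hI]
        rw [if_neg]
        push Not
        exact hχ
    have hFI : ∀ χ : DirichletCharacter ℂ (j + 1), χ ∈ MC (j + 1) e → F (cls χ) = 0 ∧ I (cls χ) = 1 := by
      intro χ hχ
      rw [PairS_MC] at hχ
      refine ⟨?_, ?_⟩
      · simp only [hF]
        rw [if_neg]
        rintro ⟨h1, h2⟩
        exact hχ.elim h1 h2
      · simp only [hI]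
        rw [if_pos hχ]
    have hmem : ∀ χ : DirichletCharacter ℂ (j + 1), cls χ ∈ prims P := fun χ =>
      cls_mem_prims P (j + 1) (by omega) χ
    by_cases h1 : χ₁ ∈ MC (j + 1) e
    · have h2 : χ₂ ∉ MC (j + 1) e := fun h => hnot ⟨h1, h⟩
      rw [II_comm]
      have h3 := hone χ₂ χ₁ h2
      have h4 := hFD χ₂ h2
      have h5 := hFI χ₁ h1
      have h6 := hF1 _ (hmem χ₂)
      rw [h5.1, h5.2, h4.2]
      have h7 : D (cls χ₂) ≤ F (cls χ₂) := by
        rw [h4.1] at h6 ⊢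
        calc D (cls χ₂) = Real.sqrt (D (cls χ₂)) * Real.sqrt (D (cls χ₂)) :=
              (Real.mul_self_sqrt (hD _)).symm
          _ ≤ 1 * Real.sqrt (D (cls χ₂)) := mul_le_mul_of_nonneg_right h6 (Real.sqrt_nonneg _)
          _ = _ := one_mul _
      have h8 : 4 * (N : ℝ) * D (cls χ₂) ≤ 4 * N * F (cls χ₂) :=
        mul_le_mul_of_nonneg_left h7 (by positivity)
      have h9 : 4 * (N : ℝ) * (0 * F (cls χ₂) + 0 * 0 + 1 * F (cls χ₂)) = 4 * N * F (cls χ₂) := by ring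
      rw [h9]
      linarith
    · have h3 := hone χ₁ χ₂ h1
      have h4 := hFD χ₁ h1
      have h6 := hF1 _ (hmem χ₁)
      by_cases h2 : χ₂ ∈ MC (j + 1) e
      · have h5 := hFI χ₂ h2
        rw [h5.1, h5.2, h4.2]
        have h7 : D (cls χ₁) ≤ F (cls χ₁) := by
          rw [h4.1] at h6 ⊢
          calc D (cls χ₁) = Real.sqrt (D (cls χ₁)) * Real.sqrt (D (cls χ₁)) :=
                (Real.mul_self_sqrt (hD _)).symm
            _ ≤ 1 * Real.sqrt (D (cls χ₁)) := mul_le_mul_of_nonneg_right h6 (Real.sqrt_nonneg _)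
            _ = _ := one_mul _
        have h8 : 4 * (N : ℝ) * D (cls χ₁) ≤ 4 * N * F (cls χ₁) :=
          mul_le_mul_of_nonneg_left h7 (by positivity)
        have h9 : 4 * (N : ℝ) * (F (cls χ₁) * 0 + F (cls χ₁) * 1 + 0 * 0) = 4 * N * F (cls χ₁) := by ring
        rw [h9]
        linarith
      · have h3' := hone χ₂ χ₁ h2
        rw [II_comm] at h3'
        have h4' := hFD χ₂ h2
        rw [h4.1, h4.2, h4'.1, h4'.2]
        have h9 : 4 * (N : ℝ) * (Real.sqrt (D (cls χ₁)) * Real.sqrt (D (cls χ₂)) +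
            Real.sqrt (D (cls χ₁)) * 0 + 0 * Real.sqrt (D (cls χ₂))) =
            4 * N * (Real.sqrt (D (cls χ₁)) * Real.sqrt (D (cls χ₂))) := by ring
        rw [h9]
        rcases le_total (D (cls χ₁)) (D (cls χ₂)) with h | h
        · have h10 : D (cls χ₁) ≤ Real.sqrt (D (cls χ₁)) * Real.sqrt (D (cls χ₂)) := by
            calc D (cls χ₁) = Real.sqrt (D (cls χ₁)) * Real.sqrt (D (cls χ₁)) :=
                  (Real.mul_self_sqrt (hD _)).symm
              _ ≤ _ := mul_le_mul_of_nonneg_left (Real.sqrt_le_sqrt h) (Real.sqrt_nonneg _)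
          have h11 := mul_le_mul_of_nonneg_left h10 (by positivity : (0 : ℝ) ≤ 4 * N)
          linarith
        · have h10 : D (cls χ₂) ≤ Real.sqrt (D (cls χ₁)) * Real.sqrt (D (cls χ₂)) := by
            calc D (cls χ₂) = Real.sqrt (D (cls χ₂)) * Real.sqrt (D (cls χ₂)) :=
                  (Real.mul_self_sqrt (hD _)).symm
              _ ≤ _ := mul_le_mul_of_nonneg_right (Real.sqrt_le_sqrt h) (Real.sqrt_nonneg _)
          have h11 := mul_le_mul_of_nonneg_left h10 (by positivity : (0 : ℝ) ≤ 4 * N)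
          linarith
  -- norm bound
  rw [PairS_diff]
  have hQ0 : (0 : ℝ) ≤ N / (P : ℝ) ^ 4 := by positivity
  have hnorm : ∀ j ∈ range P, ‖(((j + 1).totient : ℂ) ^ 2)⁻¹ *
      ∑ χ₁ : DirichletCharacter ℂ (j + 1), ∑ χ₂ : DirichletCharacter ℂ (j + 1),
        (if χ₁ ∈ MC (j + 1) e ∧ χ₂ ∈ MC (j + 1) e then 0 else
          gs χ₁⁻¹ 1 * gs χ₂⁻¹ 1 * gs (χ₁ * χ₂) (-(n : ℤ)) * II P N (N / P ^ 20) χ₁ χ₂ n)‖ ≤
      (((j + 1).totient : ℝ) ^ 2)⁻¹ *
      ∑ χ₁ : DirichletCharacter ℂ (j + 1), ∑ χ₂ : DirichletCharacter ℂ (j + 1),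
        (‖gs χ₁⁻¹ 1‖ * ‖gs χ₂⁻¹ 1‖ * ‖gs (χ₁ * χ₂) (-(n : ℤ))‖ *
          (4 * N * (F (cls χ₁) * F (cls χ₂) + F (cls χ₁) * I (cls χ₂) +
            I (cls χ₁) * F (cls χ₂)) + N / (P : ℝ) ^ 4)) := by
    intro j hj
    rw [norm_mul, norm_inv, norm_pow, Complex.norm_natCast]
    refine mul_le_mul_of_nonneg_left ?_ (by positivity)
    refine (norm_sum_le _ _).trans (sum_le_sum ?_)
    intro χ₁ _
    refine (norm_sum_le _ _).trans (sum_le_sum ?_)
    intro χ₂ _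
    have hR0 : 0 ≤ 4 * N * (F (cls χ₁) * F (cls χ₂) + F (cls χ₁) * I (cls χ₂) +
          I (cls χ₁) * F (cls χ₂)) + N / (P : ℝ) ^ 4 := by
      have := hF0 (cls χ₁); have := hF0 (cls χ₂); have := hI0 (cls χ₁); have := hI0 (cls χ₂)
      positivity
    by_cases hb : χ₁ ∈ MC (j + 1) e ∧ χ₂ ∈ MC (j + 1) e
    · rw [if_pos hb, norm_zero]
      exact mul_nonneg (by positivity) hR0
    · rw [if_neg hb, norm_mul, norm_mul, norm_mul]
      exact mul_le_mul_of_nonneg_left (hII j hj χ₁ χ₂ hb) (by positivity)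
  refine (norm_sum_le _ _).trans ((sum_le_sum hnorm).trans ?_)
  -- splitting
  have hsplit : ∀ j ∈ range P, (((j + 1).totient : ℝ) ^ 2)⁻¹ *
      ∑ χ₁ : DirichletCharacter ℂ (j + 1), ∑ χ₂ : DirichletCharacter ℂ (j + 1),
        (‖gs χ₁⁻¹ 1‖ * ‖gs χ₂⁻¹ 1‖ * ‖gs (χ₁ * χ₂) (-(n : ℤ))‖ *
          (4 * N * (F (cls χ₁) * F (cls χ₂) + F (cls χ₁) * I (cls χ₂) +
            I (cls χ₁) * F (cls χ₂)) + N / (P : ℝ) ^ 4)) =
      4 * N * ((((j + 1).totient : ℝ) ^ 2)⁻¹ *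
        ∑ χ₁ : DirichletCharacter ℂ (j + 1), ∑ χ₂ : DirichletCharacter ℂ (j + 1),
          ‖gs χ₁⁻¹ 1‖ * ‖gs χ₂⁻¹ 1‖ * ‖gs (χ₁ * χ₂) (-(n : ℤ))‖ * (F (cls χ₁) * F (cls χ₂))) +
      4 * N * ((((j + 1).totient : ℝ) ^ 2)⁻¹ *
        ∑ χ₁ : DirichletCharacter ℂ (j + 1), ∑ χ₂ : DirichletCharacter ℂ (j + 1),
          ‖gs χ₁⁻¹ 1‖ * ‖gs χ₂⁻¹ 1‖ * ‖gs (χ₁ * χ₂) (-(n : ℤ))‖ * (F (cls χ₁) * I (cls χ₂))) +
      4 * N * ((((j + 1).totient : ℝ) ^ 2)⁻¹ *
        ∑ χ₁ : DirichletCharacter ℂ (j + 1), ∑ χ₂ : DirichletCharacter ℂ (j + 1),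
          ‖gs χ₁⁻¹ 1‖ * ‖gs χ₂⁻¹ 1‖ * ‖gs (χ₁ * χ₂) (-(n : ℤ))‖ * (I (cls χ₁) * F (cls χ₂))) +
      N / (P : ℝ) ^ 4 * ((((j + 1).totient : ℝ) ^ 2)⁻¹ *
        ∑ χ₁ : DirichletCharacter ℂ (j + 1), ∑ χ₂ : DirichletCharacter ℂ (j + 1),
          ‖gs χ₁⁻¹ 1‖ * ‖gs χ₂⁻¹ 1‖ * ‖gs (χ₁ * χ₂) (-(n : ℤ))‖) := by
    intro j _
    simp only [mul_sum]
    simp only [← sum_add_distrib]
    apply sum_congr rfl
    intro χ₁ _
    apply sum_congr rfl
    intro χ₂ _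
    ring
  rw [sum_congr rfl hsplit, sum_add_distrib, sum_add_distrib, sum_add_distrib, ← mul_sum, ← mul_sum,
    ← mul_sum, ← mul_sum]
  have hc1 := hpc P n F F hP1 hn1 hF0 hF0
  have hc2 := hpc P n F I hP1 hn1 hF0 hI0
  have hc3 := hpc P n I F hP1 hn1 hI0 hF0
  have hA0 : 0 ≤ C₀ * ((n : ℝ) / n.totient) := by positivity
  have hFn := sum_nonneg (s := prims P) (fun x _ => hF0 x)
  have hIn := sum_nonneg (s := prims P) (fun x _ => hI0 x)
  have hd1 : C₀ * ((n : ℝ) / n.totient) * (∑ x ∈ prims P, F x) * ∑ x ∈ prims P, F x ≤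
      C₀ * ((n : ℝ) / n.totient) * E := by
    rw [mul_assoc]
    apply mul_le_mul_of_nonneg_left _ hA0
    calc (∑ x ∈ prims P, F x) * ∑ x ∈ prims P, F x ≤ E * 1 :=
          mul_le_mul hFs (hFs.trans hE) hFn hE0
      _ = E := mul_one _
  have hd2 : C₀ * ((n : ℝ) / n.totient) * (∑ x ∈ prims P, F x) * ∑ x ∈ prims P, I x ≤
      C₀ * ((n : ℝ) / n.totient) * (2 * E) := by
    rw [mul_assoc]
    apply mul_le_mul_of_nonneg_left _ hA0
    calc (∑ x ∈ prims P, F x) * ∑ x ∈ prims P, I x ≤ E * 2 :=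
          mul_le_mul hFs hIs hIn hE0
      _ = _ := mul_comm _ _
  have hd3 : C₀ * ((n : ℝ) / n.totient) * (∑ x ∈ prims P, I x) * ∑ x ∈ prims P, F x ≤
      C₀ * ((n : ℝ) / n.totient) * (2 * E) := by
    rw [mul_assoc]
    apply mul_le_mul_of_nonneg_left _ hA0
    exact mul_le_mul hIs hFs hFn (by norm_num)
  -- the coefficients are bounded by those of the first version
  have hcoef : ∀ j ∈ range P, (((j + 1).totient : ℝ) ^ 2)⁻¹ *
        ∑ χ₁ : DirichletCharacter ℂ (j + 1), ∑ χ₂ : DirichletCharacter ℂ (j + 1),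
          ‖gs χ₁⁻¹ 1‖ * ‖gs χ₂⁻¹ 1‖ * ‖gs (χ₁ * χ₂) (-(n : ℤ))‖ ≤
      (((j + 1).totient : ℝ))⁻¹ *
        ∑ χ₁ : DirichletCharacter ℂ (j + 1), ∑ χ₂ : DirichletCharacter ℂ (j + 1),
          Real.sqrt χ₁.conductor * Real.sqrt χ₂.conductor := by
    intro j _
    have hφ : (0 : ℝ) < ((j + 1).totient : ℝ) := by
      exact_mod_cast Nat.totient_pos.mpr (Nat.succ_pos j)
    have h1 : ∑ χ₁ : DirichletCharacter ℂ (j + 1), ∑ χ₂ : DirichletCharacter ℂ (j + 1),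
          ‖gs χ₁⁻¹ 1‖ * ‖gs χ₂⁻¹ 1‖ * ‖gs (χ₁ * χ₂) (-(n : ℤ))‖ ≤
        ((j + 1).totient : ℝ) * ∑ χ₁ : DirichletCharacter ℂ (j + 1), ∑ χ₂ : DirichletCharacter ℂ (j + 1),
          Real.sqrt χ₁.conductor * Real.sqrt χ₂.conductor := by
      rw [mul_sum]
      refine sum_le_sum fun χ₁ _ => ?_
      rw [mul_sum]
      refine sum_le_sum fun χ₂ _ => ?_
      have g1 : ‖gs χ₁⁻¹ 1‖ ≤ Real.sqrt χ₁.conductor := by
        have := norm_gs_one_le (j + 1) χ₁⁻¹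
        rwa [DirichletCharacter.conductor_inv] at this
      have g2 : ‖gs χ₂⁻¹ 1‖ ≤ Real.sqrt χ₂.conductor := by
        have := norm_gs_one_le (j + 1) χ₂⁻¹
        rwa [DirichletCharacter.conductor_inv] at this
      have g3 := norm_gs_triv (j + 1) (χ₁ * χ₂) (-(n : ℤ))
      calc ‖gs χ₁⁻¹ 1‖ * ‖gs χ₂⁻¹ 1‖ * ‖gs (χ₁ * χ₂) (-(n : ℤ))‖
          ≤ Real.sqrt χ₁.conductor * Real.sqrt χ₂.conductor * ((j + 1).totient : ℝ) := by
            apply mul_le_mul _ g3 (norm_nonneg _) (by positivity)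
            exact mul_le_mul g1 g2 (norm_nonneg _) (Real.sqrt_nonneg _)
        _ = _ := by ring
    calc (((j + 1).totient : ℝ) ^ 2)⁻¹ * _ ≤ (((j + 1).totient : ℝ) ^ 2)⁻¹ * _ :=
          mul_le_mul_of_nonneg_left h1 (by positivity)
      _ = _ := by
        rw [← mul_assoc]
        congr 1
        field_simp
  have hlast : N / (P : ℝ) ^ 4 * ∑ j ∈ range P, ((((j + 1).totient : ℝ))⁻¹ *
        ∑ χ₁ : DirichletCharacter ℂ (j + 1), ∑ χ₂ : DirichletCharacter ℂ (j + 1),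
          Real.sqrt χ₁.conductor * Real.sqrt χ₂.conductor) ≤ N / Real.sqrt P := by
    have h1 : ∀ j ∈ range P, ((((j + 1).totient : ℝ))⁻¹ *
        ∑ χ₁ : DirichletCharacter ℂ (j + 1), ∑ χ₂ : DirichletCharacter ℂ (j + 1),
          Real.sqrt χ₁.conductor * Real.sqrt χ₂.conductor) ≤ (P : ℝ) * P := by
      intro j hj
      rw [mem_range] at hj
      have hφ : (0 : ℝ) < ((j + 1).totient : ℝ) := by
        exact_mod_cast Nat.totient_pos.mpr (Nat.succ_pos j)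
      have hjP : ((j + 1 : ℕ) : ℝ) ≤ P := by exact_mod_cast hj
      have hφP : ((j + 1).totient : ℝ) ≤ P := by
        have : ((j + 1).totient : ℝ) ≤ ((j + 1 : ℕ) : ℝ) := by exact_mod_cast Nat.totient_le _
        linarith
      have hc : ∀ χ : DirichletCharacter ℂ (j + 1), Real.sqrt χ.conductor ≤ Real.sqrt P := by
        intro χ
        apply Real.sqrt_le_sqrt
        have : χ.conductor ≤ j + 1 := Nat.le_of_dvd (Nat.succ_pos j) χ.conductor_dvd_level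
        have : (χ.conductor : ℝ) ≤ ((j + 1 : ℕ) : ℝ) := by exact_mod_cast this
        linarith
      have hcard : ((Finset.univ : Finset (DirichletCharacter ℂ (j + 1))).card : ℝ) =
          ((j + 1).totient : ℝ) := by
        rw [card_univ, ← Nat.card_eq_fintype_card]
        exact_mod_cast DirichletCharacter.card_eq_totient_of_hasEnoughRootsOfUnity ℂ (j + 1)
      have h2 : ∑ χ₁ : DirichletCharacter ℂ (j + 1), ∑ χ₂ : DirichletCharacter ℂ (j + 1),
          Real.sqrt χ₁.conductor * Real.sqrt χ₂.conductor ≤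
          ((j + 1).totient : ℝ) * (((j + 1).totient : ℝ) * P) := by
        calc ∑ χ₁ : DirichletCharacter ℂ (j + 1), ∑ χ₂ : DirichletCharacter ℂ (j + 1),
          Real.sqrt χ₁.conductor * Real.sqrt χ₂.conductor
            ≤ ∑ χ₁ : DirichletCharacter ℂ (j + 1), ∑ χ₂ : DirichletCharacter ℂ (j + 1), (P : ℝ) := by
              apply sum_le_sum
              intro χ₁ _
              apply sum_le_sum
              intro χ₂ _
              calc Real.sqrt χ₁.conductor * Real.sqrt χ₂.conductor ≤ Real.sqrt P * Real.sqrt P :=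
                    mul_le_mul (hc χ₁) (hc χ₂) (Real.sqrt_nonneg _) (Real.sqrt_nonneg _)
                _ = P := Real.mul_self_sqrt hP0.le
          _ = _ := by
              rw [sum_const, sum_const, nsmul_eq_mul, nsmul_eq_mul, hcard]
      calc (((j + 1).totient : ℝ))⁻¹ * _ ≤ (((j + 1).totient : ℝ))⁻¹ *
            (((j + 1).totient : ℝ) * (((j + 1).totient : ℝ) * P)) :=
            mul_le_mul_of_nonneg_left h2 (by positivity)
        _ = ((j + 1).totient : ℝ) * P := by field_simp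
        _ ≤ P * P := mul_le_mul_of_nonneg_right hφP hP0.le
    have h2 := sum_le_sum h1
    rw [sum_const, card_range, nsmul_eq_mul] at h2
    have h3 : Real.sqrt P ≤ P := by
      rw [Real.sqrt_le_left hP0.le]
      nlinarith
    have h4 : 0 < Real.sqrt P := Real.sqrt_pos.mpr hP0
    calc N / (P : ℝ) ^ 4 * ∑ j ∈ range P, ((((j + 1).totient : ℝ))⁻¹ *
        ∑ χ₁ : DirichletCharacter ℂ (j + 1), ∑ χ₂ : DirichletCharacter ℂ (j + 1),
          Real.sqrt χ₁.conductor * Real.sqrt χ₂.conductor)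
        ≤ N / (P : ℝ) ^ 4 * (P * (P * P)) := mul_le_mul_of_nonneg_left h2 hQ0
      _ = N / P := by field_simp
      _ ≤ N / Real.sqrt P := div_le_div_of_nonneg_left hN0.le h4 h3
  have hlast' : N / (P : ℝ) ^ 4 * ∑ j ∈ range P, ((((j + 1).totient : ℝ) ^ 2)⁻¹ *
        ∑ χ₁ : DirichletCharacter ℂ (j + 1), ∑ χ₂ : DirichletCharacter ℂ (j + 1),
          ‖gs χ₁⁻¹ 1‖ * ‖gs χ₂⁻¹ 1‖ * ‖gs (χ₁ * χ₂) (-(n : ℤ))‖) ≤ N / Real.sqrt P :=
    (mul_le_mul_of_nonneg_left (sum_le_sum hcoef) hQ0).trans hlast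
  have h4N : (0 : ℝ) ≤ 4 * N := by positivity
  have e1 := mul_le_mul_of_nonneg_left (hc1.trans hd1) h4N
  have e2 := mul_le_mul_of_nonneg_left (hc2.trans hd2) h4N
  have e3 := mul_le_mul_of_nonneg_left (hc3.trans hd3) h4N
  linarith

end Pool.Agent.Lib.MP_629a14_nt.Lf
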