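import Pool.Agent.Lib.MP_629a14_nt.Th.PkB

/-! A sharp lower bound for `P_k` near its maximum. -/

set_option autoImplicit false

namespace Pool.Agent.Lib.MP_629a14_nt.Lf

open Pool.Agent.Lib.MP_629a14_nt.Th

private theorem PkBs_factorial_le (k : ℕ) (hk : 1 ≤ k) :
    (k.factorial : ℝ) ≤ Real.exp 1 * Real.sqrt k * ((k : ℝ) / Real.exp 1) ^ k := by
  obtain ⟨m, rfl⟩ : ∃ m, k = m + 1 := ⟨k - 1, by omega⟩
  have h := Stirling.stirlingSeq'_antitone (Nat.zero_le m)
  simp only [Function.comp, Nat.succ_eq_add_one, zero_add] at h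
  rw [Stirling.stirlingSeq_one] at h
  unfold Stirling.stirlingSeq at h
  have hp : 0 < Real.sqrt (2 * ((m + 1 : ℕ) : ℝ)) * (((m + 1 : ℕ) : ℝ) / Real.exp 1) ^ (m + 1) := by
    positivity
  rw [div_le_iff₀ hp] at h
  refine h.trans (le_of_eq ?_)
  rw [Real.sqrt_mul (by norm_num)]
  have h2 : (Real.sqrt 2) ≠ 0 := by positivity
  field_simp

private theorem PkBs_eq (k : ℕ) (y : ℝ) :
    Pk k y = (1 / 16) * ((y / 16) ^ k * Real.exp (-(y / 16)) / (k.factorial : ℝ)) := by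
  unfold Pk
  have h : (y / 16) ^ k = y ^ k * (1 / 16 : ℝ) ^ k := by
    rw [← mul_pow]; congr 1; ring
  rw [h, pow_succ]
  ring

/-- As `Th.Pk_lower`, with `√(k+1)` in place of `k+1`: `x = y/16 ∈ [k - 1/16, k + 17/16]`, `P_k(y) = e^{-x} x^k/(16 k!)`,
and `k! ≤ e √k (k/e)^k` (Stirling; Mathlib `Stirling`), `e^{-x} x^k ≥ c e^{-k} k^k`. -/
theorem Pk_lower : ∃ C : ℝ, 1 ≤ C ∧ ∀ (k : ℕ) (y₀ y : ℝ), 32 ≤ y₀ → (k : ℝ) ≤ y₀ / 16 → y₀ / 16 < k + 1 →
    |y - y₀| ≤ 1 → 1 ≤ C * Real.sqrt (k + 1) * Pk k y := by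
  refine ⟨16 * (16 / 15) * Real.exp 3, ?_, ?_⟩
  · have := Real.add_one_le_exp (3 : ℝ)
    linarith
  · intro k y₀ y h32 hk hk1 hy
    have hk2 : (1 : ℝ) < k := by linarith
    have hkn : 1 ≤ k := by
      have : 1 < k := by exact_mod_cast hk2
      omega
    have hk0 : (0 : ℝ) < k := by linarith
    rw [abs_le] at hy
    rw [PkBs_eq]
    set x : ℝ := y / 16 with hx
    have hx1 : (k : ℝ) - 1 / 16 ≤ x := by rw [hx]; linarith [hy.1]
    have hx2 : x ≤ k + 17 / 16 := by rw [hx]; linarith [hy.2]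
    have hx0 : 0 < x := by linarith
    -- Bernoulli
    have hB : (15 / 16 : ℝ) * (k : ℝ) ^ k ≤ x ^ k := by
      have hb := one_add_mul_le_pow (a := (x - k) / k) (by
        rw [le_div_iff₀ hk0]; linarith) k
      have e1 : (k : ℝ) * ((x - k) / k) = x - k := by field_simp
      have e2 : 1 + (x - k) / k = x / k := by field_simp; ring
      rw [e1, e2, div_pow, le_div_iff₀ (by positivity)] at hb
      have h3 : (15 / 16 : ℝ) ≤ 1 + (x - k) := by linarith
      have h4 : (0 : ℝ) ≤ (k : ℝ) ^ k := by positivity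
      nlinarith [mul_le_mul_of_nonneg_right h3 h4]
    have hE : Real.exp (-(2 : ℝ)) * Real.exp (-(k : ℝ)) ≤ Real.exp (-x) := by
      rw [← Real.exp_add]
      exact Real.exp_le_exp.2 (by linarith)
    have hF := PkBs_factorial_le k hkn
    have hs : Real.sqrt (k : ℝ) ≤ Real.sqrt (k + 1) := Real.sqrt_le_sqrt (by linarith)
    have hfac : (0 : ℝ) < (k.factorial : ℝ) := by exact_mod_cast Nat.factorial_pos k
    -- k! ≤ e (k+1) k^k e^{-k}
    have hF2 : (k.factorial : ℝ) ≤ Real.exp 1 * Real.sqrt (k + 1) * ((k : ℝ) ^ k * Real.exp (-(k : ℝ))) := by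
      have e3 : ((k : ℝ) / Real.exp 1) ^ k = (k : ℝ) ^ k * Real.exp (-(k : ℝ)) := by
        rw [div_pow, ← Real.exp_nat_mul, mul_one, Real.exp_neg, div_eq_mul_inv]
      rw [e3] at hF
      refine hF.trans ?_
      gcongr
    have key : (k.factorial : ℝ) ≤
        (16 / 15) * Real.exp 3 * Real.sqrt (k + 1) * (x ^ k * Real.exp (-x)) := by
      have h5 : (15 / 16 : ℝ) * (k : ℝ) ^ k * (Real.exp (-(2 : ℝ)) * Real.exp (-(k : ℝ))) ≤
          x ^ k * Real.exp (-x) := by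
        apply mul_le_mul hB hE (by positivity) (by positivity)
      have h6 : (16 / 15) * Real.exp 3 * Real.sqrt ((k : ℝ) + 1) *
          ((15 / 16 : ℝ) * (k : ℝ) ^ k * (Real.exp (-(2 : ℝ)) * Real.exp (-(k : ℝ)))) =
          Real.exp 1 * Real.sqrt (k + 1) * ((k : ℝ) ^ k * Real.exp (-(k : ℝ))) := by
        have e4 : Real.exp 3 * Real.exp (-(2 : ℝ)) = Real.exp 1 := by
          rw [← Real.exp_add]; norm_num
        rw [← e4]; ring
      calc (k.factorial : ℝ) ≤ _ := hF2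
        _ = _ := h6.symm
        _ ≤ _ := by gcongr
    have : 16 * (16 / 15) * Real.exp 3 * Real.sqrt ((k : ℝ) + 1) *
        (1 / 16 * (x ^ k * Real.exp (-x) / (k.factorial : ℝ))) =
        ((16 / 15) * Real.exp 3 * Real.sqrt (k + 1) * (x ^ k * Real.exp (-x))) / (k.factorial : ℝ) := by
      ring
    rw [this, le_div_iff₀ hfac, one_mul]
    exact key

end Pool.Agent.Lib.MP_629a14_nt.Lf
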