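import Pool.Agent.Lib.MP_629a14_nt.Th.Gs
import Pool.Agent.Lib.MP_629a14_nt.Th.Fin

/-! Preparations for the large sieve with primes. -/

set_option autoImplicit false

namespace Pool.Agent.Lib.MP_629a14_nt.Lf

open Finset Pool.Agent.Lib.MP_629a14_nt Pool.Agent.Lib.MP_629a14_nt.Th

private noncomputable def siftA_inv : ℕ →* ℝ where
  toFun n := (n : ℝ)⁻¹
  map_one' := by simp
  map_mul' := by intro m n; push_cast; rw [mul_inv]

private lemma siftA_fac (s : ℕ) (hs : s ≠ 0) (A : Finset ℕ)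
    (hA : ∀ k ∈ A, k ≠ 0 ∧ k.primeFactors ⊆ s.primeFactors) :
    ∑ k ∈ A, (k : ℝ)⁻¹ ≤ (s : ℝ) / s.totient := by
  classical
  have h1 : ∀ {p : ℕ}, p.Prime → ‖siftA_inv p‖ < 1 := by
    intro p hp
    have h2 : siftA_inv p = (p : ℝ)⁻¹ := rfl
    rw [h2, norm_inv, Real.norm_natCast]
    exact inv_lt_one_of_one_lt₀ (by exact_mod_cast hp.one_lt)
  have h := (EulerProduct.summable_and_hasSum_factoredNumbers_prod_filter_prime_geometric h1
    s.primeFactors).2
  have h2 : ∀ k ∈ A, k ∈ Nat.factoredNumbers s.primeFactors := fun k hk =>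
    Nat.mem_factoredNumbers_of_primeFactors_subset (hA k hk).1 (hA k hk).2
  have h3 : ∑ k ∈ A, (k : ℝ)⁻¹ = ∑ k ∈ A.subtype (· ∈ Nat.factoredNumbers s.primeFactors), siftA_inv k := by
    rw [Finset.sum_subtype_of_mem (fun k => siftA_inv k) h2]
    rfl
  rw [h3]
  refine (sum_le_hasSum _ (fun k _ => ?_) h).trans (le_of_eq ?_)
  · exact inv_nonneg.2 (Nat.cast_nonneg _)
  · have h4 : s.primeFactors.filter Nat.Prime = s.primeFactors :=
      Finset.filter_true_of_mem fun p hp => Nat.prime_of_mem_primeFactors hp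
    rw [h4, Finset.prod_inv_distrib]
    have h5 : (s.totient : ℝ) = s * ∏ p ∈ s.primeFactors, (1 - (p : ℝ)⁻¹) := by
      have := Nat.totient_eq_mul_prod_factors s
      have h6 : ((s.totient : ℚ) : ℝ) = ((s * ∏ p ∈ s.primeFactors, (1 - (p : ℚ)⁻¹) : ℚ) : ℝ) := by rw [this]
      push_cast at h6
      exact h6
    have h7 : (0 : ℝ) < s.totient := by exact_mod_cast Nat.totient_pos.2 (Nat.pos_of_ne_zero hs)
    have h8 : (0 : ℝ) < s := by exact_mod_cast Nat.pos_of_ne_zero hs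
    have h9 : ∏ p ∈ s.primeFactors, (1 - siftA_inv p) = (s.totient : ℝ) / s := by
      rw [h5, mul_div_cancel_left₀ _ h8.ne']
      rfl
    rw [h9, inv_div]

private noncomputable def siftA_F (q n : ℕ) : ℕ := ∏ p ∈ n.primeFactors.filter (fun p => ¬ p ∣ q), p

private lemma siftA_F_prime (q n p : ℕ) (hp : p ∈ n.primeFactors.filter (fun p => ¬ p ∣ q)) : p.Prime :=
  Nat.prime_of_mem_primeFactors (Finset.mem_filter.1 hp).1

private lemma siftA_F_fac (q n : ℕ) :
    (siftA_F q n).primeFactors = n.primeFactors.filter (fun p => ¬ p ∣ q) :=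
  Nat.primeFactors_prod (siftA_F_prime q n)

private lemma siftA_F_dvd (q n : ℕ) : siftA_F q n ∣ n :=
  (Finset.prod_dvd_prod_of_subset _ _ _ (Finset.filter_subset _ _)).trans (Nat.prod_primeFactors_dvd n)

private lemma siftA_F_sqf (q n : ℕ) : Squarefree (siftA_F q n) := by
  refine Finset.squarefree_prod_of_pairwise_isCoprime ?_ ?_
  · intro p hp p' hp' hne
    exact Nat.coprime_iff_isRelPrime.1 ((Nat.coprime_primes (siftA_F_prime q n p hp) (siftA_F_prime q n p' hp')).2 hne)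
  · intro p hp
    exact (siftA_F_prime q n p hp).squarefree

private lemma siftA_F_cop (q n : ℕ) : (siftA_F q n).Coprime q := by
  refine Nat.Coprime.prod_left fun p hp => ?_
  exact (Nat.Prime.coprime_iff_not_dvd (siftA_F_prime q n p hp)).2 (Finset.mem_filter.1 hp).2

/-- Proof. `∑_{f ≤ z} μ²(f)/φ(f) = ∑_{d ∣ q} (μ²(d)/φ(d)) ∑_{f ≤ z/d, (f,q)=1} μ²(f)/φ(f) ≤ (q/φ(q)) ∑_{f ≤ z, (f,q)=1} μ²(f)/φ(f)`,
and `∑_{f ≤ z} μ²(f)/φ(f) ≥ ∑_{n ≤ z} 1/n ≥ log z` (`1/φ(f) = ∑ 1/n` over the `n` with squarefree kernel `f`). -/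
theorem sum_phi (q z : ℕ) (hq : 1 ≤ q) (hz : 1 ≤ z) :
    (q.totient : ℝ) / q * Real.log z ≤
      ∑ f ∈ (Icc 1 z).filter (fun f => f.Coprime q ∧ Squarefree f), 1 / (f.totient : ℝ) := by
  classical
  set Fs := (Icc 1 z).filter (fun f => f.Coprime q ∧ Squarefree f) with hFs
  have hq0 : q ≠ 0 := by omega
  have hqφ : (0 : ℝ) < q.totient := by exact_mod_cast Nat.totient_pos.2 (by omega)
  have hqR : (0 : ℝ) < q := by exact_mod_cast hq
  have hmaps : ∀ n ∈ Icc 1 z, siftA_F q n ∈ Fs := by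
    intro n hn
    rw [Finset.mem_Icc] at hn
    refine Finset.mem_filter.2 ⟨Finset.mem_Icc.2 ⟨?_, ?_⟩, siftA_F_cop q n, siftA_F_sqf q n⟩
    · exact Nat.pos_of_ne_zero fun h => by
        have := siftA_F_sqf q n
        rw [h] at this
        exact not_squarefree_zero this
    · exact (Nat.le_of_dvd (by omega) (siftA_F_dvd q n)).trans hn.2
  have hlog : Real.log z ≤ ∑ n ∈ Icc 1 z, (n : ℝ)⁻¹ := by
    have h1 := log_add_one_le_harmonic z
    rw [harmonic_eq_sum_Icc] at h1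
    push_cast at h1
    refine le_trans (Real.log_le_log (by exact_mod_cast hz) ?_) h1
    linarith
  have hsum : ∑ n ∈ Icc 1 z, (n : ℝ)⁻¹ ≤ (q : ℝ) / q.totient * ∑ f ∈ Fs, 1 / (f.totient : ℝ) := by
    rw [← Finset.sum_fiberwise_of_maps_to hmaps, Finset.mul_sum]
    refine Finset.sum_le_sum fun f hf => ?_
    obtain ⟨hf1, hf2, hf3⟩ := Finset.mem_filter.1 hf
    rw [Finset.mem_Icc] at hf1
    have hf0 : f ≠ 0 := by omega
    have hfR : (0 : ℝ) < f := by exact_mod_cast hf1.1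
    have hfφ : (0 : ℝ) < f.totient := by exact_mod_cast Nat.totient_pos.2 (by omega)
    set A := (Icc 1 z).filter (fun n => siftA_F q n = f) with hA
    have hAd : ∀ n ∈ A, f ∣ n := by
      intro n hn
      rw [← (Finset.mem_filter.1 hn).2]
      exact siftA_F_dvd q n
    have h1 : ∑ n ∈ A, (n : ℝ)⁻¹ = (f : ℝ)⁻¹ * ∑ k ∈ A.image (fun n => n / f), (k : ℝ)⁻¹ := by
      rw [Finset.sum_image, Finset.mul_sum]
      · refine Finset.sum_congr rfl fun n hn => ?_
        obtain ⟨k, rfl⟩ := hAd n hn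
        rw [Nat.mul_div_cancel_left _ (by omega)]
        push_cast
        rw [mul_inv]
      · intro n hn n' hn' h
        obtain ⟨k, rfl⟩ := hAd n hn
        obtain ⟨k', rfl⟩ := hAd n' hn'
        simp only [Nat.mul_div_cancel_left _ (show 0 < f by omega)] at h
        rw [h]
    have h2 : ∑ k ∈ A.image (fun n => n / f), (k : ℝ)⁻¹ ≤ ((q * f : ℕ) : ℝ) / (q * f).totient := by
      refine siftA_fac (q * f) (Nat.mul_ne_zero hq0 hf0) _ fun k hk => ?_
      obtain ⟨n, hn, rfl⟩ := Finset.mem_image.1 hk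
      obtain ⟨hn1, hn2⟩ := Finset.mem_filter.1 hn
      rw [Finset.mem_Icc] at hn1
      have hn0 : n ≠ 0 := by omega
      have hnf : f ∣ n := hAd n hn
      have h3 : n / f ≠ 0 := (Nat.div_pos (Nat.le_of_dvd (by omega) hnf) (by omega)).ne'
      refine ⟨h3, fun p hp => ?_⟩
      have hpp := Nat.prime_of_mem_primeFactors hp
      have hpn : p ∣ n := (Nat.dvd_of_mem_primeFactors hp).trans (Nat.div_dvd_of_dvd hnf)
      rw [Nat.mem_primeFactors_of_ne_zero (Nat.mul_ne_zero hq0 hf0)]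
      refine ⟨hpp, ?_⟩
      by_cases hpq : p ∣ q
      · exact hpq.mul_right f
      · refine Dvd.dvd.mul_left ?_ q
        rw [← hn2]
        refine Nat.dvd_of_mem_primeFactors ?_
        rw [siftA_F_fac]
        exact Finset.mem_filter.2 ⟨(Nat.mem_primeFactors_of_ne_zero hn0).2 ⟨hpp, hpn⟩, hpq⟩
    rw [h1]
    calc (f : ℝ)⁻¹ * ∑ k ∈ A.image (fun n => n / f), (k : ℝ)⁻¹
        ≤ (f : ℝ)⁻¹ * (((q * f : ℕ) : ℝ) / (q * f).totient) := mul_le_mul_of_nonneg_left h2 (by positivity)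
      _ = (q : ℝ) / q.totient * (1 / (f.totient : ℝ)) := by
        rw [Nat.totient_mul hf2.symm]
        push_cast
        field_simp
  calc (q.totient : ℝ) / q * Real.log z
      ≤ (q.totient : ℝ) / q * ((q : ℝ) / q.totient * ∑ f ∈ Fs, 1 / (f.totient : ℝ)) :=
        mul_le_mul_of_nonneg_left (hlog.trans hsum) (by positivity)
    _ = _ := by field_simp

private lemma siftA_gs_unit (q : ℕ) [NeZero q] (χ : DirichletCharacter ℂ q) (k : ℤ)
    (hk : IsUnit (k : ZMod q)) : gs χ k = χ⁻¹ (k : ZMod q) * gs χ 1 := by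
  rw [gs_eq_gaussSum, gs_eq_gaussSum]
  obtain ⟨u, hu⟩ := hk
  rw [← hu, gaussSum_mulShift_eq]
  simp

private lemma siftA_inv_norm (q : ℕ) [NeZero q] (χ : DirichletCharacter ℂ q) : ‖gs χ⁻¹ 1‖ = ‖gs χ 1‖ := by
  have h1 : gs χ⁻¹ 1 = star (gs χ (-1)) := by
    rw [gs_eq_gaussSum, gs_eq_gaussSum, star_gaussSum_eq]
    congr 1
    ext x
    simp [AddChar.inv_apply, AddChar.mulShift_apply]
  have h2 := siftA_gs_unit q χ (-1) (by push_cast; exact isUnit_one.neg)
  rw [h1, norm_star, h2, norm_mul]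
  have h3 : ‖χ⁻¹ ((-1 : ℤ) : ZMod q)‖ = 1 := by
    have h4 : IsUnit ((-1 : ℤ) : ZMod q) := by push_cast; exact isUnit_one.neg
    obtain ⟨u, hu⟩ := h4
    rw [← hu]
    exact DirichletCharacter.unit_norm_eq_one _ u
  rw [h3, one_mul]

private lemma siftA_orth (q : ℕ) [NeZero q] (F : ℕ → ℂ) :
    ∑ χ : DirichletCharacter ℂ q, ‖∑ b ∈ (range q).filter (fun b => b.Coprime q), χ (b : ZMod q) * F b‖ ^ 2 =
      (q.totient : ℝ) * ∑ b ∈ (range q).filter (fun b => b.Coprime q), ‖F b‖ ^ 2 := by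
  set U := (range q).filter (fun b => b.Coprime q) with hU
  have hunit : ∀ b ∈ U, IsUnit (b : ZMod q) := fun b hb =>
    (ZMod.isUnit_iff_coprime b q).2 (Finset.mem_filter.1 hb).2
  have h1 : ∀ χ : DirichletCharacter ℂ q, ((‖∑ b ∈ U, χ (b : ZMod q) * F b‖ ^ 2 : ℝ) : ℂ) =
      ∑ c ∈ U, ∑ b ∈ U, (star (F c) * F b) * (χ ((c : ZMod q)⁻¹) * χ (b : ZMod q)) := by
    intro χ
    have e1 : ((‖∑ b ∈ U, χ (b : ZMod q) * F b‖ ^ 2 : ℝ) : ℂ) =
        star (∑ c ∈ U, χ (c : ZMod q) * F c) * ∑ b ∈ U, χ (b : ZMod q) * F b := by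
      rw [← Complex.normSq_eq_norm_sq]
      exact Complex.normSq_eq_conj_mul_self
    rw [e1, star_sum, Finset.sum_mul_sum]
    refine Finset.sum_congr rfl fun c hc => Finset.sum_congr rfl fun b _ => ?_
    have e2 : star (χ (c : ZMod q)) = χ ((c : ZMod q)⁻¹) := by
      rw [MulChar.star_apply', MulChar.inv_apply]
      congr 1
      obtain ⟨u, hu⟩ := hunit c hc
      rw [← hu, Ring.inverse_unit, ZMod.inv_coe_unit]
    rw [star_mul', e2]
    ring
  have h2 : ((∑ χ : DirichletCharacter ℂ q, ‖∑ b ∈ U, χ (b : ZMod q) * F b‖ ^ 2 : ℝ) : ℂ) =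
      (((q.totient : ℝ) * ∑ b ∈ U, ‖F b‖ ^ 2 : ℝ) : ℂ) := by
    rw [Complex.ofReal_sum]
    simp_rw [h1]
    rw [Finset.sum_comm]
    push_cast
    rw [Finset.mul_sum]
    refine Finset.sum_congr rfl fun c hc => ?_
    rw [Finset.sum_comm]
    simp_rw [← Finset.mul_sum]
    rw [Finset.sum_eq_single_of_mem c hc]
    · rw [DirichletCharacter.sum_char_inv_mul_char_eq ℂ (hunit c hc), if_pos rfl]
      have e3 : ((‖F c‖ : ℂ)) ^ 2 = star (F c) * F c := by
        rw [← Complex.ofReal_pow, ← Complex.normSq_eq_norm_sq]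
        exact Complex.normSq_eq_conj_mul_self
      rw [e3]; ring
    · intro b hb hne
      rw [DirichletCharacter.sum_char_inv_mul_char_eq ℂ (hunit c hc), if_neg, mul_zero]
      intro h
      rw [ZMod.natCast_eq_natCast_iff'] at h
      have hb2 := Finset.mem_range.1 (Finset.mem_filter.1 hb).1
      have hc2 := Finset.mem_range.1 (Finset.mem_filter.1 hc).1
      rw [Nat.mod_eq_of_lt hb2, Nat.mod_eq_of_lt hc2] at h
      exact hne h.symm
  exact_mod_cast h2

/-- Proof. `∑_{b} ‖S(b/q)‖² = φ(q)⁻¹ ∑_χ ‖∑_b χ(b)⁻¹ S(b/q)‖²` (orthogonality of the characters on `(ℤ/q)ˣ`) and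
`∑_b χ⁻¹(b) e(nb/q) = χ(n) gs(χ⁻¹, 1)` for `n` coprime to `q`; replace `χ` by `χ⁻¹` in `‖gs χ⁻¹ 1‖ = ‖gs χ 1‖`. -/
theorem ls_char (q A B : ℕ) [NeZero q] (a : ℕ → ℂ) (ha : ∀ n, a n ≠ 0 → n.Coprime q) :
    ∑ b ∈ (range q).filter (fun b => b.Coprime q), ‖∑ n ∈ Ioc A B, a n * ee (n * b / q)‖ ^ 2 =
      (q.totient : ℝ)⁻¹ * ∑ χ : DirichletCharacter ℂ q, ‖gs χ 1‖ ^ 2 * ‖∑ n ∈ Ioc A B, a n * χ (n : ZMod q)‖ ^ 2 := by
  have hφ : (0 : ℝ) < q.totient := by exact_mod_cast Nat.totient_pos.2 (Nat.pos_of_ne_zero (NeZero.ne q))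
  have h := siftA_orth q (fun b => ∑ n ∈ Ioc A B, a n * ee (n * b / q))
  have h1 : ∀ χ : DirichletCharacter ℂ q, ∑ b ∈ (range q).filter (fun b => b.Coprime q),
      χ (b : ZMod q) * ∑ n ∈ Ioc A B, a n * ee (n * b / q) =
      gs χ 1 * ∑ n ∈ Ioc A B, a n * χ⁻¹ (n : ZMod q) := by
    intro χ
    simp_rw [Finset.mul_sum]
    rw [Finset.sum_comm]
    refine Finset.sum_congr rfl fun n _ => ?_
    by_cases h0 : a n = 0
    · simp [h0]
    have hn : IsUnit ((n : ℤ) : ZMod q) := by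
      rw [Int.cast_natCast]
      exact (ZMod.isUnit_iff_coprime n q).2 (ha n h0)
    have h2 := siftA_gs_unit q χ n hn
    rw [Int.cast_natCast] at h2
    calc _ = a n * gs χ n := by
          rw [gs, Finset.mul_sum]
          refine Finset.sum_congr rfl fun b _ => ?_
          rw [Int.cast_natCast, mul_comm (b : ℝ) n]
          ring
      _ = _ := by rw [h2]; ring
  have h3 : ∑ χ : DirichletCharacter ℂ q, ‖gs χ 1‖ ^ 2 * ‖∑ n ∈ Ioc A B, a n * χ (n : ZMod q)‖ ^ 2 =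
      ∑ χ : DirichletCharacter ℂ q, ‖∑ b ∈ (range q).filter (fun b => b.Coprime q),
      χ (b : ZMod q) * ∑ n ∈ Ioc A B, a n * ee (n * b / q)‖ ^ 2 := by
    rw [← Equiv.sum_comp (Equiv.inv (DirichletCharacter ℂ q))]
    refine Finset.sum_congr rfl fun χ _ => ?_
    rw [h1, norm_mul, mul_pow]
    simp only [Equiv.inv_apply]
    rw [siftA_inv_norm]
  rw [h3, h, ← mul_assoc, inv_mul_cancel₀ hφ.ne', one_mul]

private lemma siftA_conj (q : ℕ) [NeZero q] (x : ZMod q) :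
    (starRingEnd ℂ) (ZMod.stdAddChar x) = ZMod.stdAddChar (-x) := by
  rw [ZMod.stdAddChar_apply, ZMod.stdAddChar_apply, AddChar.map_neg_eq_inv, Circle.coe_inv_eq_conj]

private lemma siftA_normsq0 (q : ℕ) [NeZero q] (χ : DirichletCharacter ℂ q) (h : χ.IsPrimitive) :
    gaussSum χ ZMod.stdAddChar * (starRingEnd ℂ) (gaussSum χ ZMod.stdAddChar) = q := by
  have h1 : (starRingEnd ℂ) (gaussSum χ ZMod.stdAddChar) =
      ∑ b : ZMod q, χ⁻¹ b * ZMod.stdAddChar (-b) := by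
    rw [gaussSum, map_sum]
    refine Finset.sum_congr rfl (fun b _ => ?_)
    rw [map_mul, siftA_conj]
    congr 1
    have := MulChar.star_apply' χ b
    exact this
  rw [h1, Finset.mul_sum]
  have h2 : ∀ b : ZMod q, gaussSum χ ZMod.stdAddChar * (χ⁻¹ b * ZMod.stdAddChar (-b)) =
      ∑ a : ZMod q, χ a * ZMod.stdAddChar ((a - 1) * b) := by
    intro b
    have h3 := gaussSum_mulShift_of_isPrimitive (e := ZMod.stdAddChar) h b
    rw [← mul_assoc, mul_comm (gaussSum χ ZMod.stdAddChar), ← h3, gaussSum, Finset.sum_mul]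
    refine Finset.sum_congr rfl (fun a _ => ?_)
    rw [AddChar.mulShift_apply, mul_assoc, ← AddChar.map_add_eq_mul]
    congr 2
    ring
  rw [Finset.sum_congr rfl (fun b _ => h2 b), Finset.sum_comm]
  have h4 : ∀ a : ZMod q, ∑ b : ZMod q, χ a * ZMod.stdAddChar ((a - 1) * b) =
      if a = 1 then (q : ℂ) else 0 := by
    intro a
    rw [← Finset.mul_sum]
    by_cases ha : a = 1
    · subst ha
      simp
    · rw [if_neg ha]
      have h5 : (ZMod.stdAddChar (N := q)).mulShift (a - 1) ≠ 1 :=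
        ZMod.isPrimitive_stdAddChar q (sub_ne_zero.mpr ha)
      have h6 := AddChar.sum_eq_zero_of_ne_one h5
      simp only [AddChar.mulShift_apply] at h6
      rw [h6, mul_zero]
  rw [Finset.sum_congr rfl (fun a _ => h4 a), Finset.sum_ite_eq' Finset.univ (1 : ZMod q)]
  simp

private lemma siftA_norm_sq (q : ℕ) [NeZero q] (χ : DirichletCharacter ℂ q) (h : χ.IsPrimitive) :
    ‖gs χ 1‖ ^ 2 = q := by
  have h2 := siftA_normsq0 q χ h
  rw [Complex.mul_conj] at h2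
  have h3 : Complex.normSq (gaussSum χ ZMod.stdAddChar) = (q : ℝ) := by exact_mod_cast h2
  rw [Complex.normSq_eq_norm_sq] at h3
  rw [gs_eq_gaussSum, ← h3]
  simp

/-- `‖τ(ψ)‖² = r` for a primitive character modulo `r`, and `gs_induced`. -/
theorem norm_gs_one_eq (q : ℕ) [NeZero q] (χ : DirichletCharacter ℂ q) (h1 : Squarefree (q / χ.conductor))
    (h2 : (q / χ.conductor).Coprime χ.conductor) : ‖gs χ 1‖ ^ 2 = χ.conductor := by
  have : NeZero χ.conductor := ⟨DirichletCharacter.conductor_ne_zero χ⟩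
  rw [gs_induced, norm_mul, norm_mul, mul_pow, mul_pow,
    siftA_norm_sq χ.conductor χ.primitiveCharacter χ.primitiveCharacter_isPrimitive]
  have h3 : ‖((ArithmeticFunction.moebius (q / χ.conductor) : ℤ) : ℂ)‖ = 1 := by
    rw [Complex.norm_intCast, ← Int.cast_abs, ArithmeticFunction.abs_moebius_eq_one_of_squarefree h1]
    simp
  have h4 : ‖χ.primitiveCharacter ((q / χ.conductor : ℕ) : ZMod χ.conductor)‖ = 1 := by
    obtain ⟨u, hu⟩ := (ZMod.isUnit_iff_coprime _ _).2 h2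
    rw [← hu]
    exact DirichletCharacter.unit_norm_eq_one _ u
  rw [h3, h4]
  simp

end Pool.Agent.Lib.MP_629a14_nt.Lf
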