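import Pool.Agent.Lib.MP_629a14_nt.Lf.SiftA
import Pool.Agent.Lib.MP_629a14_nt.Th.MulLS

/-! The large sieve with primes (Bombieri, Davenport). -/

set_option autoImplicit false

namespace Pool.Agent.Lib.MP_629a14_nt.Lf

open Finset Pool.Agent.Lib.MP_629a14_nt Pool.Agent.Lib.MP_629a14_nt.Th

/-- All characters modulo `q` (the empty set for `q = 0`). -/
private noncomputable def SiftLS_all (q : ℕ) : Finset (DirichletCharacter ℂ q) :=
  if h : q = 0 then ∅ else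
    haveI : NeZero q := ⟨h⟩
    (univ : Finset (DirichletCharacter ℂ q))

private noncomputable def SiftLS_G (A B : ℕ) (a : ℕ → ℂ) (y : CH) : ℝ :=
  (y.1.totient : ℝ)⁻¹ * (‖gs y.2 1‖ ^ 2 * ‖∑ n ∈ Ioc A B, a n * y.2 (n : ZMod y.1)‖ ^ 2)

private noncomputable def SiftLS_phi (p : Σ _ : CH, ℕ) : CH :=
  ⟨p.1.1 * p.2, DirichletCharacter.changeLevel (dvd_mul_right p.1.1 p.2) p.1.2⟩

private noncomputable def SiftLS_s (Q : ℕ) : Finset (Σ _ : CH, ℕ) :=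
  (prims Q).sigma (fun x => (Icc 1 (Q ^ 2 / x.1)).filter (fun f => f.Coprime x.1 ∧ Squarefree f))

private theorem SiftLS_mem (Q : ℕ) (r f : ℕ) (ψ : DirichletCharacter ℂ r)
    (h : (⟨⟨r, ψ⟩, f⟩ : Σ _ : CH, ℕ) ∈ SiftLS_s Q) :
    1 ≤ r ∧ r ≤ Q ∧ ψ.IsPrimitive ∧ 1 ≤ f ∧ r * f ≤ Q ^ 2 ∧ f.Coprime r ∧ Squarefree f := by
  unfold SiftLS_s at h
  rw [mem_sigma, mem_prims, mem_filter, mem_Icc] at h
  obtain ⟨⟨h1, h2, h3⟩, ⟨h4, h5⟩, h6, h7⟩ := h
  simp only at h1 h2 h3 h4 h5 h6 h7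
  refine ⟨h1, h2, h3, h4, ?_, h6, h7⟩
  rw [Nat.le_div_iff_mul_le (by omega)] at h5
  rw [mul_comm]
  exact h5

private theorem SiftLS_inj (Q : ℕ) : Set.InjOn SiftLS_phi (SiftLS_s Q : Set (Σ _ : CH, ℕ)) := by
  rintro ⟨⟨r, ψ⟩, f⟩ h ⟨⟨r', ψ'⟩, f'⟩ h' he
  obtain ⟨h1, h2, h3, h4, h5, h6, h7⟩ := SiftLS_mem Q r f ψ (mem_coe.1 h)
  obtain ⟨g1, g2, g3, g4, g5, g6, g7⟩ := SiftLS_mem Q r' f' ψ' (mem_coe.1 h')
  have : NeZero (r * f) := ⟨Nat.mul_ne_zero (by omega) (by omega)⟩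
  have : NeZero (r' * f') := ⟨Nat.mul_ne_zero (by omega) (by omega)⟩
  unfold SiftLS_phi at he
  simp only at he
  have e1 : r = r' := by
    have e2 := congrArg (fun y : CH => y.2.conductor) he
    simp only [DirichletCharacter.conductor_changeLevel] at e2
    rw [(DirichletCharacter.isPrimitive_def ψ).1 h3, (DirichletCharacter.isPrimitive_def ψ').1 g3]
      at e2
    exact e2
  subst e1
  have e3 : f = f' := by
    have e4 := congrArg (fun y : CH => y.1) he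
    simp only at e4
    exact Nat.eq_of_mul_eq_mul_left (by omega) e4
  subst e3
  have e5 := sigma_mk_injective he
  have e6 := DirichletCharacter.changeLevel_injective (dvd_mul_right r f) e5
  rw [e6]

private theorem SiftLS_val (Q A B : ℕ) (a : ℕ → ℂ) (ha : ∀ n, a n ≠ 0 → n.Prime ∧ Q ^ 2 < n)
    (r f : ℕ) (ψ : DirichletCharacter ℂ r) (h : (⟨⟨r, ψ⟩, f⟩ : Σ _ : CH, ℕ) ∈ SiftLS_s Q) :
    SiftLS_G A B a (SiftLS_phi ⟨⟨r, ψ⟩, f⟩) =
      ‖∑ n ∈ Ioc A B, a n * ψ (n : ZMod r)‖ ^ 2 * ((r : ℝ) / r.totient) * (1 / (f.totient : ℝ)) := by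
  obtain ⟨h1, h2, h3, h4, h5, h6, h7⟩ := SiftLS_mem Q r f ψ h
  have hne : NeZero (r * f) := ⟨Nat.mul_ne_zero (by omega) (by omega)⟩
  have hc : (DirichletCharacter.changeLevel (dvd_mul_right r f) ψ).conductor = r := by
    rw [DirichletCharacter.conductor_changeLevel]
    exact (DirichletCharacter.isPrimitive_def ψ).1 h3
  have hq : r * f / r = f := Nat.mul_div_cancel_left f (by omega)
  have hg : ‖gs (DirichletCharacter.changeLevel (dvd_mul_right r f) ψ) 1‖ ^ 2 = r := by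
    rw [norm_gs_one_eq (r * f) _ (by rw [hc, hq]; exact h7) (by rw [hc, hq]; exact h6), hc]
  have hs : ∑ n ∈ Ioc A B, a n * (DirichletCharacter.changeLevel (dvd_mul_right r f) ψ)
      (n : ZMod (r * f)) = ∑ n ∈ Ioc A B, a n * ψ (n : ZMod r) := by
    refine sum_congr rfl fun n _ => ?_
    by_cases hn : a n = 0
    · rw [hn, zero_mul, zero_mul]
    · obtain ⟨hp, hlt⟩ := ha n hn
      have hcop : n.Coprime (r * f) := by
        rw [hp.coprime_iff_not_dvd]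
        intro hd
        have := Nat.le_of_dvd (Nat.pos_of_ne_zero hne.ne) hd
        omega
      have hz : IsCoprime (n : ℤ) ((r * f : ℕ) : ℤ) := Nat.isCoprime_iff_coprime.2 hcop
      have := DirichletCharacter.changeLevel_eq_cast_of_dvd' ψ (dvd_mul_right r f) hz
      rw [Int.cast_natCast, Int.cast_natCast] at this
      rw [this]
  unfold SiftLS_G SiftLS_phi
  simp only
  rw [hg, hs, Nat.totient_mul h6.symm]
  push_cast
  have p1 : (r.totient : ℝ) ≠ 0 := by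
    have := Nat.totient_pos.2 (show 0 < r by omega)
    positivity
  have p2 : (f.totient : ℝ) ≠ 0 := by
    have := Nat.totient_pos.2 (show 0 < f by omega)
    positivity
  field_simp

/-- Proof. `add_ls` with `Q²` in place of `Q`, and `ls_char` for every `q ≤ Q²` (the `n` with `a n ≠ 0` are primes
`> Q² ≥ q`). Keep only the `q = r f` with `r ≤ Q`, `f ≤ Q²/r` squarefree and coprime to `r`, and the characters
modulo `q` induced by primitive characters `ψ` modulo `r`: these pairs are different for different `(ψ, f)`,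
`‖gs χ 1‖² = r` (`norm_gs_one_eq`), `χ(n) = ψ(n)` for the `n` in question. So the left side of `add_ls` is at least
`∑_{r ≤ Q} ∑_ψ ‖∑ a ψ‖² (r/φ(r)) ∑_f 1/φ(f) ≥ ∑_r ∑_ψ ‖∑ a ψ‖² log ⌊Q²/r⌋` (`sum_phi`), `⌊Q²/r⌋ ≥ Q`. -/
theorem sift_ls : ∃ C : ℝ, 1 ≤ C ∧ ∀ (Q A B : ℕ) (a : ℕ → ℂ), 2 ≤ Q → A ≤ B →
    (∀ n, a n ≠ 0 → n.Prime ∧ Q ^ 2 < n) →
    Real.log Q * ∑ x ∈ prims Q, ‖∑ n ∈ Ioc A B, a n * x.2 (n : ZMod x.1)‖ ^ 2 ≤
      C * (((B : ℝ) - A) + (Q : ℝ) ^ 4) * ∑ n ∈ Ioc A B, ‖a n‖ ^ 2 := by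
  classical
  obtain ⟨C, hC, hls⟩ := add_ls
  refine ⟨C, hC, fun Q A B a hQ hAB ha => ?_⟩
  have h1 := hls (Q ^ 2) A B a hAB
  have h2 : (((Q ^ 2 : ℕ) : ℝ)) ^ 2 = (Q : ℝ) ^ 4 := by
    push_cast
    ring
  rw [h2] at h1
  refine le_trans ?_ h1
  -- the left side of the additive large sieve
  have h3 : ∑ q ∈ Icc 1 (Q ^ 2), ∑ b ∈ (range q).filter (fun b => b.Coprime q),
      ‖∑ n ∈ Ioc A B, a n * ee (n * b / q)‖ ^ 2 =
      ∑ y ∈ (Icc 1 (Q ^ 2)).sigma SiftLS_all, SiftLS_G A B a y := by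
    rw [sum_sigma]
    refine sum_congr rfl fun q hq => ?_
    rw [mem_Icc] at hq
    have hne : NeZero q := ⟨by omega⟩
    rw [ls_char q A B a (fun n hn => by
      obtain ⟨hp, hlt⟩ := ha n hn
      rw [hp.coprime_iff_not_dvd]
      intro hd
      have := Nat.le_of_dvd (by omega) hd
      omega)]
    unfold SiftLS_all
    rw [dif_neg (NeZero.ne q), mul_sum]
    rfl
  rw [h3]
  -- the subsum
  have h4 : (SiftLS_s Q).image SiftLS_phi ⊆ (Icc 1 (Q ^ 2)).sigma SiftLS_all := by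
    intro y hy
    rw [mem_image] at hy
    obtain ⟨⟨⟨r, ψ⟩, f⟩, hp, rfl⟩ := hy
    obtain ⟨h1, h2, h3, h4, h5, h6, h7⟩ := SiftLS_mem Q r f ψ hp
    have hpos : 1 ≤ r * f := Nat.mul_pos h1 h4
    rw [mem_sigma]
    refine ⟨mem_Icc.2 ⟨hpos, h5⟩, ?_⟩
    unfold SiftLS_all SiftLS_phi
    simp only
    rw [dif_neg (by omega)]
    exact mem_univ _
  have h5 : ∑ y ∈ (SiftLS_s Q).image SiftLS_phi, SiftLS_G A B a y ≤
      ∑ y ∈ (Icc 1 (Q ^ 2)).sigma SiftLS_all, SiftLS_G A B a y := by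
    refine sum_le_sum_of_subset_of_nonneg h4 fun y _ _ => ?_
    unfold SiftLS_G
    positivity
  refine le_trans ?_ h5
  rw [sum_image (SiftLS_inj Q)]
  unfold SiftLS_s
  rw [sum_sigma, mul_sum]
  refine sum_le_sum fun x hx => ?_
  obtain ⟨r, ψ⟩ := x
  obtain ⟨hr1, hr2, hr3⟩ := (mem_prims Q _).1 hx
  simp only at hr1 hr2 hr3 ⊢
  have h6 : ∀ f ∈ (Icc 1 (Q ^ 2 / r)).filter (fun f => f.Coprime r ∧ Squarefree f),
      SiftLS_G A B a (SiftLS_phi ⟨⟨r, ψ⟩, f⟩) =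
      ‖∑ n ∈ Ioc A B, a n * ψ (n : ZMod r)‖ ^ 2 * ((r : ℝ) / r.totient) *
        (1 / (f.totient : ℝ)) := by
    intro f hf
    refine SiftLS_val Q A B a ha r f ψ ?_
    unfold SiftLS_s
    rw [mem_sigma]
    exact ⟨hx, hf⟩
  rw [sum_congr rfl h6, ← mul_sum]
  have hz : Q ≤ Q ^ 2 / r := by
    rw [Nat.le_div_iff_mul_le (by omega), sq]
    exact Nat.mul_le_mul_left Q hr2
  have h7 := sum_phi r (Q ^ 2 / r) hr1 (by omega)
  have hlog : Real.log Q ≤ Real.log ((Q ^ 2 / r : ℕ) : ℝ) := by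
    refine Real.log_le_log (by exact_mod_cast (by omega : 0 < Q)) ?_
    exact_mod_cast hz
  have hphi : (0 : ℝ) < r.totient := by
    exact_mod_cast Nat.totient_pos.2 (show 0 < r by omega)
  have hr0 : (0 : ℝ) < r := by exact_mod_cast (show 0 < r by omega)
  have h8 : (r.totient : ℝ) / r * Real.log Q ≤
      ∑ f ∈ (Icc 1 (Q ^ 2 / r)).filter (fun f => f.Coprime r ∧ Squarefree f),
        1 / (f.totient : ℝ) :=
    le_trans (mul_le_mul_of_nonneg_left hlog (by positivity)) h7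
  have hN : 0 ≤ ‖∑ n ∈ Ioc A B, a n * ψ (n : ZMod r)‖ ^ 2 := by positivity
  calc Real.log Q * ‖∑ n ∈ Ioc A B, a n * ψ (n : ZMod r)‖ ^ 2 =
      ‖∑ n ∈ Ioc A B, a n * ψ (n : ZMod r)‖ ^ 2 * ((r : ℝ) / r.totient) *
        ((r.totient : ℝ) / r * Real.log Q) := by
        field_simp
    _ ≤ _ := mul_le_mul_of_nonneg_left h8 (by positivity)

end Pool.Agent.Lib.MP_629a14_nt.Lf
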