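import Pool.Agent.Lib.MP_629a14_nt.Lf.Dens
import Pool.Agent.Lib.MP_629a14_nt.Th.SumZ

/-! The sum over zeros, for `P` a small power of `N`. -/

set_option autoImplicit false

namespace Pool.Agent.Lib.MP_629a14_nt.Lf

open Finset Pool.Agent.Lib.MP_629a14_nt.Th

private lemma SumZ_mem (P : ℕ) (x : CH) (hx : x ∈ prims P) (h1 : x ≠ ch1) (σ T : ℝ) (ρ : ℂ) :
    ρ ∈ ZF (LL x) σ T ↔ LL x ρ = 0 ∧ σ ≤ ρ.re ∧ |ρ.im| ≤ T := by
  have h2 := prims_ne_one P x hx h1
  have h3 := ((mem_prims P x).1 hx).1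
  obtain ⟨q, χ⟩ := x
  simp only at h2 h3
  have : NeZero q := ⟨by omega⟩
  rw [LL_mk]
  exact mem_ZF_chi q χ h2 σ T ρ

private lemma SumZ_cpow (N : ℕ) (hN : 1 ≤ N) (r : ℝ) :
    (N : ℝ) ^ (-((1 - r) / 8)) = Real.exp (-(Real.log N / 8 * (1 - r))) := by
  have hNpos : (0 : ℝ) < N := by exact_mod_cast hN
  rw [Real.rpow_def_of_pos hNpos]
  congr 1
  ring

private lemma SumZ_key {ι : Type*} (S : Finset ι) (m x : ι → ℝ) (C lP l η r₀ ε M : ℝ)
    (hm : ∀ i ∈ S, 0 ≤ m i) (hx : ∀ i ∈ S, η ≤ x i) (hη : 0 ≤ η) (hηr : η ≤ r₀) (hC : 0 ≤ C)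
    (hlP : 0 ≤ lP) (hl : 0 < l) (hCl : C * lP ≤ l / 2)
    (hcount : ∀ y : ℝ, η ≤ y → y ≤ r₀ →
      ∑ i ∈ S.filter (fun i => x i ≤ y), m i ≤ C * Real.exp (C * y * lP))
    (hM : ∑ i ∈ S, m i ≤ M) (h1 : 2 * C * Real.exp (-(l * η / 2)) ≤ ε / 2)
    (h2 : M * Real.exp (-(l * r₀)) ≤ ε / 2) :
    ∑ i ∈ S, m i * Real.exp (-(l * x i)) ≤ ε := by
  classical
  rw [← Finset.sum_filter_add_sum_filter_not S (fun i => x i ≤ r₀)]
  have hA : ∑ i ∈ S.filter (fun i => x i ≤ r₀), m i * Real.exp (-(l * x i)) ≤ ε / 2 := by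
    refine (sum_abs (S.filter (fun i => x i ≤ r₀)) m x C (C * lP) l η
      (fun i hi => hm i (mem_filter.1 hi).1) (fun i hi => hx i (mem_filter.1 hi).1) hη hC
      (by positivity) hl hCl ?_).trans h1
    intro y hy
    have hr : 0 ≤ r₀ := hη.trans hηr
    rcases le_total y r₀ with hyr | hyr
    · refine le_trans ?_ ((hcount y hy hyr).trans (le_of_eq ?_))
      · apply sum_le_sum_of_subset_of_nonneg
        · intro i hi
          obtain ⟨h3, h4⟩ := mem_filter.1 hi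
          exact mem_filter.2 ⟨(mem_filter.1 h3).1, h4⟩
        · intro i hi _
          exact hm i (mem_filter.1 hi).1
      · congr 2
        ring
    · refine le_trans ?_ ((hcount r₀ hηr le_rfl).trans ?_)
      · apply sum_le_sum_of_subset_of_nonneg
        · intro i hi
          exact (mem_filter.1 hi).1
        · intro i hi _
          exact hm i (mem_filter.1 hi).1
      · apply mul_le_mul_of_nonneg_left _ hC
        apply Real.exp_le_exp.mpr
        have : 0 ≤ C * lP := by positivity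
        nlinarith
  have hB : ∑ i ∈ S.filter (fun i => ¬ x i ≤ r₀), m i * Real.exp (-(l * x i)) ≤ ε / 2 := by
    refine le_trans ?_ h2
    have h3 : ∑ i ∈ S.filter (fun i => ¬ x i ≤ r₀), m i * Real.exp (-(l * x i)) ≤
        ∑ i ∈ S.filter (fun i => ¬ x i ≤ r₀), m i * Real.exp (-(l * r₀)) := by
      refine sum_le_sum fun i hi => ?_
      obtain ⟨h4, h5⟩ := mem_filter.1 hi
      push Not at h5
      apply mul_le_mul_of_nonneg_left _ (hm i h4)
      apply Real.exp_le_exp.mpr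
      nlinarith
    refine h3.trans ?_
    rw [← Finset.sum_mul]
    apply mul_le_mul_of_nonneg_right _ (Real.exp_nonneg _)
    refine le_trans ?_ hM
    apply sum_le_sum_of_subset_of_nonneg (filter_subset _ _)
    intro i hi _
    exact hm i hi
  linarith

/-- The parameters. -/
private lemma SumZ_par (C E c₀ r₀ ε B : ℝ) (hC : 1 ≤ C) (hE : 1 ≤ E) (hc₀ : 0 < c₀) (hr₀ : 0 < r₀)
    (hε : 0 < ε) :
    ∃ c : ℝ, 0 < c ∧ ∀ B' : ℝ, ∃ N₀ : ℕ, ∀ (N P : ℕ) (T : ℝ), N₀ ≤ N →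
      Real.exp ((Real.log N) ^ (3 / 4 : ℝ)) ≤ P → (P : ℝ) ≤ (N : ℝ) ^ c →
      2 ≤ T → T ≤ (P : ℝ) ^ 70 →
      2 ≤ P ∧ B ≤ P ∧ B' ≤ Real.log (P * T) ∧ 1 ≤ N ∧ 0 < Real.log N ∧
      0 < Real.log P ∧ 0 < Real.log (P * T) ∧ Real.log T + 1 ≤ Real.log (P * T) ∧
      c₀ / Real.log (P * T) ≤ r₀ ∧ 1 ≤ Real.log (P * T) ∧
      C * Real.log P ≤ Real.log N / 8 / 2 ∧
      2 * C * Real.exp (-(Real.log N / 8 * (c₀ / Real.log (P * T)) / 2)) ≤ ε / 2 ∧
      E * ((P : ℝ) * T) ^ E * (Real.log (P * T)) ^ E * Real.exp (-(Real.log N / 8 * r₀)) ≤ ε / 2 := by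
  set ℓ : ℝ := Real.log (4 * C / ε) with hℓ
  have hℓ0 := abs_nonneg ℓ
  have hCpos : 0 < C := by linarith
  have hEpos : 0 < E := by linarith
  set W : ℝ := 16 * C + 1136 * (|ℓ| + 1) / c₀ + 1136 * E / r₀ + 71 with hW
  have hw2 : 0 < 1136 * (|ℓ| + 1) / c₀ := by positivity
  have hw3 : 0 < 1136 * E / r₀ := by positivity
  have hWpos : 0 < W := by rw [hW]; positivity
  set c : ℝ := 1 / W with hc
  have hcpos : 0 < c := by positivity
  have hcW : c * W = 1 := by rw [hc]; field_simp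
  have hcle : ∀ X : ℝ, X ≤ W → c * X ≤ 1 := fun X hX => by
    have := mul_le_mul_of_nonneg_left hX hcpos.le
    linarith
  have hc1 : c * (16 * C) ≤ 1 := hcle _ (by linarith)
  have hc2 : c * (1136 * (|ℓ| + 1) / c₀) ≤ 1 := hcle _ (by linarith)
  have hc3 : c * (1136 * E / r₀) ≤ 1 := hcle _ (by linarith)
  have hc4 : c * 71 ≤ 1 := hcle _ (by linarith)
  refine ⟨c, hcpos, ?_⟩
  intro B'
  have t1 : Filter.Tendsto (fun N : ℕ => Real.log (N : ℝ)) Filter.atTop Filter.atTop :=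
    Real.tendsto_log_atTop.comp tendsto_natCast_atTop_atTop
  have t3 : Filter.Tendsto (fun N : ℕ => (Real.log (N : ℝ)) ^ (3 / 4 : ℝ)) Filter.atTop Filter.atTop :=
    (tendsto_rpow_atTop (by norm_num)).comp t1
  have t4 : Filter.Tendsto (fun L : ℝ => E * (L ^ E * Real.exp (-(r₀ / 16) * L))) Filter.atTop
      (nhds 0) := by
    have := (tendsto_rpow_mul_exp_neg_mul_atTop_nhds_zero E (r₀ / 16) (by positivity)).const_mul E
    simpa using this
  have t5 := t4.comp t1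
  have hev5 : ∀ᶠ N : ℕ in Filter.atTop,
      ((fun L : ℝ => E * (L ^ E * Real.exp (-(r₀ / 16) * L))) ∘ fun N : ℕ => Real.log (N : ℝ)) N <
        ε / 2 := t5.eventually_lt_const (by positivity)
  have hev := ((t1.eventually_ge_atTop 1).and hev5).and
    (((t3.eventually_ge_atTop B).and (t3.eventually_ge_atTop 1)).and
      ((t3.eventually_ge_atTop (c₀ / r₀)).and (t3.eventually_ge_atTop B')))
  obtain ⟨N₁, hN₁⟩ := Filter.eventually_atTop.mp hev
  refine ⟨max N₁ 1, ?_⟩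
  intro N P T hN hP1 hP2 hT1 hT2
  obtain ⟨⟨h1, h2⟩, ⟨h3, h4⟩, h5, h6⟩ := hN₁ N ((le_max_left _ _).trans hN)
  have hN1 : 1 ≤ N := (le_max_right _ _).trans hN
  have hNpos : (0 : ℝ) < N := by exact_mod_cast hN1
  simp only [Function.comp] at h2
  set L : ℝ := Real.log (N : ℝ) with hL
  have hLpos : 0 < L := by linarith
  have hPe : Real.exp 1 ≤ P := (Real.exp_le_exp.mpr h4).trans hP1
  have hP2' : (2 : ℝ) < P := by linarith [Real.exp_one_gt_d9]
  have hPn : 2 ≤ P := by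
    have : (2 : ℝ) ≤ P := hP2'.le
    exact_mod_cast this
  have hPpos : (0 : ℝ) < P := by linarith
  have hlogP : L ^ (3 / 4 : ℝ) ≤ Real.log P := by
    rwa [Real.le_log_iff_exp_le hPpos]
  have hlogP1 : 1 ≤ Real.log P := h4.trans hlogP
  have hTpos : 0 < T := by linarith
  have hlogT : 0 ≤ Real.log T := Real.log_nonneg (by linarith)
  have hD : Real.log (P * T) = Real.log P + Real.log T := Real.log_mul hPpos.ne' hTpos.ne'
  have hlogT2 : Real.log T ≤ 70 * Real.log P := by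
    have := Real.log_le_log hTpos hT2
    rwa [Real.log_pow] at this
  have hlogP2 : Real.log P ≤ c * L := by
    have := Real.log_le_log hPpos hP2
    rwa [Real.log_rpow hNpos] at this
  have hPT : 0 < (P : ℝ) * T := by positivity
  set D : ℝ := Real.log (P * T) with hDd
  have hDpos : 0 < D := by linarith
  have hD71 : D ≤ 71 * (c * L) := by linarith
  have hDL : D ≤ L := by
    have : c * 71 * L ≤ 1 * L := mul_le_mul_of_nonneg_right hc4 hLpos.le
    linarith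
  have hBP : B ≤ P := by
    have := Real.add_one_le_exp (L ^ (3 / 4 : ℝ))
    linarith
  refine ⟨hPn, hBP, by linarith, hN1, hLpos, by linarith, hDpos, by linarith, ?_, by linarith,
    ?_, ?_, ?_⟩
  · rw [div_le_iff₀ hDpos]
    have h7 : c₀ / r₀ ≤ D := by linarith
    rw [div_le_iff₀ hr₀] at h7
    linarith
  · have h7 : C * Real.log P ≤ C * (c * L) := mul_le_mul_of_nonneg_left hlogP2 hCpos.le
    have h8 : c * (16 * C) * L ≤ 1 * L := mul_le_mul_of_nonneg_right hc1 hLpos.le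
    linarith
  · have h7 : |ℓ| ≤ L / 8 * (c₀ / D) / 2 := by
      rw [show L / 8 * (c₀ / D) / 2 = (L * c₀ / 16) / D by ring, le_div_iff₀ hDpos]
      have h8 : |ℓ| * D ≤ |ℓ| * (71 * (c * L)) := mul_le_mul_of_nonneg_left hD71 hℓ0
      have h9 : c * (1136 * (|ℓ| + 1) / c₀) * (L * c₀) ≤ 1 * (L * c₀) :=
        mul_le_mul_of_nonneg_right hc2 (by positivity)
      have h10 : c * (1136 * (|ℓ| + 1) / c₀) * (L * c₀) = 1136 * (|ℓ| + 1) * (c * L) := by
        field_simp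
      have h11 : 0 ≤ c * L := by positivity
      nlinarith
    have h12 : Real.exp (-(L / 8 * (c₀ / D) / 2)) ≤ ε / (4 * C) := by
      have h13 : -(L / 8 * (c₀ / D) / 2) ≤ -ℓ := by linarith [le_abs_self ℓ]
      refine (Real.exp_le_exp.mpr h13).trans (le_of_eq ?_)
      rw [Real.exp_neg, hℓ, Real.exp_log (by positivity), inv_div]
    calc 2 * C * Real.exp (-(L / 8 * (c₀ / D) / 2)) ≤ 2 * C * (ε / (4 * C)) :=
          mul_le_mul_of_nonneg_left h12 (by positivity)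
      _ = ε / 2 := by field_simp; ring
  · have h7 : ((P : ℝ) * T) ^ E = Real.exp (D * E) := by
      rw [Real.rpow_def_of_pos hPT]
    have h8 : D * E ≤ L * (r₀ / 16) := by
      have h9 : D * E ≤ 71 * (c * L) * E := mul_le_mul_of_nonneg_right hD71 hEpos.le
      have h10 : c * (1136 * E / r₀) * (L * r₀ / 16) ≤ 1 * (L * r₀ / 16) :=
        mul_le_mul_of_nonneg_right hc3 (by positivity)
      have h11 : c * (1136 * E / r₀) * (L * r₀ / 16) = 71 * (c * L) * E := by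
        field_simp
        ring
      linarith
    have h9 : D ^ E ≤ L ^ E := Real.rpow_le_rpow hDpos.le hDL hEpos.le
    have h10 : Real.exp (D * E) * Real.exp (-(L / 8 * r₀)) ≤ Real.exp (-(r₀ / 16) * L) := by
      rw [← Real.exp_add]
      apply Real.exp_le_exp.mpr
      linarith
    calc E * ((P : ℝ) * T) ^ E * D ^ E * Real.exp (-(L / 8 * r₀))
        = E * (D ^ E * (Real.exp (D * E) * Real.exp (-(L / 8 * r₀)))) := by rw [h7]; ring
      _ ≤ E * (L ^ E * Real.exp (-(r₀ / 16) * L)) := by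
          apply mul_le_mul_of_nonneg_left _ hEpos.le
          exact mul_le_mul h9 h10 (by positivity) (by positivity)
      _ ≤ ε / 2 := h2.le

open Classical in
/-- Proof. The exceptional character `e` is the one of `zfr`; `R ≤ e.1` by `exc_large` (if `P` is large). The zeros
with `1 - Re ρ ≤ r₀`: `sum_abs` for the pairs `(x, ρ)`, `x_i = 1 - Re ρ ≥ η = c₀/log(PT) ≥ c₀/(71 log P)`,
`K = C exp 0`, `μ = C log P` (`density_lf`; for `y ≥ r₀` use the value at `r₀`), `l = log N / 8`: at most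
`2 C exp(-lη/2) ≤ 2 C exp(-c₀/(1136 c))` if `log P ≤ c log N`, `C c ≤ 1/16`. The zeros with `1 - Re ρ > r₀`: their number
is at most `C (PT)^{C} (log(PT))^C ≤ N^{72 C c} (log N)^{2C}` (`Th.density`, `Th.density_zt` with `σ = 15/16`) and
`N^{-(1-Re ρ)/8} ≤ N^{-r₀/8}`. Choose `c` small in terms of `ε` and the constants. -/
theorem sumZ (ε : ℝ) (hε : 0 < ε) : ∃ c : ℝ, 0 < c ∧ ∀ R : ℕ, ∃ N₀ : ℕ, ∀ (N P : ℕ) (T : ℝ), N₀ ≤ N →
    Real.exp ((Real.log N) ^ (3 / 4 : ℝ)) ≤ P → (P : ℝ) ≤ (N : ℝ) ^ c → 2 ≤ T → T ≤ (P : ℝ) ^ 70 →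
    (∑ ρ ∈ ZF zt (15 / 16) T, mul zt ρ * (N : ℝ) ^ (-((1 - ρ.re) / 8)) ≤ ε) ∧
    ∃ e : CH, e.1 ≠ 0 ∧ e.2 ^ 2 = 1 ∧ e.2.IsPrimitive ∧ (e = ch1 ∨ (e ∈ prims P ∧ R ≤ e.1)) ∧
      ∑ x ∈ (prims P).filter (fun x => x ≠ ch1 ∧ x ≠ e),
        ∑ ρ ∈ ZF (LL x) (15 / 16) T, mul (LL x) ρ * (N : ℝ) ^ (-((1 - ρ.re) / 8)) ≤ ε := by
  obtain ⟨C, r₀, hC, hr₀, hr₀', hlf⟩ := density_lf
  obtain ⟨C₁, hC₁, hden⟩ := density
  obtain ⟨C₂, hC₂, hdenz⟩ := density_zt
  obtain ⟨c₀, hc₀, _, hzfr⟩ := zfr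
  set E : ℝ := max C₁ C₂ with hE
  have hE1 : C₁ ≤ E := le_max_left _ _
  have hE2 : C₂ ≤ E := le_max_right _ _
  have hEone : 1 ≤ E := hC₁.trans hE1
  obtain ⟨c, hc, hpar⟩ := SumZ_par C E c₀ r₀ ε C hC hEone hc₀ hr₀ hε
  refine ⟨c, hc, ?_⟩
  intro R
  obtain ⟨ηR, hηR, hexc⟩ := exc_large R
  obtain ⟨N₀, hN₀⟩ := hpar (c₀ / ηR)
  refine ⟨N₀, ?_⟩
  intro N P T hN hP1 hP2 hT1 hT2
  obtain ⟨hPn, hCP, hDR, hN1, hLpos, hlogP, hDpos, hTD, hηr, hD1, hCD, hfin1, hfin2⟩ :=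
    hN₀ N P T hN hP1 hP2 hT1 hT2
  have hPr : (2 : ℝ) ≤ P := by exact_mod_cast hPn
  have hTpos : 0 < T := by linarith
  have hPTpos : 0 < (P : ℝ) * T := by positivity
  have hPT1 : 1 ≤ (P : ℝ) * T := by nlinarith
  set D : ℝ := Real.log (P * T) with hD
  set η : ℝ := c₀ / D with hη
  have hηpos : 0 < η := by positivity
  have hl : 0 < Real.log N / 8 := by linarith
  obtain ⟨hz, e, he1, he2, he3, he4, he5⟩ := hzfr P T hPn hT1
  constructor
  · have hmul : ∀ ρ ∈ ZF zt (15 / 16) T, 0 ≤ mul zt ρ := fun ρ _ => Nat.cast_nonneg _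
    have h := SumZ_key (ZF zt (15 / 16) T) (fun ρ => mul zt ρ) (fun ρ => 1 - ρ.re) C (Real.log P)
      (Real.log N / 8) η r₀ ε (E * ((P : ℝ) * T) ^ E * D ^ E) hmul ?_ hηpos.le hηr (by linarith)
      hlogP.le hl hCD ?_ ?_ hfin1 hfin2
    · refine le_trans (le_of_eq ?_) h
      refine sum_congr rfl fun ρ _ => ?_
      rw [SumZ_cpow N hN1]
    · intro ρ hρ
      obtain ⟨h1, _, h3⟩ := (mem_ZF_zt _ _ _).1 hρ
      have := hz ρ h1 h3
      linarith
    · intro y hy hyr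
      have hy0 : 0 ≤ y := hηpos.le.trans hy
      have hsub : (ZF zt (15 / 16) T).filter (fun ρ => 1 - ρ.re ≤ y) ⊆ ZF zt (1 - y) T := by
        intro ρ hρ
        obtain ⟨h1, h2⟩ := mem_filter.1 hρ
        obtain ⟨h3, h4, h5⟩ := (mem_ZF_zt _ _ _).1 h1
        exact (mem_ZF_zt _ _ _).2 ⟨h3, by linarith, h5⟩
      have h1 : ∑ ρ ∈ (ZF zt (15 / 16) T).filter (fun ρ => 1 - ρ.re ≤ y), mul zt ρ ≤
          ∑ ρ ∈ ZF zt (1 - y) T, mul zt ρ :=
        sum_le_sum_of_subset_of_nonneg hsub (fun ρ _ _ => Nat.cast_nonneg _)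
      have h2 := hlf P T y hCP hT1 hT2 hy0 hyr
      have h3 : 0 ≤ ∑ x ∈ (prims P).filter (fun x => x ≠ ch1), ∑ ρ ∈ ZF (LL x) (1 - y) T,
          mul (LL x) ρ := sum_nonneg fun x _ => sum_nonneg fun ρ _ => Nat.cast_nonneg _
      linarith
    · refine (hdenz T (15 / 16) hT1 le_rfl (by norm_num)).trans ?_
      have hlogT : 0 ≤ Real.log T := Real.log_nonneg (by linarith)
      have h2 : T ^ (C₂ * (1 - 15 / 16)) ≤ ((P : ℝ) * T) ^ E := by
        calc T ^ (C₂ * (1 - 15 / 16)) ≤ T ^ E :=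
              Real.rpow_le_rpow_of_exponent_le (by linarith) (by linarith)
          _ ≤ ((P : ℝ) * T) ^ E := Real.rpow_le_rpow hTpos.le (by nlinarith) (by linarith)
      have h3 : (Real.log T + 1) ^ C₂ ≤ D ^ E := by
        calc (Real.log T + 1) ^ C₂ ≤ D ^ C₂ := Real.rpow_le_rpow (by linarith) hTD (by linarith)
          _ ≤ D ^ E := Real.rpow_le_rpow_of_exponent_le hD1 hE2
      exact mul_le_mul (mul_le_mul hE2 h2 (by positivity) (by positivity)) h3 (by positivity)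
        (by positivity)
  · refine ⟨e, he1, he2, he3, ?_, ?_⟩
    · rcases he4 with h | ⟨h1, h2, β, h3, h4, h5⟩
      · exact Or.inl h
      · refine Or.inr ⟨h1, ?_⟩
        by_contra hlt
        push Not at hlt
        obtain ⟨g1, _, g3⟩ := (mem_prims P e).1 h1
        have heR : e ∈ prims R := (mem_prims R e).2 ⟨g1, hlt.le, g3⟩
        refine hexc e heR h2 β ?_ h4 h5
        have : c₀ / D ≤ ηR := by
          rw [div_le_iff₀ hDpos]
          rw [div_le_iff₀ hηR] at hDR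
          linarith
        have h6 : 1 - c₀ / D < β := h3
        linarith
    · rw [Finset.sum_sigma' ((prims P).filter (fun x => x ≠ ch1 ∧ x ≠ e))
        (fun x => ZF (LL x) (15 / 16) T)
        (fun x ρ => mul (LL x) ρ * (N : ℝ) ^ (-((1 - ρ.re) / 8)))]
      set S := ((prims P).filter (fun x => x ≠ ch1 ∧ x ≠ e)).sigma
        (fun x => ZF (LL x) (15 / 16) T) with hS
      have h := SumZ_key S (fun i => mul (LL i.1) i.2) (fun i => 1 - i.2.re) C (Real.log P)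
        (Real.log N / 8) η r₀ ε (E * ((P : ℝ) * T) ^ E * D ^ E) (fun i _ => Nat.cast_nonneg _) ?_
        hηpos.le hηr (by linarith) hlogP.le hl hCD ?_ ?_ hfin1 hfin2
      · refine le_trans (le_of_eq ?_) h
        refine sum_congr rfl fun i _ => ?_
        rw [SumZ_cpow N hN1]
      · intro i hi
        obtain ⟨h1, h2⟩ := mem_sigma.1 hi
        obtain ⟨h3, h4, h5⟩ := mem_filter.1 h1
        obtain ⟨h6, _, h8⟩ := (SumZ_mem P i.1 h3 h4 _ _ _).1 h2
        have := he5 i.1 h3 h4 h5 i.2 h6 h8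
        linarith
      · intro y hy hyr
        have hy0 : 0 ≤ y := hηpos.le.trans hy
        have hsub : S.filter (fun i => 1 - i.2.re ≤ y) ⊆
            ((prims P).filter (fun x => x ≠ ch1)).sigma (fun x => ZF (LL x) (1 - y) T) := by
          intro i hi
          obtain ⟨h1, h2⟩ := mem_filter.1 hi
          obtain ⟨h3, h4⟩ := mem_sigma.1 h1
          obtain ⟨h5, h6, h7⟩ := mem_filter.1 h3
          obtain ⟨h8, h9, h10⟩ := (SumZ_mem P i.1 h5 h6 _ _ _).1 h4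
          exact mem_sigma.2 ⟨mem_filter.2 ⟨h5, h6⟩, (SumZ_mem P i.1 h5 h6 _ _ _).2
            ⟨h8, by linarith, h10⟩⟩
        have h1 : ∑ i ∈ S.filter (fun i => 1 - i.2.re ≤ y), mul (LL i.1) i.2 ≤
            ∑ i ∈ ((prims P).filter (fun x => x ≠ ch1)).sigma (fun x => ZF (LL x) (1 - y) T),
              mul (LL i.1) i.2 :=
          sum_le_sum_of_subset_of_nonneg hsub (fun i _ _ => Nat.cast_nonneg _)
        rw [Finset.sum_sigma] at h1
        have h2 := hlf P T y hCP hT1 hT2 hy0 hyr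
        have h3 : 0 ≤ ∑ ρ ∈ ZF zt (1 - y) T, mul zt ρ := sum_nonneg fun ρ _ => Nat.cast_nonneg _
        linarith
      · have hsub : S ⊆ ((prims P).filter (fun x => x ≠ ch1)).sigma
            (fun x => ZF (LL x) (15 / 16) T) := by
          intro i hi
          obtain ⟨h1, h2⟩ := mem_sigma.1 hi
          obtain ⟨h3, h4, h5⟩ := mem_filter.1 h1
          exact mem_sigma.2 ⟨mem_filter.2 ⟨h3, h4⟩, h2⟩
        have h1 : ∑ i ∈ S, mul (LL i.1) i.2 ≤
            ∑ i ∈ ((prims P).filter (fun x => x ≠ ch1)).sigma (fun x => ZF (LL x) (15 / 16) T),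
              mul (LL i.1) i.2 :=
          sum_le_sum_of_subset_of_nonneg hsub (fun i _ _ => Nat.cast_nonneg _)
        refine h1.trans ?_
        rw [Finset.sum_sigma]
        refine (hden P T (15 / 16) hPn hT1 le_rfl (by norm_num)).trans ?_
        have h2 : ((P : ℝ) * T) ^ (C₁ * (1 - 15 / 16)) ≤ ((P : ℝ) * T) ^ E :=
          Real.rpow_le_rpow_of_exponent_le hPT1 (by linarith)
        have h3 : D ^ C₁ ≤ D ^ E := Real.rpow_le_rpow_of_exponent_le hD1 hE1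
        exact mul_le_mul (mul_le_mul hE1 h2 (by positivity) (by positivity)) h3 (by positivity)
          (by positivity)

end Pool.Agent.Lib.MP_629a14_nt.Lf
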