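import Pool.Agent.Lib.MP_629a14_nt.Lf.Turan

/-! A lower bound for Taylor coefficients in the presence of a zero: abstract form. -/

set_option autoImplicit false

namespace Pool.Agent.Lib.MP_629a14_nt.Lf

open Finset

private lemma tlow_num (m n k : ℕ) (X : ℝ) (hX0 : 0 ≤ X) (hX : 25600 * X ≤ m) (hn : (n : ℝ) ≤ 64 * X)
    (hmk : m ≤ k) (hm : 25600 ≤ m) :
    (1 / 4 : ℝ) ^ (k + 1) + ((1 / 8) ^ (k - 1) * X + 16 * X * (1 / 125) ^ k) ≤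
      (1 / 3) ^ (k + 1) * (Real.exp (-(2 * (1 / 100) * m)) * ((1 / 100) / 24) ^ n) := by
  have hkX : 25600 * X ≤ ((k + 1 : ℕ) : ℝ) := hX.trans (by exact_mod_cast (by omega : m ≤ k + 1))
  have h2K : ((k + 1 : ℕ) : ℝ) ≤ 2 ^ (k + 1) := by
    exact_mod_cast (Nat.lt_two_pow_self (n := k + 1)).le
  have hX2 : 25600 * X ≤ 2 ^ (k + 1) := hkX.trans h2K
  -- the left side is at most `2 / 4 ^ (k+1)`
  have h1 : (1 / 8 : ℝ) ^ (k - 1) * X ≤ (1 / 4) * (1 / 4) ^ (k + 1) := by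
    have e1 : (1 / 8 : ℝ) ^ (k - 1) = 64 * (1 / 8) ^ (k + 1) := by
      have : k + 1 = (k - 1) + 2 := by omega
      rw [this, pow_add]
      norm_num
      ring
    have e2 : (1 / 4 : ℝ) ^ (k + 1) = (1 / 8) ^ (k + 1) * 2 ^ (k + 1) := by
      rw [← mul_pow]; norm_num
    rw [e1, e2]
    have h3 : (0 : ℝ) < (1 / 8) ^ (k + 1) := by positivity
    have h4 : 64 * X ≤ (1 / 4) * 2 ^ (k + 1) := by linarith
    nlinarith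
  have h2 : 16 * X * (1 / 125 : ℝ) ^ k ≤ (1 / 4) * (1 / 4) ^ (k + 1) := by
    have e1 : (1 / 125 : ℝ) ^ k = 125 * (1 / 125) ^ (k + 1) := by
      rw [pow_succ]; ring
    have e2 : (1 / 125 : ℝ) ^ (k + 1) * 2 ^ (k + 1) ≤ (1 / 4 : ℝ) ^ (k + 1) := by
      rw [← mul_pow]
      exact pow_le_pow_left₀ (by norm_num) (by norm_num) _
    rw [e1]
    have h3 : (0 : ℝ) < (1 / 125) ^ (k + 1) := by positivity
    have h4 : 16 * X * 125 ≤ (1 / 4) * 2 ^ (k + 1) := by linarith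
    nlinarith
  have h3 : (1 / 4 : ℝ) ^ (k + 1) + ((1 / 8) ^ (k - 1) * X + 16 * X * (1 / 125) ^ k) ≤
      2 * (1 / 4) ^ (k + 1) := by
    have : (0 : ℝ) < (1 / 4) ^ (k + 1) := by positivity
    linarith
  refine h3.trans ?_
  -- 2 * (1/4)^(k+1) ≤ (5/16)^(k+1)
  have h4 : 2 * (1 / 4 : ℝ) ^ (k + 1) ≤ (5 / 16) ^ (k + 1) := by
    have e1 : (5 / 16 : ℝ) ^ (k + 1) = (1 / 4) ^ (k + 1) * (5 / 4) ^ (k + 1) := by
      rw [← mul_pow]; norm_num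
    have e2 : (2 : ℝ) ≤ (5 / 4) ^ (k + 1) := by
      calc (2 : ℝ) ≤ (5 / 4) ^ 4 := by norm_num
        _ ≤ _ := pow_le_pow_right₀ (by norm_num) (by omega)
    rw [e1]
    have : (0 : ℝ) < (1 / 4) ^ (k + 1) := by positivity
    nlinarith
  refine h4.trans ?_
  have e5 : (5 / 16 : ℝ) ^ (k + 1) = (1 / 3) ^ (k + 1) * (15 / 16) ^ (k + 1) := by
    rw [← mul_pow]; norm_num
  rw [e5]
  refine mul_le_mul_of_nonneg_left ?_ (by positivity)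
  -- (15/16)^(k+1) ≤ exp(-m/50) * (1/2400)^n
  have h6 : (15 / 16 : ℝ) ≤ Real.exp (-(1 / 25)) := by
    have := Real.add_one_le_exp (-(1 / 25 : ℝ))
    linarith
  have h7 : Real.exp (-8) ≤ ((1 / 100) / 24 : ℝ) := by
    have h8 : (2.7 : ℝ) ≤ Real.exp 1 := by
      have := Real.exp_one_gt_d9
      linarith
    have h9 : (2.7 : ℝ) ^ 8 ≤ Real.exp 8 := by
      have : Real.exp 8 = Real.exp 1 ^ 8 := by rw [← Real.exp_nat_mul]; norm_num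
      rw [this]
      exact pow_le_pow_left₀ (by norm_num) h8 8
    rw [Real.exp_neg]
    have h10 : (2400 : ℝ) ≤ Real.exp 8 := le_trans (by norm_num) h9
    calc (Real.exp 8)⁻¹ ≤ (2400 : ℝ)⁻¹ := inv_anti₀ (by norm_num) h10
      _ = _ := by norm_num
  calc (15 / 16 : ℝ) ^ (k + 1) ≤ (15 / 16) ^ m :=
        pow_le_pow_of_le_one (by norm_num) (by norm_num) (by omega)
    _ ≤ Real.exp (-(1 / 25)) ^ m := pow_le_pow_left₀ (by norm_num) h6 m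
    _ = Real.exp (-(m / 25)) := by rw [← Real.exp_nat_mul]; congr 1; ring
    _ ≤ Real.exp (-(2 * (1 / 100) * m)) * Real.exp (-8) ^ n := by
      rw [← Real.exp_nat_mul, ← Real.exp_add]
      apply Real.exp_le_exp.2
      linarith
    _ ≤ _ := by
      refine mul_le_mul_of_nonneg_left ?_ (Real.exp_nonneg _)
      exact pow_le_pow_left₀ (Real.exp_nonneg _) h7 n

private lemma tlow_re (r : ℝ) (w : ℂ) (hr : 0 < r) (hw : r ≤ w.re) : r / ‖w‖ ^ 2 ≤ (1 / w).re := by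
  rw [one_div, Complex.inv_re, Complex.normSq_eq_norm_sq]
  exact div_le_div_of_nonneg_right hw (by positivity)

/-- Proof. Let `Z₁ = {ρ ∈ Z : ‖s₀-ρ‖ ≤ 8r}`, `d₀ = min ‖s₀-ρ‖ ∈ [r, 3r]`. Each `ρ ∈ Z₁` has
`Re 1/(s₀-ρ) ≥ r/(8r)² = 1/(64r)`, so `n = #Z₁ ≤ 64 C (rL+1)`. `turan` for `z_ρ = d₀/(s₀-ρ)`, `b = mu`, `θ = 1/100` gives
`k+1 ∈ [m+1, m+n]` with `‖r^{k+1} ∑_{Z₁} mu/(s₀-ρ)^{k+1}‖ = (r/d₀)^{k+1} ‖∑ mu z^{k+1}‖ ≥ 3^{-(k+1)} e^{-m/50} 2400^{-n}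
≥ (3 e^{0.04})^{-(k+1)}` if `M = 25600 C` (`n ≤ m/400`). The other zeros:
`∑_{Z∖Z₁} mu/‖s₀-ρ‖^{k+1} ≤ (8r)^{-(k-1)} ∑ mu/‖s₀-ρ‖² ≤ (8r)^{-(k-1)} r^{-1} ∑ mu Re 1/(s₀-ρ)` (`Re (s₀-ρ) ≥ r`), so after
multiplication by `r^{k+1}` at most `8^{-(k-1)} C (rL+1)`. The error term is at most `16 C (rL + r) 125^{-k}`
(`16 r ≤ 1/125`). Since `C(rL+1) ≤ m/25600` and `k ≥ m ≥ 25600`, these are much smaller. -/
theorem tlow_abs (C : ℝ) (hC : 1 ≤ C) : ∃ M : ℝ, 1 ≤ M ∧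
    ∀ (r L : ℝ) (s₀ : ℂ) (Z : Finset ℂ) (mu : ℂ → ℝ) (B : ℕ → ℂ),
      0 < r → r ≤ 1 / 2000 → 0 ≤ L → (∀ ρ ∈ Z, 1 ≤ mu ρ ∧ r ≤ (s₀ - ρ).re) →
      ∑ ρ ∈ Z, mu ρ * (1 / (s₀ - ρ)).re ≤ C * (L + 1 / r) →
      (∀ k : ℕ, ‖B k + (r : ℂ) ^ (k + 1) * ∑ ρ ∈ Z, (mu ρ : ℂ) / (s₀ - ρ) ^ (k + 1)‖ ≤
        C * (L + 1) * (16 * r) ^ (k + 1)) →
      (∃ ρ₀ ∈ Z, ‖s₀ - ρ₀‖ ≤ 3 * r) →
      ∀ m : ℕ, M * (r * L + 1) ≤ m → ∃ k : ℕ, m ≤ k ∧ k ≤ 2 * m ∧ (1 / 4 : ℝ) ^ (k + 1) ≤ ‖B k‖ := by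
  refine ⟨25600 * C, by linarith, ?_⟩
  intro r L s₀ Z mu B hr hr2 hL hZ hsum hB ⟨ρ₀, hρ₀, hρ₀d⟩ m hm
  set X := C * (r * L + 1) with hX
  have hX1 : 1 ≤ X := by
    have : 0 ≤ r * L := by positivity
    nlinarith
  have hXm : 25600 * X ≤ m := by rw [hX]; linarith
  have hm2 : 25600 ≤ m := by
    have : (25600 : ℝ) ≤ m := by linarith
    exact_mod_cast this
  obtain ⟨ρs, hρs, hmin⟩ := Finset.exists_min_image Z (fun ρ => ‖s₀ - ρ‖) ⟨ρ₀, hρ₀⟩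
  set d := ‖s₀ - ρs‖ with hd
  have hd3 : d ≤ 3 * r := (hmin ρ₀ hρ₀).trans hρ₀d
  have hnr : ∀ ρ ∈ Z, r ≤ ‖s₀ - ρ‖ := fun ρ hρ => (hZ ρ hρ).2.trans (Complex.re_le_norm _)
  have hdr : r ≤ d := hnr ρs hρs
  have hd0 : 0 < d := lt_of_lt_of_le hr hdr
  have hne : ∀ ρ ∈ Z, s₀ - ρ ≠ 0 := fun ρ hρ h => by
    have := hnr ρ hρ; rw [h, norm_zero] at this; linarith
  have hre : ∀ ρ ∈ Z, r / ‖s₀ - ρ‖ ^ 2 ≤ (1 / (s₀ - ρ)).re := fun ρ hρ => tlow_re r _ hr (hZ ρ hρ).2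
  have hre0 : ∀ ρ ∈ Z, 0 ≤ mu ρ * (1 / (s₀ - ρ)).re := by
    intro ρ hρ
    have h1 := (hZ ρ hρ).1
    have h2 : 0 ≤ r / ‖s₀ - ρ‖ ^ 2 := by positivity
    exact mul_nonneg (by linarith) (h2.trans (hre ρ hρ))
  have hsumX : ∑ ρ ∈ Z, mu ρ * (1 / (s₀ - ρ)).re ≤ X / r := by
    refine hsum.trans (le_of_eq ?_)
    rw [hX]; field_simp
  set Z₁ := Z.filter (fun ρ => ‖s₀ - ρ‖ ≤ 8 * r) with hZ1
  set Z₂ := Z.filter (fun ρ => ¬ ‖s₀ - ρ‖ ≤ 8 * r) with hZ2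
  have hcard : (Z₁.card : ℝ) ≤ 64 * X := by
    have h1 : ∑ ρ ∈ Z₁, 1 / (64 * r) ≤ X / r := by
      calc ∑ ρ ∈ Z₁, 1 / (64 * r) ≤ ∑ ρ ∈ Z₁, mu ρ * (1 / (s₀ - ρ)).re := by
            refine Finset.sum_le_sum fun ρ hρ => ?_
            obtain ⟨h2, h3⟩ := Finset.mem_filter.1 hρ
            have h4 := hre ρ h2
            have h5 := hnr ρ h2
            have h6 : 1 / (64 * r) ≤ r / ‖s₀ - ρ‖ ^ 2 := by
              have h7 : ‖s₀ - ρ‖ ^ 2 ≤ (8 * r) ^ 2 := pow_le_pow_left₀ (norm_nonneg _) h3 2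
              have h8 : 0 < ‖s₀ - ρ‖ ^ 2 := by
                have := lt_of_lt_of_le hr h5
                positivity
              rw [div_le_div_iff₀ (by positivity) h8]
              nlinarith
            have h9 := (hZ ρ h2).1
            have h10 : 0 ≤ 1 / (64 * r) := by positivity
            nlinarith
        _ ≤ ∑ ρ ∈ Z, mu ρ * (1 / (s₀ - ρ)).re :=
            Finset.sum_le_sum_of_subset_of_nonneg (Finset.filter_subset _ _) (fun ρ hρ _ => hre0 ρ hρ)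
        _ ≤ _ := hsumX
    rw [Finset.sum_const, nsmul_eq_mul] at h1
    have h2 : (Z₁.card : ℝ) * (1 / (64 * r)) * (64 * r) ≤ X / r * (64 * r) :=
      mul_le_mul_of_nonneg_right h1 (by positivity)
    have e1 : (Z₁.card : ℝ) * (1 / (64 * r)) * (64 * r) = Z₁.card := by field_simp
    have e2 : X / r * (64 * r) = 64 * X := by field_simp
    rwa [e1, e2] at h2
  have hρs1 : ρs ∈ Z₁ := Finset.mem_filter.2 ⟨hρs, by rw [← hd]; linarith⟩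
  obtain ⟨k', hk1, hk2, hk3⟩ := turan (ι := Z₁) (fun ρ => (d : ℂ) / (s₀ - ρ)) (fun ρ => mu ρ)
    (fun ρ => by
      have := (hZ ρ.1 (Finset.mem_filter.1 ρ.2).1).1
      linarith) ⟨ρs, hρs1⟩
    (by
      simp only [norm_div, Complex.norm_real, Real.norm_eq_abs, abs_of_pos hd0]
      rw [← hd, div_self hd0.ne'])
    (hZ ρs hρs).1
    (fun ρ => by
      simp only [norm_div, Complex.norm_real, Real.norm_eq_abs, abs_of_pos hd0]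
      have h1 := hmin ρ.1 (Finset.mem_filter.1 ρ.2).1
      exact div_le_one_of_le₀ h1 (norm_nonneg _)) m (1 / 100) (by norm_num) (by norm_num)
  obtain ⟨k, rfl⟩ : ∃ k, k' = k + 1 := ⟨k' - 1, by omega⟩
  rw [Fintype.card_coe] at hk2 hk3
  have hcm : (Z₁.card : ℝ) ≤ m := by linarith
  have hcm2 : Z₁.card ≤ m := by exact_mod_cast hcm
  refine ⟨k, by omega, by omega, ?_⟩
  -- near zeros
  have hnear : (1 / 3) ^ (k + 1) * (Real.exp (-(2 * (1 / 100) * m)) * ((1 / 100) / 24) ^ Z₁.card) ≤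
      ‖(r : ℂ) ^ (k + 1) * ∑ ρ ∈ Z₁, (mu ρ : ℂ) / (s₀ - ρ) ^ (k + 1)‖ := by
    have e1 : ∑ ρ : Z₁, (mu ρ : ℂ) * ((d : ℂ) / (s₀ - ρ)) ^ (k + 1) =
        (d : ℂ) ^ (k + 1) * ∑ ρ ∈ Z₁, (mu ρ : ℂ) / (s₀ - ρ) ^ (k + 1) := by
      rw [Finset.sum_coe_sort Z₁ (fun ρ => (mu ρ : ℂ) * ((d : ℂ) / (s₀ - ρ)) ^ (k + 1)), Finset.mul_sum]
      refine Finset.sum_congr rfl fun ρ _ => ?_
      rw [div_pow]; ring
    rw [e1] at hk3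
    rw [norm_mul, norm_pow, Complex.norm_real, Real.norm_eq_abs, abs_of_pos hd0] at hk3
    rw [norm_mul, norm_pow, Complex.norm_real, Real.norm_eq_abs, abs_of_pos hr]
    have h1 : (1 / 3 : ℝ) ^ (k + 1) * d ^ (k + 1) ≤ r ^ (k + 1) := by
      rw [← mul_pow]
      exact pow_le_pow_left₀ (by positivity) (by linarith) _
    calc _ ≤ (1 / 3) ^ (k + 1) * (d ^ (k + 1) * ‖∑ ρ ∈ Z₁, (mu ρ : ℂ) / (s₀ - ρ) ^ (k + 1)‖) :=
          mul_le_mul_of_nonneg_left hk3 (by positivity)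
      _ = (1 / 3) ^ (k + 1) * d ^ (k + 1) * ‖∑ ρ ∈ Z₁, (mu ρ : ℂ) / (s₀ - ρ) ^ (k + 1)‖ := by ring
      _ ≤ _ := mul_le_mul_of_nonneg_right h1 (norm_nonneg _)
  -- far zeros
  have hfar : ‖(r : ℂ) ^ (k + 1) * ∑ ρ ∈ Z₂, (mu ρ : ℂ) / (s₀ - ρ) ^ (k + 1)‖ ≤ (1 / 8) ^ (k - 1) * X := by
    obtain ⟨l, rfl⟩ : ∃ l, k = l + 1 := ⟨k - 1, by omega⟩
    rw [norm_mul, norm_pow, Complex.norm_real, Real.norm_eq_abs, abs_of_pos hr]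
    have h1 : ‖∑ ρ ∈ Z₂, (mu ρ : ℂ) / (s₀ - ρ) ^ (l + 1 + 1)‖ ≤
        ((8 * r) ^ l)⁻¹ * r⁻¹ * (X / r) := by
      calc _ ≤ ∑ ρ ∈ Z₂, ‖(mu ρ : ℂ) / (s₀ - ρ) ^ (l + 1 + 1)‖ := norm_sum_le _ _
        _ ≤ ∑ ρ ∈ Z₂, ((8 * r) ^ l)⁻¹ * r⁻¹ * (mu ρ * (1 / (s₀ - ρ)).re) := by
          refine Finset.sum_le_sum fun ρ hρ => ?_
          obtain ⟨h2, h3⟩ := Finset.mem_filter.1 hρ
          have hmu : 0 ≤ mu ρ := by linarith [(hZ ρ h2).1]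
          have hpos : 0 < ‖s₀ - ρ‖ := lt_of_lt_of_le hr (hnr ρ h2)
          rw [norm_div, norm_pow, Complex.norm_real, Real.norm_eq_abs, abs_of_nonneg hmu]
          have h4 : (‖s₀ - ρ‖ ^ (l + 1 + 1))⁻¹ ≤ ((8 * r) ^ l)⁻¹ * (‖s₀ - ρ‖ ^ 2)⁻¹ := by
            rw [← mul_inv]
            refine inv_anti₀ (by positivity) ?_
            rw [show l + 1 + 1 = l + 2 by omega, pow_add]
            exact mul_le_mul_of_nonneg_right (pow_le_pow_left₀ (by positivity) (not_le.1 h3).le l)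
              (by positivity)
          have h5 : (‖s₀ - ρ‖ ^ 2)⁻¹ ≤ r⁻¹ * (1 / (s₀ - ρ)).re := by
            have h6 := mul_le_mul_of_nonneg_left (hre ρ h2) (inv_nonneg.2 hr.le)
            have e3 : r⁻¹ * (r / ‖s₀ - ρ‖ ^ 2) = (‖s₀ - ρ‖ ^ 2)⁻¹ := by field_simp
            rwa [e3] at h6
          have h7 : (0 : ℝ) ≤ ((8 * r) ^ l)⁻¹ := by positivity
          rw [div_eq_mul_inv]
          calc mu ρ * (‖s₀ - ρ‖ ^ (l + 1 + 1))⁻¹ ≤ mu ρ * (((8 * r) ^ l)⁻¹ * (r⁻¹ * (1 / (s₀ - ρ)).re)) :=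
                mul_le_mul_of_nonneg_left (h4.trans (mul_le_mul_of_nonneg_left h5 h7)) hmu
            _ = _ := by ring
        _ = ((8 * r) ^ l)⁻¹ * r⁻¹ * ∑ ρ ∈ Z₂, mu ρ * (1 / (s₀ - ρ)).re := by rw [Finset.mul_sum]
        _ ≤ _ := by
          refine mul_le_mul_of_nonneg_left ?_ (by positivity)
          exact (Finset.sum_le_sum_of_subset_of_nonneg (Finset.filter_subset _ _)
            (fun ρ hρ _ => hre0 ρ hρ)).trans hsumX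
    calc r ^ (l + 1 + 1) * ‖∑ ρ ∈ Z₂, (mu ρ : ℂ) / (s₀ - ρ) ^ (l + 1 + 1)‖
        ≤ r ^ (l + 1 + 1) * (((8 * r) ^ l)⁻¹ * r⁻¹ * (X / r)) := mul_le_mul_of_nonneg_left h1 (by positivity)
      _ = (1 / 8) ^ (l + 1 - 1) * X := by
        rw [Nat.add_sub_cancel, mul_pow, one_div, inv_pow, pow_succ, pow_succ]
        field_simp
  -- the error term
  have herr : C * (L + 1) * (16 * r) ^ (k + 1) ≤ 16 * X * (1 / 125) ^ k := by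
    have h1 : (16 * r) ^ k ≤ (1 / 125 : ℝ) ^ k := pow_le_pow_left₀ (by positivity) (by linarith) k
    have h2 : C * (L + 1) * (16 * r) ≤ 16 * X := by
      rw [hX]
      nlinarith
    rw [pow_succ]
    have h3 : (0 : ℝ) ≤ 16 * X := by linarith
    calc C * (L + 1) * ((16 * r) ^ k * (16 * r)) = (C * (L + 1) * (16 * r)) * (16 * r) ^ k := by ring
      _ ≤ (16 * X) * (16 * r) ^ k := mul_le_mul_of_nonneg_right h2 (by positivity)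
      _ ≤ _ := mul_le_mul_of_nonneg_left h1 h3
  have hsplit : ∑ ρ ∈ Z, (mu ρ : ℂ) / (s₀ - ρ) ^ (k + 1) =
      ∑ ρ ∈ Z₁, (mu ρ : ℂ) / (s₀ - ρ) ^ (k + 1) + ∑ ρ ∈ Z₂, (mu ρ : ℂ) / (s₀ - ρ) ^ (k + 1) :=
    (Finset.sum_filter_add_sum_filter_not Z _ _).symm
  have hBk := hB k
  rw [hsplit, mul_add] at hBk
  set P := (r : ℂ) ^ (k + 1) * ∑ ρ ∈ Z₁, (mu ρ : ℂ) / (s₀ - ρ) ^ (k + 1) with hP
  set Q := (r : ℂ) ^ (k + 1) * ∑ ρ ∈ Z₂, (mu ρ : ℂ) / (s₀ - ρ) ^ (k + 1) with hQ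
  have htri : ‖P‖ ≤ ‖B k‖ + ‖Q‖ + ‖B k + (P + Q)‖ := by
    have e1 : P = (B k + (P + Q)) - Q - B k := by ring
    calc ‖P‖ = ‖(B k + (P + Q)) - Q - B k‖ := by rw [← e1]
      _ ≤ ‖(B k + (P + Q)) - Q‖ + ‖B k‖ := norm_sub_le _ _
      _ ≤ ‖B k + (P + Q)‖ + ‖Q‖ + ‖B k‖ := by
        have := norm_sub_le (B k + (P + Q)) Q
        linarith
      _ = _ := by ring
  have hnum := tlow_num m Z₁.card k X (by linarith) hXm hcard (by omega) hm2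
  linarith

end Pool.Agent.Lib.MP_629a14_nt.Lf
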