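import Mathlib

/-! Turan's second main theorem on power sums. -/

set_option autoImplicit false

namespace Pool.Agent.Lib.MP_629a14_nt.Lf

open Finset

private lemma turan_F (θ : ℝ) (h0 : 0 < θ) (u : ℝ) :
    θ * Real.log (θ / 2) ≤ (u + θ) * Real.log (u + θ) - u * Real.log u := by
  have hlog : Real.log (θ / 2) ≤ Real.log θ := Real.log_le_log (by positivity) (by linarith)
  have key : ∀ w : ℝ, 0 ≤ w → θ * Real.log θ ≤ (w + θ) * Real.log (w + θ) - w * Real.log w := by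
    intro w hw
    have h2 : Real.log θ ≤ Real.log (w + θ) := Real.log_le_log h0 (by linarith)
    have h3 : w * Real.log w ≤ w * Real.log (w + θ) := by
      rcases hw.eq_or_lt with h | h
      · rw [← h]; simp
      · exact mul_le_mul_of_nonneg_left (Real.log_le_log h (by linarith)) hw
    have h4 := mul_le_mul_of_nonneg_left h2 h0.le
    nlinarith
  have hmul := mul_le_mul_of_nonneg_left hlog h0.le
  rcases le_or_gt 0 u with hu | hu
  · exact hmul.trans (key u hu)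
  · rcases le_or_gt (u + θ) 0 with hv | hv
    · have h5 := key (-(u + θ)) (by linarith)
      have e1 : -(u + θ) + θ = -u := by ring
      rw [e1, Real.log_neg_eq_log, Real.log_neg_eq_log] at h5
      linarith
    · have hj : ∀ p : ℝ, 0 < p → p * Real.log (θ / 2) + (p - θ / 2) ≤ p * Real.log p := by
        intro p hp
        have hc : 0 < θ / 2 := by positivity
        have h6 := Real.one_sub_inv_le_log_of_pos (div_pos hp hc)
        rw [Real.log_div hp.ne' hc.ne', inv_div] at h6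
        have h7 := mul_le_mul_of_nonneg_left h6 hp.le
        have e2 : p * (1 - θ / 2 / p) = p - θ / 2 := by field_simp
        rw [e2] at h7
        linarith
      have h8 := hj (u + θ) hv
      have h9 := hj (-u) (by linarith)
      rw [Real.log_neg_eq_log] at h9
      nlinarith

private lemma turan_int (θ : ℝ) (h0 : 0 < θ) (a : ℝ) :
    θ * (Real.log (θ / 2) - 1) ≤ ∫ ρ in (1 - θ)..1, Real.log (ρ - a) := by
  have e : (∫ ρ in (1 - θ)..1, Real.log (ρ - a)) = ∫ s in (1 - θ - a)..(1 - a), Real.log s :=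
    intervalIntegral.integral_comp_sub_right (fun s => Real.log s) a
  rw [e, integral_log]
  have h := turan_F θ h0 (1 - θ - a)
  have e2 : 1 - θ - a + θ = 1 - a := by ring
  rw [e2] at h
  linarith

/-- Proof. For `a` real, `(1/θ) ∫_{1-θ}^{1} log |ρ - a| dρ ≥ log(θ/2) - 1` (the worst `a` is the midpoint), so some
`ρ` has `∑_j log |ρ - a_j| ≥ n (log(θ/2) - 1)`, and `2e < 6`. (Or: the measure of `ρ ∈ [1-θ, 1]` ... any proof.) -/
theorem good_radius {ι : Type*} [Fintype ι] (a : ι → ℝ) (θ : ℝ) (h0 : 0 < θ) (h1 : θ ≤ 1 / 2) :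
    ∃ ρ : ℝ, 1 - θ ≤ ρ ∧ ρ ≤ 1 ∧ (∀ j, ρ ≠ a j) ∧ (θ / 6) ^ (Fintype.card ι) ≤ ∏ j, |ρ - a j| := by
  rcases isEmpty_or_nonempty ι with hι | hι
  · exact ⟨1, by linarith, le_refl _, fun j => (hι.false j).elim, by simp⟩
  by_contra hcon
  push Not at hcon
  have hn : 0 < (Fintype.card ι : ℝ) := by exact_mod_cast Fintype.card_pos
  have hint : ∀ j : ι, IntervalIntegrable (fun ρ => Real.log (ρ - a j)) MeasureTheory.volume (1 - θ) 1 := by
    intro j
    have h := (intervalIntegral.intervalIntegrable_log' (a := 1 - θ - a j) (b := 1 - a j)).comp_sub_right (a j)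
    simpa using h
  have hsum : (Fintype.card ι : ℝ) * (θ * (Real.log (θ / 2) - 1)) ≤
      ∫ ρ in (1 - θ)..1, ∑ j, Real.log (ρ - a j) := by
    rw [intervalIntegral.integral_finsetSum (fun j _ => hint j)]
    calc (Fintype.card ι : ℝ) * (θ * (Real.log (θ / 2) - 1))
        = ∑ j : ι, θ * (Real.log (θ / 2) - 1) := by simp
      _ ≤ _ := Finset.sum_le_sum (fun j _ => turan_int θ h0 (a j))
  have hle : (∫ ρ in (1 - θ)..1, ∑ j, Real.log (ρ - a j)) ≤
      ∫ ρ in (1 - θ)..1, (Fintype.card ι : ℝ) * Real.log (θ / 6) := by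
    refine intervalIntegral.integral_mono_ae_restrict (by linarith) ?_ (by simp) ?_
    · have h := IntervalIntegrable.sum (μ := MeasureTheory.volume) (a := 1 - θ) (b := 1) Finset.univ
        (f := fun (j : ι) ρ => Real.log (ρ - a j)) (fun j _ => hint j)
      have e5 : (fun ρ => ∑ j, Real.log (ρ - a j)) = ∑ j, fun ρ => Real.log (ρ - a j) := by
        ext ρ; simp
      rw [e5]
      exact h
    · have hfin : (Set.range a).Finite := Set.finite_range a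
      have h2 : ∀ᵐ ρ ∂(MeasureTheory.volume.restrict (Set.Icc (1 - θ) 1)), ρ ∉ Set.range a :=
        MeasureTheory.ae_restrict_of_ae (MeasureTheory.compl_mem_ae_iff.2 (hfin.measure_zero _))
      filter_upwards [h2, MeasureTheory.ae_restrict_mem measurableSet_Icc] with ρ h3 h4
      have hne : ∀ j, ρ ≠ a j := fun j hj => h3 ⟨j, hj.symm⟩
      have h5 := hcon ρ h4.1 h4.2 hne
      have hpos : ∀ j, 0 < |ρ - a j| := fun j => abs_pos.2 (sub_ne_zero.2 (hne j))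
      have h6 := Real.log_le_log (Finset.prod_pos fun j _ => hpos j) h5.le
      rw [Real.log_prod (fun j _ => (hpos j).ne'), Real.log_pow] at h6
      simpa [Real.log_abs] using h6
  rw [intervalIntegral.integral_const] at hle
  have h7 := hsum.trans hle
  have e3 : (1 - (1 - θ)) • ((Fintype.card ι : ℝ) * Real.log (θ / 6)) =
      (Fintype.card ι : ℝ) * (θ * Real.log (θ / 6)) := by
    rw [smul_eq_mul]; ring
  rw [e3] at h7
  have h8 := le_of_mul_le_mul_left h7 hn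
  have h9 := le_of_mul_le_mul_left h8 h0
  have e4 : Real.log (θ / 6) = Real.log (θ / 2) - Real.log 3 := by
    rw [← Real.log_div (by positivity) (by norm_num)]
    congr 1; ring
  have h10 : 1 < Real.log 3 := by
    rw [Real.lt_log_iff_exp_lt (by norm_num)]
    exact Real.exp_one_lt_d9.trans (by norm_num)
  linarith


private lemma turan_pow_int (ρ : ℝ) (m : ℕ) (hm : 1 ≤ m) :
    (∮ z in C(0, ρ), (z ^ (m + 1))⁻¹) = 0 := by
  have h := circleIntegral.integral_sub_zpow_of_ne (n := -(((m + 1 : ℕ) : ℤ))) (by omega) (0 : ℂ) 0 ρ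
  rw [← h]
  congr 1
  ext z
  rw [sub_zero, zpow_neg, zpow_natCast]

private lemma turan_kstep (ρ : ℝ) (hρ : 0 < ρ) (a : ℂ) (ha : ‖a‖ ≠ ρ) (m : ℕ) :
    (∮ z in C(0, ρ), a ^ (m + 1) * (z ^ (m + 1))⁻¹ * (z - a)⁻¹) =
      (∮ z in C(0, ρ), a ^ m * (z ^ m)⁻¹ * (z - a)⁻¹) - a ^ m * ∮ z in C(0, ρ), (z ^ (m + 1))⁻¹ := by
  have hz0 : ∀ z ∈ Metric.sphere (0 : ℂ) ρ, z ≠ 0 := by
    intro z hz h
    rw [mem_sphere_zero_iff_norm, h, norm_zero] at hz
    exact hρ.ne hz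
  have hza : ∀ z ∈ Metric.sphere (0 : ℂ) ρ, z - a ≠ 0 := by
    intro z hz h
    rw [mem_sphere_zero_iff_norm] at hz
    exact ha (by rw [← sub_eq_zero.1 h, hz])
  have c1 : ContinuousOn (fun z : ℂ => (z ^ (m + 1))⁻¹) (Metric.sphere (0 : ℂ) ρ) :=
    (continuous_id.pow _).continuousOn.inv₀ fun z hz => pow_ne_zero _ (hz0 z hz)
  have c2 : ContinuousOn (fun z : ℂ => a ^ m * (z ^ m)⁻¹ * (z - a)⁻¹) (Metric.sphere (0 : ℂ) ρ) :=
    (continuousOn_const.mul ((continuous_id.pow _).continuousOn.inv₀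
      fun z hz => pow_ne_zero _ (hz0 z hz))).mul
      ((continuous_id.sub continuous_const).continuousOn.inv₀ hza)
  have c3 : ContinuousOn (fun z : ℂ => a ^ m * (z ^ (m + 1))⁻¹) (Metric.sphere (0 : ℂ) ρ) :=
    continuousOn_const.mul c1
  rw [← circleIntegral.integral_const_mul, ← circleIntegral.integral_sub
    (c2.circleIntegrable hρ.le) (c3.circleIntegrable hρ.le)]
  refine circleIntegral.integral_congr hρ.le ?_
  intro z hz
  have h1 := hz0 z hz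
  have h2 := hza z hz
  simp only
  field_simp
  ring

private lemma turan_kall (ρ : ℝ) (hρ : 0 < ρ) (a : ℂ) (ha : ‖a‖ ≠ ρ) (m : ℕ) :
    (∮ z in C(0, ρ), a ^ (m + 1) * (z ^ (m + 1))⁻¹ * (z - a)⁻¹) =
      (∮ z in C(0, ρ), (z - a)⁻¹) - 2 * Real.pi * Complex.I := by
  induction m with
  | zero =>
    rw [turan_kstep ρ hρ a ha 0]
    have h := circleIntegral.integral_sub_inv_of_mem_ball (c := (0 : ℂ)) (w := 0) (R := ρ)
      (Metric.mem_ball_self hρ)
    simp only [sub_zero] at h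
    simp [h]
  | succ m ih =>
    rw [turan_kstep ρ hρ a ha (m + 1), ih, turan_pow_int ρ (m + 1) (by omega)]
    simp

/-- Proof. `a^{m+1}/(z^{m+1}(z-a)) = 1/(z-a) - ∑_{i=0}^{m} a^i/z^{i+1}`. The terms with `i ≥ 1` integrate to zero
(`circleIntegral.integral_sub_zpow_of_ne`), the term `i = 0` gives `2πi`, and `1/(z-a)` gives `2πi` if `|a| < ρ` and
zero if `|a| > ρ`. -/
theorem kernel (ρ : ℝ) (hρ : 0 < ρ) (a : ℂ) (m : ℕ) :
    (‖a‖ < ρ → (∮ z in C(0, ρ), a ^ (m + 1) * (z ^ (m + 1))⁻¹ * (z - a)⁻¹) = 0) ∧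
    (ρ < ‖a‖ → (∮ z in C(0, ρ), a ^ (m + 1) * (z ^ (m + 1))⁻¹ * (z - a)⁻¹) = -(2 * Real.pi * Complex.I)) := by
  constructor
  · intro h
    rw [turan_kall ρ hρ a h.ne m, circleIntegral.integral_sub_inv_of_mem_ball (by simpa using h)]
    ring
  · intro h
    rw [turan_kall ρ hρ a h.ne' m]
    have hd : DiffContOnCl ℂ (fun z : ℂ => (z - a)⁻¹) (Metric.ball 0 ρ) := by
      refine DiffContOnCl.inv ?_ ?_
      · exact (differentiable_id.sub_const a).diffContOnCl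
      · intro z hz hza
        have h1 : z ∈ Metric.closedBall (0 : ℂ) ρ := Metric.closure_ball_subset_closedBall hz
        rw [mem_closedBall_zero_iff, sub_eq_zero.1 hza] at h1
        linarith
    rw [hd.circleIntegral_eq_zero hρ.le]
    ring

private lemma turan_id {ι R : Type*} [Fintype ι] [DecidableEq ι] [CommRing R] [IsDomain R]
    (z : ι → R) (w : R) (j : ι) (hj : w ≠ z j) :
    ∏ i ∈ univ.erase j, (w - z i) =
      ∑ T : Finset ι, (∏ i ∈ Tᶜ, (-z i)) * ∑ l ∈ range T.card, w ^ l * z j ^ (T.card - 1 - l) := by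
  have h1 : ∀ x : R, ∏ i, (x - z i) = ∑ T : Finset ι, (∏ i ∈ Tᶜ, (-z i)) * x ^ T.card := by
    intro x
    simp_rw [sub_eq_add_neg]
    rw [Fintype.prod_add]
    refine Finset.sum_congr rfl fun T _ => ?_
    rw [Finset.prod_const]; ring
  have h2 : ∏ i, (z j - z i) = 0 := Finset.prod_eq_zero (Finset.mem_univ j) (sub_self _)
  have h3 : (w - z j) * ∏ i ∈ univ.erase j, (w - z i) = ∏ i, (w - z i) :=
    Finset.mul_prod_erase univ (fun i => w - z i) (Finset.mem_univ j)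
  refine mul_left_cancel₀ (sub_ne_zero.2 hj) ?_
  rw [h3, ← sub_zero (∏ i, (w - z i)), ← h2, h1, h1, ← Finset.sum_sub_distrib, Finset.mul_sum]
  refine Finset.sum_congr rfl fun T _ => ?_
  have h4 : (w - z j) * ∑ l ∈ range T.card, w ^ l * z j ^ (T.card - 1 - l) = w ^ T.card - z j ^ T.card := by
    rw [mul_comm]
    exact (Commute.all w (z j)).geom_sum₂_mul T.card
  calc _ = (∏ i ∈ Tᶜ, (-z i)) * (w ^ T.card - z j ^ T.card) := by ring
    _ = _ := by rw [← h4]; ring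

/-- Proof. Let `ω(z) = ∏ (z - z_i) = ∑ ω_k z^k`, `|ω_k| ≤ C(n,k)`. Then
`∏_{i ≠ j} (z - z_i) = (ω(z) - ω(z_j))/(z - z_j) = ∑_k ω_k ∑_{l < k} z^{k-1-l} z_j^l`, so the left side is
`∑_k ω_k ∑_{l<k} z^{k-1-l} s_{m+1+l}` with `s_k = ∑_j b_j z_j^k`, at most `∑_k C(n,k) k S ≤ n 2^n S`. -/
theorem poly_bound {ι : Type*} [Fintype ι] [DecidableEq ι] (z : ι → ℂ) (b : ι → ℝ) (hz : ∀ j, ‖z j‖ ≤ 1)
    (m : ℕ) (S : ℝ)
    (hS : ∀ k : ℕ, m + 1 ≤ k → k ≤ m + Fintype.card ι → ‖∑ j, (b j : ℂ) * z j ^ k‖ ≤ S) (w : ℂ) (hw : ‖w‖ ≤ 1) :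
    ‖∑ j, (b j : ℂ) * z j ^ (m + 1) * ∏ i ∈ univ.erase j, (w - z i)‖ ≤
      Fintype.card ι * 2 ^ (Fintype.card ι) * S := by
  rcases isEmpty_or_nonempty ι with hι | hι
  · simp
  -- the identity
  have key : ∀ j : ι, ∏ i ∈ univ.erase j, (w - z i) =
      ∑ T : Finset ι, (∏ i ∈ Tᶜ, (-z i)) * ∑ l ∈ range T.card, w ^ l * z j ^ (T.card - 1 - l) := by
    intro j
    have h := turan_id (fun i => Polynomial.C (z i)) Polynomial.X j (Polynomial.X_ne_C _)
    have h2 := congrArg (Polynomial.evalRingHom w) h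
    simpa [Polynomial.eval_prod, Polynomial.eval_finsetSum] using h2
  simp_rw [key, Finset.mul_sum]
  rw [Finset.sum_comm]
  have hS0 : 0 ≤ S := (norm_nonneg _).trans (hS (m + 1) le_rfl (by have := Fintype.card_pos (α := ι); omega))
  have hT : ∀ T : Finset ι, ‖∑ j, ∑ l ∈ range T.card, (b j : ℂ) * z j ^ (m + 1) *
      ((∏ i ∈ Tᶜ, (-z i)) * (w ^ l * z j ^ (T.card - 1 - l)))‖ ≤ Fintype.card ι * S := by
    intro T
    rw [Finset.sum_comm]
    have hcT : T.card ≤ Fintype.card ι := Finset.card_le_univ T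
    calc _ ≤ ∑ l ∈ range T.card, ‖∑ j, (b j : ℂ) * z j ^ (m + 1) *
      ((∏ i ∈ Tᶜ, (-z i)) * (w ^ l * z j ^ (T.card - 1 - l)))‖ := norm_sum_le _ _
      _ ≤ ∑ l ∈ range T.card, S := by
        refine Finset.sum_le_sum fun l hl => ?_
        rw [Finset.mem_range] at hl
        have e1 : ∑ j, (b j : ℂ) * z j ^ (m + 1) * ((∏ i ∈ Tᶜ, (-z i)) * (w ^ l * z j ^ (T.card - 1 - l))) =
            (∏ i ∈ Tᶜ, (-z i)) * w ^ l * ∑ j, (b j : ℂ) * z j ^ (m + 1 + (T.card - 1 - l)) := by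
          rw [Finset.mul_sum]
          refine Finset.sum_congr rfl fun j _ => ?_
          rw [pow_add]; ring
        rw [e1, norm_mul, norm_mul, norm_prod, norm_pow]
        have h1 : ∏ i ∈ Tᶜ, ‖-z i‖ ≤ 1 := Finset.prod_le_one (fun _ _ => norm_nonneg _)
          (fun i _ => by rw [norm_neg]; exact hz i)
        have h2 : ‖w‖ ^ l ≤ 1 := pow_le_one₀ (norm_nonneg _) hw
        have h3 := hS (m + 1 + (T.card - 1 - l)) (by omega) (by omega)
        have h4 : (∏ i ∈ Tᶜ, ‖-z i‖) * ‖w‖ ^ l ≤ 1 := mul_le_one₀ h1 (by positivity) h2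
        calc _ ≤ 1 * S := mul_le_mul h4 h3 (norm_nonneg _) zero_le_one
          _ = S := one_mul S
      _ = T.card * S := by simp
      _ ≤ Fintype.card ι * S := mul_le_mul_of_nonneg_right (by exact_mod_cast hcT) hS0
  calc _ ≤ ∑ T : Finset ι, ‖∑ j, ∑ l ∈ range T.card, (b j : ℂ) * z j ^ (m + 1) *
      ((∏ i ∈ Tᶜ, (-z i)) * (w ^ l * z j ^ (T.card - 1 - l)))‖ := norm_sum_le _ _
    _ ≤ ∑ T : Finset ι, Fintype.card ι * S := Finset.sum_le_sum fun T _ => hT T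
    _ = Fintype.card ι * 2 ^ (Fintype.card ι) * S := by
      simp
      ring

private lemma turan_exp (θ ρ : ℝ) (hθ : 0 < θ) (hθ1 : θ ≤ 1 / 2) (hρ : 1 - θ ≤ ρ) (m : ℕ) :
    Real.exp (-(2 * θ * m)) ≤ ρ ^ m := by
  have h1 : Real.exp (-(2 * θ)) ≤ 1 - θ := by
    rw [Real.exp_neg]
    have h2 : 2 * θ + 1 ≤ Real.exp (2 * θ) := Real.add_one_le_exp _
    have h3 : (Real.exp (2 * θ))⁻¹ ≤ (2 * θ + 1)⁻¹ := inv_anti₀ (by positivity) h2
    refine h3.trans ?_
    rw [inv_le_iff_one_le_mul₀ (by positivity)]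
    nlinarith
  have h4 : Real.exp (-(2 * θ * m)) = Real.exp (-(2 * θ)) ^ m := by
    rw [← Real.exp_nat_mul]; congr 1; ring
  rw [h4]
  exact pow_le_pow_left₀ (Real.exp_nonneg _) (h1.trans hρ) m

/-- Proof. Take `ρ` from `good_radius` for `a_j = ‖z_j‖`; then `ρ < 1 = ‖z_{j₀}‖`. By `kernel`,
`∑_{‖z_j‖ > ρ} b_j = -(1/2πi) ∮_{|z| = ρ} ∑_j b_j z_j^{m+1} z^{-(m+1)}/(z - z_j) dz`, and the integrand is
`z^{-(m+1)} A(z)/ω(z)` with `A` as in `poly_bound` and `|ω(z)| ≥ ∏ |ρ - ‖z_j‖| ≥ (θ/6)^n`. So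
`1 ≤ ρ^{-m} n 2^n S (6/θ)^n ≤ (1-θ)^{-m} (24/θ)^n S`, and `1-θ ≥ exp(-2θ)`. -/
theorem turan {ι : Type*} [Fintype ι] (z : ι → ℂ) (b : ι → ℝ) (hb : ∀ j, 0 ≤ b j) (j₀ : ι)
    (h0 : ‖z j₀‖ = 1) (hb0 : 1 ≤ b j₀) (hz : ∀ j, ‖z j‖ ≤ 1) (m : ℕ) (θ : ℝ) (hθ : 0 < θ) (hθ1 : θ ≤ 1 / 2) :
    ∃ k : ℕ, m + 1 ≤ k ∧ k ≤ m + Fintype.card ι ∧
      Real.exp (-(2 * θ * m)) * (θ / 24) ^ (Fintype.card ι) ≤ ‖∑ j, (b j : ℂ) * z j ^ k‖ := by
  classical
  by_contra hcon
  push Not at hcon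
  obtain ⟨ρ, hρ1, hρ2, hρne, hprod⟩ := good_radius (fun j => ‖z j‖) θ hθ hθ1
  set n := Fintype.card ι with hn
  set S : ℝ := Real.exp (-(2 * θ * m)) * (θ / 24) ^ n with hS
  have hS0 : 0 < S := by positivity
  have hρ0 : 0 < ρ := by linarith
  have hρlt : ρ < ‖z j₀‖ := by
    rw [h0]
    exact lt_of_le_of_ne hρ2 (fun h => hρne j₀ (by rw [h0]; exact h))
  have hpb := fun (w : ℂ) (hw : ‖w‖ ≤ 1) => poly_bound z b hz m S (fun k h1 h2 => (hcon k h1 h2).le) w hw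
  have hw0 : ∀ w ∈ Metric.sphere (0 : ℂ) ρ, w ≠ 0 := by
    intro w hw h
    rw [mem_sphere_zero_iff_norm, h, norm_zero] at hw
    exact hρ0.ne hw
  have hwz : ∀ j, ∀ w ∈ Metric.sphere (0 : ℂ) ρ, w - z j ≠ 0 := by
    intro j w hw h
    rw [mem_sphere_zero_iff_norm] at hw
    exact hρne j (by rw [← sub_eq_zero.1 h, hw])
  have hci : ∀ j ∈ (univ : Finset ι), CircleIntegrable
      (fun w : ℂ => (b j : ℂ) * (z j ^ (m + 1) * (w ^ (m + 1))⁻¹ * (w - z j)⁻¹)) 0 ρ := by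
    intro j _
    refine ContinuousOn.circleIntegrable hρ0.le ?_
    exact continuousOn_const.mul ((continuousOn_const.mul ((continuous_id.pow _).continuousOn.inv₀
      fun w hw => pow_ne_zero _ (hw0 w hw))).mul
      ((continuous_id.sub continuous_const).continuousOn.inv₀ (hwz j)))
  have hval : (∮ w in C(0, ρ), ∑ j, (b j : ℂ) * (z j ^ (m + 1) * (w ^ (m + 1))⁻¹ * (w - z j)⁻¹)) =
      -(2 * Real.pi * Complex.I) * ((∑ j, if ρ < ‖z j‖ then b j else 0 : ℝ) : ℂ) := by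
    rw [circleIntegral.integral_fun_sum hci, Complex.ofReal_sum, Finset.mul_sum]
    refine Finset.sum_congr rfl fun j _ => ?_
    rw [circleIntegral.integral_const_mul]
    split_ifs with h
    · rw [(kernel ρ hρ0 (z j) m).2 h]; ring
    · have h2 : ‖z j‖ < ρ := lt_of_le_of_ne (not_lt.1 h) (fun h => hρne j h.symm)
      rw [(kernel ρ hρ0 (z j) m).1 h2]; simp
  have hsum1 : (1 : ℝ) ≤ ∑ j, if ρ < ‖z j‖ then b j else 0 := by
    calc (1 : ℝ) ≤ b j₀ := hb0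
      _ = if ρ < ‖z j₀‖ then b j₀ else 0 := by rw [if_pos hρlt]
      _ ≤ _ := Finset.single_le_sum (f := fun j => if ρ < ‖z j‖ then b j else 0)
        (fun j _ => by split_ifs <;> simp [hb j]) (Finset.mem_univ j₀)
  have hlow : 2 * Real.pi ≤ ‖∮ w in C(0, ρ), ∑ j, (b j : ℂ) * (z j ^ (m + 1) * (w ^ (m + 1))⁻¹ * (w - z j)⁻¹)‖ := by
    rw [hval, norm_mul, norm_neg, Complex.norm_real]
    have e1 : ‖(2 * Real.pi * Complex.I : ℂ)‖ = 2 * Real.pi := by
      simp [abs_of_pos Real.pi_pos]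
    rw [e1, Real.norm_eq_abs]
    have h2 := le_abs_self (∑ j, if ρ < ‖z j‖ then b j else 0)
    have h3 := Real.pi_pos
    nlinarith
  have hup : ‖∮ w in C(0, ρ), ∑ j, (b j : ℂ) * (z j ^ (m + 1) * (w ^ (m + 1))⁻¹ * (w - z j)⁻¹)‖ ≤
      2 * Real.pi * ρ * ((ρ ^ (m + 1))⁻¹ * ((θ / 6) ^ n)⁻¹ * (n * 2 ^ n * S)) := by
    refine circleIntegral.norm_integral_le_of_norm_le_const hρ0.le fun w hw => ?_
    have hwρ : ‖w‖ = ρ := by rwa [mem_sphere_zero_iff_norm] at hw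
    have hP0 : ∏ i, (w - z i) ≠ 0 := Finset.prod_ne_zero_iff.2 fun i _ => hwz i w hw
    have e2 : ∑ j, (b j : ℂ) * (z j ^ (m + 1) * (w ^ (m + 1))⁻¹ * (w - z j)⁻¹) =
        (w ^ (m + 1))⁻¹ * (∏ i, (w - z i))⁻¹ *
          ∑ j, (b j : ℂ) * z j ^ (m + 1) * ∏ i ∈ univ.erase j, (w - z i) := by
      rw [Finset.mul_sum]
      refine Finset.sum_congr rfl fun j _ => ?_
      have h3 : (w - z j) * ∏ i ∈ univ.erase j, (w - z i) = ∏ i, (w - z i) :=
        Finset.mul_prod_erase univ (fun i => w - z i) (Finset.mem_univ j)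
      have h4 : ∏ i ∈ univ.erase j, (w - z i) ≠ 0 := Finset.prod_ne_zero_iff.2 fun i _ => hwz i w hw
      have h5 := hwz j w hw
      have h6 := hw0 w hw
      rw [← h3]
      field_simp
    rw [e2, norm_mul, norm_mul, norm_inv, norm_inv, norm_pow, norm_prod, hwρ]
    refine mul_le_mul ?_ (hpb w (by rw [hwρ]; exact hρ2)) (norm_nonneg _) (by positivity)
    refine mul_le_mul_of_nonneg_left ?_ (by positivity)
    refine inv_anti₀ (by positivity) ?_
    refine hprod.trans (Finset.prod_le_prod (fun _ _ => abs_nonneg _) fun j _ => ?_)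
    have h7 := abs_norm_sub_norm_le w (z j)
    rwa [hwρ] at h7
  have hfin := hlow.trans hup
  have h8 : 1 ≤ ρ * ((ρ ^ (m + 1))⁻¹ * ((θ / 6) ^ n)⁻¹ * (n * 2 ^ n * S)) := by
    have h9 := Real.two_pi_pos
    have h10 : 2 * Real.pi * 1 ≤ 2 * Real.pi * (ρ * ((ρ ^ (m + 1))⁻¹ * ((θ / 6) ^ n)⁻¹ * (n * 2 ^ n * S))) := by
      rw [mul_one, ← mul_assoc]; exact hfin
    exact le_of_mul_le_mul_left h10 h9
  have h11 : ρ * ((ρ ^ (m + 1))⁻¹ * ((θ / 6) ^ n)⁻¹ * (n * 2 ^ n * S)) =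
      (Real.exp (-(2 * θ * m)) / ρ ^ m) * (n / 2 ^ n) := by
    have e3 : (θ / 24) ^ n = (θ / 6) ^ n * (1 / 4) ^ n := by rw [← mul_pow]; congr 1; ring
    have e4 : (4 : ℝ) ^ n = 2 ^ n * 2 ^ n := by rw [← mul_pow]; norm_num
    rw [hS, e3, one_div, inv_pow, e4, pow_succ]
    field_simp
  have h12 : Real.exp (-(2 * θ * m)) / ρ ^ m ≤ 1 :=
    div_le_one_of_le₀ (turan_exp θ ρ hθ hθ1 hρ1 m) (by positivity)
  have h13 : (n : ℝ) / 2 ^ n < 1 := by
    rw [div_lt_one (by positivity)]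
    exact_mod_cast Nat.lt_two_pow_self
  have h14 : 0 ≤ (n : ℝ) / 2 ^ n := by positivity
  rw [h11] at h8
  nlinarith [mul_le_mul_of_nonneg_right h12 h14]

end Pool.Agent.Lib.MP_629a14_nt.Lf
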