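import Pool.Agent.Lib.MP_629a14_nt.Lf.WsumA
import Pool.Agent.Lib.MP_629a14_nt.Lf.Gs2
import Pool.Agent.Lib.MP_629a14_nt.Th.IIbd

/-! The sum over moduli for a fixed pair of primitive characters (Montgomery and Vaughan). -/

set_option autoImplicit false

namespace Pool.Agent.Lib.MP_629a14_nt.Lf

open Finset Pool.Agent.Lib.MP_629a14_nt Pool.Agent.Lib.MP_629a14_nt.Th

/-- One term. Proof. Let `r_i = cond χ_i`, `l = lcm(r₁,r₂)`, `q = l m`. If the left side is not zero, `gs_one_ne_zero` (for `χ_i⁻¹`) shows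
that `q/r_i` is squarefree and coprime to `r_i`, hence `m` is squarefree and coprime to `l`; and `gs_eq_zero`:
`r₃ = cond(χ₁χ₂)` divides `q/(q,n) = l₁ m₁`, `l₁ = l/(l,n)`, `m₁ = m/(m,n)`. Since `r₃ ∣ l` and `(m₁,l) = 1`: `r₃ ∣ l₁`. By
`norm_gs_one_le`, `norm_gs_le` the left side is at most
`√(r₁r₂r₃)/(φ(q) φ(q/(q,n))) ≤ l √l₁/(φ(l) φ(l₁)) · 1/(φ(m) φ(m₁))`; `l_part`. -/
theorem w_term (q n : ℕ) [NeZero q] (hn : 1 ≤ n) (χ₁ χ₂ : DirichletCharacter ℂ q) (l : ℕ)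
    (hl : l = Nat.lcm χ₁.conductor χ₂.conductor)
    (h : ‖gs χ₁⁻¹ 1‖ * ‖gs χ₂⁻¹ 1‖ * ‖gs (χ₁ * χ₂) (-(n : ℤ))‖ ≠ 0) :
    l ∣ q ∧ Squarefree (q / l) ∧ (q / l).Coprime l ∧
    ((q.totient : ℝ) ^ 2)⁻¹ * (‖gs χ₁⁻¹ 1‖ * ‖gs χ₂⁻¹ 1‖ * ‖gs (χ₁ * χ₂) (-(n : ℤ))‖) ≤
      4 * ((Nat.gcd l n : ℝ) / (Nat.gcd l n).totient) *
        (1 / (((q / l).totient : ℝ) * ((q / l / Nat.gcd (q / l) n).totient : ℝ))) := by
  have hq0 : q ≠ 0 := NeZero.ne q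
  have hg1 : gs χ₁⁻¹ 1 ≠ 0 := by
    intro h0; apply h; rw [h0]; simp
  have hg2 : gs χ₂⁻¹ 1 ≠ 0 := by
    intro h0; apply h; rw [h0]; simp
  have hg3 : gs (χ₁ * χ₂) (-(n : ℤ)) ≠ 0 := by
    intro h0; apply h; rw [h0]; simp
  obtain ⟨s1, c1⟩ := gs_one_ne_zero q χ₁⁻¹ hg1
  obtain ⟨s2, c2⟩ := gs_one_ne_zero q χ₂⁻¹ hg2
  rw [DirichletCharacter.conductor_inv] at s1 c1 s2 c2
  have hd3 : (χ₁ * χ₂).conductor ∣ q / Nat.gcd q n := by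
    by_contra hcon
    apply hg3
    apply gs_eq_zero
    rwa [Int.natAbs_neg, Int.natAbs_natCast]
  set r₁ := χ₁.conductor with hr₁
  set r₂ := χ₂.conductor with hr₂
  have hr₁q : r₁ ∣ q := χ₁.conductor_dvd_level
  have hr₂q : r₂ ∣ q := χ₂.conductor_dvd_level
  have hlq : l ∣ q := by rw [hl]; exact Nat.lcm_dvd hr₁q hr₂q
  have hl0 : l ≠ 0 := fun h0 => hq0 (Nat.eq_zero_of_zero_dvd (h0 ▸ hlq))
  have hr₁l : r₁ ∣ l := by rw [hl]; exact Nat.dvd_lcm_left _ _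
  have hr₂l : r₂ ∣ l := by rw [hl]; exact Nat.dvd_lcm_right _ _
  obtain ⟨m, hm⟩ := hlq
  have hlpos : 0 < l := Nat.pos_of_ne_zero hl0
  have hql : q / l = m := by rw [hm]; exact Nat.mul_div_cancel_left m hlpos
  have hm0 : m ≠ 0 := by
    rintro rfl
    exact hq0 (by rw [hm, mul_zero])
  have hmpos : 0 < m := Nat.pos_of_ne_zero hm0
  have hm1 : m ∣ q / r₁ := by
    obtain ⟨e, he⟩ := hr₁l
    have hr₁0 : 0 < r₁ := Nat.pos_of_ne_zero (fun h0 => hl0 (by rw [he, h0, zero_mul]))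
    refine ⟨e, ?_⟩
    rw [hm, he, mul_assoc, Nat.mul_div_cancel_left _ hr₁0, mul_comm]
  have hm2 : m ∣ q / r₂ := by
    obtain ⟨e, he⟩ := hr₂l
    have hr₂0 : 0 < r₂ := Nat.pos_of_ne_zero (fun h0 => hl0 (by rw [he, h0, zero_mul]))
    refine ⟨e, ?_⟩
    rw [hm, he, mul_assoc, Nat.mul_div_cancel_left _ hr₂0, mul_comm]
  have hmsq : Squarefree m := Squarefree.squarefree_of_dvd hm1 s1
  have hml : m.Coprime l := by
    have k1 : m.Coprime r₁ := Nat.Coprime.of_dvd_left hm1 c1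
    have k2 : m.Coprime r₂ := Nat.Coprime.of_dvd_left hm2 c2
    rw [hl]
    exact Nat.Coprime.of_dvd_right (Nat.lcm_dvd_mul r₁ r₂) (Nat.Coprime.mul_right k1 k2)
  refine ⟨⟨m, hm⟩, by rw [hql]; exact hmsq, by rw [hql]; exact hml, ?_⟩
  rw [hql]
  -- the gcd
  have hgcd : Nat.gcd q n = Nat.gcd l n * Nat.gcd m n := by
    rw [hm]
    exact Nat.Coprime.mul_gcd hml.symm n
  have hquot : q / Nat.gcd q n = (l / Nat.gcd l n) * (m / Nat.gcd m n) := by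
    rw [hgcd, Nat.div_mul_div_comm (Nat.gcd_dvd_left l n) (Nat.gcd_dvd_left m n), ← hm]
  set l₁ := l / Nat.gcd l n with hl₁
  set m₁ := m / Nat.gcd m n with hm₁
  have hl₁l : l₁ ∣ l := Nat.div_dvd_of_dvd (Nat.gcd_dvd_left l n)
  have hm₁m : m₁ ∣ m := Nat.div_dvd_of_dvd (Nat.gcd_dvd_left m n)
  have hl₁0 : l₁ ≠ 0 := fun h0 => hl0 (Nat.eq_zero_of_zero_dvd (h0 ▸ hl₁l))
  have hm₁0 : m₁ ≠ 0 := fun h0 => hm0 (Nat.eq_zero_of_zero_dvd (h0 ▸ hm₁m))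
  have hr₃l : (χ₁ * χ₂).conductor ∣ l := by
    rw [hl]
    exact DirichletCharacter.conductor_mul_dvd_lcm_conductor χ₁ χ₂
  have hr₃l₁ : (χ₁ * χ₂).conductor ∣ l₁ := by
    rw [hquot] at hd3
    refine Nat.Coprime.dvd_of_dvd_mul_right ?_ hd3
    exact Nat.Coprime.of_dvd_left hr₃l (Nat.Coprime.of_dvd_right hm₁m hml.symm)
  have hcop₁ : l₁.Coprime m₁ :=
    Nat.Coprime.of_dvd_left hl₁l (Nat.Coprime.of_dvd_right hm₁m hml.symm)
  have b1 : ‖gs χ₁⁻¹ 1‖ ≤ Real.sqrt l := by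
    have := norm_gs_one_le q χ₁⁻¹
    rw [DirichletCharacter.conductor_inv] at this
    refine this.trans (Real.sqrt_le_sqrt ?_)
    exact_mod_cast Nat.le_of_dvd hlpos hr₁l
  have b2 : ‖gs χ₂⁻¹ 1‖ ≤ Real.sqrt l := by
    have := norm_gs_one_le q χ₂⁻¹
    rw [DirichletCharacter.conductor_inv] at this
    refine this.trans (Real.sqrt_le_sqrt ?_)
    exact_mod_cast Nat.le_of_dvd hlpos hr₂l
  have b3 : ‖gs (χ₁ * χ₂) (-(n : ℤ))‖ ≤ Real.sqrt l₁ * ((q.totient : ℝ) / ((l₁.totient : ℝ) * m₁.totient)) := by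
    have h3 := norm_gs_le q (χ₁ * χ₂) (-(n : ℤ))
    rw [Int.natAbs_neg, Int.natAbs_natCast, hquot, Nat.totient_mul hcop₁, Nat.cast_mul] at h3
    refine h3.trans (mul_le_mul_of_nonneg_right (Real.sqrt_le_sqrt ?_) (by positivity))
    exact_mod_cast Nat.le_of_dvd (Nat.pos_of_ne_zero hl₁0) hr₃l₁
  have tl : (0 : ℝ) < l.totient := by exact_mod_cast Nat.totient_pos.2 hlpos
  have tm : (0 : ℝ) < m.totient := by exact_mod_cast Nat.totient_pos.2 hmpos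
  have tl₁ : (0 : ℝ) < l₁.totient := by exact_mod_cast Nat.totient_pos.2 (Nat.pos_of_ne_zero hl₁0)
  have tm₁ : (0 : ℝ) < m₁.totient := by exact_mod_cast Nat.totient_pos.2 (Nat.pos_of_ne_zero hm₁0)
  have tq : (q.totient : ℝ) = l.totient * m.totient := by
    rw [hm, Nat.totient_mul hml.symm, Nat.cast_mul]
  have hlp := l_part l n hlpos
  rw [← hl₁] at hlp
  calc ((q.totient : ℝ) ^ 2)⁻¹ * (‖gs χ₁⁻¹ 1‖ * ‖gs χ₂⁻¹ 1‖ * ‖gs (χ₁ * χ₂) (-(n : ℤ))‖)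
      ≤ ((q.totient : ℝ) ^ 2)⁻¹ * (Real.sqrt l * Real.sqrt l *
          (Real.sqrt l₁ * ((q.totient : ℝ) / ((l₁.totient : ℝ) * m₁.totient)))) := by
        gcongr
    _ = ((l : ℝ) * Real.sqrt l₁ / ((l.totient : ℝ) * l₁.totient)) *
          (1 / ((m.totient : ℝ) * m₁.totient)) := by
        rw [Real.mul_self_sqrt (Nat.cast_nonneg l), tq]
        field_simp
    _ ≤ 4 * ((Nat.gcd l n : ℝ) / (Nat.gcd l n).totient) * (1 / ((m.totient : ℝ) * m₁.totient)) :=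
        mul_le_mul_of_nonneg_right hlp (by positivity)

open Classical in
private lemma Wsum_fib (q : ℕ) [NeZero q] (x : CH) :
    (univ : Finset (DirichletCharacter ℂ q)).filter (fun χ => cls χ = x) = ∅ ∨
      ∃ χ : DirichletCharacter ℂ q, cls χ = x ∧
        (univ : Finset (DirichletCharacter ℂ q)).filter (fun χ => cls χ = x) = {χ} := by
  by_cases h : ∃ χ : DirichletCharacter ℂ q, cls χ = x
  · obtain ⟨χ, hχ⟩ := h
    refine Or.inr ⟨χ, hχ, ?_⟩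
    ext ψ
    rw [mem_filter, mem_singleton]
    constructor
    · rintro ⟨-, h⟩
      exact cls_inj q ψ χ (h.trans hχ.symm)
    · rintro rfl
      exact ⟨mem_univ _, hχ⟩
  · left
    rw [filter_eq_empty_iff]
    intro ψ _ hψ
    exact h ⟨ψ, hψ⟩

open Classical in
private lemma Wsum_one (q n : ℕ) [NeZero q] (hn : 1 ≤ n) (x₁ x₂ : CH) (l : ℕ) (hl : l = Nat.lcm x₁.1 x₂.1) :
    ((q.totient : ℝ) ^ 2)⁻¹ *
      ∑ χ₁ ∈ (univ : Finset (DirichletCharacter ℂ q)).filter (fun χ => cls χ = x₁),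
        ∑ χ₂ ∈ (univ : Finset (DirichletCharacter ℂ q)).filter (fun χ => cls χ = x₂),
          ‖gs χ₁⁻¹ 1‖ * ‖gs χ₂⁻¹ 1‖ * ‖gs (χ₁ * χ₂) (-(n : ℤ))‖ ≤
      4 * ((Nat.gcd l n : ℝ) / (Nat.gcd l n).totient) *
        (if l ∣ q ∧ (q / l).Coprime l ∧ Squarefree (q / l) then
          1 / (((q / l).totient : ℝ) * ((q / l / Nat.gcd (q / l) n).totient : ℝ)) else 0) := by
  have hR : 0 ≤ 4 * ((Nat.gcd l n : ℝ) / (Nat.gcd l n).totient) *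
        (if l ∣ q ∧ (q / l).Coprime l ∧ Squarefree (q / l) then
          1 / (((q / l).totient : ℝ) * ((q / l / Nat.gcd (q / l) n).totient : ℝ)) else 0) := by
    refine mul_nonneg (by positivity) ?_
    split_ifs
    · positivity
    · exact le_rfl
  rcases Wsum_fib q x₁ with h1 | ⟨χ₁, hχ₁, h1⟩
  · rw [h1, sum_empty, mul_zero]
    exact hR
  rcases Wsum_fib q x₂ with h2 | ⟨χ₂, hχ₂, h2⟩
  · rw [h2]
    simp only [sum_empty, sum_const_zero, mul_zero]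
    exact hR
  rw [h1, h2, sum_singleton, sum_singleton]
  by_cases h : ‖gs χ₁⁻¹ 1‖ * ‖gs χ₂⁻¹ 1‖ * ‖gs (χ₁ * χ₂) (-(n : ℤ))‖ = 0
  · rw [h, mul_zero]
    exact hR
  · have hl' : l = Nat.lcm χ₁.conductor χ₂.conductor := by
      rw [hl, ← hχ₁, ← hχ₂]
      rfl
    obtain ⟨e1, e2, e3, e4⟩ := w_term q n hn χ₁ χ₂ l hl' h
    rw [if_pos ⟨e1, e3, e2⟩]
    exact e4

open Classical in
/-- The characters modulo `q` of class `x` (at most one, `cls_inj`). Sum `w_term` over `q = l m` and use `m_part`,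
`gcd_pr`. -/
theorem w_sum : ∃ C : ℝ, 1 ≤ C ∧ ∀ (P n : ℕ) (x₁ x₂ : CH), 1 ≤ n → x₁.1 ≠ 0 → x₂.1 ≠ 0 →
    ∑ j ∈ range P, (((j + 1).totient : ℝ) ^ 2)⁻¹ *
      ∑ χ₁ ∈ (univ : Finset (DirichletCharacter ℂ (j + 1))).filter (fun χ => cls χ = x₁),
        ∑ χ₂ ∈ (univ : Finset (DirichletCharacter ℂ (j + 1))).filter (fun χ => cls χ = x₂),
          ‖gs χ₁⁻¹ 1‖ * ‖gs χ₂⁻¹ 1‖ * ‖gs (χ₁ * χ₂) (-(n : ℤ))‖ ≤ C * ((n : ℝ) / n.totient) := by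
  obtain ⟨C, hC, hm⟩ := m_part
  refine ⟨4 * C, by linarith, ?_⟩
  intro P n x₁ x₂ hn h1 h2
  set l := Nat.lcm x₁.1 x₂.1 with hl
  have hl0 : 1 ≤ l := Nat.lcm_pos (Nat.pos_of_ne_zero h1) (Nat.pos_of_ne_zero h2)
  refine (sum_le_sum fun j _ => Wsum_one (j + 1) n hn x₁ x₂ l hl).trans ?_
  rw [← mul_sum, ← sum_filter]
  set F : ℕ → ℝ := fun m => 1 / ((m.totient : ℝ) * ((m / Nat.gcd m n).totient : ℝ)) with hF
  set S := (range P).filter (fun j => l ∣ j + 1 ∧ ((j + 1) / l).Coprime l ∧ Squarefree ((j + 1) / l)) with hS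
  have e1 : ∑ j ∈ S, 1 / ((((j + 1) / l).totient : ℝ) *
      (((j + 1) / l / Nat.gcd ((j + 1) / l) n).totient : ℝ)) = ∑ m ∈ S.image (fun j => (j + 1) / l), F m := by
    rw [sum_image]
    intro j hj j' hj' hjj
    have hd1 : l ∣ j + 1 := (mem_filter.1 hj).2.1
    have hd2 : l ∣ j' + 1 := (mem_filter.1 hj').2.1
    have hjj' : (j + 1) / l = (j' + 1) / l := hjj
    have k1 := Nat.div_mul_cancel hd1
    have k2 := Nat.div_mul_cancel hd2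
    rw [hjj'] at k1
    omega
  rw [e1]
  have e2 : ∑ m ∈ S.image (fun j => (j + 1) / l), F m ≤
      ∑ m ∈ (Icc 1 P).filter (fun m => m.Coprime l ∧ Squarefree m), F m := by
    apply sum_le_sum_of_subset_of_nonneg
    · intro m hmem
      rw [mem_image] at hmem
      obtain ⟨j, hj, rfl⟩ := hmem
      obtain ⟨hj1, hj2, hj3, hj4⟩ := mem_filter.1 hj
      rw [mem_range] at hj1
      rw [mem_filter, mem_Icc]
      refine ⟨⟨?_, ?_⟩, hj3, hj4⟩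
      · exact Nat.div_pos (Nat.le_of_dvd (by omega) hj2) (by omega)
      · exact (Nat.div_le_self _ _).trans (by omega)
    · intro m _ _
      rw [hF]
      positivity
  have e3 := hm l n P hl0 hn
  have e4 := gcd_pr l n hl0 hn
  have e5 : 0 ≤ 4 * ((Nat.gcd l n : ℝ) / (Nat.gcd l n).totient) := by positivity
  calc 4 * ((Nat.gcd l n : ℝ) / (Nat.gcd l n).totient) * ∑ m ∈ S.image (fun j => (j + 1) / l), F m
      ≤ 4 * ((Nat.gcd l n : ℝ) / (Nat.gcd l n).totient) * (C * pr l n) :=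
        mul_le_mul_of_nonneg_left (e2.trans e3) e5
    _ = 4 * C * (((Nat.gcd l n : ℝ) / (Nat.gcd l n).totient) * pr l n) := by ring
    _ = 4 * C * ((n : ℝ) / n.totient) := by rw [e4]

/-- Group the pairs `(χ₁, χ₂)` by their classes (`cls_mem_prims`), and `w_sum`. -/
theorem w_pair : ∃ C : ℝ, 1 ≤ C ∧ ∀ (P n : ℕ) (f g : CH → ℝ), 1 ≤ P → 1 ≤ n → (∀ x, 0 ≤ f x) → (∀ x, 0 ≤ g x) →
    ∑ j ∈ range P, (((j + 1).totient : ℝ) ^ 2)⁻¹ *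
      ∑ χ₁ : DirichletCharacter ℂ (j + 1), ∑ χ₂ : DirichletCharacter ℂ (j + 1),
        ‖gs χ₁⁻¹ 1‖ * ‖gs χ₂⁻¹ 1‖ * ‖gs (χ₁ * χ₂) (-(n : ℤ))‖ * (f (cls χ₁) * g (cls χ₂)) ≤
      C * ((n : ℝ) / n.totient) * (∑ x ∈ prims P, f x) * ∑ x ∈ prims P, g x := by
  classical
  obtain ⟨C, hC, hw⟩ := w_sum
  refine ⟨C, hC, ?_⟩
  intro P n f g hP hn hf hg
  have key : ∀ j ∈ range P,
      (((j + 1).totient : ℝ) ^ 2)⁻¹ *
      ∑ χ₁ : DirichletCharacter ℂ (j + 1), ∑ χ₂ : DirichletCharacter ℂ (j + 1),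
        ‖gs χ₁⁻¹ 1‖ * ‖gs χ₂⁻¹ 1‖ * ‖gs (χ₁ * χ₂) (-(n : ℤ))‖ * (f (cls χ₁) * g (cls χ₂)) =
      ∑ x₁ ∈ prims P, ∑ x₂ ∈ prims P, (f x₁ * g x₂) * ((((j + 1).totient : ℝ) ^ 2)⁻¹ *
        ∑ χ₁ ∈ (univ : Finset (DirichletCharacter ℂ (j + 1))).filter (fun χ => cls χ = x₁),
          ∑ χ₂ ∈ (univ : Finset (DirichletCharacter ℂ (j + 1))).filter (fun χ => cls χ = x₂),
            ‖gs χ₁⁻¹ 1‖ * ‖gs χ₂⁻¹ 1‖ * ‖gs (χ₁ * χ₂) (-(n : ℤ))‖) := by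
    intro j hj
    have hjP : j + 1 ≤ P := by
      rw [mem_range] at hj
      omega
    have hmaps : ∀ χ ∈ (univ : Finset (DirichletCharacter ℂ (j + 1))), cls χ ∈ prims P :=
      fun χ _ => cls_mem_prims P (j + 1) hjP χ
    rw [← sum_fiberwise_of_maps_to hmaps, mul_sum]
    refine sum_congr rfl fun x₁ _ => ?_
    have e1 : ∀ χ₁ ∈ (univ : Finset (DirichletCharacter ℂ (j + 1))).filter (fun χ => cls χ = x₁),
        ∑ χ₂ : DirichletCharacter ℂ (j + 1),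
          ‖gs χ₁⁻¹ 1‖ * ‖gs χ₂⁻¹ 1‖ * ‖gs (χ₁ * χ₂) (-(n : ℤ))‖ * (f (cls χ₁) * g (cls χ₂)) =
        ∑ x₂ ∈ prims P, (f x₁ * g x₂) *
          ∑ χ₂ ∈ (univ : Finset (DirichletCharacter ℂ (j + 1))).filter (fun χ => cls χ = x₂),
            ‖gs χ₁⁻¹ 1‖ * ‖gs χ₂⁻¹ 1‖ * ‖gs (χ₁ * χ₂) (-(n : ℤ))‖ := by
      intro χ₁ hχ₁
      have hc1 : cls χ₁ = x₁ := (mem_filter.1 hχ₁).2
      rw [← sum_fiberwise_of_maps_to hmaps]
      refine sum_congr rfl fun x₂ _ => ?_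
      rw [mul_sum]
      refine sum_congr rfl fun χ₂ hχ₂ => ?_
      have hc2 : cls χ₂ = x₂ := (mem_filter.1 hχ₂).2
      rw [hc1, hc2]
      ring
    rw [sum_congr rfl e1, sum_comm, mul_sum]
    refine sum_congr rfl fun x₂ _ => ?_
    rw [← mul_sum]
    ring
  rw [sum_congr rfl key, sum_comm]
  have e2 : ∀ x₁ ∈ prims P, ∑ j ∈ range P, ∑ x₂ ∈ prims P, (f x₁ * g x₂) * ((((j + 1).totient : ℝ) ^ 2)⁻¹ *
        ∑ χ₁ ∈ (univ : Finset (DirichletCharacter ℂ (j + 1))).filter (fun χ => cls χ = x₁),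
          ∑ χ₂ ∈ (univ : Finset (DirichletCharacter ℂ (j + 1))).filter (fun χ => cls χ = x₂),
            ‖gs χ₁⁻¹ 1‖ * ‖gs χ₂⁻¹ 1‖ * ‖gs (χ₁ * χ₂) (-(n : ℤ))‖) ≤
      ∑ x₂ ∈ prims P, (f x₁ * g x₂) * (C * ((n : ℝ) / n.totient)) := by
    intro x₁ hx₁
    rw [sum_comm]
    refine sum_le_sum fun x₂ hx₂ => ?_
    rw [← mul_sum]
    refine mul_le_mul_of_nonneg_left ?_ (mul_nonneg (hf x₁) (hg x₂))
    have hz : ∀ x ∈ prims P, x.1 ≠ 0 := by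
      intro x hx
      unfold prims at hx
      rw [mem_sigma, mem_Icc] at hx
      omega
    exact hw P n x₁ x₂ hn (hz x₁ hx₁) (hz x₂ hx₂)
  refine (sum_le_sum e2).trans (le_of_eq ?_)
  rw [mul_assoc, sum_mul_sum, mul_sum]
  refine sum_congr rfl fun x₁ _ => ?_
  rw [mul_sum]
  refine sum_congr rfl fun x₂ _ => ?_
  ring

end Pool.Agent.Lib.MP_629a14_nt.Lf
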