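import Mathlib

/-! Sums of multiplicative functions for the sum over moduli. -/

set_option autoImplicit false

namespace Pool.Agent.Lib.MP_629a14_nt.Lf

open Finset

private theorem WsumA_odd (m : ℕ) : ¬ 2 ∣ m → ¬ 3 ∣ m → m ^ 3 ≤ m.totient ^ 4 := by
  induction m using Nat.recOnPosPrimePosCoprime with
  | zero => intro h; simp at h
  | one => intro _ _; simp
  | prime_pow p n hp hn =>
    intro h2 h3
    have hp5 : 5 ≤ p := by
      have hp2 := hp.two_le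
      have h2' : p ≠ 2 := by
        rintro rfl
        exact h2 (dvd_pow_self 2 hn.ne')
      have h3' : p ≠ 3 := by
        rintro rfl
        exact h3 (dvd_pow_self 3 hn.ne')
      have h4' : p ≠ 4 := by
        rintro rfl
        exact absurd hp (by norm_num)
      omega
    obtain ⟨q, rfl⟩ : ∃ q, p = q + 5 := ⟨p - 5, by omega⟩
    obtain ⟨a, rfl⟩ : ∃ a, n = a + 1 := ⟨n - 1, by omega⟩
    rw [Nat.totient_prime_pow_succ hp]
    have e1 : q + 5 - 1 = q + 4 := rfl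
    rw [e1]
    have k1 : (q + 5) ^ 3 ≤ (q + 4) ^ 4 := by nlinarith [Nat.zero_le (q ^ 4), Nat.zero_le (q ^ 3), Nat.zero_le (q ^ 2)]
    have k2 : ((q + 5) ^ a) ^ 3 ≤ ((q + 5) ^ a) ^ 4 :=
      Nat.pow_le_pow_right (Nat.pos_of_ne_zero (by positivity)) (by norm_num)
    calc ((q + 5) ^ (a + 1)) ^ 3 = ((q + 5) ^ a) ^ 3 * (q + 5) ^ 3 := by ring
      _ ≤ ((q + 5) ^ a) ^ 4 * (q + 4) ^ 4 := Nat.mul_le_mul k2 k1
      _ = ((q + 5) ^ a * (q + 4)) ^ 4 := by ring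
  | coprime a b ha hb hab iha ihb =>
    intro h2 h3
    rw [Nat.totient_mul hab, mul_pow, mul_pow]
    exact Nat.mul_le_mul
      (iha (fun h => h2 (h.mul_right b)) (fun h => h3 (h.mul_right b)))
      (ihb (fun h => h2 (h.mul_left a)) (fun h => h3 (h.mul_left a)))

private theorem WsumA_nat (k : ℕ) : k ^ 3 ≤ 16 * k.totient ^ 4 := by
  rcases Nat.eq_zero_or_pos k with rfl | hk
  · simp
  obtain ⟨a, k1, hk1, rfl⟩ := Nat.exists_eq_pow_mul_and_not_dvd hk.ne' 2 (by norm_num)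
  have hk1' : k1 ≠ 0 := by
    rintro rfl
    simp at hk1
  obtain ⟨b, m, hm, rfl⟩ := Nat.exists_eq_pow_mul_and_not_dvd hk1' 3 (by norm_num)
  have hm2 : ¬ 2 ∣ m := fun h => hk1 (h.mul_left _)
  have c1 : Nat.Coprime (2 ^ a) (3 ^ b * m) :=
    Nat.Coprime.pow_left _ ((Nat.Prime.coprime_iff_not_dvd Nat.prime_two).2 hk1)
  have c2 : Nat.Coprime (3 ^ b) m :=
    Nat.Coprime.pow_left _ ((Nat.Prime.coprime_iff_not_dvd Nat.prime_three).2 hm)
  rw [Nat.totient_mul c1, Nat.totient_mul c2]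
  have h1 := WsumA_odd m hm2 hm
  have h2 : (2 ^ a) ^ 3 ≤ 8 * (Nat.totient (2 ^ a)) ^ 4 := by
    rcases Nat.eq_zero_or_pos a with rfl | ha
    · simp
    · obtain ⟨c, rfl⟩ : ∃ c, a = c + 1 := ⟨a - 1, by omega⟩
      rw [Nat.totient_prime_pow_succ Nat.prime_two]
      have : (2 ^ c) ^ 3 ≤ (2 ^ c) ^ 4 :=
        Nat.pow_le_pow_right (Nat.pos_of_ne_zero (by positivity)) (by norm_num)
      calc (2 ^ (c + 1)) ^ 3 = 8 * (2 ^ c) ^ 3 := by ring
        _ ≤ 8 * (2 ^ c) ^ 4 := Nat.mul_le_mul_left _ this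
        _ = 8 * (2 ^ c * (2 - 1)) ^ 4 := by norm_num
  have h3 : 16 * (3 ^ b) ^ 3 ≤ 27 * (Nat.totient (3 ^ b)) ^ 4 := by
    rcases Nat.eq_zero_or_pos b with rfl | hb
    · simp
    · obtain ⟨c, rfl⟩ : ∃ c, b = c + 1 := ⟨b - 1, by omega⟩
      rw [Nat.totient_prime_pow_succ Nat.prime_three]
      have : (3 ^ c) ^ 3 ≤ (3 ^ c) ^ 4 :=
        Nat.pow_le_pow_right (Nat.pos_of_ne_zero (by positivity)) (by norm_num)
      calc 16 * (3 ^ (c + 1)) ^ 3 = 432 * (3 ^ c) ^ 3 := by ring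
        _ ≤ 432 * (3 ^ c) ^ 4 := Nat.mul_le_mul_left _ this
        _ = 27 * (3 ^ c * (3 - 1)) ^ 4 := by
          norm_num
          ring
  have h4 : (2 ^ a) ^ 3 * (16 * (3 ^ b) ^ 3) * m ^ 3 ≤
      (8 * (Nat.totient (2 ^ a)) ^ 4) * (27 * (Nat.totient (3 ^ b)) ^ 4) * m.totient ^ 4 :=
    Nat.mul_le_mul (Nat.mul_le_mul h2 h3) h1
  have e1 : (2 ^ a) ^ 3 * (16 * (3 ^ b) ^ 3) * m ^ 3 = 16 * (2 ^ a * (3 ^ b * m)) ^ 3 := by ring
  have e2 : (8 * (Nat.totient (2 ^ a)) ^ 4) * (27 * (Nat.totient (3 ^ b)) ^ 4) * m.totient ^ 4 =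
      216 * (Nat.totient (2 ^ a) * (Nat.totient (3 ^ b) * m.totient)) ^ 4 := by ring
  rw [e1, e2] at h4
  omega

/-- `φ(k) ≥ k^{3/4}/2`: multiplicativity; `p^{a-1}(p-1) ≥ p^{3a/4}` except for `p = 2` (factor `2^{-3/4} ≥ .59`) and
`p = 3` (factor `2·3^{-3/4} ≥ .87`) with `a = 1` (and `p = 2`, `a = 2, 3`: better). -/
theorem tot_ge (k : ℕ) : (k : ℝ) ^ (3 / 4 : ℝ) / 2 ≤ (k.totient : ℝ) := by
  have h := WsumA_nat k
  have hR : (k : ℝ) ^ 3 ≤ 16 * (k.totient : ℝ) ^ 4 := by exact_mod_cast h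
  have hk0 : (0 : ℝ) ≤ k := Nat.cast_nonneg k
  have h4 : ((k : ℝ) ^ (3 / 4 : ℝ)) ^ 4 = (k : ℝ) ^ 3 := by
    rw [← Real.rpow_natCast ((k : ℝ) ^ (3 / 4 : ℝ)) 4, ← Real.rpow_mul hk0,
      ← Real.rpow_natCast (k : ℝ) 3]
    norm_num
  have h5 : ((k : ℝ) ^ (3 / 4 : ℝ)) ^ 4 ≤ (2 * (k.totient : ℝ)) ^ 4 := by
    rw [h4, mul_pow]
    norm_num
    exact hR
  have h6 : (k : ℝ) ^ (3 / 4 : ℝ) ≤ 2 * (k.totient : ℝ) :=
    le_of_pow_le_pow_left₀ (by norm_num) (by positivity) h5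
  linarith

/-- `∏_{p ∣ n, p ∤ l} p/(p-1)`. -/
noncomputable def pr (l n : ℕ) : ℝ := ∏ p ∈ n.primeFactors.filter (fun p => ¬ p ∣ l), ((p : ℝ) / (p - 1))

/-- Proof. `l/φ(l) = ∏_{p ∣ l} p/(p-1)`; every prime divisor of `l` divides `g = (l,n)` or `l₁ = l/g`, so
`l/φ(l) ≤ (g/φ(g)) (l₁/φ(l₁))`, and `l₁^{3/2}/φ(l₁)² ≤ 4` (`tot_ge`). -/
theorem l_part (l n : ℕ) (hl : 1 ≤ l) :
    (l : ℝ) * Real.sqrt (l / Nat.gcd l n : ℕ) / ((l.totient : ℝ) * ((l / Nat.gcd l n).totient : ℝ)) ≤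
      4 * ((Nat.gcd l n : ℝ) / (Nat.gcd l n).totient) := by
  obtain ⟨g, hg⟩ : ∃ g, g = Nat.gcd l n := ⟨_, rfl⟩
  rw [← hg]
  have hgpos : 0 < g := by
    rw [hg]
    exact Nat.gcd_pos_of_pos_left _ hl
  obtain ⟨l₁, hl₁⟩ : g ∣ l := by
    rw [hg]
    exact Nat.gcd_dvd_left l n
  have hl₁pos : 0 < l₁ := by
    rcases Nat.eq_zero_or_pos l₁ with h | h
    · rw [h] at hl₁
      omega
    · exact h
  have hq : l / g = l₁ := by
    rw [hl₁]
    exact Nat.mul_div_cancel_left l₁ hgpos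
  rw [hq]
  have hsup : g.totient * l₁.totient ≤ l.totient := by
    rw [hl₁]
    exact Nat.totient_super_multiplicative g l₁
  have hφg : (0 : ℝ) < g.totient := by exact_mod_cast Nat.totient_pos.2 hgpos
  have hφl₁ : (0 : ℝ) < l₁.totient := by exact_mod_cast Nat.totient_pos.2 hl₁pos
  have hφl : (0 : ℝ) < l.totient := by exact_mod_cast Nat.totient_pos.2 hl
  have hsupR : (g.totient : ℝ) * l₁.totient ≤ l.totient := by exact_mod_cast hsup
  have hlR : (l : ℝ) = g * l₁ := by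
    rw [hl₁]
    push_cast
    ring
  have ht := tot_ge l₁
  have hl₁R : (0 : ℝ) ≤ l₁ := Nat.cast_nonneg _
  have hsq : (l₁ : ℝ) * Real.sqrt l₁ ≤ 4 * (l₁.totient : ℝ) ^ 2 := by
    have e1 : (l₁ : ℝ) * Real.sqrt l₁ = ((l₁ : ℝ) ^ (3 / 4 : ℝ)) ^ 2 := by
      rw [← Real.rpow_natCast ((l₁ : ℝ) ^ (3 / 4 : ℝ)) 2, ← Real.rpow_mul hl₁R, Real.sqrt_eq_rpow]
      have hpos : (0 : ℝ) < l₁ := by exact_mod_cast hl₁pos
      nth_rewrite 1 [← Real.rpow_one (l₁ : ℝ)]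
      rw [← Real.rpow_add hpos]
      norm_num
    rw [e1]
    have h0 : 0 ≤ (l₁ : ℝ) ^ (3 / 4 : ℝ) := Real.rpow_nonneg hl₁R _
    nlinarith
  rw [div_le_iff₀ (mul_pos hφl hφl₁)]
  have hgR : (0 : ℝ) < g := by exact_mod_cast hgpos
  calc (l : ℝ) * Real.sqrt l₁ = g * (l₁ * Real.sqrt l₁) := by rw [hlR]; ring
    _ ≤ g * (4 * (l₁.totient : ℝ) ^ 2) := mul_le_mul_of_nonneg_left hsq hgR.le
    _ = 4 * ((g : ℝ) / g.totient) * ((g.totient * l₁.totient) * l₁.totient) := by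
      field_simp
    _ ≤ 4 * ((g : ℝ) / g.totient) * (l.totient * l₁.totient) := by
      apply mul_le_mul_of_nonneg_left _ (by positivity)
      exact mul_le_mul_of_nonneg_right hsupR hφl₁.le

private theorem WsumA_ratio (n : ℕ) (hn : 1 ≤ n) :
    (n : ℝ) / n.totient = ∏ p ∈ n.primeFactors, ((p : ℝ) / (p - 1)) := by
  have h := Nat.totient_eq_mul_prod_factors n
  have hR : (n.totient : ℝ) = n * ∏ p ∈ n.primeFactors, (1 - (p : ℝ)⁻¹) := by
    have := congrArg (fun x : ℚ => (x : ℝ)) h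
    push_cast at this
    exact this
  have hn0 : (n : ℝ) ≠ 0 := by
    have : (0 : ℝ) < n := by exact_mod_cast hn
    exact this.ne'
  have hprod : ∏ p ∈ n.primeFactors, ((p : ℝ) / (p - 1)) =
      (∏ p ∈ n.primeFactors, (1 - (p : ℝ)⁻¹))⁻¹ := by
    rw [← Finset.prod_inv_distrib]
    refine prod_congr rfl fun p hp => ?_
    have hp2 : (2 : ℝ) ≤ p := by exact_mod_cast (Nat.prime_of_mem_primeFactors hp).two_le
    have h1 : (p : ℝ) ≠ 0 := by linarith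
    have h2 : (p : ℝ) - 1 ≠ 0 := by
      intro h
      linarith
    field_simp
  rw [hprod, hR]
  rw [div_mul_eq_div_div, div_self hn0, one_div]

private theorem WsumA_sqf (a : ℕ) (ha : Squarefree a) :
    1 / (a.totient : ℝ) = ∏ p ∈ a.primeFactors, (1 / ((p : ℝ) - 1)) := by
  have ha1 : 1 ≤ a := Nat.pos_of_ne_zero ha.ne_zero
  have h := WsumA_ratio a ha1
  have h2 : (a : ℝ) = ∏ p ∈ a.primeFactors, (p : ℝ) := by
    have := congrArg (fun x : ℕ => (x : ℝ)) (Nat.prod_primeFactors_of_squarefree ha)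
    push_cast at this
    exact this.symm
  have ha0 : (a : ℝ) ≠ 0 := by
    have : (0 : ℝ) < a := by exact_mod_cast ha1
    exact this.ne'
  have h3 : 1 / (a.totient : ℝ) = ((a : ℝ) / a.totient) / a := by
    field_simp
  rw [h3, h]
  rw [h2, ← Finset.prod_div_distrib]
  refine prod_congr rfl fun p hp => ?_
  have hp2 : (2 : ℝ) ≤ p := by exact_mod_cast (Nat.prime_of_mem_primeFactors hp).two_le
  have h1 : (p : ℝ) ≠ 0 := by linarith
  have h2 : (p : ℝ) - 1 ≠ 0 := by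
    intro h
    linarith
  field_simp

/-- Proof. The function `m ↦ μ²(m)/(φ(m) φ(m/(m,n)))` is multiplicative on squarefree `m`; its value at a prime is
`1/(p-1)` if `p ∣ n` and `1/(p-1)²` otherwise. So the sum is at most
`∏_{p ∣ n, p ∤ l} (1 + 1/(p-1)) ∏_{p} (1 + 1/(p-1)²)` (finite products over the primes `≤ X`), and
`∑_p 1/(p-1)²` converges. -/
theorem m_part : ∃ C : ℝ, 1 ≤ C ∧ ∀ l n X : ℕ, 1 ≤ l → 1 ≤ n →
    ∑ m ∈ (Icc 1 X).filter (fun m => m.Coprime l ∧ Squarefree m),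
      1 / ((m.totient : ℝ) * ((m / Nat.gcd m n).totient : ℝ)) ≤ C * pr l n := by
  classical
  have hsum : Summable (fun b : ℕ => 4 / (b : ℝ) ^ (3 / 2 : ℝ)) := by
    have := (Real.summable_one_div_nat_rpow (p := 3 / 2)).2 (by norm_num)
    have h2 := this.mul_left 4
    refine h2.congr fun b => ?_
    ring
  refine ⟨1 + ∑' b : ℕ, 4 / (b : ℝ) ^ (3 / 2 : ℝ), ?_, ?_⟩
  · have : 0 ≤ ∑' b : ℕ, 4 / (b : ℝ) ^ (3 / 2 : ℝ) := tsum_nonneg fun b => by positivity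
    linarith
  intro l n X hl hn
  set S : Finset ℕ := n.primeFactors.filter (fun p => ¬ p ∣ l) with hS
  set M : Finset ℕ := (Icc 1 X).filter (fun m => m.Coprime l ∧ Squarefree m) with hM
  -- the injection
  set F : ℕ → Finset ℕ × ℕ := fun m => ((Nat.gcd m n).primeFactors, m / Nat.gcd m n) with hF
  set G : Finset ℕ × ℕ → ℝ := fun x => (∏ p ∈ x.1, (1 / ((p : ℝ) - 1))) * (1 / (x.2.totient : ℝ) ^ 2)
    with hG
  have hprodnn : ∀ T : Finset ℕ, T ⊆ S → 0 ≤ ∏ p ∈ T, (1 / ((p : ℝ) - 1)) := by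
    intro T hT
    refine prod_nonneg fun p hp => ?_
    have hp' := hT hp
    rw [hS, mem_filter] at hp'
    have hp2 : (2 : ℝ) ≤ p := by exact_mod_cast (Nat.prime_of_mem_primeFactors hp'.1).two_le
    apply div_nonneg zero_le_one
    linarith
  have hmem : ∀ m ∈ M, 1 ≤ m ∧ m ≤ X ∧ m.Coprime l ∧ Squarefree m := by
    intro m hm
    rw [hM, mem_filter, mem_Icc] at hm
    exact ⟨hm.1.1, hm.1.2, hm.2.1, hm.2.2⟩
  have hsplit : ∀ m ∈ M, m = Nat.gcd m n * (m / Nat.gcd m n) := by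
    intro m _
    exact (Nat.mul_div_cancel' (Nat.gcd_dvd_left m n)).symm
  have hcop : ∀ m ∈ M, Nat.Coprime (Nat.gcd m n) (m / Nat.gcd m n) := by
    intro m hm
    have h1 := (hmem m hm).2.2.2
    rw [hsplit m hm] at h1
    exact Nat.coprime_of_squarefree_mul h1
  have hval : ∀ m ∈ M, 1 / ((m.totient : ℝ) * ((m / Nat.gcd m n).totient : ℝ)) = G (F m) := by
    intro m hm
    have h1 : (m.totient : ℝ) = ((Nat.gcd m n).totient : ℝ) * ((m / Nat.gcd m n).totient : ℝ) := by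
      have := Nat.totient_mul (hcop m hm)
      rw [← hsplit m hm] at this
      exact_mod_cast this
    have h2 : Squarefree (Nat.gcd m n) :=
      (hmem m hm).2.2.2.squarefree_of_dvd (Nat.gcd_dvd_left m n)
    rw [h1, hG, hF]
    simp only
    rw [← WsumA_sqf _ h2]
    rw [div_mul_div_comm, one_mul]
    congr 1
    ring
  have hmaps : ∀ m ∈ M, F m ∈ S.powerset ×ˢ Icc 1 X := by
    intro m hm
    obtain ⟨h1, h2, h3, h4⟩ := hmem m hm
    rw [mem_product, mem_powerset, mem_Icc]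
    have hgpos : 0 < Nat.gcd m n := Nat.gcd_pos_of_pos_left _ h1
    refine ⟨?_, ?_, ?_⟩
    · intro p hp
      have hp' : p ∈ (Nat.gcd m n).primeFactors := hp
      have hpp := Nat.prime_of_mem_primeFactors hp'
      have hpd := Nat.dvd_of_mem_primeFactors hp'
      rw [hS, mem_filter]
      refine ⟨?_, ?_⟩
      · rw [Nat.mem_primeFactors]
        exact ⟨hpp, hpd.trans (Nat.gcd_dvd_right m n), by omega⟩
      · intro hpl
        have : p ∣ Nat.gcd m l := Nat.dvd_gcd (hpd.trans (Nat.gcd_dvd_left m n)) hpl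
        rw [h3] at this
        exact hpp.one_lt.ne' (Nat.dvd_one.1 this)
    · exact Nat.div_pos (Nat.le_of_dvd h1 (Nat.gcd_dvd_left m n)) hgpos
    · exact le_trans (Nat.div_le_self _ _) h2
  have hinj : Set.InjOn F M := by
    intro m hm m' hm' hEq
    have hm := mem_coe.1 hm
    have hm' := mem_coe.1 hm'
    have e1 : (Nat.gcd m n).primeFactors = (Nat.gcd m' n).primeFactors := congrArg Prod.fst hEq
    have e2 : m / Nat.gcd m n = m' / Nat.gcd m' n := congrArg Prod.snd hEq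
    have s1 : Squarefree (Nat.gcd m n) :=
      (hmem m hm).2.2.2.squarefree_of_dvd (Nat.gcd_dvd_left m n)
    have s2 : Squarefree (Nat.gcd m' n) :=
      (hmem m' hm').2.2.2.squarefree_of_dvd (Nat.gcd_dvd_left m' n)
    have e3 : Nat.gcd m n = Nat.gcd m' n := by
      rw [← Nat.prod_primeFactors_of_squarefree s1, ← Nat.prod_primeFactors_of_squarefree s2, e1]
    calc m = Nat.gcd m n * (m / Nat.gcd m n) := hsplit m hm
      _ = Nat.gcd m' n * (m' / Nat.gcd m' n) := by rw [e2, e3]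
      _ = m' := (hsplit m' hm').symm
  have hb : ∑ b ∈ Icc 1 X, 1 / (b.totient : ℝ) ^ 2 ≤ 1 + ∑' b : ℕ, 4 / (b : ℝ) ^ (3 / 2 : ℝ) := by
    have h1 : ∑ b ∈ Icc 1 X, 1 / (b.totient : ℝ) ^ 2 ≤ ∑ b ∈ Icc 1 X, 4 / (b : ℝ) ^ (3 / 2 : ℝ) := by
      refine sum_le_sum fun b hb => ?_
      rw [mem_Icc] at hb
      have hbR : (0 : ℝ) < b := by exact_mod_cast hb.1
      have ht := tot_ge b
      have h0 : 0 < (b : ℝ) ^ (3 / 4 : ℝ) := Real.rpow_pos_of_pos hbR _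
      have e1 : (b : ℝ) ^ (3 / 2 : ℝ) = ((b : ℝ) ^ (3 / 4 : ℝ)) ^ 2 := by
        rw [← Real.rpow_natCast ((b : ℝ) ^ (3 / 4 : ℝ)) 2, ← Real.rpow_mul hbR.le]
        norm_num
      rw [e1]
      have hφ : (0 : ℝ) < b.totient := by linarith [half_pos h0]
      rw [div_le_div_iff₀ (by positivity) (by positivity)]
      nlinarith
    have h2 : ∑ b ∈ Icc 1 X, 4 / (b : ℝ) ^ (3 / 2 : ℝ) ≤ ∑' b : ℕ, 4 / (b : ℝ) ^ (3 / 2 : ℝ) :=
      hsum.sum_le_tsum _ fun b _ => by positivity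
    linarith
  have hT : ∑ T ∈ S.powerset, ∏ p ∈ T, (1 / ((p : ℝ) - 1)) = pr l n := by
    rw [← Finset.prod_one_add]
    unfold pr
    rw [hS]
    refine prod_congr rfl fun p hp => ?_
    rw [mem_filter] at hp
    have hp2 : (2 : ℝ) ≤ p := by exact_mod_cast (Nat.prime_of_mem_primeFactors hp.1).two_le
    have h2 : (p : ℝ) - 1 ≠ 0 := by
      intro h
      linarith
    field_simp
    ring
  have hpr0 : 0 ≤ pr l n := by
    rw [← hT]
    exact sum_nonneg fun T hT => hprodnn T (mem_powerset.1 hT)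
  calc ∑ m ∈ M, 1 / ((m.totient : ℝ) * ((m / Nat.gcd m n).totient : ℝ))
      = ∑ m ∈ M, G (F m) := sum_congr rfl hval
    _ = ∑ x ∈ M.image F, G x := (sum_image hinj).symm
    _ ≤ ∑ x ∈ S.powerset ×ˢ Icc 1 X, G x := by
        apply sum_le_sum_of_subset_of_nonneg
        · intro x hx
          obtain ⟨m, hm, rfl⟩ := mem_image.1 hx
          exact hmaps m hm
        · intro x hx _
          rw [mem_product, mem_powerset] at hx
          exact mul_nonneg (hprodnn _ hx.1) (by positivity)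
    _ = (∑ T ∈ S.powerset, ∏ p ∈ T, (1 / ((p : ℝ) - 1))) * ∑ b ∈ Icc 1 X, 1 / (b.totient : ℝ) ^ 2 := by
        rw [sum_mul_sum, sum_product]
    _ ≤ (1 + ∑' b : ℕ, 4 / (b : ℝ) ^ (3 / 2 : ℝ)) * pr l n := by
        rw [hT, mul_comm]
        exact mul_le_mul_of_nonneg_right hb hpr0

/-- `(g/φ(g)) ∏_{p ∣ n, p ∤ l} p/(p-1) = n/φ(n)` for `g = (l, n)`. -/
theorem gcd_pr (l n : ℕ) (hl : 1 ≤ l) (hn : 1 ≤ n) :
    ((Nat.gcd l n : ℝ) / (Nat.gcd l n).totient) * pr l n = (n : ℝ) / n.totient := by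
  classical
  have hg : 1 ≤ Nat.gcd l n := Nat.gcd_pos_of_pos_left _ hl
  rw [WsumA_ratio _ hg, WsumA_ratio n hn]
  unfold pr
  have h1 : (Nat.gcd l n).primeFactors = n.primeFactors.filter (fun p => p ∣ l) := by
    ext p
    rw [mem_filter, Nat.mem_primeFactors, Nat.mem_primeFactors]
    constructor
    · rintro ⟨hp, hd, _⟩
      exact ⟨⟨hp, hd.trans (Nat.gcd_dvd_right l n), by omega⟩, hd.trans (Nat.gcd_dvd_left l n)⟩
    · rintro ⟨⟨hp, hd, _⟩, hl'⟩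
      exact ⟨hp, Nat.dvd_gcd hl' hd, by omega⟩
  rw [h1]
  exact prod_filter_mul_prod_filter_not _ _ _

end Pool.Agent.Lib.MP_629a14_nt.Lf
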